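import Mathlib
import Pool.Agent.Lib.helper60.PNP

/-!
Quantified Boolean formulas with a matrix in conjunctive normal form, minimal falsity and
deficiency.
-/

set_option autoImplicit false

namespace Pool.Agent.MP_925109_lc

open Pool.Agent.Lib.helper60 (encPair)

/-- Value of a quantifier prefix (a list, `true` standing for `∃` and `false` for `∀`; entry `i` is
the quantifier of the variable `x_i`) applied to a property of assignments (lists of bits, entry
`i` being the value of `x_i`). -/
def qtrue : List Bool → (List Bool → Prop) → Prop
  | [], P => P []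
  | true :: q, P => ∃ b, qtrue q (fun v => P (b :: v))
  | false :: q, P => ∀ b, qtrue q (fun v => P (b :: v))

/-- A QCNF formula: the quantifiers of the variables `x_0, …, x_{n-1}` (`true` for `∃`, `false` for
`∀`), and a finite set of clauses, a clause being a finite set of literals `(i, e)`: the variable
`x_i` if `e = true`, its negation if `e = false`. -/
structure QCNF where
  pre : List Bool
  mat : Finset (Finset (ℕ × Bool))
  closed : ∀ C ∈ mat, ∀ l ∈ C, l.1 < pre.length

namespace QCNF

/-- The formula is true. -/
def IsTrue (Φ : QCNF) : Prop :=
  qtrue Φ.pre (fun v => ∀ C ∈ Φ.mat, ∃ l ∈ C, v.getD l.1 false = l.2)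

/-- The formula without the clause `C` (same prefix). -/
def erase (Φ : QCNF) (C : Finset (ℕ × Bool)) : QCNF where
  pre := Φ.pre
  mat := Φ.mat.erase C
  closed := fun D hD => Φ.closed D (Finset.mem_of_mem_erase hD)

/-- Minimal false formulas. -/
def MinimalFalse (Φ : QCNF) : Prop := ¬ Φ.IsTrue ∧ ∀ C ∈ Φ.mat, (Φ.erase C).IsTrue

/-- The existentially quantified variables that occur in the clauses of the set `S`. -/
def exVars (Φ : QCNF) (S : Finset (Finset (ℕ × Bool))) : Finset ℕ :=
  (Finset.range Φ.pre.length).filter
    (fun i => Φ.pre.getD i false = true ∧ ∃ C ∈ S, ∃ e, (i, e) ∈ C)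

/-- The deficiency of the subformula given by the set `S` of clauses. -/
def defOf (Φ : QCNF) (S : Finset (Finset (ℕ × Bool))) : ℤ :=
  (S.card : ℤ) - ((Φ.exVars S).card : ℤ)

/-- The deficiency of the formula. -/
def deficiency (Φ : QCNF) : ℤ := Φ.defOf Φ.mat

/-- Every variable of the prefix occurs in the matrix. -/
def AllOccur (Φ : QCNF) : Prop := ∀ i < Φ.pre.length, ∃ C ∈ Φ.mat, ∃ e, (i, e) ∈ C

/-- Number of clauses minus number of existential variables of the prefix. -/
def prefixDeficiency (Φ : QCNF) : ℤ := (Φ.mat.card : ℤ) - (Φ.pre.count true : ℤ)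

end QCNF

/-- The binary digits of `n`, most significant digit first. -/
def binD (n : ℕ) : List Bool := n.bits.reverse

/-- Code of a clause: a literal `(i, e)` is written `1`, then `1 d` for every binary digit `d` of `i`,
then `0 e`; the clause ends with `0`. -/
def encClauseB (c : List (ℕ × Bool)) : List Bool :=
  c.flatMap (fun l => true :: ((binD l.1).flatMap (fun d => [true, d]) ++ [false, l.2])) ++ [false]

/-- Code of a list of clauses: the codes of the clauses, one after the other. -/
def encB (φ : List (List (ℕ × Bool))) : List Bool := φ.flatMap encClauseB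

/-- The word `w` is a code of `Φ`: it consists of the prefix and of a list of the clauses, each
given by a list of its literals, the variables being numbered in binary. -/
def Codes (w : List Bool) (Φ : QCNF) : Prop :=
  ∃ φ : List (List (ℕ × Bool)), w = encPair (Φ.pre, encB φ) ∧
    Φ.mat = (φ.map List.toFinset).toFinset

end Pool.Agent.MP_925109_lc
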