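import Mathlib
import Pool.Agent.MP_925109_lc.Statement

/-!
Deficiency of families of clauses, matchings, autarkies, certificates.
-/

set_option autoImplicit false

namespace Pool.Agent.MP_925109_lc

/-- literals: variable and sign -/
abbrev Lit := ℕ × Bool

/-- families of clauses indexed by natural numbers -/
abbrev Fam := ℕ → Finset Lit

/-- the variable `x` occurs in the clause with index `c` -/
def occ (F : Fam) (c x : ℕ) : Prop := ∃ e : Bool, (x, e) ∈ F c

instance (F : Fam) (c x : ℕ) : Decidable (occ F c x) := by unfold occ; infer_instance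

/-- the variables in `V` that occur in the clauses of `A` -/
def vr (F : Fam) (V A : Finset ℕ) : Finset ℕ := V.filter (fun x => ∃ c ∈ A, occ F c x)

/-- deficiency of `A`, only the variables in `V` being counted -/
def df (F : Fam) (V A : Finset ℕ) : ℤ := (A.card : ℤ) - ((vr F V A).card : ℤ)

/-- maximal deficiency at most `m` -/
def NuLe (F : Fam) (V A : Finset ℕ) (m : ℤ) : Prop := ∀ B ⊆ A, df F V B ≤ m

/-- every proper subset has smaller deficiency -/
def Crit (F : Fam) (V A : Finset ℕ) : Prop := ∀ B ⊂ A, df F V B < df F V A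

/-- `B` is the smallest subset of `A` of maximal deficiency -/
def IsCore (F : Fam) (V A B : Finset ℕ) : Prop :=
  B ⊆ A ∧ (∀ D ⊆ A, df F V D ≤ df F V B) ∧ (∀ D ⊆ A, df F V D = df F V B → B ⊆ D)

/-- some assignment of the variables in `V` satisfies all clauses in `A` -/
def SatOn (F : Fam) (V A : Finset ℕ) : Prop :=
  ∃ α : ℕ → Bool, ∀ c ∈ A, ∃ x ∈ V, (x, α x) ∈ F c

/-- there is no autarky: for every partial assignment `α` of a nonempty set `W ⊆ V` of variables
some clause contains a variable of `W` without being satisfied -/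
def IsLean (F : Fam) (V A : Finset ℕ) : Prop :=
  ∀ W ⊆ V, W.Nonempty → ∀ α : ℕ → Bool,
    ∃ c ∈ A, (∃ x ∈ W, occ F c x) ∧ ∀ x ∈ W, (x, α x) ∉ F c

/-- `B` is obtained from `A` by removing an autarky, and is lean -/
def IsKernel (F : Fam) (V A B : Finset ℕ) : Prop :=
  B ⊆ A ∧ SatOn F (V \ vr F V B) (A \ B) ∧ IsLean F (vr F V B) B

/-- truth of the subformula with clauses `A` -/
def TruthF (q : List Bool) (F : Fam) (A : Finset ℕ) : Prop :=
  qtrue q (fun v => ∀ c ∈ A, ∃ l ∈ F c, v.getD l.1 false = l.2)

/-- existential variables at positions at least `i` -/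
def exFrom (q : List Bool) (i : ℕ) : Finset ℕ :=
  (Finset.range q.length).filter (fun x => i ≤ x ∧ q.getD x false = true)

/-- existential variables -/
def exAll (q : List Bool) : Finset ℕ :=
  (Finset.range q.length).filter (fun x => q.getD x false = true)

/-- the game: `m` variables `i, i+1, …` remain, the clauses in `A` are not yet satisfied -/
def Win (q : List Bool) (F : Fam) : ℕ → ℕ → Finset ℕ → Prop
  | 0, _, A => A = ∅
  | m + 1, i, A =>
    if q.getD i false = true then ∃ b : Bool, Win q F m (i + 1) (A.filter (fun c => (i, b) ∉ F c))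
    else ∀ b : Bool, Win q F m (i + 1) (A.filter (fun c => (i, b) ∉ F c))

/-- longest common prefix -/
def lcp : List Bool → List Bool → List Bool
  | a :: l, b :: m => if a = b then a :: lcp l m else []
  | _, _ => []

/-- the clause `c` contains a literal at a label of the world `b` with its value in `b` -/
def LabSat (F : Fam) (k : ℕ) (lab : List Bool → ℕ) (b : List Bool) (c : ℕ) : Prop :=
  ∃ j < k, (lab (b.take j), b.getD j false) ∈ F c

/-- labels are universal variables or dummies `≥ n` -/
def LabOK (q : List Bool) (lab : List Bool → ℕ) : Prop :=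
  ∀ s, lab s < q.length → q.getD (lab s) false = false

/-- assignments in the worlds agree before the worlds separate -/
def Agree (V : Finset ℕ) (k : ℕ) (lab : List Bool → ℕ) (α : List Bool → ℕ → Bool) : Prop :=
  ∀ b b' : List Bool, b.length = k → b'.length = k → b ≠ b' →
    ∀ x ∈ V, x < lab (lcp b b') → α b x = α b' x

/-- A certificate of truth for the clauses `A` with existential variables `V`: labels, and in each
world `b` a bijection between `V` and all but few clauses of `A` (given as `M b : V → A`) and an
assignment `α b`. -/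
structure Cert (q : List Bool) (F : Fam) (A V : Finset ℕ) (k : ℕ) (lab : List Bool → ℕ)
    (M : List Bool → ℕ → ℕ) (α : List Bool → ℕ → Bool) : Prop where
  lab_ok : LabOK q lab
  inj : ∀ b, b.length = k → Set.InjOn (M b) V
  mem : ∀ b, b.length = k → ∀ x ∈ V, M b x ∈ A ∧ (x, α b x) ∈ F (M b x)
  exc : ∀ b, b.length = k → ∀ c ∈ A, (∃ x ∈ V, (x, α b x) ∈ F c) ∨ LabSat F k lab b c
  agree : Agree V k lab α

end Pool.Agent.MP_925109_lc
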