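import Mathlib
import Pool.Agent.MP_925109_lc.Defs

/-!
The algorithms, on lists.
-/

set_option autoImplicit false

namespace Pool.Agent.MP_925109_lc

/-- the family of clauses given by a list of lists of literals -/
def fam (φ : List (List Lit)) : Fam := fun c => (φ.getD c []).toFinset

/-! ### matchings by the auction algorithm -/

def occL (φ : List (List Lit)) (c x : ℕ) : Bool := (φ.getD c []).any (fun l => decide (l.1 = x))

/-- variables in `V` occurring in the clauses `X` -/
def vsL (φ : List (List Lit)) (V X : List ℕ) : List ℕ := V.filter (fun x => X.any (fun c => occL φ c x))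

/-- `X` without the elements of `R` -/
def minusL (X R : List ℕ) : List ℕ := X.filter (fun c => decide (c ∉ R))

/-- a variable, its price, and its owner plus one (`0` if it has no owner) -/
abbrev Ent := ℕ × ℕ × ℕ

/-- the cheapest variable of the clause `c` (a dummy of price `N` if all prices are `≥ N`) -/
def best (φ : List (List Lit)) (N : ℕ) (s : List Ent) (c : ℕ) : Ent :=
  (s.filter (fun e => occL φ c e.1)).foldl (fun a e => if e.2.1 < a.2.1 then e else a) (0, N, 0)

def unowned (s : List Ent) (c : ℕ) : Bool := s.all (fun e => decide (e.2.2 ≠ c + 1))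

def bidders (φ : List (List Lit)) (N : ℕ) (E : List ℕ) (s : List Ent) : List ℕ :=
  E.filter (fun c => unowned s c && decide ((best φ N s c).2.1 < N))

/-- one step: the first clause without a variable that can pay buys its cheapest variable -/
def aucStep (φ : List (List Lit)) (N : ℕ) (E : List ℕ) (s : List Ent) : List Ent :=
  match bidders φ N E s with
  | [] => s
  | c :: _ => s.map (fun e => if e.1 = (best φ N s c).1 then (e.1, e.2.1 + 1, c + 1) else e)

def auc (φ : List (List Lit)) (E V : List ℕ) : List Ent :=
  (aucStep φ (V.length + 1) E)^[V.length * (V.length + 1) + 1] (V.map (fun x => (x, 0, 0)))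

/-- clauses left without a variable -/
def unm (φ : List (List Lit)) (E V : List ℕ) : List ℕ := E.filter (fun c => unowned (auc φ E V) c)

/-- maximal deficiency -/
def nuL (φ : List (List Lit)) (E V : List ℕ) : ℕ := (unm φ E V).length

def cloStep (φ : List (List Lit)) (E : List ℕ) (s : List Ent) (Z : List ℕ) : List ℕ :=
  E.filter (fun c => decide (c ∈ Z) ||
    s.any (fun e => decide (e.2.2 = c + 1) && Z.any (fun d => occL φ d e.1)))

/-- smallest subset of maximal deficiency -/
def coreL (φ : List (List Lit)) (E V : List ℕ) : List ℕ :=
  (cloStep φ E (auc φ E V))^[E.length] (unm φ E V)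

/-! ### satisfiability and lean kernel for bounded deficiency -/

/-- all lists of length at most `k` with entries in `l` -/
def tup {β : Type} : ℕ → List β → List (List β)
  | 0, _ => [[]]
  | k + 1, l => [] :: l.flatMap (fun x => (tup k l).map (fun t => x :: t))

def litsL (V : List ℕ) : List Lit := V.flatMap (fun x => [(x, true), (x, false)])

/-- the set of literals contains no complementary pair -/
def consL (a : List Lit) : Bool := a.all (fun l => decide ((l.1, !l.2) ∉ a))

/-- satisfiability for families of maximal deficiency at most `k` -/
def satL (k : ℕ) (φ : List (List Lit)) (E V : List ℕ) : Bool :=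
  (tup k (litsL V)).any (fun a => consL a && decide (nuL φ
    (E.filter (fun c => a.all (fun l => decide (l ∉ φ.getD c []))))
    (V.filter (fun x => a.all (fun l => decide (l.1 ≠ x)))) = 0))

/-- removing the clauses outside `G` is an autarky reduction -/
def validL (k : ℕ) (φ : List (List Lit)) (E V G : List ℕ) : Bool :=
  satL k φ (minusL E G) (minusL V (vsL φ V G))

/-- lean kernel -/
def leanL (k : ℕ) (φ : List (List Lit)) (E V : List ℕ) : List ℕ :=
  (((tup k E).map (fun R => coreL φ (minusL E R) V)).filter (fun G => validL k φ E V G)).foldl
    (fun a G => if G.length < a.length then G else a) E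

/-! ### decomposition -/

/-- the connected component of the first clause -/
def comp (φ : List (List Lit)) (E V : List ℕ) : List ℕ :=
  (fun Z : List ℕ => E.filter (fun c => decide (c ∈ Z) ||
    Z.any (fun d => V.any (fun x => occL φ c x && occL φ d x))))^[E.length] (E.take 1)

/-- nodes of the decomposition: clauses and variables -/
abbrev Nd := List ℕ × List ℕ

/-- The splitting of a node: a list of at most one variable, and a set of clauses and a set of
variables forming the first part. -/
def split (k : ℕ) (φ : List (List Lit)) (t : Nd) : List ℕ × List ℕ × List ℕ :=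
  if (comp φ t.1 t.2).length < t.1.length then
    ([], comp φ t.1 t.2, vsL φ t.2 (comp φ t.1 t.2))
  else
    match t.2.filter (fun v => decide ((comp φ t.1 (minusL t.2 [v])).length < t.1.length)) with
    | v :: _ => ([v], comp φ t.1 (minusL t.2 [v]), vsL φ (minusL t.2 [v]) (comp φ t.1 (minusL t.2 [v])))
    | [] =>
      match (litsL t.2).filter (fun l => decide (nuL φ
          (t.1.filter (fun c => decide (l ∉ φ.getD c []))) (minusL t.2 [l.1]) + 1 ≤
            t.1.length - t.2.length)) with
      | l :: _ => ([l.1], leanL k φ (t.1.filter (fun c => decide (l ∉ φ.getD c []))) (minusL t.2 [l.1]),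
          vsL φ (minusL t.2 [l.1])
            (leanL k φ (t.1.filter (fun c => decide (l ∉ φ.getD c []))) (minusL t.2 [l.1])))
      | [] => ([], t.1, t.2)

/-- first part -/
def ch1 (t : Nd) (sp : List ℕ × List ℕ × List ℕ) : Nd :=
  (t.1.filter (fun c => decide (c ∈ sp.2.1)),
    (minusL t.2 sp.1).filter (fun x => decide (x ∈ sp.2.2)))

/-- second part -/
def ch2 (t : Nd) (sp : List ℕ × List ℕ × List ℕ) : Nd :=
  (t.1.filter (fun c => decide (c ∉ sp.2.1)),
    (minusL t.2 sp.1).filter (fun x => decide (x ∉ sp.2.2)))

/-! ### worlds, labels, patterns -/

/-- all lists of bits of length `k` -/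
def worlds : ℕ → List (List Bool)
  | 0 => [[]]
  | k + 1 => (worlds k).flatMap (fun b => [true :: b, false :: b])

/-- all lists of bits of length less than `k` -/
def prefs (k : ℕ) : List (List Bool) := (List.range k).flatMap worlds

/-- all maps with the given list of arguments and values in the list `U`, as association lists -/
def maps {α β : Type} : List α → List β → List (List (α × β))
  | [], _ => [[]]
  | a :: as, U => U.flatMap (fun u => (maps as U).map (fun L => (a, u) :: L))

/-- value of an association list -/
def look {β : Type} (d : β) (L : List (List Bool × β)) (s : List Bool) : β :=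
  ((L.filter (fun p => decide (p.1 = s))).map Prod.snd).headD d

/-- world, clause, literal -/
abbrev Tri := List Bool × ℕ × Lit

abbrev Pat := List Tri

/-- exactly one of the clause and the variable belongs to the node -/
def cross (t : Nd) (z : Tri) : Bool := xor (decide (z.2.1 ∈ t.1)) (decide (z.2.2.1 ∈ t.2))

def labSatL (n k : ℕ) (φ : List (List Lit)) (L : List (List Bool × ℕ)) (b : List Bool) (c : ℕ) :
    Bool :=
  (List.range k).any (fun j => decide ((look n L (b.take j), b.getD j false) ∈ φ.getD c []))

/-- the values of the variable `x` in the worlds given by `e` respect the agreement condition -/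
def agreeL (n k : ℕ) (L : List (List Bool × ℕ)) (x : ℕ) (e : List (List Bool × Bool)) : Bool :=
  (worlds k).all (fun b => (worlds k).all (fun b' => decide (b = b') ||
    !(decide (x < look n L (lcp b b'))) || decide (look true e b = look true e b')))

def varOK (n k : ℕ) (L : List (List Bool × ℕ)) (x : ℕ) (p : Pat) : Bool :=
  (maps (worlds k) [true, false]).any (fun e => agreeL n k L x e &&
    p.all (fun z => decide (z.2.2.2 = look true e z.1)))

def leafOK (n k : ℕ) (φ : List (List Lit)) (L : List (List Bool × ℕ)) (t : Nd) (p : Pat) : Bool :=
  match t.1 with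
  | [] => decide (p = [])
  | c :: _ => p.all (fun z => decide (z.2.1 = c)) &&
      (worlds k).all (fun b => labSatL n k φ L b c || p.any (fun z => decide (z.1 = b)))

def iffB (a b : Bool) : Bool := decide (a = b)

def joinOK (n k : ℕ) (L : List (List Bool × ℕ)) (t : Nd) (W : List ℕ) (t1 t2 : Nd)
    (p p1 p2 : Pat) : Bool :=
  (p ++ p1 ++ p2).all (fun z => iffB (decide (z ∈ p)) (cross t z) &&
    iffB (decide (z ∈ p1)) (cross t1 z) && iffB (decide (z ∈ p2)) (cross t2 z)) &&
  W.all (fun w => varOK n k L w ((p ++ p1 ++ p2).filter (fun z => decide (z.2.2.1 = w))))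

/-- recursion over a binary tree of nodes -/
def trec {σ τ : Type} (leaf : σ → Bool) (ch : σ → σ × σ) (base : σ → τ) (comb : σ → τ → τ → τ)
    (z : τ) : ℕ → σ → τ
  | 0, _ => z
  | f + 1, s => bif leaf s then base s else
      comb s (trec leaf ch base comb z f (ch s).1) (trec leaf ch base comb z f (ch s).2)

def isLeaf (t : Nd) : Bool := decide (t.1.length + t.2.length ≤ 1)

/-- realisable patterns of a node, among the patterns in `U` -/
def pats (n k : ℕ) (φ : List (List Lit)) (L : List (List Bool × ℕ)) (U : List Pat) (f : ℕ) (t : Nd) :
    List Pat :=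
  trec isLeaf (fun t => (ch1 t (split k φ t), ch2 t (split k φ t)))
    (fun t => U.filter (fun p => leafOK n k φ L t p))
    (fun t D1 D2 => U.filter (fun p => D1.any (fun p1 => D2.any (fun p2 =>
      joinOK n k L t (split k φ t).1 (ch1 t (split k φ t)) (ch2 t (split k φ t)) p p1 p2))))
    [] f t

/-- all triples -/
def tris (k : ℕ) (φ : List (List Lit)) (t : Nd) : List Tri :=
  (worlds k).flatMap (fun b => t.1.flatMap (fun c =>
    ((φ.getD c []).filter (fun l => decide (l.1 ∈ t.2))).map (fun l => (b, c, l))))

/-- all patterns with at most `m` triples -/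
def patU (m : ℕ) (T : List Tri) : List Pat := (tup m T).map (fun a => T.filter (fun z => decide (z ∈ a)))

/-- bound for the sizes of patterns -/
def pbound (k : ℕ) : ℕ := 2 ^ k * (4 * k * k + 2 * k + 1)

def exL (q : List Bool) : List ℕ := (List.range q.length).filter (fun x => q.getD x false)

def univL (q : List Bool) : List ℕ := (List.range q.length).filter (fun x => !(q.getD x false))

/-- root of the decomposition -/
def rootL (k : ℕ) (q : List Bool) (φ : List (List Lit)) (E : List ℕ) : Nd :=
  (leanL k φ E (exL q), vsL φ (exL q) (leanL k φ E (exL q)))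

/-- truth of formulas of maximal deficiency at most `k` -/
def truthL (k : ℕ) (q : List Bool) (φ : List (List Lit)) (E : List ℕ) : Bool :=
  (maps (prefs k) (q.length :: univL q)).any (fun L => decide (([] : Pat) ∈
    pats q.length k φ L (patU (pbound k) (tris k φ (rootL k q φ E)))
      ((rootL k q φ E).1.length + (rootL k q φ E).2.length + 1) (rootL k q φ E)))

/-- recognition of minimal false formulas of deficiency `k`, given by lists of pairwise different
clauses -/
def mfL (k : ℕ) (q : List Bool) (φ : List (List Lit)) : Bool :=
  decide (nuL φ (List.range φ.length) (exL q) ≤ k) &&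
  decide (φ.length = (vsL φ (exL q) (List.range φ.length)).length + k) &&
  !(truthL k q φ (List.range φ.length)) &&
  (List.range φ.length).all (fun c => truthL k q φ (minusL (List.range φ.length) [c]))

/-- the two clauses have the same literals -/
def sameL (c d : List Lit) : Bool := c.all (fun l => decide (l ∈ d)) && d.all (fun l => decide (l ∈ c))

/-- removal of repeated clauses -/
def dedupS (φ : List (List Lit)) : List (List Lit) :=
  φ.foldl (fun acc c => bif acc.any (fun d => sameL c d) then acc else c :: acc) []

/-- all literals use variables of the prefix -/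
def wfL (q : List Bool) (φ : List (List Lit)) : Bool :=
  φ.all (fun c => c.all (fun l => decide (l.1 < q.length)))

end Pool.Agent.MP_925109_lc
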