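import Mathlib
import Pool.Agent.MP_925109_lc.Defs

/-!
Calculus of deficiencies; the core.
-/

set_option autoImplicit false

namespace Pool.Agent.MP_925109_lc

lemma vr_subset (F : Fam) (V A : Finset ℕ) : vr F V A ⊆ V := Finset.filter_subset _ _

lemma mem_vr {F : Fam} {V A : Finset ℕ} {x : ℕ} : x ∈ vr F V A ↔ x ∈ V ∧ ∃ c ∈ A, occ F c x := by
  simp [vr]

lemma vr_mono {F : Fam} {V A B : Finset ℕ} (h : A ⊆ B) : vr F V A ⊆ vr F V B := by
  intro x hx
  rw [mem_vr] at hx ⊢
  exact ⟨hx.1, hx.2.imp fun c hc => ⟨h hc.1, hc.2⟩⟩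

lemma vr_union (F : Fam) (V A B : Finset ℕ) : vr F V (A ∪ B) = vr F V A ∪ vr F V B := by
  ext x
  simp only [mem_vr, Finset.mem_union]
  constructor
  · rintro ⟨hx, c, hc | hc, ho⟩
    · exact Or.inl ⟨hx, c, hc, ho⟩
    · exact Or.inr ⟨hx, c, hc, ho⟩
  · rintro (⟨hx, c, hc, ho⟩ | ⟨hx, c, hc, ho⟩)
    · exact ⟨hx, c, Or.inl hc, ho⟩
    · exact ⟨hx, c, Or.inr hc, ho⟩

@[simp] lemma vr_empty (F : Fam) (V : Finset ℕ) : vr F V ∅ = ∅ := by
  ext x
  simp [mem_vr]

@[simp] lemma df_empty (F : Fam) (V : Finset ℕ) : df F V ∅ = 0 := by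
  simp [df]

/-- modularity with the correction term -/
theorem df_add (F : Fam) (V A B : Finset ℕ) :
    df F V (A ∪ B) + df F V (A ∩ B) =
      df F V A + df F V B + (((vr F V A ∩ vr F V B) \ vr F V (A ∩ B)).card : ℤ) := by
  have h1 := Finset.card_union_add_card_inter A B
  have h2 := Finset.card_union_add_card_inter (vr F V A) (vr F V B)
  have h3 : vr F V (A ∩ B) ⊆ vr F V A ∩ vr F V B :=
    Finset.subset_inter (vr_mono Finset.inter_subset_left) (vr_mono Finset.inter_subset_right)
  have h4 := Finset.card_sdiff_add_card_eq_card h3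
  unfold df
  rw [vr_union]
  have h1' : ((A ∪ B).card : ℤ) + (A ∩ B).card = A.card + B.card := by exact_mod_cast h1
  have h2' : ((vr F V A ∪ vr F V B).card : ℤ) + (vr F V A ∩ vr F V B).card
      = (vr F V A).card + (vr F V B).card := by exact_mod_cast h2
  have h4' : (((vr F V A ∩ vr F V B) \ vr F V (A ∩ B)).card : ℤ) + (vr F V (A ∩ B)).card
      = (vr F V A ∩ vr F V B).card := by exact_mod_cast h4
  linarith

theorem df_add_le (F : Fam) (V A B : Finset ℕ) :
    df F V A + df F V B ≤ df F V (A ∪ B) + df F V (A ∩ B) := by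
  rw [df_add]
  have : (0 : ℤ) ≤ (((vr F V A ∩ vr F V B) \ vr F V (A ∩ B)).card : ℤ) := Int.natCast_nonneg _
  linarith

/-- deficiency of a disjoint union -/
theorem df_union (F : Fam) (V A B : Finset ℕ) (h : Disjoint A B) :
    df F V (A ∪ B) = df F V A + ((B.card : ℤ) - ((vr F (V \ vr F V A) B).card : ℤ)) := by
  have h1 : (A ∪ B).card = A.card + B.card := Finset.card_union_of_disjoint h
  have h2 : vr F V (A ∪ B) = vr F V A ∪ vr F (V \ vr F V A) B := by
    ext x
    rw [vr_union, Finset.mem_union, Finset.mem_union]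
    constructor
    · rintro (hx | hx)
      · exact Or.inl hx
      · by_cases hxA : x ∈ vr F V A
        · exact Or.inl hxA
        · right
          rw [mem_vr] at hx ⊢
          exact ⟨Finset.mem_sdiff.2 ⟨hx.1, hxA⟩, hx.2⟩
    · rintro (hx | hx)
      · exact Or.inl hx
      · right
        rw [mem_vr] at hx ⊢
        exact ⟨(Finset.mem_sdiff.1 hx.1).1, hx.2⟩
  have h3 : Disjoint (vr F V A) (vr F (V \ vr F V A) B) := by
    rw [Finset.disjoint_left]
    intro x hx hx'
    exact (Finset.mem_sdiff.1 (vr_subset _ _ _ hx')).2 hx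
  unfold df
  rw [h1, h2, Finset.card_union_of_disjoint h3]
  push_cast
  ring

theorem vr_erase (F : Fam) (V A : Finset ℕ) (w : ℕ) : vr F (V.erase w) A = (vr F V A).erase w := by
  ext x
  simp only [mem_vr, Finset.mem_erase]
  tauto

/-- removing one variable -/
theorem df_erase_le (F : Fam) (V A : Finset ℕ) (w : ℕ) : df F (V.erase w) A ≤ df F V A + 1 := by
  unfold df
  rw [vr_erase]
  have h : (vr F V A).card ≤ ((vr F V A).erase w).card + 1 := by
    have := Finset.pred_card_le_card_erase (s := vr F V A) (a := w)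
    omega
  have h' : ((vr F V A).card : ℤ) ≤ ((vr F V A).erase w).card + 1 := by exact_mod_cast h
  linarith

theorem df_erase_of_notMem (F : Fam) (V A : Finset ℕ) (w : ℕ) (h : w ∉ vr F V A) :
    df F (V.erase w) A = df F V A := by
  unfold df
  rw [vr_erase, Finset.erase_eq_of_notMem h]

/-- counting variables of a larger set -/
theorem df_anti (F : Fam) (V V' A : Finset ℕ) (h : V' ⊆ V) : df F V A ≤ df F V' A := by
  unfold df
  have h1 : vr F V' A ⊆ vr F V A := by
    intro x hx
    rw [mem_vr] at hx ⊢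
    exact ⟨h hx.1, hx.2⟩
  have h2 : ((vr F V' A).card : ℤ) ≤ (vr F V A).card := by exact_mod_cast Finset.card_le_card h1
  linarith

theorem exists_core (F : Fam) (V A : Finset ℕ) : ∃ B, IsCore F V A B := by
  classical
  obtain ⟨M, hM, hmax⟩ := Finset.exists_max_image A.powerset (fun B => df F V B)
    ⟨∅, Finset.empty_mem_powerset A⟩
  obtain ⟨B, hB, hmin⟩ := Finset.exists_min_image
    (A.powerset.filter fun B => df F V B = df F V M) Finset.card
    ⟨M, Finset.mem_filter.2 ⟨hM, rfl⟩⟩
  rw [Finset.mem_filter, Finset.mem_powerset] at hB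
  have hmaxB : ∀ D ⊆ A, df F V D ≤ df F V B := fun D hD => by
    rw [hB.2]
    exact hmax D (Finset.mem_powerset.2 hD)
  refine ⟨B, hB.1, hmaxB, fun D hD hDe => ?_⟩
  have h1 := df_add_le F V D B
  have h2 := hmaxB (D ∪ B) (Finset.union_subset hD hB.1)
  have h3 := hmaxB (D ∩ B) (Finset.inter_subset_left.trans hD)
  have h4 : df F V (D ∩ B) = df F V B := by linarith
  have h5 := hmin (D ∩ B) (Finset.mem_filter.2
    ⟨Finset.mem_powerset.2 (Finset.inter_subset_left.trans hD), h4.trans hB.2⟩)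
  have h6 : D ∩ B = B := Finset.eq_of_subset_of_card_le Finset.inter_subset_right h5
  rw [← h6]
  exact Finset.inter_subset_left

theorem IsCore.unique {F : Fam} {V A B B' : Finset ℕ} (h : IsCore F V A B)
    (h' : IsCore F V A B') : B = B' := by
  have h1 : df F V B = df F V B' := le_antisymm (h'.2.1 B h.1) (h.2.1 B' h'.1)
  exact Finset.Subset.antisymm (h.2.2 B' h'.1 h1.symm) (h'.2.2 B h.1 h1)

theorem IsCore.crit {F : Fam} {V A B : Finset ℕ} (h : IsCore F V A B) : Crit F V B := by
  intro D hD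
  refine lt_of_le_of_ne (h.2.1 D (hD.1.trans h.1)) fun he => ?_
  exact hD.2 (h.2.2 D (hD.1.trans h.1) he)

theorem IsCore.nonneg {F : Fam} {V A B : Finset ℕ} (h : IsCore F V A B) : 0 ≤ df F V B := by
  have := h.2.1 ∅ (Finset.empty_subset A)
  rwa [df_empty] at this

/-- outside of the core, the maximal deficiency is zero -/
theorem IsCore.rest {F : Fam} {V A B : Finset ℕ} (h : IsCore F V A B) :
    NuLe F (V \ vr F V B) (A \ B) 0 := by
  intro T hT
  have hd : Disjoint B T := by
    rw [Finset.disjoint_left]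
    intro x hxB hxT
    exact (Finset.mem_sdiff.1 (hT hxT)).2 hxB
  have h1 := h.2.1 (B ∪ T) (Finset.union_subset h.1 (hT.trans Finset.sdiff_subset))
  rw [df_union F V B T hd] at h1
  unfold df
  unfold df at h1
  linarith

theorem NuLe.mono {F : Fam} {V A B : Finset ℕ} {m : ℤ} (h : NuLe F V A m) (hB : B ⊆ A) :
    NuLe F V B m := fun D hD => h D (hD.trans hB)

theorem Crit.nuLe {F : Fam} {V A : Finset ℕ} (h : Crit F V A) : NuLe F V A (df F V A) := by
  intro B hB
  rcases eq_or_ne B A with rfl | hne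
  · exact le_rfl
  · exact (h B (Finset.ssubset_iff_subset_ne.2 ⟨hB, hne⟩)).le

end Pool.Agent.MP_925109_lc
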