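import Mathlib
import Pool.Agent.MP_925109_lc.Alg
import Pool.Agent.MP_925109_lc.Calc

/-!
Correctness of the auction algorithm.
-/

set_option autoImplicit false

namespace Pool.Agent.MP_925109_lc

lemma occL_iff (φ : List (List Lit)) (c x : ℕ) : occL φ c x = true ↔ occ (fam φ) c x := by
  simp only [occL, occ, fam, List.any_eq_true, decide_eq_true_eq, List.mem_toFinset]
  constructor
  · rintro ⟨l, hl, rfl⟩
    exact ⟨l.2, hl⟩
  · rintro ⟨e, he⟩
    exact ⟨(x, e), he, rfl⟩

lemma vsL_toFinset (φ : List (List Lit)) (V X : List ℕ) :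
    (vsL φ V X).toFinset = vr (fam φ) V.toFinset X.toFinset := by
  ext x
  simp only [vsL, vr, List.mem_toFinset, List.mem_filter, Finset.mem_filter, List.any_eq_true,
    occL_iff]

/-- what the auction algorithm achieves -/
structure AucSpec (φ : List (List Lit)) (E V : List ℕ) (s : List Ent) : Prop where
  vars : s.map Prod.fst = V
  own : ∀ e ∈ s, ∀ c, e.2.2 = c + 1 → c ∈ E ∧ occL φ c e.1 = true
  uniq : ∀ e ∈ s, ∀ e' ∈ s, ∀ c, e.2.2 = c + 1 → e'.2.2 = c + 1 → e = e'
  dual : ∃ A ⊆ E.toFinset, ((E.filter (fun c => unowned s c)).length : ℤ) ≤ df (fam φ) V.toFinset A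

/-- invariants of the auction -/
structure AucInv (φ : List (List Lit)) (E V : List ℕ) (s : List Ent) : Prop where
  vars : s.map Prod.fst = V
  own : ∀ e ∈ s, ∀ c, e.2.2 = c + 1 → c ∈ E ∧ occL φ c e.1 = true
  uniq : ∀ e ∈ s, ∀ e' ∈ s, ∀ c, e.2.2 = c + 1 → e'.2.2 = c + 1 → e = e'
  zero : ∀ e ∈ s, e.2.2 = 0 → e.2.1 = 0
  slack : ∀ e ∈ s, ∀ c, e.2.2 = c + 1 → ∀ e' ∈ s, occL φ c e'.1 = true → e.2.1 ≤ e'.2.1 + 1
  bound : ∀ e ∈ s, e.2.1 ≤ V.length + 1

lemma foldl_best (l : List Ent) (a : Ent) :
    (l.foldl (fun a e => if e.2.1 < a.2.1 then e else a) a = a ∨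
      l.foldl (fun a e => if e.2.1 < a.2.1 then e else a) a ∈ l) ∧
    (l.foldl (fun a e => if e.2.1 < a.2.1 then e else a) a).2.1 ≤ a.2.1 ∧
    ∀ e ∈ l, (l.foldl (fun a e => if e.2.1 < a.2.1 then e else a) a).2.1 ≤ e.2.1 := by
  induction l generalizing a with
  | nil => simp
  | cons x l ih =>
    simp only [List.foldl_cons]
    by_cases h : x.2.1 < a.2.1
    · rw [if_pos h]
      obtain ⟨h1, h2, h3⟩ := ih x
      refine ⟨?_, by omega, ?_⟩
      · rcases h1 with h1 | h1
        · right; rw [h1]; simp
        · right; exact List.mem_cons_of_mem _ h1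
      · intro e he
        rcases List.mem_cons.1 he with rfl | he
        · exact h2
        · exact h3 e he
    · rw [if_neg h]
      obtain ⟨h1, h2, h3⟩ := ih a
      refine ⟨?_, h2, ?_⟩
      · rcases h1 with h1 | h1
        · left; exact h1
        · right; exact List.mem_cons_of_mem _ h1
      · intro e he
        rcases List.mem_cons.1 he with rfl | he
        · omega
        · exact h3 e he

lemma best_spec (φ : List (List Lit)) (N : ℕ) (s : List Ent) (c : ℕ) :
    (∀ e ∈ s, occL φ c e.1 = true → (best φ N s c).2.1 ≤ e.2.1) ∧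
    ((best φ N s c).2.1 < N → best φ N s c ∈ s ∧ occL φ c (best φ N s c).1 = true) := by
  obtain ⟨h1, h2, h3⟩ := foldl_best (s.filter (fun e => occL φ c e.1)) (0, N, 0)
  refine ⟨?_, ?_⟩
  · intro e he ho
    exact h3 e (List.mem_filter.2 ⟨he, ho⟩)
  · intro hlt
    rcases h1 with h1 | h1
    · exfalso
      have : (best φ N s c).2.1 = N := by
        unfold best
        rw [h1]
      omega
    · exact List.mem_filter.1 h1

lemma AucInv.init (φ : List (List Lit)) (E V : List ℕ) :
    AucInv φ E V (V.map (fun x => (x, 0, 0))) where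
  vars := by simp [Function.comp_def]
  own := by simp
  uniq := by simp
  zero := by simp
  slack := by simp
  bound := by simp

lemma inj_of_nodup {s : List Ent} (h : (s.map Prod.fst).Nodup) {e e' : Ent} (he : e ∈ s)
    (he' : e' ∈ s) (h1 : e.1 = e'.1) : e = e' :=
  List.inj_on_of_nodup_map h he he' h1

lemma sum_step (l : List Ent) (b : Ent) (c : ℕ) (hnd : (l.map Prod.fst).Nodup) (hb : b ∈ l) :
    ((l.map (fun e => if e.1 = b.1 then (e.1, e.2.1 + 1, c + 1) else e)).map
      (fun e : Ent => e.2.1)).sum = (l.map (fun e : Ent => e.2.1)).sum + 1 := by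
  induction l with
  | nil => simp at hb
  | cons x l ih =>
    simp only [List.map_cons, List.nodup_cons] at hnd
    rcases List.mem_cons.1 hb with rfl | hb'
    · have hrest : l.map (fun e => if e.1 = b.1 then (e.1, e.2.1 + 1, c + 1) else e) = l := by
        conv_rhs => rw [← List.map_id l]
        apply List.map_congr_left
        intro e he
        have : e.1 ≠ b.1 := by
          intro h
          exact hnd.1 (h ▸ List.mem_map_of_mem he)
        simp [this]
      simp only [List.map_cons, hrest, if_true, List.sum_cons]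
      omega
    · have hx : x.1 ≠ b.1 := by
        intro h
        exact hnd.1 (h ▸ List.mem_map_of_mem hb')
      have := ih hnd.2 hb'
      simp only [List.map_cons, if_neg hx, List.sum_cons]
      omega

lemma AucInv.step {φ : List (List Lit)} {E V : List ℕ} (hV : V.Nodup) {s : List Ent}
    (h : AucInv φ E V s) :
    AucInv φ E V (aucStep φ (V.length + 1) E s) ∧
      (bidders φ (V.length + 1) E s = [] ∨
        ((aucStep φ (V.length + 1) E s).map (fun e : Ent => e.2.1)).sum =
          (s.map (fun e : Ent => e.2.1)).sum + 1) := by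
  unfold aucStep
  cases hb : bidders φ (V.length + 1) E s with
  | nil => exact ⟨h, Or.inl rfl⟩
  | cons c tl =>
    have hc : c ∈ bidders φ (V.length + 1) E s := by rw [hb]; simp
    simp only [bidders, List.mem_filter, Bool.and_eq_true, decide_eq_true_eq] at hc
    obtain ⟨hcE, hun, hlt⟩ := hc
    obtain ⟨hmin, hmem⟩ := best_spec φ (V.length + 1) s c
    obtain ⟨hbs, hbo⟩ := hmem hlt
    set b := best φ (V.length + 1) s c with hbdef
    have hnd : (s.map Prod.fst).Nodup := by rw [h.vars]; exact hV
    have hun' : ∀ e ∈ s, e.2.2 ≠ c + 1 := by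
      intro e he
      simp only [unowned, List.all_eq_true, decide_eq_true_eq] at hun
      exact hun e he
    have heq : ∀ e ∈ s, e.1 = b.1 → e = b := fun e he h1 => inj_of_nodup hnd he hbs h1
    refine ⟨⟨?_, ?_, ?_, ?_, ?_, ?_⟩, Or.inr (sum_step s b c hnd hbs)⟩
    · rw [List.map_map]
      conv_rhs => rw [← h.vars]
      apply List.map_congr_left
      intro e _
      simp only [Function.comp]
      split <;> rfl
    · intro e he c' hc'
      rw [List.mem_map] at he
      obtain ⟨e0, he0, rfl⟩ := he
      by_cases h1 : e0.1 = b.1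
      · rw [if_pos h1] at hc' ⊢
        simp only [add_left_inj] at hc'
        subst hc'
        exact ⟨hcE, by simpa [h1] using hbo⟩
      · rw [if_neg h1] at hc' ⊢
        exact h.own e0 he0 c' hc'
    · intro e he e' he' c' hc hc'
      rw [List.mem_map] at he he'
      obtain ⟨e0, he0, rfl⟩ := he
      obtain ⟨e1, he1, rfl⟩ := he'
      by_cases h1 : e0.1 = b.1 <;> by_cases h2 : e1.1 = b.1
      · have a1 := heq e0 he0 h1
        have a2 := heq e1 he1 h2
        rw [a1, a2]
      · rw [if_pos h1] at hc
        rw [if_neg h2] at hc'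
        simp only [add_left_inj] at hc
        subst hc
        exact absurd hc' (hun' e1 he1)
      · rw [if_neg h1] at hc
        rw [if_pos h2] at hc'
        simp only [add_left_inj] at hc'
        subst hc'
        exact absurd hc (hun' e0 he0)
      · rw [if_neg h1] at hc ⊢
        rw [if_neg h2] at hc' ⊢
        exact h.uniq e0 he0 e1 he1 c' hc hc'
    · intro e he hz
      rw [List.mem_map] at he
      obtain ⟨e0, he0, rfl⟩ := he
      by_cases h1 : e0.1 = b.1
      · rw [if_pos h1] at hz
        simp at hz
      · rw [if_neg h1] at hz ⊢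
        exact h.zero e0 he0 hz
    · intro e he c' hc e' he' ho
      rw [List.mem_map] at he he'
      obtain ⟨e0, he0, rfl⟩ := he
      obtain ⟨e1, he1, rfl⟩ := he'
      have hup : e1.2.1 ≤ (if e1.1 = b.1 then (e1.1, e1.2.1 + 1, c + 1) else e1).2.1 := by
        split
        · exact Nat.le_succ _
        · exact le_rfl
      have ho1 : occL φ c' e1.1 = true := by
        by_cases h2 : e1.1 = b.1
        · rw [if_pos h2] at ho; exact ho
        · rw [if_neg h2] at ho; exact ho
      by_cases h1 : e0.1 = b.1
      · rw [if_pos h1] at hc ⊢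
        simp only [add_left_inj] at hc
        subst hc
        have a1 := heq e0 he0 h1
        have := hmin e1 he1 ho1
        rw [a1]
        exact (Nat.succ_le_succ this).trans (Nat.succ_le_succ hup)
      · rw [if_neg h1] at hc ⊢
        have := h.slack e0 he0 c' hc e1 he1 ho1
        exact this.trans (Nat.succ_le_succ hup)
    · intro e he
      rw [List.mem_map] at he
      obtain ⟨e0, he0, rfl⟩ := he
      by_cases h1 : e0.1 = b.1
      · rw [if_pos h1]
        have a1 := heq e0 he0 h1
        rw [a1]
        simp only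
        omega
      · rw [if_neg h1]
        exact h.bound e0 he0

lemma AucInv.iter {φ : List (List Lit)} {E V : List ℕ} (hV : V.Nodup) (j : ℕ) :
    AucInv φ E V ((aucStep φ (V.length + 1) E)^[j] (V.map (fun x => (x, 0, 0)))) ∧
      (bidders φ (V.length + 1) E
          ((aucStep φ (V.length + 1) E)^[j] (V.map (fun x => (x, 0, 0)))) = [] ∨
        (((aucStep φ (V.length + 1) E)^[j] (V.map (fun x => (x, 0, 0)))).map
          (fun e : Ent => e.2.1)).sum = j) := by
  induction j with
  | zero =>
    refine ⟨AucInv.init φ E V, Or.inr ?_⟩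
    simp [Function.comp_def]
  | succ j ih =>
    rw [Function.iterate_succ_apply']
    obtain ⟨h1, h2⟩ := ih
    set s := (aucStep φ (V.length + 1) E)^[j] (V.map (fun x => (x, 0, 0))) with hs
    obtain ⟨h3, h4⟩ := h1.step hV
    refine ⟨h3, ?_⟩
    by_cases hb : bidders φ (V.length + 1) E s = []
    · left
      have : aucStep φ (V.length + 1) E s = s := by
        unfold aucStep
        rw [hb]
      rw [this]
      exact hb
    · right
      rcases h2 with h2 | h2
      · exact absurd h2 hb
      · rcases h4 with h4 | h4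
        · exact absurd h4 hb
        · rw [h4, h2]

lemma AucInv.final {φ : List (List Lit)} {E V : List ℕ} (hV : V.Nodup) :
    AucInv φ E V (auc φ E V) ∧ bidders φ (V.length + 1) E (auc φ E V) = [] := by
  obtain ⟨h1, h2⟩ := AucInv.iter (φ := φ) (E := E) hV (V.length * (V.length + 1) + 1)
  refine ⟨h1, ?_⟩
  rcases h2 with h2 | h2
  · exact h2
  · exfalso
    have hlen := congrArg List.length h1.vars
    rw [List.length_map] at hlen
    have := List.sum_le_card_nsmul ((((aucStep φ (V.length + 1) E)^[V.length * (V.length + 1) + 1]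
      (V.map (fun x => (x, 0, 0)))).map (fun e : Ent => e.2.1))) (n := V.length + 1) (by
        intro x hx
        rw [List.mem_map] at hx
        obtain ⟨e, he, rfl⟩ := hx
        exact h1.bound e he)
    rw [h2, List.length_map, hlen, smul_eq_mul] at this
    omega

lemma AucInv.dual {φ : List (List Lit)} {E V : List ℕ} (hE : E.Nodup) {s : List Ent}
    (h : AucInv φ E V s) (hb : bidders φ (V.length + 1) E s = []) :
    ∃ A ⊆ E.toFinset, ((E.filter (fun c => unowned s c)).length : ℤ) ≤
      df (fam φ) V.toFinset A := by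
  classical
  have hun : ∀ c ∈ E, unowned s c = true → ∀ e ∈ s, occL φ c e.1 = true → V.length + 1 ≤ e.2.1 := by
    intro c hc hu e he ho
    by_contra hlt
    have : c ∈ bidders φ (V.length + 1) E s := by
      simp only [bidders, List.mem_filter, Bool.and_eq_true, decide_eq_true_eq]
      refine ⟨hc, hu, ?_⟩
      have := (best_spec φ (V.length + 1) s c).1 e he ho
      omega
    rw [hb] at this
    simp at this
  -- a price gap
  obtain ⟨q, hq1, hqN, hq⟩ : ∃ q, 1 ≤ q ∧ q ≤ V.length + 1 ∧ ∀ e ∈ s, e.2.1 ≠ q := by
    by_contra hcon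
    push Not at hcon
    have hsub : Finset.Icc 1 (V.length + 1) ⊆ (s.map (fun e : Ent => e.2.1)).toFinset := by
      intro q hq
      rw [Finset.mem_Icc] at hq
      obtain ⟨e, he, heq⟩ := hcon q hq.1 hq.2
      rw [List.mem_toFinset, List.mem_map]
      exact ⟨e, he, heq⟩
    have h1 := Finset.card_le_card hsub
    have h2 := List.toFinset_card_le (s.map (fun e : Ent => e.2.1))
    have hlen := congrArg List.length h.vars
    rw [List.length_map] at hlen
    rw [List.length_map, hlen] at h2
    rw [Nat.card_Icc] at h1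
    omega
  set U : Finset ℕ := (E.filter (fun c => unowned s c)).toFinset with hU
  set Hs : Finset Ent := s.toFinset.filter (fun e => q < e.2.1) with hHs
  set O : Finset ℕ := Hs.image (fun e => e.2.2 - 1) with hO
  have howner : ∀ e ∈ Hs, e ∈ s ∧ e.2.2 = (e.2.2 - 1) + 1 ∧ q < e.2.1 := by
    intro e he
    rw [hHs, Finset.mem_filter, List.mem_toFinset] at he
    refine ⟨he.1, ?_, he.2⟩
    have : e.2.2 ≠ 0 := by
      intro h0
      have := h.zero e he.1 h0
      omega
    omega
  have hOcard : O.card = Hs.card := by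
    apply Finset.card_image_of_injOn
    intro e he e' he' hee
    have h1 := howner e he
    have h2 := howner e' he'
    simp only at hee
    exact h.uniq e h1.1 e' h2.1 (e.2.2 - 1) h1.2.1 (by rw [hee]; exact h2.2.1)
  have hUcard : U.card = (E.filter (fun c => unowned s c)).length :=
    List.toFinset_card_of_nodup (hE.filter _)
  have hdisj : Disjoint U O := by
    rw [Finset.disjoint_left]
    intro c hc hcO
    rw [hU, List.mem_toFinset, List.mem_filter] at hc
    rw [hO, Finset.mem_image] at hcO
    obtain ⟨e, he, hec⟩ := hcO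
    have h1 := howner e he
    have h2 := hc.2
    simp only [unowned, List.all_eq_true, decide_eq_true_eq] at h2
    apply h2 e h1.1
    rw [h1.2.1, hec]
  refine ⟨U ∪ O, ?_, ?_⟩
  · intro c hc
    rw [Finset.mem_union] at hc
    rw [List.mem_toFinset]
    rcases hc with hc | hc
    · rw [hU, List.mem_toFinset, List.mem_filter] at hc
      exact hc.1
    · rw [hO, Finset.mem_image] at hc
      obtain ⟨e, he, rfl⟩ := hc
      have h1 := howner e he
      exact (h.own e h1.1 _ h1.2.1).1
  · have hvr : vr (fam φ) V.toFinset (U ∪ O) ⊆ Hs.image Prod.fst := by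
      intro x hx
      simp only [vr, Finset.mem_filter, List.mem_toFinset] at hx
      obtain ⟨hxV, c, hc, hox⟩ := hx
      rw [← occL_iff] at hox
      rw [← h.vars, List.mem_map] at hxV
      obtain ⟨e', he', rfl⟩ := hxV
      rw [Finset.mem_image]
      refine ⟨e', ?_, rfl⟩
      rw [hHs, Finset.mem_filter, List.mem_toFinset]
      refine ⟨he', ?_⟩
      have hne := hq e' he'
      rw [Finset.mem_union] at hc
      rcases hc with hc | hc
      · rw [hU, List.mem_toFinset, List.mem_filter] at hc
        have := hun c hc.1 hc.2 e' he' hox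
        omega
      · rw [hO, Finset.mem_image] at hc
        obtain ⟨e, he, rfl⟩ := hc
        have h1 := howner e he
        have := h.slack e h1.1 _ h1.2.1 e' he' hox
        omega
    have h1 := Finset.card_le_card hvr
    have h2 : (Hs.image Prod.fst).card ≤ Hs.card := Finset.card_image_le
    have h3 := Finset.card_union_of_disjoint hdisj
    unfold df
    rw [h3, ← hUcard, hOcard]
    push_cast
    have : ((vr (fam φ) V.toFinset (U ∪ O)).card : ℤ) ≤ Hs.card := by exact_mod_cast h1.trans h2
    linarith

theorem auc_spec (φ : List (List Lit)) (E V : List ℕ) (hE : E.Nodup) (hV : V.Nodup) :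
    AucSpec φ E V (auc φ E V) := by
  obtain ⟨h1, h2⟩ := AucInv.final (φ := φ) (E := E) hV
  exact ⟨h1.vars, h1.own, h1.uniq, h1.dual hE h2⟩

end Pool.Agent.MP_925109_lc
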