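import Mathlib
import Pool.Agent.Lib.helper60.NPLib
import Pool.Agent.Lib.helper60.ParseCNF

/-!
Further closure properties of the polynomial-time functions: equality of codes, iteration with
parameters, recursion over binary trees.
-/

set_option autoImplicit false

namespace Pool.Agent.MP_925109_lc

open Pool.Agent.Lib.helper60 Function

section

variable {α β γ ι σ τ : Type} [DEnc α] [DEnc β] [DEnc γ] [DEnc ι] [DEnc σ] [DEnc τ]

/-! ### the list of bits of a code, and its length -/

/-- program pushing the code of a list of bits, read from the stack `a` -/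
def bitsP : Prog R :=
  .loop .a (.push .m false ++ .push .m true)
    (.push .m false ++ (.push .m false ++ (.push .m true ++ .push .m true)))

lemma bitsP_runs (w : List Bool) : ∀ (v r : List Bool),
    Runs bitsP (st ((DEnc.toD v).enc ++ r) w [] []) (5 * w.length + 1)
      (st ((DEnc.toD (w.reverse ++ v)).enc ++ r) [] [] []) := by
  induction w with
  | nil => intro v r; exact (Runs.loopN rfl).mono (by simp)
  | cons x w ih =>
    intro v r
    have h2 := ih (x :: v) r
    have e1 : (x :: w).reverse ++ v = w.reverse ++ (x :: v) := by simp
    rw [e1]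
    cases x with
    | false =>
      have h4 : Runs (.push R.m false ++ .push R.m true) (st ((DEnc.toD v).enc ++ r) w [] []) 2
          (st (true :: false :: ((DEnc.toD v).enc ++ r)) w [] []) := by
        have h5 := (Runs.push R.m false (st ((DEnc.toD v).enc ++ r) w [] [])).seq
          (Runs.push R.m true _)
        simpa using h5
      have h6 := Runs.loopF (k := R.a)
        (pT := (.push .m false ++ (.push .m false ++ (.push .m true ++ .push .m true))))
        (S := st ((DEnc.toD v).enc ++ r) (false :: w) [] []) rfl
        (by simpa [D.enc] using h4) (h2 : Runs bitsP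
          (st (true :: false :: ((DEnc.toD v).enc ++ r)) w [] []) _ _)
      exact Runs.mono h6 (by simp; omega)
    | true =>
      have h4 : Runs (.push .m false ++ (.push .m false ++ (.push .m true ++ .push .m true)))
          (st ((DEnc.toD v).enc ++ r) w [] []) 4
          (st (true :: true :: false :: false :: ((DEnc.toD v).enc ++ r)) w [] []) := by
        have h5 := (Runs.push R.m false (st ((DEnc.toD v).enc ++ r) w [] [])).seq
          ((Runs.push R.m false _).seq ((Runs.push R.m true _).seq (Runs.push R.m true _)))
        simpa using h5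
      have h6 := Runs.loopT (k := R.a) (pF := (.push .m false ++ .push .m true))
        (S := st ((DEnc.toD v).enc ++ r) (true :: w) [] []) rfl
        (by simpa [D.enc] using h4)
        (h2 : Runs bitsP (st (true :: true :: false :: false :: ((DEnc.toD v).enc ++ r)) w [] [])
          _ _)
      exact Runs.mono h6 (by simp; omega)

/-- the word coding a tree is computable in polynomial time -/
theorem PT_enc : PT (fun x : D => x.enc) := by
  refine ⟨moveTerm .a ++ (.push .m false ++ bitsP),
    fun x => (5 * Lib.helper60.tsize x + 2) + (1 + (5 * Lib.helper60.tsize x + 1)), ?_, ?_⟩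
  · exact (((PB.const 5).mul PB.tsize).add (PB.const 2)).add
      ((PB.const 1).add (((PB.const 5).mul PB.tsize).add (PB.const 1)))
  · intro x r
    have h1 := moveTerm_a x r [] []
    have h2 := Runs.push R.m false (st r x.enc.reverse [] [])
    have h3 := bitsP_runs x.enc.reverse [] r
    rw [List.append_nil] at h1
    have h4 : Runs bitsP (st (false :: r) x.enc.reverse [] []) (5 * x.enc.reverse.length + 1)
        (st ((DEnc.toD x.enc).enc ++ r) [] [] []) := by
      simpa [D.enc] using h3
    have h5 := h1.seq (h2.seq (t' := _) (S'' := _) (by simpa using h4))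
    exact h5

theorem PT_size {f : α → β} (hf : PT f) : PT (fun x => tsize (f x)) :=
  PT.length (PT_enc.comp (PT.code.comp hf))

/-- polynomials are computable in polynomial time (in unary) -/
theorem PT_poly (P : Polynomial ℕ) {f : α → ℕ} (hf : PT f) : PT (fun x => P.eval (f x)) := by
  induction P using Polynomial.induction_on with
  | C a => exact (PT.const a).congr fun x => by simp
  | add p q hp hq => exact (PT.nadd hp hq).congr fun x => by simp
  | monomial n a h =>
    refine (PT.nmul h hf).congr fun x => ?_
    simp only [Polynomial.eval_mul, Polynomial.eval_C, Polynomial.eval_pow, Polynomial.eval_X]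
    ring

/-- a polynomially bounded quantity is bounded by a polynomial time computable one -/
theorem PB.exists_PT {t : α → ℕ} (ht : PB t) : ∃ c : α → ℕ, PT c ∧ ∀ x, t x ≤ c x := by
  obtain ⟨P, hP⟩ := ht
  exact ⟨fun x => P.eval (tsize x), PT_poly P (PT_size PT.id), hP⟩

/-! ### equality of codes -/

/-- comparison of lists of bits -/
def cmpStep (s : Bool × List Bool) (b : Bool) : Bool × List Bool :=
  match s.2 with
  | [] => (false, [])
  | c :: l => (s.1 && decide (b = c), l)

lemma cmp_false (u : List Bool) : ∀ v, (u.foldl cmpStep (false, v)).1 = false := by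
  induction u with
  | nil => intro v; rfl
  | cons b u ih =>
    intro v
    cases v with
    | nil => exact ih []
    | cons c v => simpa [cmpStep] using ih v

lemma cmp_spec (u : List Bool) : ∀ v,
    ((u.foldl cmpStep (true, v)).1 && (u.foldl cmpStep (true, v)).2.isEmpty) = decide (u = v) := by
  induction u with
  | nil => intro v; cases v <;> simp
  | cons b u ih =>
    intro v
    cases v with
    | nil =>
      have h1 : (b :: u).foldl cmpStep (true, []) = u.foldl cmpStep (false, []) := rfl
      rw [h1, cmp_false]
      simp
    | cons c v =>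
      by_cases h : b = c
      · subst h
        have h1 : (b :: u).foldl cmpStep (true, b :: v) = u.foldl cmpStep (true, v) := by
          simp [cmpStep]
        rw [h1, ih v]
        simp
      · have h1 : (b :: u).foldl cmpStep (true, c :: v) = u.foldl cmpStep (false, v) := by
          simp [cmpStep, h]
        rw [h1, cmp_false]
        simp [h]

lemma cmp_size (u : List Bool) : ∀ s : Bool × List Bool,
    tsize (u.foldl cmpStep s).2 ≤ tsize s.2 := by
  induction u with
  | nil => intro s; exact le_rfl
  | cons b u ih =>
    intro s
    refine (ih (cmpStep s b)).trans ?_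
    obtain ⟨o, v⟩ := s
    cases v with
    | nil => simp [cmpStep]
    | cons c v => simp only [cmpStep, tsize_cons]; omega

theorem PT_cmp {f g : α → List Bool} (hf : PT f) (hg : PT g) :
    PT (fun x => decide (f x = g x)) := by
  have hstep : PT (fun y : α × (Bool × List Bool) × Bool => cmpStep y.2.1 y.2.2) := by
    refine (PT.listCases (l := fun y : α × (Bool × List Bool) × Bool => y.2.1.2)
      (f := fun _ => (false, ([] : List Bool)))
      (g := fun z : (α × (Bool × List Bool) × Bool) × Bool × List Bool =>
        (z.1.2.1.1 && decide (z.1.2.2 = z.2.1), z.2.2))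
      (PT.p2 (PT.p1 PT.snd)) (PT.const _) ?_).congr fun y => ?_
    · exact PT.pair (PT.band (PT.p1 (PT.p1 (PT.p2 PT.fst)))
        (PT.beq (PT.p2 (PT.p2 PT.fst)) (PT.p1 PT.snd))) (PT.p2 PT.snd)
    · obtain ⟨x, ⟨o, v⟩, b⟩ := y
      cases v <;> rfl
  have h := PT.foldl (l := f) (init := fun x => (true, g x))
    (g := fun y : α × (Bool × List Bool) × Bool => cmpStep y.2.1 y.2.2) hf
    (PT.pair (PT.const true) hg) hstep ⟨fun x => 3 + tsize (g x) + 1,
      (((PB.const 3).add hg.size).add (PB.const 1)), by
      intro x l₁ l₂ _
      have h1 := cmp_size l₁ (true, g x)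
      have h2 := tsize_bool_le (l₁.foldl cmpStep (true, g x)).1
      show tsize (l₁.foldl cmpStep (true, g x)) ≤ _
      rw [← Prod.mk.eta (p := l₁.foldl cmpStep (true, g x)), tsize_pair]
      simp only at h1
      show _ ≤ 3 + tsize (g x) + 1
      omega⟩
  have hem : PT (fun v : List Bool => v.isEmpty) :=
    (PT.listCases (l := fun v : List Bool => v) (f := fun _ => true)
      (g := fun _ : List Bool × Bool × List Bool => false) PT.id (PT.const _)
      (PT.const _)).congr fun v => by cases v <;> rfl
  refine (PT.band (PT.p1 h) (hem.comp (PT.p2 h))).congr fun x => ?_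
  exact cmp_spec (f x) (g x)

/-- equality of trees can be decided in polynomial time -/
theorem PT_deqD : PT (fun x : D × D => decide (x.1 = x.2)) := by
  refine (PT_cmp (PT_enc.comp PT.fst) (PT_enc.comp PT.snd)).congr fun x => ?_
  simp only [D.enc_injective.eq_iff]

/-- types coded injectively -/
class DInj (α : Type) [DEnc α] : Prop where
  inj : Function.Injective (DEnc.toD : α → D)

instance : DInj ℕ := ⟨by
  intro a b h
  have h1 := congrArg D.spine h
  simpa using h1⟩
instance : DInj Bool := ⟨by
  intro a b h
  cases a <;> cases b <;> first | rfl | exact absurd h (by intro h; cases h)⟩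
instance [DInj α] [DInj β] : DInj (α × β) := ⟨by
  rintro ⟨a, b⟩ ⟨a', b'⟩ h
  have h1 : D.node (DEnc.toD a) (DEnc.toD b) = D.node (DEnc.toD a') (DEnc.toD b') := h
  injection h1 with h2 h3
  rw [DInj.inj h2, DInj.inj h3]⟩
instance [DInj α] : DInj (List α) := ⟨by
  intro l
  induction l with
  | nil =>
    intro l' h
    cases l' with
    | nil => rfl
    | cons x l' => exact absurd h (by intro h; cases h)
  | cons a l ih =>
    intro l' h
    cases l' with
    | nil => exact absurd h (by intro h; cases h)
    | cons b l' =>
      have h1 : D.node (DEnc.toD a) (DEnc.toD l) = D.node (DEnc.toD b) (DEnc.toD l') := h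
      injection h1 with h2 h3
      rw [DInj.inj h2, ih h3]⟩

theorem PT_deq [DInj α] [DecidableEq α] {f g : ι → α} (hf : PT f) (hg : PT g) :
    PT (fun x => decide (f x = g x)) := by
  refine (PT_deqD.comp (PT.pair (PT.code.comp hf) (PT.code.comp hg))).congr fun x => ?_
  simp only [(DInj.inj (α := α)).eq_iff]

theorem PT_mem [DInj α] [DecidableEq α] {f : ι → α} {l : ι → List α} (hf : PT f) (hl : PT l) :
    PT (fun x => decide (f x ∈ l x)) := by
  refine (PT.any hl (p := fun y : ι × α => decide (f y.1 = y.2))
    (PT_deq (hf.comp PT.fst) PT.snd)).congr fun x => ?_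
  rw [Bool.eq_iff_iff]
  simp

theorem PT_notMem [DInj α] [DecidableEq α] {f : ι → α} {l : ι → List α} (hf : PT f) (hl : PT l) :
    PT (fun x => decide (f x ∉ l x)) :=
  (PT.bnot (PT_mem hf hl)).congr fun x => by simp

/-- membership, for any way of deciding it -/
theorem PT_memI [DInj α] {f : ι → α} {l : ι → List α} [DecidablePred fun x => f x ∈ l x]
    (hf : PT f) (hl : PT l) : PT (fun x => decide (f x ∈ l x)) := by
  classical
  exact (PT_mem hf hl).congr fun x => by
    by_cases h : f x ∈ l x
    · simp only [h, decide_true]
    · simp only [h, decide_false]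

theorem PT_notMemI [DInj α] {f : ι → α} {l : ι → List α} [DecidablePred fun x => f x ∉ l x]
    (hf : PT f) (hl : PT l) : PT (fun x => decide (f x ∉ l x)) := by
  classical
  exact (PT_notMem hf hl).congr fun x => by
    by_cases h : f x ∈ l x
    · simp only [h, not_true_eq_false, decide_false]
    · simp only [h, not_false_eq_true, decide_true]

/-- iteration with a parameter -/
theorem PT_iter {count : ι → ℕ} {init : ι → σ} {g : ι × σ → σ} (hc : PT count) (hi : PT init)
    (hg : PT g) (hb : ∃ t : ι → ℕ, PB t ∧
      ∀ x i, i ≤ count x → tsize ((fun s => g (x, s))^[i] (init x)) ≤ t x) :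
    PT (fun x => (fun s => g (x, s))^[count x] (init x)) := by
  obtain ⟨t, ht, hbd⟩ := hb
  have hit : ∀ (i : ℕ) (x : ι) (s : σ), (fun y : ι × σ => (y.1, g y))^[i] (x, s) =
      (x, (fun s => g (x, s))^[i] s) := by
    intro i
    induction i with
    | zero => intro x s; rfl
    | succ i ih => intro x s; rw [iterate_succ_apply, ih, iterate_succ_apply]
  have h := PT.iterateNat (count := count) (init := fun x => (x, init x))
    (step := fun y : ι × σ => (y.1, g y)) hc (PT.pair PT.id hi) (PT.pair PT.fst hg)
    ⟨fun x => tsize x + t x + 1, (PB.tsize.add ht).add (PB.const 1), by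
      intro x i hx
      rw [hit]
      have := hbd x i hx
      simp only [tsize_pair]
      omega⟩
  refine (PT.p2 h).congr fun x => ?_
  rw [hit]

lemma tsize_sublist {l₁ l₂ : List α} (h : l₁.Sublist l₂) : tsize l₁ ≤ tsize l₂ := by
  induction h with
  | slnil => exact le_rfl
  | cons a _ ih => simp only [tsize_cons]; omega
  | cons_cons a _ ih => simp only [tsize_cons]; omega

/-- iteration of a step that stays among the sublists of a given list -/
theorem PT_iter_sub {count : ι → ℕ} {init bd : ι → List σ} {g : ι × List σ → List σ}
    (hc : PT count) (hi : PT init) (hbd : PT bd) (hg : PT g)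
    (h0 : ∀ x, (init x).Sublist (bd x)) (h1 : ∀ x s, s.Sublist (bd x) → (g (x, s)).Sublist (bd x)) :
    PT (fun x => (fun s => g (x, s))^[count x] (init x)) := by
  refine PT_iter hc hi hg ⟨fun x => tsize (bd x), hbd.size, fun x i _ => tsize_sublist ?_⟩
  have key : ∀ i, ((fun s => g (x, s))^[i] (init x)).Sublist (bd x) := by
    intro i
    induction i with
    | zero => exact h0 x
    | succ i ih => rw [iterate_succ_apply']; exact h1 x _ ih
  exact key i

lemma PT_take {l : ι → List β} {n : ι → ℕ} (hn : PT n) (hl : PT l) :
    PT (fun x => (l x).take (n x)) := by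
  refine (PT.reverse (PT.drop (PT.nsub (PT.length hl) hn) (PT.reverse hl))).congr fun x => ?_
  have h := List.take_reverse (xs := (l x).reverse) (i := n x)
  rw [List.reverse_reverse, List.length_reverse] at h
  exact h.symm

end

end Pool.Agent.MP_925109_lc
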