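import Mathlib
import Pool.Agent.MP_925109_lc.PTBase
import Pool.Agent.MP_925109_lc.Defs

/-!
Binary coding of lists of clauses: parsing and printing in polynomial time.
-/

set_option autoImplicit false

namespace Pool.Agent.MP_925109_lc

open Pool.Agent.Lib.helper60 Function

/-! ### parsing -/

/-- parser state: mode, value of the numeral, literals of the current clause, finished clauses -/
abbrev BState := ℕ × ℕ × List Lit × List (List Lit)

/-- one step of the parser; numerals are cut off at `B` -/
def bstep (B : ℕ) (s : BState) (b : Bool) : BState :=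
  if s.1 = 0 then (bif b then (1, 0, s.2.2.1, s.2.2.2) else (0, 0, [], s.2.2.1.reverse :: s.2.2.2))
  else if s.1 = 1 then (bif b then (2, s.2.1, s.2.2.1, s.2.2.2)
    else (3, s.2.1, s.2.2.1, s.2.2.2))
  else if s.1 = 2 then (bif b then (1, (if s.2.1 + s.2.1 + 1 ≤ B then s.2.1 + s.2.1 + 1 else B),
      s.2.2.1, s.2.2.2)
    else (1, (if s.2.1 + s.2.1 ≤ B then s.2.1 + s.2.1 else B), s.2.2.1, s.2.2.2))
  else (0, 0, (s.2.1, b) :: s.2.2.1, s.2.2.2)

/-- the parser -/
def parseB (B : ℕ) (w : List Bool) : List (List Lit) :=
  (w.foldl (bstep B) (0, 0, [], [])).2.2.2.reverse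

/-- digits of a numeral -/
lemma binD_parse (B : ℕ) (cur : List Lit) (don : List (List Lit)) (w : List Bool) :
    ∀ i : ℕ, i ≤ B →
    (((binD i).flatMap (fun d => [true, d])) ++ w).foldl (bstep B) (1, 0, cur, don) =
      w.foldl (bstep B) (1, i, cur, don) := by
  intro i
  induction i using Nat.strongRec generalizing w with
  | ind i ih =>
    intro hi
    rcases Nat.eq_zero_or_pos i with h0 | h0
    · subst h0
      simp [binD]
    · obtain ⟨m, b, hm⟩ : ∃ (m : ℕ) (b : Bool), i = Nat.bit b m :=
        ⟨i.div2, i.bodd, (Nat.bit_bodd_div2 i).symm⟩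
      have hm' : i = 2 * m + b.toNat := by rw [hm, Nat.bit_val]
      have hmi : m < i := by
        cases b <;> simp at hm' <;> omega
      have hd : binD i = binD m ++ [b] := by
        unfold binD
        rw [hm, Nat.bits_append_bit m b (by
          rintro rfl
          by_contra hb
          have : b = false := by simpa using hb
          subst this
          simp at hm'
          omega)]
        simp
      rw [hd, List.flatMap_append, List.append_assoc, ih m hmi _ (by omega)]
      have h1 : bstep B (1, m, cur, don) true = (2, m, cur, don) := by simp [bstep]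
      have h2 : bstep B (2, m, cur, don) b = (1, i, cur, don) := by
        rw [Nat.bit_val] at hm
        cases b with
        | true =>
          simp only [Bool.toNat_true] at hm
          have : m + m + 1 ≤ B := by omega
          simp only [bstep, OfNat.ofNat_ne_zero, ↓reduceIte, OfNat.ofNat_ne_one, cond_true, this]
          have : m + m + 1 = i := by omega
          rw [this]
        | false =>
          simp only [Bool.toNat_false] at hm
          have : m + m ≤ B := by omega
          simp only [bstep, OfNat.ofNat_ne_zero, ↓reduceIte, OfNat.ofNat_ne_one, cond_false, this]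
          have : m + m = i := by omega
          rw [this]
      simp only [List.flatMap_cons, List.flatMap_nil, List.append_nil, List.cons_append,
        List.nil_append, List.foldl_cons, h1, h2]

lemma parseB_lits (B : ℕ) (c : List Lit) : ∀ (cur : List Lit) (don : List (List Lit))
    (w : List Bool), (∀ l ∈ c, l.1 ≤ B) →
    (c.flatMap (fun l => true :: ((binD l.1).flatMap (fun d => [true, d]) ++ [false, l.2])) ++
      w).foldl (bstep B) (0, 0, cur, don) = w.foldl (bstep B) (0, 0, c.reverse ++ cur, don) := by
  induction c with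
  | nil => intro cur don w _; rfl
  | cons l c ih =>
    intro cur don w hc
    simp only [List.flatMap_cons, List.cons_append, List.append_assoc, List.foldl_cons]
    have h1 : bstep B (0, 0, cur, don) true = (1, 0, cur, don) := by simp [bstep]
    rw [h1, binD_parse B cur don _ l.1 (hc l List.mem_cons_self)]
    have h2 : bstep B (1, l.1, cur, don) false = (3, l.1, cur, don) := by simp [bstep]
    have h3 : bstep B (3, l.1, cur, don) l.2 = (0, 0, l :: cur, don) := by simp [bstep]
    simp only [List.foldl_cons, h2, h3, List.nil_append]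
    rw [ih _ _ _ (fun l' hl' => hc l' (List.mem_cons_of_mem _ hl'))]
    simp

lemma parseB_enc_aux (B : ℕ) (φ : List (List Lit)) : ∀ (don : List (List Lit)),
    (∀ c ∈ φ, ∀ l ∈ c, l.1 ≤ B) →
    (encB φ).foldl (bstep B) (0, 0, [], don) = (0, 0, [], φ.reverse ++ don) := by
  induction φ with
  | nil => intro don _; rfl
  | cons c φ ih =>
    intro don hc
    have h1 : encB (c :: φ) = c.flatMap (fun l => true :: ((binD l.1).flatMap (fun d => [true, d]) ++
        [false, l.2])) ++ (false :: encB φ) := by
      simp [encB, encClauseB]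
    rw [h1, parseB_lits B c _ _ _ (hc c List.mem_cons_self), List.foldl_cons]
    have h2 : bstep B (0, 0, c.reverse ++ [], don) false = (0, 0, [], c :: don) := by simp [bstep]
    rw [h2, ih _ (fun c' hc' => hc c' (List.mem_cons_of_mem _ hc'))]
    simp

theorem parseB_enc (B : ℕ) (φ : List (List Lit)) (h : ∀ c ∈ φ, ∀ l ∈ c, l.1 ≤ B) :
    parseB B (encB φ) = φ := by
  unfold parseB
  rw [parseB_enc_aux B φ [] h]
  simp

/-- sizes of the parser states -/
lemma bstep_size (B : ℕ) (s : BState) (b : Bool) (hs : s.2.1 ≤ B) :
    (bstep B s b).2.1 ≤ B ∧ tsize (bstep B s b).2.2.1 + tsize (bstep B s b).2.2.2 ≤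
      tsize s.2.2.1 + tsize s.2.2.2 + (2 * B + 10) ∧ (bstep B s b).1 ≤ 3 := by
  obtain ⟨mode, val, cur, don⟩ := s
  have hb := tsize_bool_le b
  simp only at hs
  unfold bstep
  simp only
  split_ifs <;> cases b <;>
    simp only [cond_true, cond_false, tsize_cons, tsize_pair, tsize_nat, tsize_reverse,
      tsize_nil] at * <;> (refine ⟨?_, ?_, ?_⟩ <;> omega)

lemma bfold_size (B : ℕ) (w : List Bool) : ∀ (s : BState), s.2.1 ≤ B → s.1 ≤ 3 →
    (w.foldl (bstep B) s).2.1 ≤ B ∧ tsize (w.foldl (bstep B) s).2.2.1 +
      tsize (w.foldl (bstep B) s).2.2.2 ≤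
      tsize s.2.2.1 + tsize s.2.2.2 + w.length * (2 * B + 10) ∧ (w.foldl (bstep B) s).1 ≤ 3 := by
  induction w with
  | nil => intro s h1 h2; simpa using ⟨h1, h2⟩
  | cons b w ih =>
    intro s h1 h2
    obtain ⟨h3, h4, h5⟩ := bstep_size B s b h1
    obtain ⟨h6, h7, h8⟩ := ih (bstep B s b) h3 h5
    simp only [List.foldl_cons, List.length_cons]
    refine ⟨h6, ?_, h8⟩
    have : (w.length + 1) * (2 * B + 10) = w.length * (2 * B + 10) + (2 * B + 10) := by ring
    omega

theorem PT_parseB {ι : Type} [DEnc ι] {B : ι → ℕ} {w : ι → List Bool} (hB : PT B) (hw : PT w) :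
    PT (fun i => parseB (B i) (w i)) := by
  unfold parseB
  have hs : PT (fun z : ι × BState × Bool => bstep (B z.1) z.2.1 z.2.2) := by
    unfold bstep
    have s : PT (fun z : ι × BState × Bool => z.2.1) := PT.snd.p1
    have b : PT (fun z : ι × BState × Bool => z.2.2) := PT.snd.p2
    have hB' : PT (fun z : ι × BState × Bool => B z.1) := hB.comp PT.fst
    have v := s.p2.p1
    have cur := s.p2.p2.p1
    have don := s.p2.p2.p2
    refine PT.ite (PT.neq s.p1 (PT.const 0)) ?_ (PT.ite (PT.neq s.p1 (PT.const 1)) ?_
      (PT.ite (PT.neq s.p1 (PT.const 2)) ?_ ?_))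
    · refine PT.cond b ?_ ?_
      · exact PT.pair (PT.const 1) (PT.pair (PT.const 0) s.p2.p2)
      · exact PT.pair (PT.const 0) (PT.pair (PT.const 0) (PT.pair (PT.const [])
          (PT.cons (PT.reverse cur) don)))
    · refine PT.cond b ?_ ?_
      · exact PT.pair (PT.const 2) s.p2
      · exact PT.pair (PT.const 3) s.p2
    · refine PT.cond b ?_ ?_
      · exact PT.pair (PT.const 1) (PT.pair (PT.ite (PT.nle (PT.nsucc (PT.nadd v v)) hB')
          (PT.nsucc (PT.nadd v v)) hB') s.p2.p2)
      · exact PT.pair (PT.const 1) (PT.pair (PT.ite (PT.nle (PT.nadd v v) hB')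
          (PT.nadd v v) hB') s.p2.p2)
    · exact PT.pair (PT.const 0) (PT.pair (PT.const 0) (PT.pair (PT.cons (PT.pair v b) cur) don))
  have hf := PT.foldl (l := w) (init := fun _ : ι => ((0, 0, [], []) : BState))
    (g := fun z : ι × BState × Bool => bstep (B z.1) z.2.1 z.2.2) hw (PT.const _) hs
    ⟨fun x => tsize (B x) + (tsize (w x) * (tsize (B x) + 10)) + 20,
      ((hB.size.add (hw.size.mul (hB.size.add (PB.const 10)))).add (PB.const 20)), by
      intro x l₁ l₂ h
      obtain ⟨h1, h2, h3⟩ := bfold_size (B x) l₁ ((0, 0, [], []) : BState) (Nat.zero_le _)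
        (by decide)
      have e : (fun (s : BState) (b : Bool) => bstep (B x) s b) = bstep (B x) := rfl
      simp only [e]
      generalize l₁.foldl (bstep (B x)) ((0, 0, [], []) : BState) = s at *
      obtain ⟨mode, val, cur, don⟩ := s
      simp only [tsize_nil] at h1 h2 h3
      simp only [tsize_pair, tsize_nat]
      have h4 : l₁.length ≤ tsize (w x) := by
        have := length_lt_tsize (w x)
        rw [← h] at this ⊢
        simp at this
        omega
      have h5 : l₁.length * (2 * B x + 10) ≤ tsize (w x) * (tsize (B x) + 10) := by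
        refine Nat.mul_le_mul h4 ?_
        rw [tsize_nat]
        omega
      rw [tsize_nat] at h5
      omega⟩
  exact PT.reverse hf.p2.p2.p2

/-! ### printing -/

lemma half_iter (n : ℕ) : ∀ (i m h : ℕ), n = m → m / 2 ≤ i →
    (fun s : ℕ × ℕ => if s.1 ≤ 1 then s else (s.1 - 2, s.2 + 1))^[i] (m, h) =
      (m % 2, h + m / 2) := by
  induction n using Nat.strongRec with
  | ind n ih =>
    intro i m h hm hi
    by_cases h1 : m ≤ 1
    · have h2 : ∀ i, (fun s : ℕ × ℕ => if s.1 ≤ 1 then s else (s.1 - 2, s.2 + 1))^[i] (m, h) =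
          (m, h) := by
        intro i
        induction i with
        | zero => rfl
        | succ i ih' => rw [iterate_succ_apply]; simp only [h1, ↓reduceIte]; exact ih'
      rw [h2]
      have : m % 2 = m := Nat.mod_eq_of_lt (by omega)
      have h3 : m / 2 = 0 := by omega
      rw [this, h3, add_zero]
    · obtain ⟨i', rfl⟩ : ∃ i', i = i' + 1 := ⟨i - 1, by omega⟩
      rw [iterate_succ_apply]
      simp only [h1, ↓reduceIte]
      rw [ih (m - 2) (by omega) i' (m - 2) (h + 1) rfl (by omega)]
      have e1 : (m - 2) % 2 = m % 2 := by omega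
      have e2 : h + 1 + (m - 2) / 2 = h + m / 2 := by omega
      rw [e1, e2]

theorem PT_divmod {ι : Type} [DEnc ι] {f : ι → ℕ} (hf : PT f) :
    PT (fun i => (f i % 2, f i / 2)) := by
  have hstep : PT (fun s : ℕ × ℕ => if s.1 ≤ 1 then s else (s.1 - 2, s.2 + 1)) := by
    refine PT.ite (PT.nle PT.fst (PT.const 1)) PT.id ?_
    exact PT.pair (PT.nsub PT.fst (PT.const 2)) (PT.nsucc PT.snd)
  have hsz : ∀ (i m h : ℕ), tsize ((fun s : ℕ × ℕ => if s.1 ≤ 1 then s else
      (s.1 - 2, s.2 + 1))^[i] (m, h)) ≤ 2 * m + 2 * h + 3 := by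
    intro i
    induction i with
    | zero => intro m h; simp [tsize_pair, tsize_nat]; omega
    | succ i ih =>
      intro m h
      rw [iterate_succ_apply]
      by_cases h1 : m ≤ 1
      · simp only [h1, ↓reduceIte]
        exact ih m h
      · simp only [h1, ↓reduceIte]
        refine (ih _ _).trans ?_
        omega
  have h := PT.iterateNat (count := f) (init := fun i => (f i, 0)) hf
    (PT.pair hf (PT.const 0)) hstep ⟨fun i => tsize (f i) + 3, hf.size.add (PB.const 3), by
      intro x i _
      refine (hsz i (f x) 0).trans ?_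
      simp only [tsize_nat]
      omega⟩
  refine h.congr fun i => ?_
  rw [half_iter (f i) (f i) (f i) 0 rfl (Nat.div_le_self _ _)]
  simp

/-- step of the computation of the digits -/
def binStep (s : ℕ × List Bool) : ℕ × List Bool :=
  if s.1 = 0 then s else (s.1 / 2, decide (s.1 % 2 = 1) :: s.2)

lemma binStep_iter (n : ℕ) : ∀ (i : ℕ) (l : List Bool), n ≤ i →
    binStep^[i] (n, l) = (0, binD n ++ l) := by
  induction n using Nat.strongRec with
  | ind n ih =>
    intro i l hi
    by_cases h0 : n = 0
    · subst h0
      have h2 : ∀ i, binStep^[i] (0, l) = (0, l) := by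
        intro i
        induction i with
        | zero => rfl
        | succ i ih' => rw [iterate_succ_apply]; exact ih'
      rw [h2]
      simp [binD]
    · obtain ⟨i', rfl⟩ : ∃ i', i = i' + 1 := ⟨i - 1, by omega⟩
      rw [iterate_succ_apply]
      have h1 : binStep (n, l) = (n / 2, decide (n % 2 = 1) :: l) := by
        simp [binStep, h0]
      rw [h1, ih (n / 2) (by omega) i' _ (by omega)]
      have hd : binD n = binD (n / 2) ++ [decide (n % 2 = 1)] := by
        unfold binD
        have h3 : n = Nat.bit (decide (n % 2 = 1)) (n / 2) := by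
          rw [Nat.bit_val]
          rcases Nat.mod_two_eq_zero_or_one n with h | h
          · simp [h]; omega
          · simp [h]; omega
        conv_lhs => rw [h3, Nat.bits_append_bit (n / 2) _ (by
          intro h4
          have : n = 1 := by omega
          simp [this])]
        simp
      rw [hd]
      simp

lemma binStep_size (i : ℕ) : ∀ (n : ℕ) (l : List Bool),
    tsize (binStep^[i] (n, l)) ≤ 2 * n + 2 + tsize l + 4 * i := by
  induction i with
  | zero => intro n l; simp [tsize_pair, tsize_nat]
  | succ i ih =>
    intro n l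
    rw [iterate_succ_apply]
    by_cases h0 : n = 0
    · have : binStep (n, l) = (n, l) := by simp [binStep, h0]
      rw [this]
      exact (ih n l).trans (by omega)
    · have : binStep (n, l) = (n / 2, decide (n % 2 = 1) :: l) := by simp [binStep, h0]
      rw [this]
      refine (ih _ _).trans ?_
      have := tsize_bool_le (decide (n % 2 = 1))
      simp only [tsize_cons]
      omega

theorem PT_binD {ι : Type} [DEnc ι] {f : ι → ℕ} (hf : PT f) : PT (fun i => binD (f i)) := by
  have hstep : PT binStep := by
    unfold binStep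
    refine PT.ite (PT.neq PT.fst (PT.const 0)) PT.id ?_
    have hd := PT_divmod (ι := ℕ × List Bool) PT.fst
    exact PT.pair hd.p2 (PT.cons (PT.neq hd.p1 (PT.const 1)) PT.snd)
  have h := PT.iterateNat (count := f) (init := fun i => (f i, ([] : List Bool))) hf
    (PT.pair hf (PT.const [])) hstep ⟨fun i => tsize (f i) + 2 + 4 * tsize (f i),
      ((hf.size.add (PB.const 2)).add ((PB.const 4).mul hf.size)), by
      intro x i hi
      refine (binStep_size i (f x) []).trans ?_
      simp only [tsize_nat, tsize_nil]
      omega⟩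
  refine (PT.snd.comp h).congr fun i => ?_
  rw [binStep_iter (f i) (f i) [] le_rfl]
  simp

theorem PT_encB {ι : Type} [DEnc ι] {φ : ι → List (List Lit)} (hφ : PT φ) :
    PT (fun i => encB (φ i)) := by
  unfold encB encClauseB
  refine PT.flatMap (g := fun z : ι × List Lit => z.2.flatMap (fun l => true ::
    ((binD l.1).flatMap (fun d => [true, d]) ++ [false, l.2])) ++ [false]) hφ ?_
  refine PT.append ?_ (PT.const [false])
  refine PT.flatMap (g := fun y : (ι × List Lit) × Lit =>
    true :: ((binD y.2.1).flatMap (fun d => [true, d]) ++ [false, y.2.2])) PT.snd ?_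
  refine PT.cons (PT.const true) (PT.append ?_
    (PT.cons (PT.const false) (PT.cons PT.snd.p2 (PT.const []))))
  refine PT.flatMap (g := fun y : ((ι × List Lit) × Lit) × Bool => [true, y.2])
    (PT_binD PT.snd.p1) ?_
  exact PT.cons (PT.const true) (PT.cons PT.snd (PT.const []))

end Pool.Agent.MP_925109_lc
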