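import Mathlib
import Pool.Agent.MP_925109_lc.AucSpec

/-!
Correctness of the computation of the maximal deficiency and of the core.
-/

set_option autoImplicit false

namespace Pool.Agent.MP_925109_lc

/-! ### counting with the owners -/

section

variable {φ : List (List Lit)} {E V : List ℕ} {s : List Ent}

theorem core_fst_inj (hV : V.Nodup) (h : AucSpec φ E V s) {e e' : Ent} (he : e ∈ s) (he' : e' ∈ s)
    (hee : e.1 = e'.1) : e = e' := by
  have h1 : (s.map Prod.fst).Nodup := by rw [h.vars]; exact hV
  exact List.inj_on_of_nodup_map h1 he he' hee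

theorem core_not_unowned {c : ℕ} (hc : unowned s c = false) : ∃ e ∈ s, e.2.2 = c + 1 := by
  unfold unowned at hc
  rw [List.all_eq_false] at hc
  obtain ⟨e, he, h1⟩ := hc
  refine ⟨e, he, ?_⟩
  simpa using h1

theorem core_unowned {c : ℕ} (hc : unowned s c = true) {e : Ent} (he : e ∈ s) : e.2.2 ≠ c + 1 := by
  unfold unowned at hc
  rw [List.all_eq_true] at hc
  simpa using hc e he

/-- the clauses of `D` which own a variable -/
def ownedIn (s : List Ent) (D : Finset ℕ) : Finset ℕ := D.filter (fun c => unowned s c = false)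

/-- the clauses of `D` without a variable -/
def unownedIn (s : List Ent) (D : Finset ℕ) : Finset ℕ := D.filter (fun c => unowned s c = true)

theorem core_card_split (s : List Ent) (D : Finset ℕ) :
    (unownedIn s D).card + (ownedIn s D).card = D.card := by
  unfold unownedIn ownedIn
  have h := Finset.card_filter_add_card_filter_not (s := D) (fun c => unowned s c = true)
  simpa using h

open Classical in
/-- the variable owned by a clause -/
noncomputable def ownVar (s : List Ent) (c : ℕ) : ℕ :=
  if h : ∃ e ∈ s, e.2.2 = c + 1 then h.choose.1 else 0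

theorem core_ownVar {c : ℕ} (hc : unowned s c = false) :
    ∃ e ∈ s, e.2.2 = c + 1 ∧ ownVar s c = e.1 := by
  have h := core_not_unowned hc
  refine ⟨h.choose, h.choose_spec.1, h.choose_spec.2, ?_⟩
  unfold ownVar
  rw [dif_pos h]

theorem core_ownVar_injOn (hV : V.Nodup) (h : AucSpec φ E V s) (D : Finset ℕ) :
    Set.InjOn (ownVar s) (ownedIn s D) := by
  intro c hc c' hc' hcc
  have h1 : unowned s c = false := (Finset.mem_filter.mp hc).2
  have h2 : unowned s c' = false := (Finset.mem_filter.mp hc').2
  obtain ⟨e, he, he1, he2⟩ := core_ownVar h1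
  obtain ⟨e', he', he1', he2'⟩ := core_ownVar h2
  have h3 : e = e' := core_fst_inj hV h he he' (by rw [← he2, ← he2', hcc])
  subst h3
  omega

theorem core_ownVar_mem (h : AucSpec φ E V s) {D : Finset ℕ} {c : ℕ} (hc : c ∈ ownedIn s D) :
    ownVar s c ∈ vr (fam φ) V.toFinset D := by
  have h0 := Finset.mem_filter.mp hc
  obtain ⟨e, he, he1, he2⟩ := core_ownVar h0.2
  rw [mem_vr]
  refine ⟨?_, c, h0.1, ?_⟩
  · rw [he2, List.mem_toFinset, ← h.vars]
    exact List.mem_map_of_mem he
  · rw [he2, ← occL_iff]
    exact (h.own e he c he1).2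

theorem core_image_subset (h : AucSpec φ E V s) (D : Finset ℕ) :
    (ownedIn s D).image (ownVar s) ⊆ vr (fam φ) V.toFinset D := by
  intro x hx
  obtain ⟨c, hc, rfl⟩ := Finset.mem_image.mp hx
  exact core_ownVar_mem h hc

theorem core_owned_le (hV : V.Nodup) (h : AucSpec φ E V s) (D : Finset ℕ) :
    (ownedIn s D).card ≤ (vr (fam φ) V.toFinset D).card := by
  rw [← Finset.card_image_of_injOn (core_ownVar_injOn hV h D)]
  exact Finset.card_le_card (core_image_subset h D)

theorem core_df_le (hV : V.Nodup) (h : AucSpec φ E V s) (D : Finset ℕ) :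
    df (fam φ) V.toFinset D ≤ (unownedIn s D).card := by
  have h1 := core_owned_le hV h D
  have h2 := core_card_split s D
  unfold df
  omega

theorem core_unowned_mono {D D' : Finset ℕ} (hD : D ⊆ D') : unownedIn s D ⊆ unownedIn s D' :=
  Finset.filter_subset_filter _ hD

/-- what a set of maximal deficiency looks like -/
theorem core_max (hV : V.Nodup) (h : AucSpec φ E V s) {D : Finset ℕ} (hD : D ⊆ E.toFinset)
    (hdf : df (fam φ) V.toFinset D = (unownedIn s E.toFinset).card) :
    unownedIn s E.toFinset ⊆ D ∧
      ∀ x ∈ vr (fam φ) V.toFinset D, ∃ e ∈ s, e.1 = x ∧ ∃ c ∈ D, e.2.2 = c + 1 := by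
  have h1 := core_owned_le hV h D
  have h2 := core_card_split s D
  have h3 := Finset.card_le_card (core_unowned_mono (s := s) hD)
  have h4 : (unownedIn s D).card = (unownedIn s E.toFinset).card := by
    unfold df at hdf; omega
  have h5 : (ownedIn s D).card = (vr (fam φ) V.toFinset D).card := by
    unfold df at hdf; omega
  have h6 : unownedIn s D = unownedIn s E.toFinset :=
    Finset.eq_of_subset_of_card_le (core_unowned_mono hD) h4.ge
  have h7 : (ownedIn s D).image (ownVar s) = vr (fam φ) V.toFinset D := by
    refine Finset.eq_of_subset_of_card_le (core_image_subset h D) ?_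
    rw [Finset.card_image_of_injOn (core_ownVar_injOn hV h D), h5]
  refine ⟨?_, ?_⟩
  · rw [← h6]; exact Finset.filter_subset _ _
  · intro x hx
    rw [← h7] at hx
    obtain ⟨c, hc, rfl⟩ := Finset.mem_image.mp hx
    have h8 := Finset.mem_filter.mp hc
    obtain ⟨e, he, he1, he2⟩ := core_ownVar h8.2
    exact ⟨e, he, he2.symm, c, h8.1, he1⟩

end

theorem core_unm_toFinset (φ : List (List Lit)) (E V : List ℕ) :
    (unm φ E V).toFinset = unownedIn (auc φ E V) E.toFinset := by
  unfold unm unownedIn
  ext c
  simp

theorem core_nuL_eq (φ : List (List Lit)) (E V : List ℕ) (hE : E.Nodup) :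
    nuL φ E V = (unownedIn (auc φ E V) E.toFinset).card := by
  rw [← core_unm_toFinset, List.toFinset_card_of_nodup]
  · rfl
  · exact hE.filter _

theorem nuL_spec (φ : List (List Lit)) (E V : List ℕ) (hE : E.Nodup) (hV : V.Nodup) :
    NuLe (fam φ) V.toFinset E.toFinset (nuL φ E V) ∧
      ∃ B ⊆ E.toFinset, df (fam φ) V.toFinset B = nuL φ E V := by
  have h := auc_spec φ E V hE hV
  have h1 : NuLe (fam φ) V.toFinset E.toFinset (nuL φ E V) := by
    intro B hB
    rw [core_nuL_eq φ E V hE]
    refine (core_df_le hV h B).trans ?_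
    exact_mod_cast Finset.card_le_card (core_unowned_mono hB)
  refine ⟨h1, ?_⟩
  obtain ⟨A, hA, hA'⟩ := h.dual
  exact ⟨A, hA, le_antisymm (h1 A hA) hA'⟩

theorem nuL_le_iff (φ : List (List Lit)) (E V : List ℕ) (hE : E.Nodup) (hV : V.Nodup) (m : ℕ) :
    nuL φ E V ≤ m ↔ NuLe (fam φ) V.toFinset E.toFinset m := by
  obtain ⟨h1, B, hB, hB'⟩ := nuL_spec φ E V hE hV
  constructor
  · intro h D hD
    refine (h1 D hD).trans ?_
    exact_mod_cast h
  · intro h
    have := h B hB
    rw [hB'] at this
    exact_mod_cast this

theorem core_iter_sublist (φ : List (List Lit)) (E V : List ℕ) (i : ℕ) :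
    ((cloStep φ E (auc φ E V))^[i] (unm φ E V)).Sublist E := by
  cases i with
  | zero => exact List.filter_sublist
  | succ i =>
    rw [Function.iterate_succ_apply']
    exact List.filter_sublist

theorem coreL_sublist (φ : List (List Lit)) (E V : List ℕ) : (coreL φ E V).Sublist E :=
  core_iter_sublist φ E V _

/-- a sublist given as a filter -/
theorem core_sublist_step (φ : List (List Lit)) (E : List ℕ) (s : List Ent) (p : ℕ → Bool) :
    (E.filter p).Sublist (cloStep φ E s (E.filter p)) := by
  unfold cloStep
  have h : E.filter p = (E.filter fun c => decide (c ∈ E.filter p)) := by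
    refine List.filter_congr fun c hc => ?_
    by_cases hp : p c = true
    · simp [hp, hc]
    · simp [hp]
  conv_lhs => rw [h]
  refine List.monotone_filter_right _ ?_
  intro c hc
  simp only [Bool.or_eq_true]
  exact Or.inl hc

theorem core_iter_filter (φ : List (List Lit)) (E V : List ℕ) (i : ℕ) :
    ∃ p : ℕ → Bool, (cloStep φ E (auc φ E V))^[i] (unm φ E V) = E.filter p := by
  cases i with
  | zero => exact ⟨_, rfl⟩
  | succ i =>
    rw [Function.iterate_succ_apply']
    exact ⟨_, rfl⟩

theorem core_iter_step (φ : List (List Lit)) (E V : List ℕ) (i : ℕ) :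
    ((cloStep φ E (auc φ E V))^[i] (unm φ E V)).Sublist
      ((cloStep φ E (auc φ E V))^[i + 1] (unm φ E V)) := by
  rw [Function.iterate_succ_apply']
  obtain ⟨p, hp⟩ := core_iter_filter φ E V i
  rw [hp]
  exact core_sublist_step φ E _ p

theorem core_fixed (φ : List (List Lit)) (E V : List ℕ) :
    cloStep φ E (auc φ E V) (coreL φ E V) = coreL φ E V := by
  set f := cloStep φ E (auc φ E V) with hf
  set z := unm φ E V with hz
  have key : ∀ i, f (f^[i] z) = f^[i] z ∨ i < (f^[i + 1] z).length := by
    intro i
    induction i with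
    | zero =>
      have h1 : (f^[0] z).Sublist (f^[1] z) := core_iter_step φ E V 0
      by_cases h2 : f (f^[0] z) = f^[0] z
      · exact Or.inl h2
      · right
        have h3 : (f^[0] z).length ≠ (f^[1] z).length := fun h4 => h2 (h1.eq_of_length h4).symm
        have := h1.length_le
        show 0 < (f^[1] z).length
        omega
    | succ i ih =>
      by_cases h2 : f (f^[i + 1] z) = f^[i + 1] z
      · exact Or.inl h2
      · right
        have h0 : f (f^[i] z) ≠ f^[i] z := by
          intro h
          apply h2
          rw [Function.iterate_succ_apply', h, h]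
        have h5 := ih.resolve_left h0
        have h1 : (f^[i + 1] z).Sublist (f^[i + 1 + 1] z) := core_iter_step φ E V (i + 1)
        have h3 : (f^[i + 1] z).length ≠ (f^[i + 1 + 1] z).length := fun h4 =>
          h2 ((Function.iterate_succ_apply' f (i + 1) z).symm.trans (h1.eq_of_length h4).symm)
        have := h1.length_le
        omega
  rcases key E.length with h | h
  · exact h
  · exfalso
    have := (core_iter_sublist φ E V (E.length + 1)).length_le
    rw [← hf, ← hz] at this
    omega

theorem core_mem_cloStep {φ : List (List Lit)} {E : List ℕ} {s : List Ent} {Z : List ℕ} {c : ℕ} :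
    c ∈ cloStep φ E s Z ↔ c ∈ E ∧ (c ∈ Z ∨ ∃ e ∈ s, e.2.2 = c + 1 ∧ ∃ d ∈ Z, occ (fam φ) d e.1) := by
  unfold cloStep
  simp only [List.mem_filter, Bool.or_eq_true, decide_eq_true_eq, List.any_eq_true,
    Bool.and_eq_true, occL_iff]

theorem coreL_spec (φ : List (List Lit)) (E V : List ℕ) (hE : E.Nodup) (hV : V.Nodup) :
    IsCore (fam φ) V.toFinset E.toFinset (coreL φ E V).toFinset := by
  have h := auc_spec φ E V hE hV
  set s := auc φ E V with hs
  obtain ⟨hν, D₀, hD₀, hdf₀⟩ := nuL_spec φ E V hE hV
  rw [core_nuL_eq φ E V hE] at hν hdf₀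
  rw [← hs] at hν hdf₀
  set C := (coreL φ E V).toFinset with hC
  have hCE : C ⊆ E.toFinset := by
    intro c hc
    rw [hC, List.mem_toFinset] at hc
    rw [List.mem_toFinset]
    exact (coreL_sublist φ E V).subset hc
  -- the core is contained in all sets of maximal deficiency
  have hmin : ∀ D ⊆ E.toFinset, df (fam φ) V.toFinset D = (unownedIn s E.toFinset).card →
      C ⊆ D := by
    intro D hD hdf
    obtain ⟨hU, hown⟩ := core_max hV h hD hdf
    have hind : ∀ i, ∀ c ∈ (cloStep φ E s)^[i] (unm φ E V), c ∈ D := by
      intro i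
      induction i with
      | zero =>
        intro c hc
        apply hU
        rw [hs, ← core_unm_toFinset, List.mem_toFinset]
        exact hc
      | succ i ih =>
        intro c hc
        rw [Function.iterate_succ_apply', core_mem_cloStep] at hc
        obtain ⟨hcE, hc' | ⟨e, he, hec, d, hd, hocc⟩⟩ := hc
        · exact ih c hc'
        · have hx : e.1 ∈ vr (fam φ) V.toFinset D := by
            rw [mem_vr]
            refine ⟨?_, d, ih d hd, hocc⟩
            rw [List.mem_toFinset, ← h.vars]
            exact List.mem_map_of_mem he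
          obtain ⟨e', he', hee, c', hc', hec'⟩ := hown _ hx
          have h3 : e' = e := core_fst_inj hV h he' he hee
          subst h3
          have : c = c' := by omega
          rw [this]; exact hc'
    intro c hc
    rw [hC, List.mem_toFinset] at hc
    exact hind E.length c hc
  have hclosed : ∀ c ∈ E, ∀ e ∈ s, e.2.2 = c + 1 → ∀ d ∈ C, occ (fam φ) d e.1 → c ∈ C := by
    intro c hcE e he hec d hd hocc
    rw [hC, List.mem_toFinset, ← core_fixed, core_mem_cloStep]
    refine ⟨hcE, Or.inr ⟨e, he, hec, d, ?_, hocc⟩⟩
    rw [hC, List.mem_toFinset] at hd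
    exact hd
  have hUC : unownedIn s E.toFinset ⊆ C := by
    have hsub : ∀ i, (unm φ E V).Sublist ((cloStep φ E s)^[i] (unm φ E V)) := by
      intro i
      induction i with
      | zero => exact List.Sublist.refl _
      | succ i ih => exact ih.trans (core_iter_step φ E V i)
    intro c hc
    rw [hs, ← core_unm_toFinset, List.mem_toFinset] at hc
    rw [hC, List.mem_toFinset]
    exact (hsub E.length).subset hc
  obtain ⟨hU₀, hown₀⟩ := core_max hV h hD₀ hdf₀
  have hCD₀ := hmin D₀ hD₀ hdf₀
  have hdfC : df (fam φ) V.toFinset C = (unownedIn s E.toFinset).card := by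
    refine le_antisymm (hν C hCE) ?_
    have h1 : vr (fam φ) V.toFinset C ⊆ (ownedIn s C).image (ownVar s) := by
      intro x hx
      obtain ⟨e, he, hex, c, hcD, hec⟩ := hown₀ x (vr_mono hCD₀ hx)
      obtain ⟨hxV, d, hdC, hocc⟩ := mem_vr.mp hx
      have hcE := (h.own e he c hec).1
      have hcC : c ∈ C := hclosed c hcE e he hec d hdC (by rw [hex]; exact hocc)
      have hcu : unowned s c = false := by
        by_contra hne
        have h2 : unowned s c = true := by simpa using hne
        exact core_unowned h2 he hec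
      refine Finset.mem_image.mpr ⟨c, Finset.mem_filter.mpr ⟨hcC, hcu⟩, ?_⟩
      obtain ⟨e', he', hec', hv⟩ := core_ownVar hcu
      have h3 : e' = e := h.uniq e' he' e he c hec' hec
      rw [hv, h3, hex]
    have h2 : (vr (fam φ) V.toFinset C).card ≤ (ownedIn s C).card :=
      (Finset.card_le_card h1).trans Finset.card_image_le
    have h3 := core_card_split s C
    have h4 : unownedIn s E.toFinset ⊆ unownedIn s C := by
      intro c hc
      exact Finset.mem_filter.mpr ⟨hUC hc, (Finset.mem_filter.mp hc).2⟩
    have h5 := Finset.card_le_card h4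
    unfold df
    omega
  refine ⟨hCE, ?_, ?_⟩
  · intro D hD
    rw [hdfC]
    exact hν D hD
  · intro D hD hdf
    rw [hdfC] at hdf
    exact hmin D hD hdf

end Pool.Agent.MP_925109_lc
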