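import Mathlib
import Pool.Agent.MP_925109_lc.Defs

/-!
Crossing numbers of bijections.
-/

set_option autoImplicit false

namespace Pool.Agent.MP_925109_lc

/-- number of variables of the node matched with clauses outside of the node -/
def inN (M : ℕ → ℕ) (E V : Finset ℕ) : ℕ := (V.filter (fun x => M x ∉ E)).card

/-- number of variables outside of the node matched with clauses of the node -/
def outN (M : ℕ → ℕ) (VG E V : Finset ℕ) : ℕ := ((VG \ V).filter (fun x => M x ∈ E)).card

theorem card_cross {M : ℕ → ℕ} {VG E V : Finset ℕ} (hV : V ⊆ VG) :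
    (VG.filter (fun x => M x ∈ E)).card + inN M E V = V.card + outN M VG E V := by
  have h1 : (VG.filter (fun x => M x ∈ E)).card
      = (V.filter (fun x => M x ∈ E)).card + outN M VG E V := by
    unfold outN
    rw [← Finset.card_union_of_disjoint]
    · congr 1
      ext x
      simp only [Finset.mem_filter, Finset.mem_union, Finset.mem_sdiff]
      constructor
      · rintro ⟨hx, hE⟩
        by_cases hxV : x ∈ V
        · exact Or.inl ⟨hxV, hE⟩
        · exact Or.inr ⟨⟨hx, hxV⟩, hE⟩
      · rintro (⟨hx, hE⟩ | ⟨⟨hx, _⟩, hE⟩)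
        · exact ⟨hV hx, hE⟩
        · exact ⟨hx, hE⟩
    · rw [Finset.disjoint_left]
      intro x hx hx'
      simp only [Finset.mem_filter, Finset.mem_sdiff] at hx hx'
      exact hx'.1.2 hx.1
  have h2 : (V.filter (fun x => M x ∈ E)).card + inN M E V = V.card := by
    unfold inN
    exact Finset.card_filter_add_card_filter_not (s := V) (p := fun x => M x ∈ E)
  omega

theorem inN_add_le {M : ℕ → ℕ} {G VG E V : Finset ℕ} (hM : Set.InjOn M VG)
    (hG : ∀ x ∈ VG, M x ∈ G) (hE : E ⊆ G) (hV : V ⊆ VG) :
    inN M E V + E.card + VG.card ≤ V.card + outN M VG E V + G.card := by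
  have h1 := card_cross (M := M) (E := E) hV
  have h2 : (VG.filter (fun x => M x ∈ E)).card + (VG.filter (fun x => M x ∉ E)).card
      = VG.card := Finset.card_filter_add_card_filter_not (s := VG) (p := fun x => M x ∈ E)
  have h3 : (VG.filter (fun x => M x ∉ E)).card ≤ (G \ E).card := by
    apply Finset.card_le_card_of_injOn M
    · intro x hx
      have hx' := Finset.mem_filter.mp (Finset.mem_coe.mp hx)
      exact Finset.mem_coe.mpr (Finset.mem_sdiff.mpr ⟨hG x hx'.1, hx'.2⟩)
    · intro x hx y hy hxy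
      have hx' := Finset.mem_filter.mp (Finset.mem_coe.mp hx)
      have hy' := Finset.mem_filter.mp (Finset.mem_coe.mp hy)
      exact hM hx'.1 hy'.1 hxy
  have h4 : (G \ E).card + E.card = G.card := Finset.card_sdiff_add_card_eq_card hE
  omega

theorem outN_add_le {M : ℕ → ℕ} {VG E V : Finset ℕ} (hM : Set.InjOn M VG) (hV : V ⊆ VG) :
    outN M VG E V + V.card ≤ E.card + inN M E V := by
  have h1 := card_cross (M := M) (E := E) hV
  have h3 : (VG.filter (fun x => M x ∈ E)).card ≤ E.card := by
    apply Finset.card_le_card_of_injOn M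
    · intro x hx
      have hx' := Finset.mem_filter.mp (Finset.mem_coe.mp hx)
      exact Finset.mem_coe.mpr hx'.2
    · intro x hx y hy hxy
      have hx' := Finset.mem_filter.mp (Finset.mem_coe.mp hx)
      have hy' := Finset.mem_filter.mp (Finset.mem_coe.mp hy)
      exact hM hx'.1 hy'.1 hxy
  omega

/-- the variables of the part do not occur in the rest of the node -/
theorem inN_private {F : Fam} {M : ℕ → ℕ} {VG E V E' V' : Finset ℕ}
    (hocc : ∀ x ∈ VG, occ F (M x) x) (hVG : V ⊆ VG) (hV : V' ⊆ V)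
    (hp : ∀ c ∈ E, c ∉ E' → ∀ x ∈ V', ¬ occ F c x) : inN M E' V' ≤ inN M E V := by
  unfold inN
  apply Finset.card_le_card
  intro x hx
  rw [Finset.mem_filter] at hx ⊢
  exact ⟨hV hx.1, fun h => hp (M x) h hx.2 x hx.1 (hocc x (hVG (hV hx.1)))⟩

/-- the clauses of the part contain at most one variable of the rest of the node -/
theorem outN_closed {F : Fam} {M : ℕ → ℕ} {VG E V E' V' : Finset ℕ} (w : ℕ)
    (hocc : ∀ x ∈ VG, occ F (M x) x) (hE : E' ⊆ E)
    (hp : ∀ c ∈ E', ∀ x ∈ V, occ F c x → x ∈ V' ∨ x = w) :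
    outN M VG E' V' ≤ outN M VG E V + 1 := by
  unfold outN
  refine le_trans (Finset.card_le_card (t := insert w ((VG \ V).filter (fun x => M x ∈ E))) ?_)
    (Finset.card_insert_le _ _)
  intro x hx
  rw [Finset.mem_filter, Finset.mem_sdiff] at hx
  rw [Finset.mem_insert, Finset.mem_filter, Finset.mem_sdiff]
  by_cases hxV : x ∈ V
  · rcases hp (M x) hx.2 x hxV (hocc x hx.1.1) with h | h
    · exact absurd h hx.1.2
    · exact Or.inl h
  · exact Or.inr ⟨⟨hx.1.1, hxV⟩, hE hx.2⟩

end Pool.Agent.MP_925109_lc
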