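import Mathlib
import Pool.Agent.MP_925109_lc.Alg

/-!
Lemmas on the list constructions.
-/

set_option autoImplicit false

namespace Pool.Agent.MP_925109_lc

lemma mem_tup {β : Type} (k : ℕ) (l : List β) (a : List β) :
    a ∈ tup k l ↔ a.length ≤ k ∧ ∀ x ∈ a, x ∈ l := by
  induction k generalizing a with
  | zero =>
    simp [tup]
    rintro rfl
    simp
  | succ k ih =>
    simp only [tup, List.mem_cons, List.mem_flatMap, List.mem_map, ih]
    constructor
    · rintro (rfl | ⟨x, hx, t, ⟨ht1, ht2⟩, rfl⟩)
      · simp
      · refine ⟨by simpa using ht1, ?_⟩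
        intro y hy
        rcases List.mem_cons.1 hy with rfl | hy
        · exact hx
        · exact ht2 y hy
    · rintro ⟨h1, h2⟩
      cases a with
      | nil => exact Or.inl rfl
      | cons x t =>
        refine Or.inr ⟨x, h2 x (by simp), t, ⟨by simpa using h1, fun y hy => h2 y (by simp [hy])⟩, rfl⟩

lemma mem_litsL (V : List ℕ) (l : Lit) : l ∈ litsL V ↔ l.1 ∈ V := by
  obtain ⟨x, e⟩ := l
  simp only [litsL, List.mem_flatMap]
  constructor
  · rintro ⟨y, hy, h⟩
    simp at h
    rcases h with h | h <;> · rw [h.1]; exact hy
  · intro h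
    refine ⟨x, h, ?_⟩
    cases e <;> simp

lemma mem_worlds (k : ℕ) (b : List Bool) : b ∈ worlds k ↔ b.length = k := by
  induction k generalizing b with
  | zero => simp [worlds, List.length_eq_zero_iff]
  | succ k ih =>
    simp only [worlds, List.mem_flatMap, ih]
    constructor
    · rintro ⟨b', hb', h⟩
      simp at h
      rcases h with rfl | rfl <;> simp [hb']
    · intro h
      cases b with
      | nil => simp at h
      | cons e b' =>
        refine ⟨b', by simpa using h, ?_⟩
        cases e <;> simp

lemma worlds_nodup (k : ℕ) : (worlds k).Nodup := by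
  induction k with
  | zero => simp [worlds]
  | succ k ih =>
    rw [worlds, List.nodup_flatMap]
    refine ⟨fun b _ => by simp, ?_⟩
    refine ih.imp ?_
    intro a b hab
    simp only [Function.onFun, List.disjoint_left]
    intro x hx hx'
    simp at hx hx'
    rcases hx with rfl | rfl <;> simp at hx' <;> exact hab hx'

lemma worlds_card (k : ℕ) : (worlds k).toFinset.card = 2 ^ k := by
  rw [List.toFinset_card_of_nodup (worlds_nodup k)]
  induction k with
  | zero => simp [worlds]
  | succ k ih =>
    rw [worlds, List.length_flatMap]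
    simp [ih, pow_succ]

lemma mem_prefs (k : ℕ) (s : List Bool) : s ∈ prefs k ↔ s.length < k := by
  simp [prefs, mem_worlds]

lemma mem_maps {α β : Type} (as : List α) (U : List β) (L : List (α × β)) :
    L ∈ maps as U ↔ L.map Prod.fst = as ∧ ∀ p ∈ L, p.2 ∈ U := by
  induction as generalizing L with
  | nil =>
    simp only [maps, List.mem_singleton]
    constructor
    · rintro rfl; simp
    · rintro ⟨h, -⟩; simpa using h
  | cons a as ih =>
    simp only [maps, List.mem_flatMap, List.mem_map, ih]
    constructor
    · rintro ⟨u, hu, L', ⟨h1, h2⟩, rfl⟩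
      refine ⟨by simp [h1], ?_⟩
      intro p hp
      rcases List.mem_cons.1 hp with rfl | hp
      · exact hu
      · exact h2 p hp
    · rintro ⟨h1, h2⟩
      cases L with
      | nil => simp at h1
      | cons p L' =>
        obtain ⟨x, u⟩ := p
        simp only [List.map_cons, List.cons.injEq] at h1
        obtain ⟨rfl, h1⟩ := h1
        exact ⟨u, h2 (x, u) (by simp), L', ⟨h1, fun p hp => h2 p (by simp [hp])⟩, rfl⟩

lemma map_mem_maps {α β : Type} (as : List α) (U : List β) (f : α → β) (h : ∀ a ∈ as, f a ∈ U) :
    as.map (fun a => (a, f a)) ∈ maps as U := by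
  rw [mem_maps]
  constructor
  · rw [List.map_map]
    conv_rhs => rw [← List.map_id as]
    rfl
  · intro p hp
    rw [List.mem_map] at hp
    obtain ⟨a, ha, rfl⟩ := hp
    exact h a ha

lemma look_map {β : Type} (d : β) (as : List (List Bool)) (f : List Bool → β) (s : List Bool) :
    look d (as.map (fun a => (a, f a))) s = if s ∈ as then f s else d := by
  unfold look
  induction as with
  | nil => simp
  | cons a as ih =>
    by_cases h : a = s
    · subst h
      simp
    · have h' : ¬ s = a := fun e => h e.symm
      simp only [List.map_cons, List.filter_cons, h, decide_false, List.mem_cons, h', false_or]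
      exact ih

lemma look_mem {β : Type} (d : β) (as : List (List Bool)) (U : List β)
    (L : List (List Bool × β)) (hL : L ∈ maps as U) (s : List Bool) :
    look d L s = d ∨ look d L s ∈ U := by
  unfold look
  cases hL' : (L.filter (fun p => decide (p.1 = s))).map Prod.snd with
  | nil => left; rfl
  | cons x xs =>
    right
    have hx : x ∈ (L.filter (fun p => decide (p.1 = s))).map Prod.snd := by rw [hL']; simp
    rw [List.mem_map] at hx
    obtain ⟨p, hp, rfl⟩ := hx
    exact ((mem_maps as U L).1 hL).2 p (List.mem_filter.1 hp).1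

lemma filter_mem_patU (m : ℕ) (T : List Tri) (P : Tri → Bool)
    (h : (T.filter P).toFinset.card ≤ m) : T.filter P ∈ patU m T := by
  unfold patU
  rw [List.mem_map]
  refine ⟨(T.filter P).toFinset.toList, ?_, ?_⟩
  · rw [mem_tup]
    refine ⟨by rw [Finset.length_toList]; exact h, ?_⟩
    intro x hx
    rw [Finset.mem_toList, List.mem_toFinset] at hx
    exact (List.mem_filter.1 hx).1
  · apply List.filter_congr
    intro z hz
    rw [Bool.eq_iff_iff, decide_eq_true_eq, Finset.mem_toList, List.mem_toFinset, List.mem_filter]
    exact ⟨fun h => h.2, fun h => ⟨hz, h⟩⟩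

lemma patU_subset (m : ℕ) (T : List Tri) (p : Pat) (hp : p ∈ patU m T) : ∀ z ∈ p, z ∈ T := by
  unfold patU at hp
  rw [List.mem_map] at hp
  obtain ⟨a, _, rfl⟩ := hp
  intro z hz
  exact (List.mem_filter.1 hz).1

lemma mem_tris (k : ℕ) (φ : List (List Lit)) (t : Nd) (z : Tri) :
    z ∈ tris k φ t ↔ z.1.length = k ∧ z.2.1 ∈ t.1 ∧ z.2.2 ∈ φ.getD z.2.1 [] ∧ z.2.2.1 ∈ t.2 := by
  obtain ⟨b, c, l⟩ := z
  simp only [tris, List.mem_flatMap, List.mem_map, List.mem_filter, mem_worlds, decide_eq_true_eq]
  constructor
  · rintro ⟨b', hb', c', hc', l', ⟨h1, h2⟩, h3⟩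
    simp only [Prod.mk.injEq] at h3
    obtain ⟨rfl, rfl, rfl⟩ := h3
    exact ⟨hb', hc', h1, h2⟩
  · rintro ⟨h1, h2, h3, h4⟩
    exact ⟨b, h1, c, h2, l, ⟨h3, h4⟩, rfl⟩

lemma mem_exL (q : List Bool) (x : ℕ) : x ∈ exL q ↔ x < q.length ∧ q.getD x false = true := by
  simp [exL]

lemma exL_nodup (q : List Bool) : (exL q).Nodup := by
  exact List.nodup_range.filter _

lemma exL_toFinset (q : List Bool) : (exL q).toFinset = exAll q := by
  ext x
  simp [exL, exAll]

lemma mem_univL (q : List Bool) (x : ℕ) : x ∈ univL q ↔ x < q.length ∧ q.getD x false = false := by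
  simp [univL]

lemma minusL_toFinset (X R : List ℕ) : (minusL X R).toFinset = X.toFinset \ R.toFinset := by
  ext x
  simp [minusL]

lemma mem_minusL (X R : List ℕ) (c : ℕ) : c ∈ minusL X R ↔ c ∈ X ∧ c ∉ R := by
  simp [minusL]

lemma minusL_sublist (X R : List ℕ) : (minusL X R).Sublist X := List.filter_sublist

lemma lcp_comm (b b' : List Bool) : lcp b b' = lcp b' b := by
  induction b generalizing b' with
  | nil => cases b' <;> simp [lcp]
  | cons a l ih =>
    cases b' with
    | nil => simp [lcp]
    | cons c m =>
      simp only [lcp]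
      by_cases h : a = c
      · subst h
        simp [ih]
      · rw [if_neg h, if_neg (fun e => h e.symm)]

/-- different lists of the same length differ right after their longest common prefix -/
lemma lcp_spec (b b' : List Bool) (hl : b.length = b'.length) (hne : b ≠ b') :
    (lcp b b').length < b.length ∧ b.take (lcp b b').length = lcp b b' ∧
      b'.take (lcp b b').length = lcp b b' ∧
      b.getD (lcp b b').length false ≠ b'.getD (lcp b b').length false := by
  induction b generalizing b' with
  | nil =>
    cases b' with
    | nil => exact absurd rfl hne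
    | cons c m => simp at hl
  | cons a l ih =>
    cases b' with
    | nil => simp at hl
    | cons c m =>
      simp only [lcp]
      by_cases h : a = c
      · subst h
        have hl' : l.length = m.length := by simpa using hl
        have hne' : l ≠ m := fun e => hne (by rw [e])
        obtain ⟨h1, h2, h3, h4⟩ := ih m hl' hne'
        simp only [if_true, List.length_cons, List.take_succ_cons, List.getD_cons_succ]
        exact ⟨by omega, by rw [h2], by rw [h3], h4⟩
      · rw [if_neg h]
        simpa using h

end Pool.Agent.MP_925109_lc
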