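import Mathlib
import Pool.Agent.MP_925109_lc.ListLib

/-!
Completeness of the computation of realisable patterns.
-/

set_option autoImplicit false

namespace Pool.Agent.MP_925109_lc

/-- **Completeness.** If there is a global solution `α, S` whose restrictions to the nodes of a
family closed under splitting have few crossing triples, then the pattern of every such node is
computed. -/
theorem pats_complete (n k : ℕ) (φ : List (List Lit)) (L : List (List Bool × ℕ)) (T : List Tri)
    (hT : ∀ z ∈ T, z.1.length = k) (m : ℕ)
    (V : Finset ℕ) (α : List Bool → ℕ → Bool) (S : Finset Tri)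
    (hag : Agree V k (look n L) α) (hS : ∀ z ∈ S, z ∈ T) (htrue : ∀ z ∈ S, α z.1 z.2.2.1 = z.2.2.2)
    (Inv : Nd → Prop)
    (hcov : ∀ t, Inv t → ∀ b : List Bool, b.length = k → ∀ c ∈ t.1,
      labSatL n k φ L b c = true ∨ ∃ z ∈ S, z.1 = b ∧ z.2.1 = c)
    (hV : ∀ t, Inv t → ∀ x ∈ t.2, x ∈ V)
    (hne : ∀ t, Inv t → t.1 ≠ [])
    (hsmall : ∀ t, Inv t → (S.filter (fun z => cross t z = true)).card ≤ m)
    (hsplit : ∀ t, Inv t → isLeaf t = false →
      Inv (ch1 t (split k φ t)) ∧ Inv (ch2 t (split k φ t)) ∧ ∀ w ∈ (split k φ t).1, w ∈ t.2) :
    ∀ (f : ℕ) (t : Nd), Inv t → t.1.length + t.2.length ≤ f →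
      T.filter (fun z => decide (z ∈ S) && cross t z) ∈ pats n k φ L (patU m T) f t := by
  have hU : ∀ t, Inv t → T.filter (fun z => decide (z ∈ S) && cross t z) ∈ patU m T := by
    intro t ht
    refine filter_mem_patU m T _ (le_trans (Finset.card_le_card ?_) (hsmall t ht))
    intro z hz
    simp only [List.mem_toFinset, List.mem_filter, Bool.and_eq_true, decide_eq_true_eq] at hz
    simp only [Finset.mem_filter]
    exact hz.2
  have hmem : ∀ (t : Nd) (z : Tri), z ∈ T.filter (fun z => decide (z ∈ S) && cross t z) ↔
      z ∈ S ∧ cross t z = true := by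
    intro t z
    simp only [List.mem_filter, Bool.and_eq_true, decide_eq_true_eq]
    exact ⟨fun h => h.2, fun h => ⟨hS z h.1, h⟩⟩
  intro f
  induction f with
  | zero =>
    intro t ht hlen
    exfalso
    have h1 : t.1.length = 0 := by omega
    exact hne t ht (List.length_eq_zero_iff.1 h1)
  | succ f ih =>
    intro t ht hlen
    unfold pats
    rw [trec]
    by_cases hl : isLeaf t = true
    · rw [hl, cond_true, List.mem_filter]
      refine ⟨hU t ht, ?_⟩
      have h1 : t.1.length + t.2.length ≤ 1 := by
        simpa [isLeaf] using hl
      have h2 : t.1.length ≠ 0 := fun h => hne t ht (List.length_eq_zero_iff.1 h)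
      have h3 : t.2 = [] := List.length_eq_zero_iff.1 (by omega)
      obtain ⟨c, hc⟩ := List.length_eq_one_iff.1 (show t.1.length = 1 by omega)
      unfold leafOK
      rw [hc]
      simp only [Bool.and_eq_true, List.all_eq_true, decide_eq_true_eq, Bool.or_eq_true,
        List.any_eq_true]
      constructor
      · intro z hz
        have hz' := ((hmem t z).1 hz).2
        simp [cross, hc, h3] at hz'
        exact hz'
      · intro b hb
        rw [mem_worlds] at hb
        rcases hcov t ht b hb c (by rw [hc]; simp) with h | ⟨z, hz, hz1, hz2⟩
        · exact Or.inl h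
        · refine Or.inr ⟨z, (hmem t z).2 ⟨hz, ?_⟩, hz1⟩
          simp [cross, hc, h3, hz2]
    · have hl' : isLeaf t = false := by simpa using hl
      obtain ⟨i1, i2, hw⟩ := hsplit t ht hl'
      rw [hl', cond_false, List.mem_filter]
      refine ⟨hU t ht, ?_⟩
      -- sizes
      have hn1 : (ch1 t (split k φ t)).1.length ≠ 0 :=
        fun h => hne _ i1 (List.length_eq_zero_iff.1 h)
      have hn2 : (ch2 t (split k φ t)).1.length ≠ 0 :=
        fun h => hne _ i2 (List.length_eq_zero_iff.1 h)
      have hs1 : (ch1 t (split k φ t)).1.length + (ch2 t (split k φ t)).1.length = t.1.length := by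
        simp only [ch1, ch2]
        have := List.length_eq_length_filter_add (l := t.1)
          (fun c => decide (c ∈ (split k φ t).2.1))
        simp only [decide_not]
        omega
      have hs2 : (ch1 t (split k φ t)).2.length + (ch2 t (split k φ t)).2.length ≤ t.2.length := by
        simp only [ch1, ch2]
        have h1 := List.length_eq_length_filter_add (l := minusL t.2 (split k φ t).1)
          (fun x => decide (x ∈ (split k φ t).2.2))
        have h2 := (minusL_sublist t.2 (split k φ t).1).length_le
        simp only [decide_not]
        omega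
      simp only [List.any_eq_true]
      refine ⟨_, ih (ch1 t (split k φ t)) i1 (by omega), _, ih (ch2 t (split k φ t)) i2 (by omega), ?_⟩
      set t1 := ch1 t (split k φ t) with ht1
      set t2 := ch2 t (split k φ t) with ht2
      unfold joinOK
      rw [Bool.and_eq_true, List.all_eq_true, List.all_eq_true]
      have hin : ∀ z ∈ T.filter (fun z => decide (z ∈ S) && cross t z) ++
          T.filter (fun z => decide (z ∈ S) && cross t1 z) ++
          T.filter (fun z => decide (z ∈ S) && cross t2 z), z ∈ S := by
        intro z hz
        simp only [List.mem_append, hmem] at hz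
        rcases hz with (h | h) | h <;> exact h.1
      constructor
      · intro z hz
        have hzS := hin z hz
        simp only [Bool.and_eq_true, iffB, decide_eq_true_eq]
        refine ⟨⟨?_, ?_⟩, ?_⟩
        · rw [Bool.eq_iff_iff, decide_eq_true_eq, hmem]
          exact ⟨fun h => h.2, fun h => ⟨hzS, h⟩⟩
        · rw [Bool.eq_iff_iff, decide_eq_true_eq, hmem]
          exact ⟨fun h => h.2, fun h => ⟨hzS, h⟩⟩
        · rw [Bool.eq_iff_iff, decide_eq_true_eq, hmem]
          exact ⟨fun h => h.2, fun h => ⟨hzS, h⟩⟩
      · intro w hwW
        have hwV : w ∈ V := hV t ht w (hw w hwW)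
        unfold varOK
        rw [List.any_eq_true]
        refine ⟨(worlds k).map (fun b => (b, α b w)), map_mem_maps _ _ _ (fun b _ => ?_), ?_⟩
        · cases α b w <;> simp
        · rw [Bool.and_eq_true, List.all_eq_true]
          constructor
          · unfold agreeL
            simp only [List.all_eq_true, Bool.or_eq_true, decide_eq_true_eq, Bool.not_eq_true',
              decide_eq_false_iff_not]
            intro b hb b' hb'
            by_cases hbb : b = b'
            · exact Or.inl (Or.inl hbb)
            · by_cases hlt : w < look n L (lcp b b')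
              · right
                rw [look_map, look_map, if_pos hb, if_pos hb']
                rw [mem_worlds] at hb hb'
                exact hag b b' hb hb' hbb w hwV hlt
              · exact Or.inl (Or.inr hlt)
          · intro z hz
            rw [List.mem_filter, decide_eq_true_eq] at hz
            have hzS := hin z hz.1
            have hz1 : z.1 ∈ worlds k := (mem_worlds k z.1).2 (hT z (hS z hzS))
            rw [decide_eq_true_eq, look_map, if_pos hz1, ← htrue z hzS, hz.2]

end Pool.Agent.MP_925109_lc
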