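import Mathlib
import Pool.Agent.MP_925109_lc.ListLib

/-!
Correctness of the computation of realisable patterns: soundness.
-/

set_option autoImplicit false

namespace Pool.Agent.MP_925109_lc

/-- a realisation of the pattern `p` at the node `t` -/
structure Realises (n k : ℕ) (φ : List (List Lit)) (L : List (List Bool × ℕ)) (T : List Tri)
    (t : Nd) (p : Pat) (α : List Bool → ℕ → Bool) (S : Finset Tri) : Prop where
  agree : Agree t.2.toFinset k (look n L) α
  sub : ∀ z ∈ S, z ∈ T
  touch : ∀ z ∈ S, z.2.1 ∈ t.1 ∨ z.2.2.1 ∈ t.2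
  tru : ∀ z ∈ S, z.2.2.1 ∈ t.2 → α z.1 z.2.2.1 = z.2.2.2
  cover : ∀ b : List Bool, b.length = k → ∀ c ∈ t.1,
    labSatL n k φ L b c = true ∨ ∃ z ∈ S, z.1 = b ∧ z.2.1 = c
  pat : ∀ z, z ∈ p ↔ z ∈ S ∧ cross t z = true

theorem ps_cross_iff (t : Nd) (z : Tri) : cross t z = true ↔
    (z.2.1 ∈ t.1 ∧ z.2.2.1 ∉ t.2) ∨ (z.2.1 ∉ t.1 ∧ z.2.2.1 ∈ t.2) := by
  unfold cross
  by_cases h1 : z.2.1 ∈ t.1 <;> by_cases h2 : z.2.2.1 ∈ t.2 <;> simp [h1, h2]

theorem ps_mem_ch1_1 (t : Nd) (sp : List ℕ × List ℕ × List ℕ) (c : ℕ) :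
    c ∈ (ch1 t sp).1 ↔ c ∈ t.1 ∧ c ∈ sp.2.1 := by
  simp [ch1]

theorem ps_mem_ch2_1 (t : Nd) (sp : List ℕ × List ℕ × List ℕ) (c : ℕ) :
    c ∈ (ch2 t sp).1 ↔ c ∈ t.1 ∧ c ∉ sp.2.1 := by
  simp [ch2]

theorem ps_mem_ch1_2 (t : Nd) (sp : List ℕ × List ℕ × List ℕ) (x : ℕ) :
    x ∈ (ch1 t sp).2 ↔ x ∈ t.2 ∧ x ∉ sp.1 ∧ x ∈ sp.2.2 := by
  simp only [ch1, minusL, List.mem_filter, decide_eq_true_eq]
  tauto

theorem ps_mem_ch2_2 (t : Nd) (sp : List ℕ × List ℕ × List ℕ) (x : ℕ) :
    x ∈ (ch2 t sp).2 ↔ x ∈ t.2 ∧ x ∉ sp.1 ∧ x ∉ sp.2.2 := by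
  simp only [ch2, minusL, List.mem_filter, decide_eq_true_eq]
  tauto

theorem ps_iffB {a b : Bool} : iffB a b = true ↔ a = b := by
  simp [iffB]

/-- gluing of realisations -/
theorem ps_join (n k : ℕ) (φ : List (List Lit)) (L : List (List Bool × ℕ)) (T : List Tri)
    (t : Nd) (sp : List ℕ × List ℕ × List ℕ)
    (p p1 p2 : Pat) (hpT : ∀ z ∈ p, z ∈ T)
    (hj : joinOK n k L t sp.1 (ch1 t sp) (ch2 t sp) p p1 p2 = true)
    (h1 : ∃ α S, Realises n k φ L T (ch1 t sp) p1 α S)
    (h2 : ∃ α S, Realises n k φ L T (ch2 t sp) p2 α S) :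
    ∃ α S, Realises n k φ L T t p α S := by
  classical
  obtain ⟨α1, S1, R1⟩ := h1
  obtain ⟨α2, S2, R2⟩ := h2
  unfold joinOK at hj
  rw [Bool.and_eq_true, List.all_eq_true, List.all_eq_true] at hj
  obtain ⟨hj1, hj2⟩ := hj
  have hP : ∀ z ∈ p ++ p1 ++ p2, (z ∈ p ↔ cross t z = true) ∧ (z ∈ p1 ↔ cross (ch1 t sp) z = true) ∧
      (z ∈ p2 ↔ cross (ch2 t sp) z = true) := by
    intro z hz
    have h := hj1 z hz
    rw [Bool.and_eq_true, Bool.and_eq_true, ps_iffB, ps_iffB, ps_iffB] at h
    obtain ⟨⟨ha, hb⟩, hc⟩ := h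
    rw [← ha, ← hb, ← hc]
    simp
  have hp : ∀ z ∈ p, z ∈ p ++ p1 ++ p2 := fun z hz => by simp [hz]
  have hp1 : ∀ z ∈ p1, z ∈ p ++ p1 ++ p2 := fun z hz => by simp [hz]
  have hp2 : ∀ z ∈ p2, z ∈ p ++ p1 ++ p2 := fun z hz => by simp [hz]
  -- values of the variables in `W`
  have hW : ∀ w, ∃ e : List (List Bool × Bool), w ∈ sp.1 →
      agreeL n k L w e = true ∧ ∀ z ∈ p ++ p1 ++ p2, z.2.2.1 = w → z.2.2.2 = look true e z.1 := by
    intro w
    by_cases hw : w ∈ sp.1
    · have h := hj2 w hw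
      unfold varOK at h
      rw [List.any_eq_true] at h
      obtain ⟨e, -, he⟩ := h
      rw [Bool.and_eq_true, List.all_eq_true] at he
      refine ⟨e, fun _ => ⟨he.1, fun z hz hzw => ?_⟩⟩
      have := he.2 z (List.mem_filter.2 ⟨hz, by simp [hzw]⟩)
      simpa using this
    · exact ⟨[], fun h => absurd h hw⟩
  choose e he using hW
  have hS1 : ∀ z ∈ S1, cross (ch1 t sp) z = true → z ∈ p1 := fun z hz hc => (R1.pat z).2 ⟨hz, hc⟩
  have hS2 : ∀ z ∈ S2, cross (ch2 t sp) z = true → z ∈ p2 := fun z hz hc => (R2.pat z).2 ⟨hz, hc⟩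
  have hpS1 : ∀ z ∈ p1, z ∈ S1 := fun z hz => ((R1.pat z).1 hz).1
  have hpS2 : ∀ z ∈ p2, z ∈ S2 := fun z hz => ((R2.pat z).1 hz).1
  refine ⟨fun b x => if x ∈ (ch1 t sp).2 then α1 b x else if x ∈ (ch2 t sp).2 then α2 b x else
    look true (e x) b, S1 ∪ S2 ∪ (p.toFinset.filter fun z => z.2.2.1 ∈ sp.1), ?_⟩
  constructor
  · -- agree
    intro b b' hb hb' hne x hx hlt
    rw [List.mem_toFinset] at hx
    by_cases hx1 : x ∈ (ch1 t sp).2
    · simp only [if_pos hx1]
      exact R1.agree b b' hb hb' hne x (List.mem_toFinset.2 hx1) hlt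
    · by_cases hx2 : x ∈ (ch2 t sp).2
      · simp only [if_neg hx1, if_pos hx2]
        exact R2.agree b b' hb hb' hne x (List.mem_toFinset.2 hx2) hlt
      · simp only [if_neg hx1, if_neg hx2]
        have hxW : x ∈ sp.1 := by
          by_contra hcon
          rw [ps_mem_ch1_2] at hx1
          rw [ps_mem_ch2_2] at hx2
          tauto
        have h := (he x hxW).1
        unfold agreeL at h
        rw [List.all_eq_true] at h
        have h := h b ((mem_worlds k b).2 hb)
        rw [List.all_eq_true] at h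
        have h := h b' ((mem_worlds k b').2 hb')
        simp only [Bool.or_eq_true, decide_eq_true_eq, Bool.not_eq_true', decide_eq_false_iff_not]
          at h
        rcases h with (h | h) | h
        · exact absurd h hne
        · exact absurd hlt h
        · exact h
  · -- sub
    intro z hz
    rw [Finset.mem_union, Finset.mem_union, Finset.mem_filter, List.mem_toFinset] at hz
    rcases hz with (hz | hz) | hz
    · exact R1.sub z hz
    · exact R2.sub z hz
    · exact hpT z hz.1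
  · -- touch
    intro z hz
    rw [Finset.mem_union, Finset.mem_union, Finset.mem_filter, List.mem_toFinset] at hz
    rcases hz with (hz | hz) | hz
    · rcases R1.touch z hz with h | h
      · exact Or.inl ((ps_mem_ch1_1 _ _ _).1 h).1
      · exact Or.inr ((ps_mem_ch1_2 _ _ _).1 h).1
    · rcases R2.touch z hz with h | h
      · exact Or.inl ((ps_mem_ch2_1 _ _ _).1 h).1
      · exact Or.inr ((ps_mem_ch2_2 _ _ _).1 h).1
    · have h := (hP z (hp z hz.1)).1.1 hz.1
      rw [ps_cross_iff] at h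
      tauto
  · -- tru
    intro z hz hzt
    rw [Finset.mem_union, Finset.mem_union, Finset.mem_filter, List.mem_toFinset] at hz
    by_cases hx1 : z.2.2.1 ∈ (ch1 t sp).2
    · simp only [if_pos hx1]
      rcases hz with (hz | hz) | hz
      · exact R1.tru z hz hx1
      · have h1 := (ps_mem_ch1_2 _ _ _).1 hx1
        have h2 : z.2.2.1 ∉ (ch2 t sp).2 := by rw [ps_mem_ch2_2]; tauto
        have h3 : z.2.1 ∈ (ch2 t sp).1 := by
          rcases R2.touch z hz with h | h
          · exact h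
          · exact absurd h h2
        have h4 := hS2 z hz ((ps_cross_iff _ _).2 (Or.inl ⟨h3, h2⟩))
        have h5 : z.2.1 ∉ (ch1 t sp).1 := by
          rw [ps_mem_ch2_1] at h3
          rw [ps_mem_ch1_1]
          tauto
        have h6 := (hP z (hp2 z h4)).2.1.2 ((ps_cross_iff _ _).2 (Or.inr ⟨h5, hx1⟩))
        exact R1.tru z (hpS1 z h6) hx1
      · exact absurd hz.2 ((ps_mem_ch1_2 _ _ _).1 hx1).2.1
    · by_cases hx2 : z.2.2.1 ∈ (ch2 t sp).2
      · simp only [if_neg hx1, if_pos hx2]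
        rcases hz with (hz | hz) | hz
        · have h3 : z.2.1 ∈ (ch1 t sp).1 := by
            rcases R1.touch z hz with h | h
            · exact h
            · exact absurd h hx1
          have h4 := hS1 z hz ((ps_cross_iff _ _).2 (Or.inl ⟨h3, hx1⟩))
          have h5 : z.2.1 ∉ (ch2 t sp).1 := by
            rw [ps_mem_ch1_1] at h3
            rw [ps_mem_ch2_1]
            tauto
          have h6 := (hP z (hp1 z h4)).2.2.2 ((ps_cross_iff _ _).2 (Or.inr ⟨h5, hx2⟩))
          exact R2.tru z (hpS2 z h6) hx2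
        · exact R2.tru z hz hx2
        · exact absurd hz.2 ((ps_mem_ch2_2 _ _ _).1 hx2).2.1
      · simp only [if_neg hx1, if_neg hx2]
        have hxW : z.2.2.1 ∈ sp.1 := by
          by_contra hcon
          rw [ps_mem_ch1_2] at hx1
          rw [ps_mem_ch2_2] at hx2
          tauto
        have hall : z ∈ p ++ p1 ++ p2 := by
          rcases hz with (hz | hz) | hz
          · have h3 : z.2.1 ∈ (ch1 t sp).1 := by
              rcases R1.touch z hz with h | h
              · exact h
              · exact absurd h hx1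
            exact hp1 z (hS1 z hz ((ps_cross_iff _ _).2 (Or.inl ⟨h3, hx1⟩)))
          · have h3 : z.2.1 ∈ (ch2 t sp).1 := by
              rcases R2.touch z hz with h | h
              · exact h
              · exact absurd h hx2
            exact hp2 z (hS2 z hz ((ps_cross_iff _ _).2 (Or.inl ⟨h3, hx2⟩)))
          · exact hp z hz.1
        exact ((he _ hxW).2 z hall rfl).symm
  · -- cover
    intro b hb c hc
    by_cases hcs : c ∈ sp.2.1
    · rcases R1.cover b hb c ((ps_mem_ch1_1 _ _ _).2 ⟨hc, hcs⟩) with h | ⟨z, hz, h⟩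
      · exact Or.inl h
      · exact Or.inr ⟨z, by simp [hz], h⟩
    · rcases R2.cover b hb c ((ps_mem_ch2_1 _ _ _).2 ⟨hc, hcs⟩) with h | ⟨z, hz, h⟩
      · exact Or.inl h
      · exact Or.inr ⟨z, by simp [hz], h⟩
  · -- pat
    intro z
    rw [Finset.mem_union, Finset.mem_union, Finset.mem_filter, List.mem_toFinset]
    constructor
    · intro hz
      have hcr := (hP z (hp z hz)).1.1 hz
      refine ⟨?_, hcr⟩
      rw [ps_cross_iff] at hcr
      by_cases hW : z.2.2.1 ∈ sp.1
      · exact Or.inr ⟨hz, hW⟩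
      · left
        by_cases hc1 : cross (ch1 t sp) z = true
        · exact Or.inl (hpS1 z ((hP z (hp z hz)).2.1.2 hc1))
        · by_cases hc2 : cross (ch2 t sp) z = true
          · exact Or.inr (hpS2 z ((hP z (hp z hz)).2.2.2 hc2))
          · exfalso
            rw [ps_cross_iff, ps_mem_ch1_1, ps_mem_ch1_2] at hc1
            rw [ps_cross_iff, ps_mem_ch2_1, ps_mem_ch2_2] at hc2
            tauto
    · rintro ⟨hz, hcr⟩
      rcases hz with (hz | hz) | hz
      · have hc1 : cross (ch1 t sp) z = true := by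
          have h := R1.touch z hz
          rw [ps_cross_iff] at hcr ⊢
          rw [ps_mem_ch1_1, ps_mem_ch1_2] at h ⊢
          tauto
        exact (hP z (hp1 z (hS1 z hz hc1))).1.2 hcr
      · have hc2 : cross (ch2 t sp) z = true := by
          have h := R2.touch z hz
          rw [ps_cross_iff] at hcr ⊢
          rw [ps_mem_ch2_1, ps_mem_ch2_2] at h ⊢
          tauto
        exact (hP z (hp2 z (hS2 z hz hc2))).1.2 hcr
      · exact hz.1

/-- leaves -/
theorem ps_leaf (n k : ℕ) (φ : List (List Lit)) (L : List (List Bool × ℕ)) (T : List Tri)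
    (t : Nd) (p : Pat) (hpT : ∀ z ∈ p, z ∈ T) (hl : isLeaf t = true)
    (h : leafOK n k φ L t p = true) : ∃ α S, Realises n k φ L T t p α S := by
  classical
  obtain ⟨E, V⟩ := t
  unfold isLeaf at hl
  rw [decide_eq_true_eq] at hl
  unfold leafOK at h
  refine ⟨fun _ _ => true, p.toFinset, ?_⟩
  cases E with
  | nil =>
    simp only [decide_eq_true_eq] at h
    subst h
    refine ⟨fun _ _ _ _ _ _ _ _ => rfl, by simp, by simp, by simp, by simp, by simp⟩
  | cons c cs =>
    simp only [List.length_cons] at hl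
    have hcs : cs = [] := List.length_eq_zero_iff.1 (by omega)
    have hV : V = [] := List.length_eq_zero_iff.1 (by omega)
    subst hcs hV
    simp only [Bool.and_eq_true, List.all_eq_true, decide_eq_true_eq, Bool.or_eq_true,
      List.any_eq_true] at h
    obtain ⟨h1, h2⟩ := h
    refine ⟨fun _ _ _ _ _ _ _ _ => rfl, ?_, ?_, ?_, ?_, ?_⟩
    · intro z hz
      exact hpT z (List.mem_toFinset.1 hz)
    · intro z hz
      left
      rw [h1 z (List.mem_toFinset.1 hz)]
      simp
    · intro z _ hz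
      simp at hz
    · intro b hb c' hc'
      have hc'' : c' = c := by simpa using hc'
      subst hc''
      rcases h2 b ((mem_worlds k b).2 hb) with h | ⟨z, hz, hzb⟩
      · exact Or.inl h
      · exact Or.inr ⟨z, List.mem_toFinset.2 hz, hzb, h1 z hz⟩
    · intro z
      rw [List.mem_toFinset]
      constructor
      · intro hz
        refine ⟨hz, ?_⟩
        rw [ps_cross_iff]
        left
        rw [h1 z hz]
        simp
      · exact fun hz => hz.1

/-- **Soundness.** Every computed pattern is realisable. -/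
theorem pats_sound (n k : ℕ) (φ : List (List Lit)) (L : List (List Bool × ℕ)) (T : List Tri)
    (hT : ∀ z ∈ T, z.1.length = k) (U : List Pat) (hU : ∀ p ∈ U, ∀ z ∈ p, z ∈ T) :
    ∀ (f : ℕ) (t : Nd) (p : Pat), p ∈ pats n k φ L U f t → ∃ α S, Realises n k φ L T t p α S := by
  intro f
  induction f with
  | zero =>
    intro t p hp
    simp [pats, trec] at hp
  | succ f ih =>
    intro t p hp
    unfold pats at hp
    rw [trec] at hp
    by_cases hl : isLeaf t = true
    · rw [hl, cond_true, List.mem_filter] at hp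
      exact ps_leaf n k φ L T t p (hU p hp.1) hl hp.2
    · rw [Bool.not_eq_true] at hl
      rw [hl, cond_false, List.mem_filter, List.any_eq_true] at hp
      obtain ⟨hpU, p1, hp1, hp2⟩ := hp
      rw [List.any_eq_true] at hp2
      obtain ⟨p2, hp2, hj⟩ := hp2
      exact ps_join n k φ L T t (split k φ t) p p1 p2 (hU p hpU) hj (ih _ p1 hp1) (ih _ p2 hp2)

end Pool.Agent.MP_925109_lc
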