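import Mathlib
import Pool.Agent.MP_925109_lc.PatsSound
import Pool.Agent.MP_925109_lc.PatsComplete

/-!
Correctness of the computation of realisable patterns.
-/
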