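import Mathlib
import Pool.Agent.MP_925109_lc.Calc

/-!
Hall's theorem for families of clauses, and the theorem of Mendelsohn and Dulmage.
-/

set_option autoImplicit false

namespace Pool.Agent.MP_925109_lc

/-- Hall's theorem, clause side -/
theorem hall_clauses {F : Fam} {V L : Finset ℕ} (h : NuLe F V L 0) :
    ∃ g : ℕ → ℕ, Set.InjOn g L ∧ ∀ c ∈ L, g c ∈ V ∧ occ F c (g c) := by
  classical
  obtain ⟨f, hf, hft⟩ := (Finset.all_card_le_biUnion_card_iff_exists_injective
    (fun c : {c // c ∈ L} => V.filter (fun x => occ F c.1 x))).1 (by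
      intro s
      set T : Finset ℕ := s.map (Function.Embedding.subtype _) with hT
      have hTL : T ⊆ L := by
        intro c hc
        rw [hT, Finset.mem_map] at hc
        obtain ⟨c', -, rfl⟩ := hc
        exact c'.2
      have hvr : vr F V T ⊆ s.biUnion (fun c => V.filter (fun x => occ F c.1 x)) := by
        intro x hx
        rw [mem_vr] at hx
        obtain ⟨hxV, c, hc, hocc⟩ := hx
        rw [hT, Finset.mem_map] at hc
        obtain ⟨c', hc', rfl⟩ := hc
        rw [Finset.mem_biUnion]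
        exact ⟨c', hc', Finset.mem_filter.2 ⟨hxV, hocc⟩⟩
      have h1 := h T hTL
      unfold df at h1
      have h2 : T.card = s.card := Finset.card_map _
      have h3 := Finset.card_le_card hvr
      omega)
  refine ⟨fun c => if hc : c ∈ L then f ⟨c, hc⟩ else 0, ?_, ?_⟩
  · intro c hc c' hc' hcc
    have hc1 : c ∈ L := hc
    have hc2 : c' ∈ L := hc'
    simp only [dif_pos hc1, dif_pos hc2] at hcc
    exact congrArg Subtype.val (hf hcc)
  · intro c hc
    simp only [dif_pos hc]
    exact Finset.mem_filter.1 (hft ⟨c, hc⟩)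

theorem nuLe_zero_of_matching {F : Fam} {V L : Finset ℕ} (g : ℕ → ℕ) (hg : Set.InjOn g L)
    (h : ∀ c ∈ L, g c ∈ V ∧ occ F c (g c)) : NuLe F V L 0 := by
  classical
  intro B hB
  have h1 : (B.image g).card = B.card :=
    Finset.card_image_of_injOn (hg.mono (Finset.coe_subset.2 hB))
  have h2 : B.image g ⊆ vr F V B := by
    intro x hx
    rw [Finset.mem_image] at hx
    obtain ⟨c, hc, rfl⟩ := hx
    exact mem_vr.2 ⟨(h c (hB hc)).1, c, hc, (h c (hB hc)).2⟩
  have h3 := Finset.card_le_card h2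
  unfold df
  omega

/-- a matched family is satisfiable -/
theorem satOn_of_nuLe_zero {F : Fam} {V L : Finset ℕ} (h : NuLe F V L 0) : SatOn F V L := by
  classical
  obtain ⟨g, hg, hgL⟩ := hall_clauses h
  refine ⟨fun x => decide (∃ c ∈ L, g c = x ∧ (x, true) ∈ F c), ?_⟩
  intro c hc
  refine ⟨g c, (hgL c hc).1, ?_⟩
  by_cases ht : (g c, true) ∈ F c
  · have h1 : decide (∃ c' ∈ L, g c' = g c ∧ (g c, true) ∈ F c') = true :=
      decide_eq_true ⟨c, hc, rfl, ht⟩
    simp only [h1]
    exact ht
  · have h1 : decide (∃ c' ∈ L, g c' = g c ∧ (g c, true) ∈ F c') = false := by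
      apply decide_eq_false
      rintro ⟨c', hc', hcc, ht'⟩
      have h2 : c' = c := hg hc' hc hcc
      exact ht (h2 ▸ ht')
    simp only [h1]
    obtain ⟨e, he⟩ := (hgL c hc).2
    cases e
    · exact he
    · exact absurd he ht

/-- Hall's theorem, variable side -/
theorem hall_vars {F : Fam} {V L : Finset ℕ}
    (h : ∀ W ⊆ V, W.card ≤ (L.filter (fun c => ∃ x ∈ W, occ F c x)).card) :
    ∃ g : ℕ → ℕ, Set.InjOn g V ∧ ∀ x ∈ V, g x ∈ L ∧ occ F (g x) x := by
  classical
  obtain ⟨f, hf, hft⟩ := (Finset.all_card_le_biUnion_card_iff_exists_injective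
    (fun x : {x // x ∈ V} => L.filter (fun c => occ F c x.1))).1 (by
      intro s
      set W : Finset ℕ := s.map (Function.Embedding.subtype _) with hW
      have hWV : W ⊆ V := by
        intro c hc
        rw [hW, Finset.mem_map] at hc
        obtain ⟨c', -, rfl⟩ := hc
        exact c'.2
      have hsub : L.filter (fun c => ∃ x ∈ W, occ F c x) ⊆
          s.biUnion (fun x => L.filter (fun c => occ F c x.1)) := by
        intro c hc
        rw [Finset.mem_filter] at hc
        obtain ⟨hcL, x, hx, hocc⟩ := hc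
        rw [hW, Finset.mem_map] at hx
        obtain ⟨x', hx', rfl⟩ := hx
        rw [Finset.mem_biUnion]
        exact ⟨x', hx', Finset.mem_filter.2 ⟨hcL, hocc⟩⟩
      have h1 := h W hWV
      have h2 : W.card = s.card := Finset.card_map _
      have h3 := Finset.card_le_card hsub
      omega)
  refine ⟨fun x => if hx : x ∈ V then f ⟨x, hx⟩ else 0, ?_, ?_⟩
  · intro x hx x' hx' hxx
    have hx1 : x ∈ V := hx
    have hx2 : x' ∈ V := hx'
    simp only [dif_pos hx1, dif_pos hx2] at hxx
    exact congrArg Subtype.val (hf hxx)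
  · intro x hx
    simp only [dif_pos hx]
    exact Finset.mem_filter.1 (hft ⟨x, hx⟩)

/-- the clauses on the alternating paths starting outside of the image of `h` -/
inductive MDS (L₀ V : Finset ℕ) (g h : ℕ → ℕ) : ℕ → Prop
  | base (c : ℕ) (hc : c ∈ L₀) (hx : ∀ x ∈ V, h x ≠ c) : MDS L₀ V g h c
  | step (c : ℕ) (hc : c ∈ L₀) (hS : MDS L₀ V g h c) : MDS L₀ V g h (h (g c))

/-- Mendelsohn–Dulmage: if `L₀` can be matched into `V` and `V` into `L ⊇ L₀`, then `V` can be
matched into `L` such that all of `L₀` is used. -/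
theorem mendelsohn_dulmage (r : ℕ → ℕ → Prop) {L₀ L V : Finset ℕ} (hL : L₀ ⊆ L)
    (g : ℕ → ℕ) (hg : Set.InjOn g L₀) (hgr : ∀ c ∈ L₀, g c ∈ V ∧ r c (g c))
    (h : ℕ → ℕ) (hh : Set.InjOn h V) (hhr : ∀ x ∈ V, h x ∈ L ∧ r (h x) x) :
    ∃ j : ℕ → ℕ, Set.InjOn j V ∧ (∀ x ∈ V, j x ∈ L ∧ r (j x) x) ∧ ∀ c ∈ L₀, ∃ x ∈ V, j x = c := by
  classical
  let P : ℕ → Prop := fun x => ∃ c, MDS L₀ V g h c ∧ c ∈ L₀ ∧ g c = x
  let j : ℕ → ℕ := fun x => if hx : P x then hx.choose else h x
  have hj1 : ∀ x, P x → MDS L₀ V g h (j x) ∧ j x ∈ L₀ ∧ g (j x) = x := by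
    intro x hx
    have h1 : j x = hx.choose := dif_pos hx
    rw [h1]
    exact hx.choose_spec
  have hj2 : ∀ x, ¬ P x → j x = h x := fun x hx => dif_neg hx
  have hmix : ∀ x ∈ V, ∀ y ∈ V, P x → ¬ P y → j x ≠ j y := by
    intro x hx y hy hPx hPy hxy
    obtain ⟨h1, h2, h3⟩ := hj1 x hPx
    rw [hj2 y hPy] at hxy
    rw [hxy] at h1 h2 h3
    generalize hz : h y = z at h1
    cases h1 with
    | base c hc hx' => exact hx' y hy hz
    | step c hc hS =>
      have h4 : y = g c := hh hy (hgr c hc).1 hz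
      exact hPy ⟨c, hS, hc, h4.symm⟩
  refine ⟨j, ?_, ?_, ?_⟩
  · intro x hx y hy hxy
    by_cases hPx : P x
    · by_cases hPy : P y
      · rw [← (hj1 x hPx).2.2, ← (hj1 y hPy).2.2, hxy]
      · exact absurd hxy (hmix x hx y hy hPx hPy)
    · by_cases hPy : P y
      · exact absurd hxy.symm (hmix y hy x hx hPy hPx)
      · rw [hj2 x hPx, hj2 y hPy] at hxy
        exact hh hx hy hxy
  · intro x hx
    by_cases hPx : P x
    · obtain ⟨-, h2, h3⟩ := hj1 x hPx
      refine ⟨hL h2, ?_⟩
      have h4 := (hgr _ h2).2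
      rwa [h3] at h4
    · rw [hj2 x hPx]
      exact hhr x hx
  · intro c hc
    by_cases hS : MDS L₀ V g h c
    · have hP : P (g c) := ⟨c, hS, hc, rfl⟩
      obtain ⟨-, h2, h3⟩ := hj1 _ hP
      exact ⟨g c, (hgr c hc).1, hg h2 hc h3⟩
    · have h1 : ∃ x ∈ V, h x = c := by
        by_contra hne
        push Not at hne
        exact hS (MDS.base c hc hne)
      obtain ⟨x, hx, rfl⟩ := h1
      refine ⟨x, hx, hj2 x ?_⟩
      rintro ⟨c', hS', hc', rfl⟩
      exact hS (MDS.step c' hc' hS')

/-- defect version -/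
theorem defect_hall {F : Fam} {V L : Finset ℕ} {k : ℕ} (h : NuLe F V L k) :
    ∃ R ⊆ L, R.card ≤ k ∧ NuLe F V (L \ R) 0 := by
  classical
  induction k generalizing L with
  | zero =>
    refine ⟨∅, Finset.empty_subset _, by simp, ?_⟩
    rw [Finset.sdiff_empty]
    simpa using h
  | succ k ih =>
    obtain ⟨C, hC⟩ := exists_core F V L
    by_cases hle : df F V C ≤ k
    · obtain ⟨R, hR, hRk, hR0⟩ := ih (fun B hB => (hC.2.1 B hB).trans hle)
      exact ⟨R, hR, by omega, hR0⟩
    · push Not at hle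
      have h1 : df F V C ≤ ((k + 1 : ℕ) : ℤ) := h C hC.1
      push_cast at h1
      have h2 : df F V C = k + 1 := by omega
      have hne : C.Nonempty := by
        rw [Finset.nonempty_iff_ne_empty]
        rintro rfl
        rw [df_empty] at h2
        omega
      obtain ⟨r, hr⟩ := hne
      obtain ⟨R, hR, hRk, hR0⟩ := ih (L := L.erase r) (by
        intro B hB
        have hBL : B ⊆ L := hB.trans (Finset.erase_subset _ _)
        have h3 := h B hBL
        push_cast at h3
        by_contra h4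
        push Not at h4
        have h5 : df F V B = df F V C := by omega
        have h6 := hC.2.2 B hBL h5 hr
        exact (Finset.notMem_erase r L) (hB h6))
      refine ⟨insert r R, ?_, ?_, ?_⟩
      · intro c hc
        rw [Finset.mem_insert] at hc
        rcases hc with rfl | hc
        · exact hC.1 hr
        · exact Finset.mem_of_mem_erase (hR hc)
      · exact (Finset.card_insert_le _ _).trans (by omega)
      · have h7 : L \ insert r R = L.erase r \ R := by
          ext c
          simp only [Finset.mem_sdiff, Finset.mem_insert, Finset.mem_erase]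
          tauto
        rw [h7]
        exact hR0

end Pool.Agent.MP_925109_lc
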