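import Mathlib
import Pool.Agent.MP_925109_lc.Defs

/-!
Truth and the game; reduction by autarkies; soundness of certificates.
-/

set_option autoImplicit false

namespace Pool.Agent.MP_925109_lc

theorem qtrue_mono (q : List Bool) {P Q : List Bool → Prop}
    (h : ∀ v, v.length = q.length → P v → Q v) (hP : qtrue q P) : qtrue q Q := by
  induction q generalizing P Q with
  | nil => exact h [] rfl hP
  | cons a q ih =>
    have h' : ∀ b : Bool, ∀ v : List Bool, v.length = q.length → P (b :: v) → Q (b :: v) :=
      fun b v hv => h (b :: v) (by simp [hv])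
    cases a with
    | true =>
      obtain ⟨b, hb⟩ := hP
      exact ⟨b, ih (h' b) hb⟩
    | false =>
      intro b
      exact ih (h' b) (hP b)

theorem truthF_mono {q : List Bool} {F : Fam} {A B : Finset ℕ} (hB : B ⊆ A) (h : TruthF q F A) :
    TruthF q F B :=
  qtrue_mono q (fun _ _ hv c hc => hv c (hB hc)) h

/-- one step of the game, on the level of the properties of assignments -/
theorem win_step_pred (F : Fam) (A : Finset ℕ) (i : ℕ) (b : Bool) (v : List Bool) :
    (∀ c ∈ A, ∃ l ∈ F c, i ≤ l.1 ∧ (b :: v).getD (l.1 - i) false = l.2) ↔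
      ∀ c ∈ A.filter (fun c => (i, b) ∉ F c), ∃ l ∈ F c, i + 1 ≤ l.1 ∧
        v.getD (l.1 - (i + 1)) false = l.2 := by
  constructor
  · intro h c hc
    rw [Finset.mem_filter] at hc
    obtain ⟨l, hl, hil, hv⟩ := h c hc.1
    rcases Nat.eq_or_lt_of_le hil with heq | hlt
    · exfalso
      apply hc.2
      rw [← heq, Nat.sub_self, List.getD_cons_zero] at hv
      have : l = (i, b) := Prod.ext heq.symm hv.symm
      rwa [← this]
    · refine ⟨l, hl, hlt, ?_⟩
      have h1 : l.1 - i = (l.1 - (i + 1)) + 1 := by omega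
      rw [h1, List.getD_cons_succ] at hv
      exact hv
  · intro h c hc
    by_cases hib : (i, b) ∈ F c
    · refine ⟨(i, b), hib, le_rfl, ?_⟩
      simp
    · obtain ⟨l, hl, hil, hv⟩ := h c (Finset.mem_filter.2 ⟨hc, hib⟩)
      refine ⟨l, hl, by omega, ?_⟩
      have h1 : l.1 - i = (l.1 - (i + 1)) + 1 := by omega
      rw [h1, List.getD_cons_succ]
      exact hv

theorem qtrue_drop_iff_win (q : List Bool) (F : Fam) (m : ℕ) : ∀ (i : ℕ) (A : Finset ℕ),
    i + m = q.length → (∀ c ∈ A, ∀ l ∈ F c, l.1 < q.length) →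
    (qtrue (q.drop i) (fun v => ∀ c ∈ A, ∃ l ∈ F c, i ≤ l.1 ∧ v.getD (l.1 - i) false = l.2) ↔
      Win q F m i A) := by
  induction m with
  | zero =>
    intro i A hi hcl
    rw [Nat.add_zero] at hi
    rw [hi, List.drop_length]
    constructor
    · intro h
      change A = ∅
      rw [Finset.eq_empty_iff_forall_notMem]
      intro c hc
      obtain ⟨l, hl, hil, -⟩ := h c hc
      exact absurd (hcl c hc l hl) (not_lt.2 hil)
    · intro h
      change A = ∅ at h
      subst h
      intro c hc
      exact absurd hc (Finset.notMem_empty c)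
  | succ m ih =>
    intro i A hi hcl
    have hlt : i < q.length := by omega
    have hdrop : q.drop i = q.getD i false :: q.drop (i + 1) := by
      rw [List.drop_eq_getElem_cons hlt, List.getD_eq_getElem _ _ hlt]
    have key : ∀ b : Bool, (qtrue (q.drop (i + 1)) (fun v => ∀ c ∈ A, ∃ l ∈ F c, i ≤ l.1 ∧
        (b :: v).getD (l.1 - i) false = l.2) ↔
          Win q F m (i + 1) (A.filter (fun c => (i, b) ∉ F c))) := by
      intro b
      rw [← ih (i + 1) (A.filter (fun c => (i, b) ∉ F c)) (by omega)
        (fun c hc => hcl c (Finset.mem_filter.1 hc).1)]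
      have : (fun v : List Bool => ∀ c ∈ A, ∃ l ∈ F c, i ≤ l.1 ∧
        (b :: v).getD (l.1 - i) false = l.2) = (fun v : List Bool =>
          ∀ c ∈ A.filter (fun c => (i, b) ∉ F c), ∃ l ∈ F c, i + 1 ≤ l.1 ∧
            v.getD (l.1 - (i + 1)) false = l.2) :=
        funext fun v => propext (win_step_pred F A i b v)
      rw [this]
    rw [hdrop]
    cases hq : q.getD i false with
    | true =>
      have hw : Win q F (m + 1) i A ↔
          ∃ b : Bool, Win q F m (i + 1) (A.filter (fun c => (i, b) ∉ F c)) := by
        rw [Win, if_pos hq]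
      rw [hw]
      exact exists_congr key
    | false =>
      have hw : Win q F (m + 1) i A ↔
          ∀ b : Bool, Win q F m (i + 1) (A.filter (fun c => (i, b) ∉ F c)) := by
        rw [Win, if_neg (by rw [hq]; simp)]
      rw [hw]
      exact forall_congr' key

/-- truth is winning the game -/
theorem truthF_iff_win (q : List Bool) (F : Fam) (A : Finset ℕ)
    (hcl : ∀ c ∈ A, ∀ l ∈ F c, l.1 < q.length) :
    TruthF q F A ↔ Win q F q.length 0 A := by
  rw [← qtrue_drop_iff_win q F q.length 0 A (by omega) hcl]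
  simp only [List.drop_zero, Nat.zero_le, true_and, Nat.sub_zero]
  rfl

end Pool.Agent.MP_925109_lc
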