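import Mathlib
import Pool.Agent.MP_925109_lc.WinTruth
import Pool.Agent.MP_925109_lc.Hall

/-!
Reduction by autarkies.
-/

set_option autoImplicit false

namespace Pool.Agent.MP_925109_lc

/-- change the entries of a list at the positions in `W` (positions counted from `i`) -/
def rdMod (W : Finset ℕ) (α : ℕ → Bool) : ℕ → List Bool → List Bool
  | _, [] => []
  | i, b :: v => (if i ∈ W then α i else b) :: rdMod W α (i + 1) v

lemma rdMod_getD_mem (W : Finset ℕ) (α : ℕ → Bool) (v : List Bool) :
    ∀ (i j : ℕ), j < v.length → i + j ∈ W → (rdMod W α i v).getD j false = α (i + j) := by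
  induction v with
  | nil => intro i j hj; simp at hj
  | cons b v ih =>
    intro i j hj hW
    cases j with
    | zero =>
      have hW' : i ∈ W := by simpa using hW
      simp [rdMod, hW']
    | succ j =>
      have h1 : i + 1 + j = i + (j + 1) := by omega
      have := ih (i + 1) j (by simpa using hj) (by rw [h1]; exact hW)
      rw [h1] at this
      simpa [rdMod] using this

lemma rdMod_getD_notMem (W : Finset ℕ) (α : ℕ → Bool) (v : List Bool) :
    ∀ (i j : ℕ), i + j ∉ W → (rdMod W α i v).getD j false = v.getD j false := by
  induction v with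
  | nil => intro i j _; simp [rdMod]
  | cons b v ih =>
    intro i j hW
    cases j with
    | zero =>
      have hW' : i ∉ W := by simpa using hW
      simp [rdMod, hW']
    | succ j =>
      have h1 : i + 1 + j = i + (j + 1) := by omega
      have := ih (i + 1) j (by rw [h1]; exact hW)
      simpa [rdMod] using this

lemma qtrue_rdMod (W : Finset ℕ) (α : ℕ → Bool) (q : List Bool) :
    ∀ (i : ℕ) (P P' : List Bool → Prop), (∀ j, i + j ∈ W → q.getD j false = true) →
      (∀ v, v.length = q.length → P v → P' (rdMod W α i v)) → qtrue q P → qtrue q P' := by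
  induction q with
  | nil =>
    intro i P P' _ h hP
    have := h [] rfl hP
    simpa [rdMod, qtrue] using this
  | cons a q ih =>
    intro i P P' hW h hP
    have hW' : ∀ j, i + 1 + j ∈ W → q.getD j false = true := by
      intro j hj
      have h1 : i + (j + 1) = i + 1 + j := by omega
      have := hW (j + 1) (by rw [h1]; exact hj)
      simpa using this
    cases a with
    | true =>
      obtain ⟨b, hb⟩ := hP
      refine ⟨if i ∈ W then α i else b, ?_⟩
      refine ih (i + 1) _ _ hW' ?_ hb
      intro v hv hPv
      have := h (b :: v) (by simp [hv]) hPv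
      simpa [rdMod] using this
    | false =>
      have hi : i ∉ W := by
        intro hi
        have := hW 0 (by simpa using hi)
        simp at this
      intro b
      refine ih (i + 1) _ _ hW' ?_ (hP b)
      intro v hv hPv
      have := h (b :: v) (by simp [hv]) hPv
      simpa [rdMod, hi] using this

/-- Removing clauses satisfied by existential variables that do not occur in the other clauses. -/
theorem truthF_reduce {q : List Bool} {F : Fam} {A B : Finset ℕ} (hB : B ⊆ A)
    (hs : SatOn F (exAll q \ vr F (exAll q) B) (A \ B)) : TruthF q F A ↔ TruthF q F B := by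
  constructor
  · exact truthF_mono hB
  · intro h
    obtain ⟨α, hα⟩ := hs
    unfold TruthF at h ⊢
    refine qtrue_rdMod (exAll q \ vr F (exAll q) B) α q 0 _ _ ?_ ?_ h
    · intro j hj
      rw [Nat.zero_add, Finset.mem_sdiff] at hj
      exact (Finset.mem_filter.mp hj.1).2
    · intro v hv hP c hc
      by_cases hcB : c ∈ B
      · obtain ⟨l, hl, hval⟩ := hP c hcB
        refine ⟨l, hl, ?_⟩
        rw [rdMod_getD_notMem]
        · exact hval
        · rw [Nat.zero_add, Finset.mem_sdiff]
          rintro ⟨h1, h2⟩
          apply h2
          rw [vr, Finset.mem_filter]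
          exact ⟨h1, c, hcB, l.2, hl⟩
      · obtain ⟨x, hx, hxc⟩ := hα c (Finset.mem_sdiff.mpr ⟨hc, hcB⟩)
        refine ⟨(x, α x), hxc, ?_⟩
        have hxq : x < v.length := by
          rw [hv]
          have := (Finset.mem_sdiff.mp hx).1
          exact Finset.mem_range.mp (Finset.mem_filter.mp this).1
        have := rdMod_getD_mem (exAll q \ vr F (exAll q) B) α v 0 x hxq (by simpa using hx)
        simpa using this

/-- **Minimal false formulas are critical** (Ding, Kleine Büning, Zhao). -/
theorem mf_crit {q : List Bool} {F : Fam} {A : Finset ℕ} (hf : ¬ TruthF q F A)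
    (ht : ∀ c ∈ A, TruthF q F (A.erase c)) : Crit F (exAll q) A := by
  intro B hB
  by_contra hlt
  push Not at hlt
  obtain ⟨C, hC⟩ := exists_core F (exAll q) A
  have hCA : C ≠ A := by
    rintro rfl
    have h1 := hC.2.1 B hB.1
    exact hB.2 (hC.2.2 B hB.1 (le_antisymm h1 hlt))
  have hss : C ⊂ A := lt_of_le_of_ne hC.1 hCA
  obtain ⟨c, hcA, hcC⟩ := Finset.exists_of_ssubset hss
  have hT : TruthF q F A := by
    rw [truthF_reduce hC.1 (satOn_of_nuLe_zero hC.rest)]
    refine truthF_mono ?_ (ht c hcA)
    intro d hd
    exact Finset.mem_erase.mpr ⟨fun h => hcC (h ▸ hd), hC.1 hd⟩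
  exact hf hT

end Pool.Agent.MP_925109_lc
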