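import Mathlib
import Pool.Agent.MP_925109_lc.Defs

/-!
Soundness of certificates.
-/

set_option autoImplicit false

namespace Pool.Agent.MP_925109_lc

/-- prepend a value -/
def soundCons (b : Bool) (τ : ℕ → Bool) : ℕ → Bool
  | 0 => b
  | y + 1 => τ y

/-- Skolem functions: if for every choice `τ` of the values the assignment `σ τ` has the values `τ`
at the universal variables, its values at existential variables only depend on the earlier values
of `τ`, and `P` holds, then the quantified statement is true. -/
theorem qtrue_of_skolem (q : List Bool) (P : List Bool → Prop) (σ : (ℕ → Bool) → ℕ → Bool)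
    (hdep : ∀ τ τ' : ℕ → Bool, ∀ x < q.length, q.getD x false = true →
      (∀ y < x, q.getD y false = false → τ y = τ' y) → σ τ x = σ τ' x)
    (huniv : ∀ τ : ℕ → Bool, ∀ x < q.length, q.getD x false = false → σ τ x = τ x)
    (hP : ∀ τ : ℕ → Bool, P ((List.range q.length).map (σ τ))) : qtrue q P := by
  induction q generalizing P σ with
  | nil =>
    have h := hP fun _ => false
    simpa [qtrue] using h
  | cons e q ih =>
    have step : ∀ b : Bool, (∀ τ, σ (soundCons b τ) 0 = b) →
        qtrue q (fun v => P (b :: v)) := by
      intro b hb
      refine ih (fun v => P (b :: v)) (fun τ x => σ (soundCons b τ) (x + 1)) ?_ ?_ ?_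
      · intro τ τ' x hx hqx hy
        refine hdep _ _ (x + 1) (by simpa using hx) (by simpa using hqx) ?_
        intro y hyx hqy
        cases y with
        | zero => rfl
        | succ y => exact hy y (by omega) (by simpa using hqy)
      · intro τ x hx hqx
        exact huniv (soundCons b τ) (x + 1) (by simpa using hx) (by simpa using hqx)
      · intro τ
        have h := hP (soundCons b τ)
        rw [List.length_cons, List.range_succ_eq_map, List.map_cons, hb τ, List.map_map] at h
        exact h
    cases e with
    | true =>
      refine ⟨σ (fun _ => false) 0, step _ fun τ => ?_⟩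
      exact hdep _ _ 0 (by simp) (by simp) (fun y hy => absurd hy (by omega))
    | false =>
      intro b
      exact step b fun τ => huniv _ 0 (by simp) (by simp)

theorem sound_lcp_spec (b b' : List Bool) (hl : b.length = b'.length) (hne : b ≠ b') :
    (lcp b b').length < b.length ∧ b.take (lcp b b').length = lcp b b' ∧
      b'.take (lcp b b').length = lcp b b' ∧
      b.getD (lcp b b').length false ≠ b'.getD (lcp b b').length false := by
  induction b generalizing b' with
  | nil =>
    cases b' with
    | nil => exact absurd rfl hne
    | cons a' l' => simp at hl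
  | cons a l ih =>
    cases b' with
    | nil => simp at hl
    | cons a' l' =>
      by_cases haa : a = a'
      · subst haa
        have hl' : l.length = l'.length := by simpa using hl
        have hne' : l ≠ l' := fun h0 => hne (by rw [h0])
        obtain ⟨h1, h2, h3, h4⟩ := ih l' hl' hne'
        have h5 : lcp (a :: l) (a :: l') = a :: lcp l l' := by simp [lcp]
        rw [h5]
        refine ⟨by simpa using h1, ?_, ?_, ?_⟩
        · simpa using h2
        · simpa using h3
        · simpa using h4
      · have h5 : lcp (a :: l) (a' :: l') = [] := by simp [lcp, haa]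
        rw [h5]
        refine ⟨by simp, by simp, by simp, ?_⟩
        simpa using haa

/-- the world followed by `τ` -/
def soundW (n : ℕ) (lab : List Bool → ℕ) (τ : ℕ → Bool) : ℕ → List Bool
  | 0 => []
  | j + 1 => soundW n lab τ j ++
      [if lab (soundW n lab τ j) < n then τ (lab (soundW n lab τ j)) else false]

theorem soundW_length (n : ℕ) (lab : List Bool → ℕ) (τ : ℕ → Bool) (j : ℕ) :
    (soundW n lab τ j).length = j := by
  induction j with
  | zero => rfl
  | succ j ih => simp [soundW, ih]

theorem soundW_take (n : ℕ) (lab : List Bool → ℕ) (τ : ℕ → Bool) (k j : ℕ) (h : j ≤ k) :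
    (soundW n lab τ k).take j = soundW n lab τ j := by
  induction k with
  | zero =>
    obtain rfl : j = 0 := by omega
    rfl
  | succ k ih =>
    rcases Nat.lt_or_ge k j with h1 | h1
    · obtain rfl : j = k + 1 := by omega
      rw [List.take_of_length_le]
      rw [soundW_length]
    · rw [soundW, List.take_append_of_le_length (by rw [soundW_length]; exact h1), ih h1]

theorem soundW_getD (n : ℕ) (lab : List Bool → ℕ) (τ : ℕ → Bool) (k j : ℕ) (h : j < k) :
    (soundW n lab τ k).getD j false =
      if lab (soundW n lab τ j) < n then τ (lab (soundW n lab τ j)) else false := by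
  have h1 := soundW_take n lab τ k (j + 1) h
  have h2 : ((soundW n lab τ k).take (j + 1)).getD j false = (soundW n lab τ k).getD j false := by
    rw [List.getD_eq_getElem?_getD, List.getD_eq_getElem?_getD, List.getElem?_take]
    simp
  rw [← h2, h1, soundW, List.getD_eq_getElem?_getD,
    List.getElem?_append_right (by rw [soundW_length])]
  simp [soundW_length]

/-- **Soundness.** -/
theorem sol_sound (q : List Bool) (F : Fam) (A V : Finset ℕ) (k : ℕ) (lab : List Bool → ℕ)
    (α : List Bool → ℕ → Bool) (hcl : ∀ c ∈ A, ∀ l ∈ F c, l.1 < q.length) (hV : V ⊆ exAll q)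
    (hlab : LabOK q lab) (hag : Agree V k lab α)
    (hsat : ∀ b : List Bool, b.length = k → ∀ c ∈ A,
      (∃ x ∈ V, (x, α b x) ∈ F c) ∨ LabSat F k lab b c) :
    TruthF q F A := by
  classical
  have hVl : ∀ x ∈ V, x < q.length ∧ q.getD x false = true := by
    intro x hx
    have := hV hx
    rw [exAll, Finset.mem_filter, Finset.mem_range] at this
    exact this
  let b : (ℕ → Bool) → List Bool := fun τ => soundW q.length lab τ k
  have hbl : ∀ τ, (b τ).length = k := fun τ => soundW_length _ _ _ _
  let σ : (ℕ → Bool) → ℕ → Bool := fun τ x =>
    if x ∈ V then α (b τ) x else if q.getD x false = true then false else τ x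
  have hσV : ∀ τ x, x ∈ V → σ τ x = α (b τ) x := fun τ x hx => if_pos hx
  have hσu : ∀ τ x, q.getD x false = false → σ τ x = τ x := by
    intro τ x hx
    have h1 : x ∉ V := fun h => by
      have := (hVl x h).2
      rw [hx] at this
      exact absurd this (by simp)
    have h2 : ¬ (q.getD x false = true) := by rw [hx]; simp
    show (if x ∈ V then α (b τ) x else if q.getD x false = true then false else τ x) = τ x
    rw [if_neg h1, if_neg h2]
  refine qtrue_of_skolem q _ σ ?_ (fun τ x _ hx => hσu τ x hx) ?_
  · intro τ τ' x hx hqx hy
    by_cases hxV : x ∈ V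
    · rw [hσV τ x hxV, hσV τ' x hxV]
      by_cases hbb : b τ = b τ'
      · rw [hbb]
      · refine hag (b τ) (b τ') (hbl τ) (hbl τ') hbb x hxV ?_
        obtain ⟨h1, h2, h3, h4⟩ := sound_lcp_spec (b τ) (b τ') (by rw [hbl, hbl]) hbb
        rw [hbl] at h1
        have h5 := soundW_getD q.length lab τ k _ h1
        have h6 := soundW_getD q.length lab τ' k _ h1
        have h7 : soundW q.length lab τ (lcp (b τ) (b τ')).length = lcp (b τ) (b τ') := by
          rw [← soundW_take q.length lab τ k _ h1.le]
          exact h2
        have h8 : soundW q.length lab τ' (lcp (b τ) (b τ')).length = lcp (b τ) (b τ') := by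
          rw [← soundW_take q.length lab τ' k _ h1.le]
          exact h3
        rw [h7] at h5
        rw [h8] at h6
        have h9 : (if lab (lcp (b τ) (b τ')) < q.length then τ (lab (lcp (b τ) (b τ')))
            else false) ≠ (if lab (lcp (b τ) (b τ')) < q.length then
              τ' (lab (lcp (b τ) (b τ'))) else false) := by
          rw [← h5, ← h6]
          exact h4
        by_cases hlt : lab (lcp (b τ) (b τ')) < q.length
        · rw [if_pos hlt, if_pos hlt] at h9
          have hu := hlab _ hlt
          have h10 : ¬ lab (lcp (b τ) (b τ')) < x := fun h11 => h9 (hy _ h11 hu)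
          have h12 : x ≠ lab (lcp (b τ) (b τ')) := by
            intro h0
            rw [← h0, hqx] at hu
            exact absurd hu (by simp)
          omega
        · rw [if_neg hlt, if_neg hlt] at h9
          exact absurd rfl h9
    · show (if x ∈ V then α (b τ) x else if q.getD x false = true then false else τ x) =
        (if x ∈ V then α (b τ') x else if q.getD x false = true then false else τ' x)
      rw [if_neg hxV, if_neg hxV, if_pos hqx, if_pos hqx]
  · intro τ c hc
    have hval : ∀ x, x < q.length →
        ((List.range q.length).map (σ τ)).getD x false = σ τ x := by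
      intro x hx
      rw [List.getD_eq_getElem?_getD, List.getElem?_map, List.getElem?_range hx]
      rfl
    rcases hsat (b τ) (hbl τ) c hc with ⟨x, hx, hxc⟩ | ⟨j, hj, hjc⟩
    · exact ⟨_, hxc, by rw [hval x (hVl x hx).1, hσV τ x hx]⟩
    · have hlt := hcl c hc _ hjc
      refine ⟨_, hjc, ?_⟩
      have h1 : (b τ).take j = soundW q.length lab τ j := soundW_take _ _ _ _ _ hj.le
      have h2 := soundW_getD q.length lab τ k j hj
      simp only [] at hlt ⊢
      rw [hval _ hlt, hσu τ _ (hlab _ hlt)]
      have h3 : (b τ).getD j false = if lab (soundW q.length lab τ j) < q.length then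
          τ (lab (soundW q.length lab τ j)) else false := h2
      rw [h3, h1]
      rw [h1] at hlt
      rw [if_pos hlt]

end Pool.Agent.MP_925109_lc
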