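import Mathlib
import Pool.Agent.MP_925109_lc.Hall

/-!
Lean families.
-/

set_option autoImplicit false

namespace Pool.Agent.MP_925109_lc

theorem IsLean.vr_eq {F : Fam} {V A : Finset ℕ} (h : IsLean F V A) : vr F V A = V := by
  refine Finset.Subset.antisymm (vr_subset F V A) ?_
  intro x hx
  obtain ⟨c, hc, ⟨y, hy, hoc⟩, _⟩ := h {x} (Finset.singleton_subset_iff.2 hx)
    (Finset.singleton_nonempty x) (fun _ => true)
  rw [Finset.mem_singleton] at hy
  subst hy
  exact mem_vr.2 ⟨hx, c, hc, hoc⟩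

/-- every variable occurs in both signs -/
theorem IsLean.both_signs {F : Fam} {V A : Finset ℕ} (h : IsLean F V A) {x : ℕ} (hx : x ∈ V)
    (e : Bool) : ∃ c ∈ A, (x, e) ∈ F c := by
  obtain ⟨c, hc, ⟨y, hy, e', he'⟩, hn⟩ := h {x} (Finset.singleton_subset_iff.2 hx)
    (Finset.singleton_nonempty x) (fun _ => !e)
  rw [Finset.mem_singleton] at hy
  subst hy
  have h1 := hn y (Finset.mem_singleton_self y)
  refine ⟨c, hc, ?_⟩
  have h2 : e' = e := by
    by_contra hne
    apply h1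
    have h3 : (!e) = e' := by
      cases e <;> cases e' <;> simp_all
    rw [h3]
    exact he'
  rwa [h2] at he'

theorem IsLean.crit {F : Fam} {V A : Finset ℕ} (h : IsLean F V A) : Crit F V A := by
  classical
  intro B hB
  by_contra hcon
  push Not at hcon
  obtain ⟨C, hC⟩ := exists_core F V A
  have hCA : C ≠ A := by
    intro heq
    have h1 := hC.2.1 B hB.subset
    rw [heq] at h1
    have h2 : df F V B = df F V C := by rw [heq]; exact le_antisymm h1 hcon
    have h3 := hC.2.2 B hB.subset h2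
    rw [heq] at h3
    exact absurd (Finset.Subset.antisymm hB.subset h3) hB.ne
  obtain ⟨g, hginj, hg⟩ := hall_clauses hC.rest
  have hdiff : (A \ C).Nonempty := by
    rw [Finset.sdiff_nonempty]
    intro hAC
    exact hCA (Finset.Subset.antisymm hC.1 hAC)
  -- the assignment
  have hs : ∀ c ∈ A \ C, ∃ e : Bool, (g c, e) ∈ F c := fun c hc => (hg c hc).2
  choose! s hs using hs
  set gi := Function.invFunOn g (A \ C : Finset ℕ) with hgi
  have hgi' : ∀ c ∈ A \ C, gi (g c) = c := by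
    intro c hc
    exact hginj.leftInvOn_invFunOn (Finset.mem_coe.2 hc)
  obtain ⟨c, hcA, ⟨x, hxW, hox⟩, hns⟩ := h ((A \ C).image g) (by
    intro x hx
    obtain ⟨c, hc, rfl⟩ := Finset.mem_image.1 hx
    exact (Finset.mem_sdiff.1 (hg c hc).1).1) (hdiff.image g) (fun x => s (gi x))
  obtain ⟨c', hc', rfl⟩ := Finset.mem_image.1 hxW
  have hcC : c ∉ C := by
    intro hcC
    have h4 := Finset.mem_sdiff.1 (hg c' hc').1
    exact h4.2 (mem_vr.2 ⟨h4.1, c, hcC, hox⟩)
  have hcAC : c ∈ A \ C := Finset.mem_sdiff.2 ⟨hcA, hcC⟩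
  have h5 := hns (g c) (Finset.mem_image_of_mem g hcAC)
  apply h5
  simp only [hgi' c hcAC]
  exact hs c hcAC

theorem IsLean.card_lt {F : Fam} {V A : Finset ℕ} (h : IsLean F V A) (hA : A.Nonempty) :
    V.card < A.card := by
  have h1 := h.crit ∅ (Finset.empty_ssubset.2 hA)
  rw [df_empty] at h1
  unfold df at h1
  rw [h.vr_eq] at h1
  have : (V.card : ℤ) < A.card := by linarith
  exact_mod_cast this

/-- restriction to variables that only occur in `E` -/
theorem IsLean.private {F : Fam} {V A E W : Finset ℕ} (h : IsLean F V A) (hE : E ⊆ A) (hW : W ⊆ V)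
    (hp : ∀ c ∈ A, c ∉ E → ∀ x ∈ W, ¬ occ F c x) : IsLean F W E := by
  intro W' hW' hne α
  obtain ⟨c, hc, ⟨x, hx, hox⟩, hn⟩ := h W' (hW'.trans hW) hne α
  refine ⟨c, ?_, ⟨x, hx, hox⟩, hn⟩
  by_contra hcE
  exact hp c hc hcE x (hW' hx) hox

theorem IsLean.not_satOn {F : Fam} {V A : Finset ℕ} (h : IsLean F V A) (hA : A.Nonempty) :
    ¬ SatOn F V A := by
  rintro ⟨α, hα⟩
  obtain ⟨c0, hc0⟩ := hA
  obtain ⟨x0, hx0, _⟩ := hα c0 hc0
  obtain ⟨c, hc, _, hn⟩ := h V (Finset.Subset.refl V) ⟨x0, hx0⟩ α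
  obtain ⟨x, hx, hxc⟩ := hα c hc
  exact hn x hx hxc

/-- for a literal of a variable of a lean family, the clauses without this literal cannot be
satisfied by the other variables -/
theorem IsLean.not_satOn_lit {F : Fam} {V A : Finset ℕ} (h : IsLean F V A) {w : ℕ} (hw : w ∈ V)
    (e : Bool) : ¬ SatOn F (V.erase w) (A.filter (fun c => (w, e) ∉ F c)) := by
  rintro ⟨α, hα⟩
  obtain ⟨c0, hc0, _⟩ := h.both_signs hw e
  refine h.not_satOn ⟨c0, hc0⟩ ⟨Function.update α w e, fun c hc => ?_⟩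
  by_cases hce : (w, e) ∈ F c
  · exact ⟨w, hw, by simpa using hce⟩
  · obtain ⟨x, hx, hxc⟩ := hα c (Finset.mem_filter.2 ⟨hc, hce⟩)
    rw [Finset.mem_erase] at hx
    refine ⟨x, hx.2, ?_⟩
    rw [Function.update_of_ne hx.1]
    exact hxc

end Pool.Agent.MP_925109_lc
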