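import Mathlib
import Pool.Agent.MP_925109_lc.LeanThy

/-!
Lean families of deficiency one (minimal unsatisfiable families with one more clause than
variables).
-/

set_option autoImplicit false

namespace Pool.Agent.MP_925109_lc

/-- sets avoiding a literal -/
theorem oneOne_avoid {F : Fam} {V A : Finset ℕ} (h : IsLean F V A) (hc : A.card = V.card + 1)
    {w : ℕ} (hw : w ∈ V) (e : Bool) :
    ∃ B ⊆ A, (∀ c ∈ B, (w, e) ∉ F c) ∧ df F V B = 0 ∧ w ∈ vr F V B := by
  have hvr := h.vr_eq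
  have hdf : df F V A = 1 := by
    unfold df
    rw [hvr, hc]
    push_cast
    ring
  have hcrit := h.crit
  have hn := h.not_satOn_lit hw e
  have hn2 : ¬ NuLe F (V.erase w) (A.filter (fun c => (w, e) ∉ F c)) 0 :=
    fun h' => hn (satOn_of_nuLe_zero h')
  unfold NuLe at hn2
  push Not at hn2
  obtain ⟨B, hB, hB1⟩ := hn2
  have hBA : B ⊆ A := hB.trans (Finset.filter_subset _ _)
  have hBl : ∀ c ∈ B, (w, e) ∉ F c := fun c hc => (Finset.mem_filter.1 (hB hc)).2
  have hne : B ≠ A := by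
    rintro rfl
    obtain ⟨c, hc, hce⟩ := h.both_signs hw e
    exact hBl c hc hce
  have hss : B ⊂ A := lt_of_le_of_ne hBA hne
  have h0 := hcrit B hss
  rw [hdf] at h0
  have h1 := df_erase_le F V B w
  have hwB : w ∈ vr F V B := by
    by_contra hcon
    rw [df_erase_of_notMem F V B w hcon] at hB1
    omega
  exact ⟨B, hBA, hBl, by omega, hwB⟩

/-- a variable with exactly one positive and one negative occurrence -/
theorem one_one {F : Fam} {V A : Finset ℕ} (h : IsLean F V A) (hc : A.card = V.card + 1)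
    (hV : V.Nonempty) : ∃ w ∈ V, ∃ c₁ ∈ A, ∃ c₂ ∈ A, c₁ ≠ c₂ ∧
      (w, true) ∈ F c₁ ∧ (w, false) ∈ F c₂ ∧ (∀ c ∈ A, (w, true) ∈ F c → c = c₁) ∧
      (∀ c ∈ A, (w, false) ∈ F c → c = c₂) := by
  classical
  have hvr := h.vr_eq
  have hdf : df F V A = 1 := by
    unfold df
    rw [hvr, hc]
    push_cast
    ring
  have hcrit := h.crit
  let 𝒟 : Finset (Finset ℕ) := A.powerset.filter fun D => D ≠ A ∧ df F V D = 0 ∧ vr F V D ≠ V
  have h𝒟 : 𝒟.Nonempty := by
    refine ⟨∅, ?_⟩
    rw [Finset.mem_filter]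
    refine ⟨Finset.empty_mem_powerset _, ?_, df_empty F V, ?_⟩
    · intro h0
      rw [← h0] at hc
      simp at hc
    · rw [vr_empty]
      exact hV.ne_empty.symm
  obtain ⟨D, hD, hmax⟩ := 𝒟.exists_max_image Finset.card h𝒟
  rw [Finset.mem_filter, Finset.mem_powerset] at hD
  obtain ⟨hDA, hDne, hD0, hDv⟩ := hD
  obtain ⟨w, hwV, hwD⟩ : ∃ w ∈ V, w ∉ vr F V D := by
    by_contra hcon
    push Not at hcon
    exact hDv (Finset.Subset.antisymm (vr_subset F V D) hcon)
  have hDocc : ∀ c ∈ D, ¬ occ F c w := by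
    intro c hcD hcc
    exact hwD (mem_vr.2 ⟨hwV, c, hcD, hcc⟩)
  -- the unique clause with a given sign
  have key : ∀ e : Bool, ∃ c₀ ∈ A, (w, e) ∈ F c₀ ∧ ∀ c ∈ A, (w, e) ∈ F c → c = c₀ := by
    intro e
    obtain ⟨B, hBA, hBl, hB0, hwB⟩ := oneOne_avoid h hc hwV e
    have hUA : D ∪ B ⊆ A := Finset.union_subset hDA hBA
    have hUl : ∀ c ∈ D ∪ B, (w, e) ∉ F c := by
      intro c hcU
      rcases Finset.mem_union.1 hcU with h1 | h1
      · exact fun h2 => hDocc c h1 ⟨e, h2⟩
      · exact hBl c h1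
    have hUne : D ∪ B ≠ A := by
      intro h0
      obtain ⟨c, hcA, hce⟩ := h.both_signs hwV e
      rw [← h0] at hcA
      exact hUl c hcA hce
    have hU1 := hcrit _ (lt_of_le_of_ne hUA hUne)
    have hI1 := hcrit (D ∩ B) (lt_of_le_of_lt (Finset.inter_subset_left)
      (lt_of_le_of_ne hDA hDne))
    have hadd := df_add_le F V D B
    have hU0 : df F V (D ∪ B) = 0 := by omega
    have hwU : w ∈ vr F V (D ∪ B) := vr_mono Finset.subset_union_right hwB
    have hlt : D.card < (D ∪ B).card := by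
      apply Finset.card_lt_card
      refine lt_of_le_of_ne Finset.subset_union_left fun h0 => hwD ?_
      rw [h0]
      exact hwU
    have hUv : vr F V (D ∪ B) = V := by
      by_contra hcon
      have := hmax (D ∪ B) (Finset.mem_filter.2 ⟨Finset.mem_powerset.2 hUA, hUne, hU0, hcon⟩)
      omega
    have hUc : (D ∪ B).card = V.card := by
      unfold df at hU0
      rw [hUv] at hU0
      omega
    have hone : (A \ (D ∪ B)).card = 1 := by
      rw [Finset.card_sdiff_of_subset hUA]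
      omega
    obtain ⟨c₀, hc₀⟩ := Finset.card_eq_one.1 hone
    have huniq : ∀ c ∈ A, (w, e) ∈ F c → c = c₀ := by
      intro c hcA hce
      have : c ∈ A \ (D ∪ B) := Finset.mem_sdiff.2 ⟨hcA, fun hcU => hUl c hcU hce⟩
      rw [hc₀, Finset.mem_singleton] at this
      exact this
    obtain ⟨c, hcA, hce⟩ := h.both_signs hwV e
    have := huniq c hcA hce
    subst this
    exact ⟨c, hcA, hce, huniq⟩
  obtain ⟨c₁, h₁, hw₁, hu₁⟩ := key true
  obtain ⟨c₂, h₂, hw₂, hu₂⟩ := key false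
  refine ⟨w, hwV, c₁, h₁, c₂, h₂, ?_, hw₁, hw₂, hu₁, hu₂⟩
  rintro rfl
  obtain ⟨c, hcA, ⟨x, hx, e, hxe⟩, hns⟩ := h {w} (Finset.singleton_subset_iff.2 hwV)
    (Finset.singleton_nonempty w) (fun _ => true)
  rw [Finset.mem_singleton] at hx
  subst hx
  have hcc : c = c₁ := by
    cases e
    · exact hu₂ c hcA hxe
    · exact hu₁ c hcA hxe
  subst hcc
  exact hns x (Finset.mem_singleton_self x) hw₁

/-- resolution of the two clauses -/
theorem contract_lean {F : Fam} {V A : Finset ℕ} (h : IsLean F V A) {w c₁ c₂ : ℕ} (hw : w ∈ V)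
    (h₁ : c₁ ∈ A) (h₂ : c₂ ∈ A) (hne : c₁ ≠ c₂) (hw₁ : (w, true) ∈ F c₁) (hw₂ : (w, false) ∈ F c₂)
    (hu₁ : ∀ c ∈ A, (w, true) ∈ F c → c = c₁) (hu₂ : ∀ c ∈ A, (w, false) ∈ F c → c = c₂) :
    IsLean (Function.update F c₁ ((F c₁).erase (w, true) ∪ (F c₂).erase (w, false)))
      (V.erase w) (A.erase c₂) := by
  classical
  set R : Finset Lit := (F c₁).erase (w, true) ∪ (F c₂).erase (w, false) with hR
  intro W hW hWne α
  have hwW : ∀ x ∈ W, x ≠ w := fun x hx => (Finset.mem_erase.1 (hW hx)).1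
  have hWV : W ⊆ V := hW.trans (Finset.erase_subset _ _)
  have hF1 : Function.update F c₁ R c₁ = R := Function.update_self _ _ _
  have hF : ∀ c, c ≠ c₁ → Function.update F c₁ R c = F c := fun c hc =>
    Function.update_of_ne hc _ _
  have hmemR : ∀ x e, x ≠ w → ((x, e) ∈ R ↔ (x, e) ∈ F c₁ ∨ (x, e) ∈ F c₂) := by
    intro x e hx
    rw [hR, Finset.mem_union, Finset.mem_erase, Finset.mem_erase]
    have h3 : ∀ b : Bool, (x, e) ≠ (w, b) := fun b hb => hx (Prod.mk.inj hb).1
    constructor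
    · rintro (h4 | h4)
      · exact Or.inl h4.2
      · exact Or.inr h4.2
    · rintro (h4 | h4)
      · exact Or.inl ⟨h3 _, h4⟩
      · exact Or.inr ⟨h3 _, h4⟩
  -- extension of the assignment by a value of `w`
  have ext : ∀ (b : Bool) (ca cb : ℕ), (w, b) ∈ F cb → (∀ c ∈ A, (w, b) ∈ F c → c = cb) →
      (∀ c ∈ A, (w, !b) ∈ F c → c = ca) → (ca = c₁ ∧ cb = c₂ ∨ ca = c₂ ∧ cb = c₁) →
      (∃ x ∈ W, (x, α x) ∈ F ca) →
      ∃ c ∈ A.erase c₂, (∃ x ∈ W, occ (Function.update F c₁ R) c x) ∧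
        ∀ x ∈ W, (x, α x) ∉ Function.update F c₁ R c := by
    intro b ca cb hb hub hua hab ⟨x₀, hx₀, hx₀'⟩
    obtain ⟨c, hcA, ⟨x, hx, hocc⟩, hns⟩ := h (insert w W)
      (Finset.insert_subset hw hWV) (Finset.insert_nonempty w W)
      (fun y => if y = w then b else α y)
    have hcb : c ≠ cb := by
      rintro rfl
      have := hns w (Finset.mem_insert_self w W)
      simp only [if_true] at this
      exact this hb
    have hca : c ≠ ca := by
      rintro rfl
      have := hns x₀ (Finset.mem_insert_of_mem hx₀)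
      simp only [if_neg (hwW x₀ hx₀)] at this
      exact this hx₀'
    have hc12 : c ≠ c₁ ∧ c ≠ c₂ := by
      rcases hab with ⟨r1, r2⟩ | ⟨r1, r2⟩
      · rw [← r1, ← r2]; exact ⟨hca, hcb⟩
      · rw [← r1, ← r2]; exact ⟨hcb, hca⟩
    have hxW : x ∈ W := by
      rcases Finset.mem_insert.1 hx with h4 | h4
      · exfalso
        subst h4
        obtain ⟨e, he⟩ := hocc
        by_cases heb : e = b
        · rw [heb] at he
          exact hcb (hub c hcA he)
        · have : e = !b := Bool.eq_not.2 heb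
          rw [this] at he
          exact hca (hua c hcA he)
      · exact h4
    refine ⟨c, Finset.mem_erase.2 ⟨hc12.2, hcA⟩, ⟨x, hxW, ?_⟩, fun y hy => ?_⟩
    · unfold occ
      rw [hF c hc12.1]
      exact hocc
    · rw [hF c hc12.1]
      have := hns y (Finset.mem_insert_of_mem hy)
      simp only [if_neg (hwW y hy)] at this
      exact this
  by_cases hocc : ∃ x ∈ W, ∃ e, (x, e) ∈ R
  · by_cases hsat : ∃ x ∈ W, (x, α x) ∈ R
    · obtain ⟨x, hx, hxR⟩ := hsat
      rcases (hmemR x (α x) (hwW x hx)).1 hxR with h4 | h4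
      · exact ext false c₁ c₂ hw₂ hu₂ hu₁ (Or.inl ⟨rfl, rfl⟩) ⟨x, hx, h4⟩
      · exact ext true c₂ c₁ hw₁ hu₁ hu₂ (Or.inr ⟨rfl, rfl⟩) ⟨x, hx, h4⟩
    · push Not at hsat
      obtain ⟨x, hx, e, hxe⟩ := hocc
      refine ⟨c₁, Finset.mem_erase.2 ⟨hne, h₁⟩, ⟨x, hx, e, ?_⟩, fun y hy => ?_⟩
      · rw [hF1]; exact hxe
      · rw [hF1]; exact hsat y hy
  · push Not at hocc
    obtain ⟨c, hcA, ⟨x, hx, e, hxe⟩, hns⟩ := h W hWV hWne α
    have hc1 : c ≠ c₁ := by
      rintro rfl
      exact hocc x hx e ((hmemR x e (hwW x hx)).2 (Or.inl hxe))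
    have hc2 : c ≠ c₂ := by
      rintro rfl
      exact hocc x hx e ((hmemR x e (hwW x hx)).2 (Or.inr hxe))
    refine ⟨c, Finset.mem_erase.2 ⟨hc2, hcA⟩, ⟨x, hx, e, ?_⟩, fun y hy => ?_⟩
    · rw [hF c hc1]; exact hxe
    · rw [hF c hc1]; exact hns y hy

/-- **Splitting lemma.** Some variable `v` separates the family into two parts that share no other
variable. -/
theorem mu1_split (n : ℕ) : ∀ {F : Fam} {V A : Finset ℕ}, V.card = n → IsLean F V A →
    A.card = V.card + 1 → V.Nonempty → ∃ v ∈ V, ∃ E ⊆ A, E.Nonempty ∧ E ≠ A ∧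
      ∀ x ∈ V, x ≠ v → (∃ c ∈ E, occ F c x) → ∀ c ∈ A, c ∉ E → ¬ occ F c x := by
  classical
  induction n with
  | zero =>
    intro F V A hV _ _ hne
    exact absurd (Finset.card_eq_zero.1 hV) hne.ne_empty
  | succ n ih =>
    intro F V A hV h hc hne
    obtain ⟨w, hw, c₁, h₁, c₂, h₂, hc12, hw₁, hw₂, hu₁, hu₂⟩ := one_one h hc hne
    by_cases hVw : (V.erase w).Nonempty
    · set R : Finset Lit := (F c₁).erase (w, true) ∪ (F c₂).erase (w, false) with hR
      have hlean := contract_lean h hw h₁ h₂ hc12 hw₁ hw₂ hu₁ hu₂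
      rw [← hR] at hlean
      have hcv : (V.erase w).card = n := by
        rw [Finset.card_erase_of_mem hw, hV]
        rfl
      have hca : (A.erase c₂).card = (V.erase w).card + 1 := by
        rw [Finset.card_erase_of_mem h₂, hc, hcv, hV]
        rfl
      have hF : ∀ c, c ≠ c₁ → Function.update F c₁ R c = F c := fun c hc =>
        Function.update_of_ne hc _ _
      have hF1 : Function.update F c₁ R c₁ = R := Function.update_self _ _ _
      obtain ⟨v, hv, E₀, hE₀, hE₀ne, hE₀A, hsep₀⟩ := ih hcv hlean hca hVw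
      -- wlog `c₁ ∈ E'`
      obtain ⟨E', hE', hE'A, hc1E, hsep⟩ : ∃ E' ⊆ A.erase c₂, E' ≠ A.erase c₂ ∧ c₁ ∈ E' ∧
          ∀ x ∈ V.erase w, x ≠ v → (∃ c ∈ E', occ (Function.update F c₁ R) c x) →
            ∀ c ∈ A.erase c₂, c ∉ E' → ¬ occ (Function.update F c₁ R) c x := by
        by_cases hc1 : c₁ ∈ E₀
        · exact ⟨E₀, hE₀, hE₀A, hc1, hsep₀⟩
        · refine ⟨A.erase c₂ \ E₀, Finset.sdiff_subset, ?_, ?_, ?_⟩
          · intro h0
            obtain ⟨c, hcE⟩ := hE₀ne
            have : c ∈ A.erase c₂ \ E₀ := by rw [h0]; exact hE₀ hcE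
            exact (Finset.mem_sdiff.1 this).2 hcE
          · exact Finset.mem_sdiff.2 ⟨Finset.mem_erase.2 ⟨hc12, h₁⟩, hc1⟩
          · rintro x hx hxv ⟨c, hcE, hco⟩ c' hc' hc'E hco'
            rw [Finset.mem_sdiff, not_and, not_not] at hc'E
            exact hsep₀ x hx hxv ⟨c', hc'E hc', hco'⟩ c (Finset.mem_sdiff.1 hcE).1
              (Finset.mem_sdiff.1 hcE).2 hco
      refine ⟨v, Finset.mem_of_mem_erase hv, insert c₂ E',
        Finset.insert_subset h₂ (hE'.trans (Finset.erase_subset _ _)),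
        Finset.insert_nonempty _ _, ?_, ?_⟩
      · intro h0
        apply hE'A
        refine Finset.Subset.antisymm hE' fun c hcA => ?_
        have : c ∈ insert c₂ E' := by rw [h0]; exact Finset.mem_of_mem_erase hcA
        rcases Finset.mem_insert.1 this with h4 | h4
        · exact absurd h4 (Finset.mem_erase.1 hcA).1
        · exact h4
      · rintro x hx hxv ⟨c, hcE, e, hce⟩ c' hc'A hc'E ⟨e', hce'⟩
        rw [Finset.mem_insert, not_or] at hc'E
        have hc'1 : c' ≠ c₁ := by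
          rintro rfl
          exact hc'E.2 hc1E
        by_cases hxw : x = w
        · subst hxw
          cases e'
          · exact hc'E.1 (hu₂ c' hc'A hce')
          · exact hc'1 (hu₁ c' hc'A hce')
        · have hx' : x ∈ V.erase w := Finset.mem_erase.2 ⟨hxw, hx⟩
          have h3 : ∀ b : Bool, (x, e) ≠ (w, b) := fun b hb => hxw (Prod.mk.inj hb).1
          have hex : ∃ c ∈ E', occ (Function.update F c₁ R) c x := by
            by_cases hc1 : c = c₁
            · refine ⟨c₁, hc1E, e, ?_⟩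
              rw [hF1, hR, Finset.mem_union, Finset.mem_erase]
              rw [hc1] at hce
              exact Or.inl ⟨h3 _, hce⟩
            · rcases Finset.mem_insert.1 hcE with h4 | h4
              · refine ⟨c₁, hc1E, e, ?_⟩
                rw [hF1, hR, Finset.mem_union, Finset.mem_erase, Finset.mem_erase]
                rw [h4] at hce
                exact Or.inr ⟨h3 _, hce⟩
              · refine ⟨c, h4, e, ?_⟩
                rw [hF c hc1]
                exact hce
          refine hsep x hx' hxv hex c' (Finset.mem_erase.2 ⟨hc'E.1, hc'A⟩) hc'E.2 ⟨e', ?_⟩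
          rw [hF c' hc'1]
          exact hce'
    · have hVs : ∀ x ∈ V, x = w := by
        intro x hx
        by_contra hxw
        exact hVw ⟨x, Finset.mem_erase.2 ⟨hxw, hx⟩⟩
      refine ⟨w, hw, {c₁}, Finset.singleton_subset_iff.2 h₁, Finset.singleton_nonempty _, ?_, ?_⟩
      · intro h0
        rw [← h0, Finset.mem_singleton] at h₂
        exact hc12 h₂.symm
      · intro x hx hxw
        exact absurd (hVs x hx) hxw

end Pool.Agent.MP_925109_lc
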