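import Mathlib
import Pool.Agent.MP_925109_lc.LeanThy

/-!
Connected lean families of deficiency `k ≥ 2`: some literal reduces the maximal deficiency.
-/

set_option autoImplicit false

namespace Pool.Agent.MP_925109_lc

theorem exists_good_literal {F : Fam} {V A : Finset ℕ} {k : ℕ} (h : IsLean F V A)
    (hc : A.card = V.card + k) (hk : 2 ≤ k)
    (hconn : ∀ E ⊆ A, E.Nonempty → E ≠ A →
      ∃ x ∈ V, (∃ c ∈ E, occ F c x) ∧ ∃ c ∈ A, c ∉ E ∧ occ F c x) :
    ∃ w ∈ V, ∃ e : Bool, NuLe F (V.erase w) (A.filter (fun c => (w, e) ∉ F c)) ((k : ℤ) - 1) := by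
  classical
  by_contra hcon
  push Not at hcon
  have hdfA : df F V A = k := by
    unfold df
    rw [h.vr_eq, hc]
    push_cast
    ring
  have hcrit := h.crit
  have hprop : ∀ B, B ⊂ A → df F V B ≤ (k : ℤ) - 1 := by
    intro B hB
    have := hcrit B hB
    rw [hdfA] at this
    linarith
  have hle : ∀ B, B ⊆ A → df F V B ≤ (k : ℤ) := by
    intro B hB
    have := hcrit.nuLe B hB
    rwa [hdfA] at this
  -- one literal
  have h1 : ∀ w ∈ V, ∀ e : Bool, ∃ B ⊆ A.filter (fun c => (w, e) ∉ F c),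
      df F V B = (k : ℤ) - 1 ∧ w ∈ vr F V B := by
    intro w hw e
    have h2 := hcon w hw e
    unfold NuLe at h2
    push Not at h2
    obtain ⟨B, hB, hBk⟩ := h2
    have hBA : B ⊂ A := by
      refine Finset.ssubset_iff_subset_ne.2 ⟨hB.trans (Finset.filter_subset _ _), ?_⟩
      intro hBA
      obtain ⟨c, hcA, hce⟩ := h.both_signs hw e
      have h3 : c ∈ B := by rw [hBA]; exact hcA
      exact (Finset.mem_filter.1 (hB h3)).2 hce
    have h3 := hprop B hBA
    have h4 := df_erase_le F V B w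
    refine ⟨B, hB, by linarith, ?_⟩
    by_contra h5
    have h6 := df_erase_of_notMem F V B w h5
    linarith
  -- both literals
  have h2 : ∀ w ∈ V, ∃ D, D ⊂ A ∧ df F V D = (k : ℤ) - 1 ∧ w ∉ vr F V D := by
    intro w hw
    obtain ⟨B1, hB1, hd1, hw1⟩ := h1 w hw true
    obtain ⟨B2, hB2, hd2, hw2⟩ := h1 w hw false
    have hw12 : w ∉ vr F V (B1 ∩ B2) := by
      intro hw'
      rw [mem_vr] at hw'
      obtain ⟨_, c, hc12, e, hce⟩ := hw'
      rw [Finset.mem_inter] at hc12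
      cases e
      · exact (Finset.mem_filter.1 (hB2 hc12.2)).2 hce
      · exact (Finset.mem_filter.1 (hB1 hc12.1)).2 hce
    have hadd := df_add F V B1 B2
    have hcard : 1 ≤ ((vr F V B1 ∩ vr F V B2) \ vr F V (B1 ∩ B2)).card := by
      rw [Nat.succ_le_iff, Finset.card_pos]
      exact ⟨w, Finset.mem_sdiff.2 ⟨Finset.mem_inter.2 ⟨hw1, hw2⟩, hw12⟩⟩
    have hcard' : (1 : ℤ) ≤ (((vr F V B1 ∩ vr F V B2) \ vr F V (B1 ∩ B2)).card : ℤ) := by
      exact_mod_cast hcard
    have hB1A : B1 ⊆ A := hB1.trans (Finset.filter_subset _ _)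
    have hB2A : B2 ⊆ A := hB2.trans (Finset.filter_subset _ _)
    have hu : df F V (B1 ∪ B2) ≤ (k : ℤ) := hle _ (Finset.union_subset hB1A hB2A)
    have hss : B1 ∩ B2 ⊂ A := by
      refine Finset.ssubset_iff_subset_ne.2 ⟨Finset.inter_subset_left.trans hB1A, ?_⟩
      intro heq
      obtain ⟨c, hcA, hce⟩ := h.both_signs hw true
      rw [← heq, Finset.mem_inter] at hcA
      exact (Finset.mem_filter.1 (hB1 hcA.1)).2 hce
    have hi := hprop _ hss
    exact ⟨B1 ∩ B2, hss, by linarith, hw12⟩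
  -- `V` is nonempty
  have hV : V.Nonempty := by
    rw [Finset.nonempty_iff_ne_empty]
    intro hV
    rw [hV, Finset.card_empty, zero_add] at hc
    have hA : A.Nonempty := Finset.card_pos.1 (by omega)
    obtain ⟨c, hcA⟩ := hA
    obtain ⟨x, hx, _⟩ := hconn {c} (Finset.singleton_subset_iff.2 hcA)
      (Finset.singleton_nonempty c) (by
        intro heq
        rw [← heq, Finset.card_singleton] at hc
        omega)
    rw [hV] at hx
    exact absurd hx (Finset.notMem_empty x)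
  obtain ⟨w0, hw0⟩ := hV
  obtain ⟨D0, hD0, hdD0, _⟩ := h2 w0 hw0
  set S := A.powerset.filter (fun D => D ⊂ A ∧ df F V D = (k : ℤ) - 1) with hS
  have hSne : S.Nonempty :=
    ⟨D0, Finset.mem_filter.2 ⟨Finset.mem_powerset.2 hD0.subset, hD0, hdD0⟩⟩
  obtain ⟨D, hD, hmin⟩ := Finset.exists_min_image S Finset.card hSne
  rw [hS, Finset.mem_filter] at hD
  obtain ⟨_, hDA, hdD⟩ := hD
  have hDne : D.Nonempty := by
    rw [Finset.nonempty_iff_ne_empty]
    intro hD0'
    rw [hD0', df_empty] at hdD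
    have : (k : ℤ) = 1 := by linarith
    have : k = 1 := by exact_mod_cast this
    omega
  obtain ⟨w, hw, ⟨c1, hc1, ho1⟩, c2, hc2A, hc2D, ho2⟩ := hconn D hDA.subset hDne hDA.ne
  obtain ⟨Dw, hDw, hdDw, hwDw⟩ := h2 w hw
  have hno : ∀ c ∈ Dw, ¬ occ F c w := by
    intro c hc' ho
    exact hwDw (mem_vr.2 ⟨hw, c, hc', ho⟩)
  have hu : D ∪ Dw ⊂ A := by
    refine Finset.ssubset_iff_subset_ne.2 ⟨Finset.union_subset hDA.subset hDw.subset, ?_⟩
    intro heq
    have : c2 ∈ D ∪ Dw := by rw [heq]; exact hc2A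
    rw [Finset.mem_union] at this
    rcases this with h3 | h3
    · exact hc2D h3
    · exact hno c2 h3 ho2
  have hi : D ∩ Dw ⊂ A := lt_of_le_of_lt Finset.inter_subset_left hDA
  have h3 := df_add_le F V D Dw
  have h4 := hprop _ hu
  have h5 := hprop _ hi
  have h6 : df F V (D ∩ Dw) = (k : ℤ) - 1 := by linarith
  have h7 := hmin (D ∩ Dw)
    (Finset.mem_filter.2 ⟨Finset.mem_powerset.2 hi.subset, hi, h6⟩)
  have h8 : D ∩ Dw = D := Finset.eq_of_subset_of_card_le Finset.inter_subset_left h7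
  have h9 : c1 ∈ D ∩ Dw := by rw [h8]; exact hc1
  exact hno c1 (Finset.mem_inter.1 h9).2 ho1

end Pool.Agent.MP_925109_lc
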