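import Mathlib
import Pool.Agent.MP_925109_lc.LeanThy

/-!
The lean kernel is the core after the removal of few clauses.
-/

set_option autoImplicit false

namespace Pool.Agent.MP_925109_lc

theorem exists_kernel (F : Fam) (V A : Finset ℕ) : ∃ B, IsKernel F V A B := by
  classical
  let S : Finset (Finset ℕ) := A.powerset.filter (fun B => SatOn F (V \ vr F V B) (A \ B))
  have hAS : A ∈ S := by
    simp only [S, Finset.mem_filter, Finset.mem_powerset]
    refine ⟨Finset.Subset.refl _, fun _ => false, ?_⟩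
    intro c hc
    simp at hc
  obtain ⟨B, hBS, hmin⟩ := Finset.exists_min_image S Finset.card ⟨A, hAS⟩
  simp only [S, Finset.mem_filter, Finset.mem_powerset] at hBS hmin
  refine ⟨B, hBS.1, hBS.2, ?_⟩
  intro W hW hWne α
  by_contra hcon
  push Not at hcon
  let B' := B.filter (fun c => ¬ ∃ x ∈ W, occ F c x)
  have hB'B : B' ⊆ B := Finset.filter_subset _ _
  have hlt : B'.card < B.card := by
    apply Finset.card_lt_card
    refine ⟨hB'B, fun h => ?_⟩
    obtain ⟨x, hx⟩ := hWne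
    obtain ⟨c, hc, hcx⟩ := (mem_vr.1 (hW hx)).2
    have := h hc
    simp only [B', Finset.mem_filter] at this
    exact this.2 ⟨x, hx, hcx⟩
  have hle := hmin B' ⟨hB'B.trans hBS.1, ?_⟩
  · omega
  obtain ⟨θ, hθ⟩ := hBS.2
  refine ⟨fun x => if x ∈ W then α x else θ x, ?_⟩
  intro c hc
  rw [Finset.mem_sdiff] at hc
  by_cases hcB : c ∈ B
  · have htouch : ∃ x ∈ W, occ F c x := by
      by_contra h
      apply hc.2
      simp only [B', Finset.mem_filter]
      exact ⟨hcB, h⟩
    obtain ⟨x, hx, hxc⟩ := hcon c hcB htouch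
    refine ⟨x, ?_, ?_⟩
    · rw [Finset.mem_sdiff]
      refine ⟨(mem_vr.1 (hW hx)).1, ?_⟩
      intro h
      obtain ⟨c', hc', hcx'⟩ := (mem_vr.1 h).2
      simp only [B', Finset.mem_filter] at hc'
      exact hc'.2 ⟨x, hx, hcx'⟩
    · simp only [if_pos hx]
      exact hxc
  · obtain ⟨x, hx, hxc⟩ := hθ c (by rw [Finset.mem_sdiff]; exact ⟨hc.1, hcB⟩)
    rw [Finset.mem_sdiff] at hx
    have hxW : x ∉ W := fun h => hx.2 (hW h)
    refine ⟨x, ?_, ?_⟩
    · rw [Finset.mem_sdiff]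
      exact ⟨hx.1, fun h => hx.2 (vr_mono hB'B h)⟩
    · simp only [if_neg hxW]
      exact hxc

/-- the kernel is contained in every autarky reduct -/
theorem kernel_le {F : Fam} {V A B G : Finset ℕ} (hB : IsKernel F V A B) (hG : G ⊆ A)
    (hs : SatOn F (V \ vr F V G) (A \ G)) : B ⊆ G := by
  classical
  obtain ⟨hBA, _, hlean⟩ := hB
  obtain ⟨θ, hθ⟩ := hs
  have hvr : vr F V B ⊆ vr F V G := by
    by_contra hcon
    have hne : (vr F V B \ vr F V G).Nonempty := by
      rw [Finset.sdiff_nonempty]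
      exact hcon
    obtain ⟨c, hcB, ⟨x, hx, hcx⟩, hns⟩ := hlean _ Finset.sdiff_subset hne θ
    rw [Finset.mem_sdiff] at hx
    have hcG : c ∉ G := by
      intro h
      exact hx.2 (mem_vr.2 ⟨(mem_vr.1 hx.1).1, c, h, hcx⟩)
    obtain ⟨y, hy, hyc⟩ := hθ c (by rw [Finset.mem_sdiff]; exact ⟨hBA hcB, hcG⟩)
    rw [Finset.mem_sdiff] at hy
    refine hns y ?_ hyc
    rw [Finset.mem_sdiff]
    exact ⟨mem_vr.2 ⟨hy.1, c, hcB, _, hyc⟩, hy.2⟩
  intro c hcB
  by_contra hcG
  obtain ⟨y, hy, hyc⟩ := hθ c (by rw [Finset.mem_sdiff]; exact ⟨hBA hcB, hcG⟩)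
  rw [Finset.mem_sdiff] at hy
  exact hy.2 (hvr (mem_vr.2 ⟨hy.1, c, hcB, _, hyc⟩))

theorem vr_vr_of_subset {F : Fam} {V B D : Finset ℕ} (h : D ⊆ B) :
    vr F (vr F V B) D = vr F V D := by
  ext x
  rw [mem_vr, mem_vr, mem_vr]
  constructor
  · rintro ⟨⟨h1, _⟩, h2⟩
    exact ⟨h1, h2⟩
  · rintro ⟨h1, c, hc, hcx⟩
    exact ⟨⟨h1, c, h hc, hcx⟩, c, hc, hcx⟩

theorem df_vr_of_subset {F : Fam} {V B D : Finset ℕ} (h : D ⊆ B) :
    df F (vr F V B) D = df F V D := by
  rw [df, df, vr_vr_of_subset h]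

theorem kernel_df_nonneg {F : Fam} {V A B : Finset ℕ} (hB : IsKernel F V A B) :
    0 ≤ df F V B := by
  rcases Finset.eq_empty_or_nonempty B with h | h
  · rw [h, df_empty]
  · have h1 := hB.2.2.crit ∅ (Finset.empty_ssubset.2 h)
    rw [df_empty, df_vr_of_subset (Finset.Subset.refl B)] at h1
    exact h1.le

theorem kernel_nuLe_rest {F : Fam} {V A B : Finset ℕ} {k : ℕ} (hB : IsKernel F V A B)
    (hν : NuLe F V A k) : NuLe F (V \ vr F V B) (A \ B) k := by
  intro D hD
  have hdis : Disjoint B D := by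
    rw [Finset.disjoint_left]
    intro c hc hcD
    exact (Finset.mem_sdiff.1 (hD hcD)).2 hc
  have h1 := df_union F V B D hdis
  have h2 := hν (B ∪ D) (Finset.union_subset hB.1 (hD.trans Finset.sdiff_subset))
  have h3 := kernel_df_nonneg hB
  have h4 : df F (V \ vr F V B) D = (D.card : ℤ) - ((vr F (V \ vr F V B) D).card : ℤ) := rfl
  rw [h4]
  linarith

theorem kernel_eq_core {F : Fam} {V A B : Finset ℕ} {k : ℕ} (hB : IsKernel F V A B)
    (hν : NuLe F V A k) : ∃ R ⊆ A, R.card ≤ k ∧ IsCore F V (A \ R) B := by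
  classical
  obtain ⟨R, hR, hRk, hν0⟩ := defect_hall (kernel_nuLe_rest hB hν)
  refine ⟨R, hR.trans Finset.sdiff_subset, hRk, ?_⟩
  have hBR : B ⊆ A \ R := by
    intro c hc
    rw [Finset.mem_sdiff]
    exact ⟨hB.1 hc, fun h => (Finset.mem_sdiff.1 (hR h)).2 hc⟩
  have hcrit := hB.2.2.crit
  -- main estimate
  have key : ∀ D ⊆ A \ R, df F V D ≤ df F V (D ∩ B) := by
    intro D hD
    have h1 := df_union F V (D ∩ B) (D \ B) (by
      rw [Finset.disjoint_left]
      intro c hc hc'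
      exact (Finset.mem_sdiff.1 hc').2 (Finset.mem_inter.1 hc).2)
    have h2 : D ∩ B ∪ D \ B = D := by
      ext c
      simp only [Finset.mem_union, Finset.mem_inter, Finset.mem_sdiff]
      tauto
    rw [h2] at h1
    have h3 := hν0 (D \ B) (by
      intro c hc
      rw [Finset.mem_sdiff] at hc
      have h4 := Finset.mem_sdiff.1 (hD hc.1)
      rw [Finset.mem_sdiff, Finset.mem_sdiff]
      exact ⟨⟨h4.1, hc.2⟩, h4.2⟩)
    have h4 : df F (V \ vr F V B) (D \ B) =
        ((D \ B).card : ℤ) - ((vr F (V \ vr F V B) (D \ B)).card : ℤ) := rfl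
    rw [h4] at h3
    have h5 : (vr F (V \ vr F V B) (D \ B)).card ≤ (vr F (V \ vr F V (D ∩ B)) (D \ B)).card := by
      apply Finset.card_le_card
      intro x hx
      rw [mem_vr, Finset.mem_sdiff] at hx ⊢
      exact ⟨⟨hx.1.1, fun h => hx.1.2 (vr_mono Finset.inter_subset_right h)⟩, hx.2⟩
    have h6 : ((vr F (V \ vr F V B) (D \ B)).card : ℤ) ≤
        ((vr F (V \ vr F V (D ∩ B)) (D \ B)).card : ℤ) := by exact_mod_cast h5
    linarith
  have key2 : ∀ D ⊆ B, D ≠ B → df F V D < df F V B := by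
    intro D hD hne
    have h1 := hcrit D (Finset.ssubset_iff_subset_ne.2 ⟨hD, hne⟩)
    rw [df_vr_of_subset hD, df_vr_of_subset (Finset.Subset.refl B)] at h1
    exact h1
  refine ⟨hBR, ?_, ?_⟩
  · intro D hD
    by_cases h : D ∩ B = B
    · have := key D hD
      rwa [h] at this
    · exact (key D hD).trans (key2 _ Finset.inter_subset_right h).le
  · intro D hD he
    by_contra hcon
    have h : D ∩ B ≠ B := by
      intro h
      apply hcon
      rw [← h]
      exact Finset.inter_subset_left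
    have h1 := key D hD
    have h2 := key2 _ Finset.inter_subset_right h
    linarith

end Pool.Agent.MP_925109_lc
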