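import Mathlib
import Pool.Agent.MP_925109_lc.Hall

/-!
One step of the game: the clauses and variables that leave the core are matched.
-/

set_option autoImplicit false

namespace Pool.Agent.MP_925109_lc

/-- `A` is critical for the variables `V₀`; the clauses in `A \ A'` are satisfied, the variables are
reduced to `V₁`, and `A₁` is the core of the rest. Then the variables in `V₁` leaving the core can
be matched with clauses leaving the core such that all the clauses of `A' \ A₁` are used. -/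
theorem step_matching {F : Fam} {V₀ V₁ A A' A₁ : Finset ℕ} (hV : V₁ ⊆ V₀) (hcrit : Crit F V₀ A)
    (hA' : A' ⊆ A) (hcore : IsCore F V₁ A' A₁) :
    ∃ h : ℕ → ℕ, Set.InjOn h (vr F V₁ A \ vr F V₁ A₁ : Finset ℕ) ∧
      (∀ x ∈ vr F V₁ A \ vr F V₁ A₁, h x ∈ A \ A₁ ∧ occ F (h x) x) ∧
      ∀ c ∈ A' \ A₁, ∃ x ∈ vr F V₁ A \ vr F V₁ A₁, h x = c := by
  classical
  set V' := vr F V₁ A \ vr F V₁ A₁ with hV'
  have hA₁' : A₁ ⊆ A' := hcore.1
  have hA₁ : A₁ ⊆ A := hA₁'.trans hA'
  -- clause side
  have hcl : NuLe F V' (A' \ A₁) 0 := by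
    intro B hB
    have h2 := hcore.rest B hB
    have h3 : vr F V' B = vr F (V₁ \ vr F V₁ A₁) B := by
      ext x
      constructor
      · intro hx
        rw [mem_vr] at hx ⊢
        rw [hV', Finset.mem_sdiff, mem_vr] at hx
        exact ⟨Finset.mem_sdiff.2 ⟨hx.1.1.1, hx.1.2⟩, hx.2⟩
      · intro hx
        rw [mem_vr] at hx ⊢
        rw [Finset.mem_sdiff] at hx
        obtain ⟨⟨hx1, hx2⟩, c, hc, hoc⟩ := hx
        refine ⟨?_, c, hc, hoc⟩
        rw [hV', Finset.mem_sdiff, mem_vr]
        exact ⟨⟨hx1, c, hA' (Finset.mem_sdiff.1 (hB hc)).1, hoc⟩, hx2⟩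
    unfold df at h2 ⊢
    rw [h3]
    exact h2
  obtain ⟨g, hg, hgr⟩ := hall_clauses hcl
  -- variable side
  have hvar : ∀ W ⊆ V', W.card ≤ ((A \ A₁).filter (fun c => ∃ x ∈ W, occ F c x)).card := by
    intro W hW
    by_cases hne : W = ∅
    · simp [hne]
    · obtain ⟨w, hw⟩ := Finset.nonempty_iff_ne_empty.2 hne
      have hsub : A.filter (fun c => ∃ x ∈ W, occ F c x) ⊆
          (A \ A₁).filter (fun c => ∃ x ∈ W, occ F c x) := by
        intro c hc
        rw [Finset.mem_filter] at hc ⊢
        refine ⟨Finset.mem_sdiff.2 ⟨hc.1, ?_⟩, hc.2⟩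
        intro hcA
        obtain ⟨x, hx, hoc⟩ := hc.2
        have := hW hx
        rw [hV', Finset.mem_sdiff, mem_vr, mem_vr] at this
        exact this.2 ⟨this.1.1, c, hcA, hoc⟩
      refine le_trans ?_ (Finset.card_le_card hsub)
      have hBss : A.filter (fun c => ¬ ∃ x ∈ W, occ F c x) ⊂ A := by
        rw [Finset.filter_ssubset]
        have := hW hw
        rw [hV', Finset.mem_sdiff, mem_vr] at this
        obtain ⟨⟨_, c, hc, hoc⟩, _⟩ := this
        exact ⟨c, hc, fun h => h ⟨w, hw, hoc⟩⟩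
      have h1 := hcrit _ hBss
      have h2 := Finset.card_filter_add_card_filter_not (s := A) (fun c => ∃ x ∈ W, occ F c x)
      have h3 : vr F V₀ (A.filter (fun c => ¬ ∃ x ∈ W, occ F c x)) ⊆ vr F V₀ A \ W := by
        intro x hx
        rw [Finset.mem_sdiff]
        refine ⟨vr_mono (Finset.filter_subset _ _) hx, ?_⟩
        intro hxW
        rw [mem_vr] at hx
        obtain ⟨_, c, hc, hoc⟩ := hx
        rw [Finset.mem_filter] at hc
        exact hc.2 ⟨x, hxW, hoc⟩
      have h4 : W ⊆ vr F V₀ A := by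
        intro x hx
        have := hW hx
        rw [hV', Finset.mem_sdiff, mem_vr] at this
        rw [mem_vr]
        exact ⟨hV this.1.1, this.1.2⟩
      have h5 := Finset.card_le_card h3
      rw [Finset.card_sdiff_of_subset h4] at h5
      have h6 := Finset.card_le_card h4
      unfold df at h1
      omega
  obtain ⟨h, hh, hhr⟩ := hall_vars hvar
  exact mendelsohn_dulmage (fun c x => occ F c x)
    (Finset.sdiff_subset_sdiff hA' (Finset.Subset.refl _)) g hg hgr h hh hhr

end Pool.Agent.MP_925109_lc
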