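import Mathlib
import Pool.Agent.MP_925109_lc.Step

/-!
Every true critical formula has a certificate.
-/

set_option autoImplicit false

namespace Pool.Agent.MP_925109_lc

lemma lcp_cons_self (a : Bool) (l m : List Bool) : lcp (a :: l) (a :: m) = a :: lcp l m := by
  simp [lcp]

lemma lcp_cons_ne {a b : Bool} (h : a ≠ b) (l m : List Bool) : lcp (a :: l) (b :: m) = [] := by
  simp [lcp, h]

/-- the longest common prefix of truncations -/
lemma lcp_take (j : ℕ) : ∀ (b b' : List Bool), b.take j ≠ b'.take j →
    lcp (b.take j) (b'.take j) = lcp b b' ∧ (lcp b b').length < j := by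
  induction j with
  | zero => intro b b' h; simp at h
  | succ j ih =>
    intro b b' h
    cases b with
    | nil => simp [lcp]
    | cons a l =>
      cases b' with
      | nil => simp [lcp]
      | cons c m =>
        by_cases hac : a = c
        · subst hac
          have h' : l.take j ≠ m.take j := by
            intro e
            apply h
            simp [e]
          obtain ⟨h1, h2⟩ := ih l m h'
          simp only [List.take_succ_cons, lcp_cons_self, List.length_cons, h1, true_and]
          omega
        · simp [List.take_succ_cons, lcp_cons_ne hac]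

/-- certificates can be padded by dummy labels -/
theorem Cert.pad {q : List Bool} {F : Fam} {A V : Finset ℕ} {j k : ℕ} {lab : List Bool → ℕ}
    {M : List Bool → ℕ → ℕ} {α : List Bool → ℕ → Bool} (h : Cert q F A V j lab M α) (hjk : j ≤ k) :
    Cert q F A V k (fun s => if s.length < j then lab s else q.length) (fun b => M (b.take j))
      (fun b => α (b.take j)) := by
  have htl : ∀ b : List Bool, b.length = k → (b.take j).length = j := by
    intro b hb
    simp [hb, hjk]
  refine ⟨?_, fun b hb => h.inj _ (htl b hb), fun b hb => h.mem _ (htl b hb), ?_, ?_⟩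
  · intro s hs
    by_cases hsj : s.length < j
    · simp only [if_pos hsj] at hs ⊢
      exact h.lab_ok s hs
    · simp only [if_neg hsj] at hs
      exact absurd hs (lt_irrefl _)
  · intro b hb c hc
    rcases h.exc _ (htl b hb) c hc with h1 | ⟨i, hi, h1⟩
    · exact Or.inl h1
    · refine Or.inr ⟨i, lt_of_lt_of_le hi hjk, ?_⟩
      have e1 : (b.take j).take i = b.take i := by
        rw [List.take_take, min_eq_left hi.le]
      have e2 : (b.take j).getD i false = b.getD i false := by
        simp [List.getD_eq_getElem?_getD, List.getElem?_take, hi]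
      rw [e1, e2] at h1
      have e3 : (b.take i).length < j := by
        rw [List.length_take, hb]
        omega
      simpa only [if_pos e3] using h1
  · intro b b' hb hb' hne x hx hlt
    by_cases he : b.take j = b'.take j
    · simp only [he]
    · obtain ⟨h1, h2⟩ := lcp_take j b b' he
      simp only [if_pos h2] at hlt
      exact h.agree _ _ (htl b hb) (htl b' hb') he x hx (by rw [h1]; exact hlt)

lemma Win_mono {q : List Bool} {F : Fam} : ∀ (m i : ℕ) {A B : Finset ℕ}, A ⊆ B → Win q F m i B →
    Win q F m i A := by
  intro m
  induction m with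
  | zero =>
    intro i A B h hB
    simp only [Win] at hB ⊢
    subst hB
    exact Finset.subset_empty.1 h
  | succ m ih =>
    intro i A B h hB
    simp only [Win] at hB ⊢
    split_ifs at hB ⊢
    · obtain ⟨b, hb⟩ := hB
      exact ⟨b, ih _ (Finset.filter_subset_filter _ h) hb⟩
    · exact fun b => ih _ (Finset.filter_subset_filter _ h) (hB b)

lemma exFrom_succ (q : List Bool) (i : ℕ) : exFrom q (i + 1) = (exFrom q i).erase i := by
  ext x
  simp only [exFrom, Finset.mem_filter, Finset.mem_range, Finset.mem_erase]
  constructor
  · rintro ⟨h1, h2, h3⟩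
    exact ⟨by omega, h1, by omega, h3⟩
  · rintro ⟨h0, h1, h2, h3⟩
    exact ⟨h1, by omega, h3⟩

lemma le_of_mem_exFrom {q : List Bool} {i x : ℕ} (h : x ∈ exFrom q i) : i ≤ x := by
  simp only [exFrom, Finset.mem_filter] at h
  exact h.2.1

lemma exFrom_succ_of_false (q : List Bool) (i : ℕ) (h : q.getD i false = false) :
    exFrom q (i + 1) = exFrom q i := by
  rw [exFrom_succ, Finset.erase_eq_of_notMem]
  intro h'
  simp only [exFrom, Finset.mem_filter, h] at h'
  simp at h'

/-- `vr` of a family in which `i` does not occur -/
lemma vr_erase_of_notMem {F : Fam} {V A : Finset ℕ} {i : ℕ} (h : i ∉ vr F V A) :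
    vr F (V.erase i) A = vr F V A := by
  ext x
  simp only [mem_vr, Finset.mem_erase]
  constructor
  · rintro ⟨⟨_, h1⟩, h2⟩
    exact ⟨h1, h2⟩
  · rintro ⟨h1, h2⟩
    refine ⟨⟨?_, h1⟩, h2⟩
    rintro rfl
    exact h (mem_vr.2 ⟨h1, h2⟩)

/-- the clauses left over by a matching that uses all unsatisfied clauses are satisfied -/
lemma left_over {F : Fam} {A A₁ W : Finset ℕ} {l : Lit} {h : ℕ → ℕ}
    (hcov : ∀ c ∈ (A.filter (fun c => l ∉ F c)) \ A₁, ∃ x ∈ W, h x = c) {c : ℕ} (hc : c ∈ A)
    (hc1 : c ∉ A₁) (hn : ∀ x ∈ W, h x ≠ c) : l ∈ F c := by
  by_contra hl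
  obtain ⟨x, hx, he⟩ := hcov c (by
    rw [Finset.mem_sdiff, Finset.mem_filter]
    exact ⟨⟨hc, hl⟩, hc1⟩)
  exact hn x hx he

lemma sign_spec {F : Fam} {c x : ℕ} (h : occ F c x) : (x, decide ((x, true) ∈ F c)) ∈ F c := by
  obtain ⟨e, he⟩ := h
  by_cases ht : (x, true) ∈ F c
  · simpa [ht] using ht
  · cases e with
    | true => exact absurd he ht
    | false => simpa [ht] using he

/-- **Completeness of certificates.** -/
theorem cert_complete (q : List Bool) (F : Fam) :
    ∀ (m i : ℕ), i + m = q.length → ∀ (A : Finset ℕ) (k : ℕ), Crit F (exFrom q i) A →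
      df F (exFrom q i) A = k → Win q F m i A →
      ∃ (lab : List Bool → ℕ) (M : List Bool → ℕ → ℕ) (α : List Bool → ℕ → Bool),
        Cert q F A (vr F (exFrom q i) A) k lab M α := by
  intro m
  induction m with
  | zero =>
    intro i hi A k hcrit hdf hwin
    simp only [Win] at hwin
    subst hwin
    refine ⟨fun _ => q.length, fun _ _ => 0, fun _ _ => false, ?_, ?_, ?_, ?_, ?_⟩
    · intro s hs
      exact absurd hs (lt_irrefl _)
    · intro b _
      simp
    · intro b _ x hx
      simp at hx
    · intro b _ c hc
      simp at hc
    · intro b b' _ _ _ x hx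
      simp at hx
  | succ m ih =>
    intro i hi A k hcrit hdf hwin
    by_cases hq : q.getD i false = true
    · -- existential variable
      simp only [Win, if_pos hq] at hwin
      by_cases hiA : i ∈ vr F (exFrom q i) A
      · -- the variable occurs
        obtain ⟨hiV, c', hc', e', he'⟩ := mem_vr.1 hiA
        have hwin' : ∃ e : Bool, (∃ c ∈ A, (i, e) ∈ F c) ∧
            Win q F m (i + 1) (A.filter (fun c => (i, e) ∉ F c)) := by
          obtain ⟨b, hb⟩ := hwin
          by_cases hP : ∃ c ∈ A, (i, b) ∈ F c
          · exact ⟨b, hP, hb⟩
          · push Not at hP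
            refine ⟨e', ⟨c', hc', he'⟩, ?_⟩
            have hA : A.filter (fun c => (i, b) ∉ F c) = A := Finset.filter_true_of_mem hP
            rw [hA] at hb
            exact Win_mono m _ (Finset.filter_subset _ _) hb
        obtain ⟨e, ⟨cP, hcP, hcPe⟩, hw⟩ := hwin'
        obtain ⟨A₁, hA₁⟩ := exists_core F (exFrom q (i + 1)) (A.filter (fun c => (i, e) ∉ F c))
        have hA₁A : A₁ ⊆ A := hA₁.1.trans (Finset.filter_subset _ _)
        have hcPA₁ : cP ∉ A₁ := by
          intro h
          have := hA₁.1 h
          rw [Finset.mem_filter] at this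
          exact this.2 hcPe
        have hss : A₁ ⊂ A := ⟨hA₁A, fun h => hcPA₁ (h hcP)⟩
        obtain ⟨k₁, hk₁⟩ := Int.eq_ofNat_of_zero_le hA₁.nonneg
        have hV : exFrom q (i + 1) ⊆ exFrom q i := by
          rw [exFrom_succ]
          exact Finset.erase_subset _ _
        have hk : k₁ ≤ k := by
          have h1 := hcrit A₁ hss
          have h2 := df_erase_le F (exFrom q i) A₁ i
          rw [← exFrom_succ, hk₁] at h2
          rw [hdf] at h1
          have : (k₁ : ℤ) ≤ k := by omega
          exact_mod_cast this
        obtain ⟨lab, M, α, hC⟩ := ih (i + 1) (by omega) A₁ k₁ hA₁.crit hk₁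
          (Win_mono m _ hA₁.1 hw)
        have hC' := hC.pad hk
        obtain ⟨h, hinj, hmem, hcov⟩ := step_matching hV hcrit (Finset.filter_subset _ _) hA₁
        set V₁ := vr F (exFrom q (i + 1)) A₁ with hV₁
        set W := vr F (exFrom q (i + 1)) A \ V₁ with hW
        -- a clause for `i`
        have hcard : ∃ c₀ ∈ A \ A₁, ∀ x ∈ W, h x ≠ c₀ := by
          by_contra hcon
          push Not at hcon
          have h1 : A \ A₁ ⊆ W.image h := by
            intro c hc
            obtain ⟨x, hx, he⟩ := hcon c hc
            exact Finset.mem_image.2 ⟨x, hx, he⟩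
          have h2 := (Finset.card_le_card h1).trans Finset.card_image_le
          have h3 : (A \ A₁).card = A.card - A₁.card := by
            rw [Finset.card_sdiff_of_subset hA₁A]
          have h4 : W.card = (vr F (exFrom q (i + 1)) A).card - V₁.card := by
            rw [hW, Finset.card_sdiff_of_subset (vr_mono hA₁A)]
          have h5 : (vr F (exFrom q (i + 1)) A).card = (vr F (exFrom q i) A).card - 1 := by
            rw [exFrom_succ, vr_erase, Finset.card_erase_of_mem hiA]
          have h6 := Finset.card_le_card hA₁A
          have h7 := Finset.card_le_card (vr_mono (F := F) (V := exFrom q (i + 1)) hA₁A)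
          have h8 : 0 < (vr F (exFrom q i) A).card := Finset.card_pos.2 ⟨i, hiA⟩
          have h9 : ((A₁.card : ℤ) - (V₁.card : ℤ)) = k₁ := hk₁
          have h10 : ((A.card : ℤ) - ((vr F (exFrom q i) A).card : ℤ)) = k := hdf
          rw [← hV₁] at h7
          omega
        obtain ⟨c₀, hc₀, hc₀h⟩ := hcard
        rw [Finset.mem_sdiff] at hc₀
        have hic₀ : (i, e) ∈ F c₀ := left_over hcov hc₀.1 hc₀.2 hc₀h
        have hiV₁ : i ∉ V₁ := by
          intro h'
          have := le_of_mem_exFrom ((vr_subset _ _ _) h')
          omega
        have hiW : i ∉ W := by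
          intro h'
          have := le_of_mem_exFrom ((vr_subset _ _ _) (Finset.mem_sdiff.1 h').1)
          omega
        have hclass : ∀ x ∈ vr F (exFrom q i) A, x ∈ V₁ ∨ (x ∉ V₁ ∧ x = i) ∨
            (x ∉ V₁ ∧ x ≠ i ∧ x ∈ W) := by
          intro x hx
          by_cases h1 : x ∈ V₁
          · exact Or.inl h1
          · by_cases h2 : x = i
            · exact Or.inr (Or.inl ⟨h1, h2⟩)
            · refine Or.inr (Or.inr ⟨h1, h2, ?_⟩)
              rw [hW, Finset.mem_sdiff, exFrom_succ, vr_erase, Finset.mem_erase]
              exact ⟨⟨h2, hx⟩, h1⟩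
        have hW' : ∀ x ∈ W, h x ∈ A \ A₁ ∧ occ F (h x) x := hmem
        refine ⟨_, fun b x => if x ∈ V₁ then M (b.take k₁) x else if x = i then c₀ else h x,
          fun b x => if x ∈ V₁ then α (b.take k₁) x else if x = i then e
            else decide ((x, true) ∈ F (h x)), hC'.lab_ok, ?_, ?_, ?_, ?_⟩
        · intro b hb x hx y hy hxy
          have hx' := hclass x hx
          have hy' := hclass y hy
          simp only at hxy
          rcases hx' with h1 | ⟨h1, h1'⟩ | ⟨h1, h1', h1''⟩ <;>
            rcases hy' with h2 | ⟨h2, h2'⟩ | ⟨h2, h2', h2''⟩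
          · rw [if_pos h1, if_pos h2] at hxy
            exact hC'.inj b hb h1 h2 hxy
          · rw [if_pos h1, if_neg h2, if_pos h2'] at hxy
            exact absurd ((hC'.mem b hb x h1).1) (by rw [hxy]; exact hc₀.2)
          · rw [if_pos h1, if_neg h2, if_neg h2'] at hxy
            exact absurd ((hC'.mem b hb x h1).1)
              (by rw [hxy]; exact (Finset.mem_sdiff.1 (hW' y h2'').1).2)
          · rw [if_neg h1, if_pos h1', if_pos h2] at hxy
            exact absurd ((hC'.mem b hb y h2).1) (by rw [← hxy]; exact hc₀.2)
          · rw [h1', h2']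
          · rw [if_neg h1, if_pos h1', if_neg h2, if_neg h2'] at hxy
            exact absurd hxy.symm (hc₀h y h2'')
          · rw [if_neg h1, if_neg h1', if_pos h2] at hxy
            exact absurd ((hC'.mem b hb y h2).1)
              (by rw [← hxy]; exact (Finset.mem_sdiff.1 (hW' x h1'').1).2)
          · rw [if_neg h1, if_neg h1', if_neg h2, if_pos h2'] at hxy
            exact absurd hxy (hc₀h x h1'')
          · rw [if_neg h1, if_neg h1', if_neg h2, if_neg h2'] at hxy
            exact hinj (Finset.mem_coe.2 h1'') (Finset.mem_coe.2 h2'') hxy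
        · intro b hb x hx
          rcases hclass x hx with h1 | ⟨h1, h1'⟩ | ⟨h1, h1', h1''⟩
          · simp only [if_pos h1]
            exact ⟨hA₁A (hC'.mem b hb x h1).1, (hC'.mem b hb x h1).2⟩
          · simp only [if_neg h1, if_pos h1']
            exact ⟨hc₀.1, by rw [h1']; exact hic₀⟩
          · simp only [if_neg h1, if_neg h1']
            exact ⟨(Finset.mem_sdiff.1 (hW' x h1'').1).1, sign_spec (hW' x h1'').2⟩
        · intro b hb c hc
          by_cases hcA₁ : c ∈ A₁
          · rcases hC'.exc b hb c hcA₁ with ⟨x, hx, hxc⟩ | h1
            · refine Or.inl ⟨x, ?_, ?_⟩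
              · have h2 := vr_mono (F := F) (V := exFrom q (i + 1)) hA₁A hx
                rw [exFrom_succ, vr_erase] at h2
                exact Finset.mem_of_mem_erase h2
              · simp only [if_pos hx]
                exact hxc
            · exact Or.inr h1
          · left
            by_cases hch : ∃ x ∈ W, h x = c
            · obtain ⟨x, hx, rfl⟩ := hch
              have hx' : x ∉ V₁ := (Finset.mem_sdiff.1 hx).2
              have hxi : x ≠ i := fun h' => hiW (h' ▸ hx)
              refine ⟨x, ?_, ?_⟩
              · have h2 := (Finset.mem_sdiff.1 hx).1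
                rw [exFrom_succ, vr_erase] at h2
                exact Finset.mem_of_mem_erase h2
              · simp only [if_neg hx', if_neg hxi]
                exact sign_spec (hW' x hx).2
            · push Not at hch
              refine ⟨i, hiA, ?_⟩
              simp only [if_neg hiV₁, if_true]
              exact left_over hcov hc hcA₁ hch
        · intro b b' hb hb' hne x hx hlt
          by_cases h1 : x ∈ V₁
          · simp only [if_pos h1]
            exact hC'.agree b b' hb hb' hne x h1 hlt
          · simp only [if_neg h1]
      · -- the variable does not occur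
        obtain ⟨b, hb⟩ := hwin
        have hiV : i ∈ exFrom q i := by
          simp only [exFrom, Finset.mem_filter, Finset.mem_range]
          exact ⟨by omega, le_refl _, hq⟩
        have hA : A.filter (fun c => (i, b) ∉ F c) = A := by
          refine Finset.filter_true_of_mem fun c hc h' => hiA (mem_vr.2 ⟨hiV, c, hc, b, h'⟩)
        rw [hA] at hb
        have hdfe : ∀ B ⊆ A, df F (exFrom q (i + 1)) B = df F (exFrom q i) B := by
          intro B hB
          rw [exFrom_succ]
          exact df_erase_of_notMem F _ B i (fun h' => hiA (vr_mono hB h'))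
        have hV : vr F (exFrom q (i + 1)) A = vr F (exFrom q i) A := by
          rw [exFrom_succ]
          exact vr_erase_of_notMem hiA
        have := ih (i + 1) (by omega) A k (fun B hB => by
          rw [hdfe B hB.1, hdfe A subset_rfl]
          exact hcrit B hB) (by rw [hdfe A subset_rfl, hdf]) hb
        rwa [hV] at this
    · -- universal variable
      have hq' : q.getD i false = false := by simpa using hq
      simp only [Win, if_neg hq] at hwin
      have hex := exFrom_succ_of_false q i hq'
      by_cases hp : ∃ b : Bool, ∀ c ∈ A, (i, b) ∉ F c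
      · obtain ⟨b, hb⟩ := hp
        have hw := hwin b
        rw [Finset.filter_true_of_mem hb] at hw
        have := ih (i + 1) (by omega) A k (by rwa [hex]) (by rwa [hex]) hw
        rwa [hex] at this
      · push Not at hp
        -- the two branches
        have hbr : ∀ b : Bool, ∃ (A₁ : Finset ℕ) (k₁ : ℕ) (lab : List Bool → ℕ)
            (M : List Bool → ℕ → ℕ) (α : List Bool → ℕ → Bool) (h : ℕ → ℕ),
            A₁ ⊆ A ∧ k₁ + 1 ≤ k ∧ Cert q F A₁ (vr F (exFrom q i) A₁) k₁ lab M α ∧
            Set.InjOn h (vr F (exFrom q i) A \ vr F (exFrom q i) A₁ : Finset ℕ) ∧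
            (∀ x ∈ vr F (exFrom q i) A \ vr F (exFrom q i) A₁, h x ∈ A \ A₁ ∧ occ F (h x) x) ∧
            ∀ c ∈ (A.filter (fun c => (i, b) ∉ F c)) \ A₁,
              ∃ x ∈ vr F (exFrom q i) A \ vr F (exFrom q i) A₁, h x = c := by
          intro b
          obtain ⟨A₁, hA₁⟩ := exists_core F (exFrom q i) (A.filter (fun c => (i, b) ∉ F c))
          have hA₁A : A₁ ⊆ A := hA₁.1.trans (Finset.filter_subset _ _)
          obtain ⟨cP, hcP, hcPb⟩ := hp b
          have hss : A₁ ⊂ A := ⟨hA₁A, fun h => by
            have := hA₁.1 (h hcP)
            rw [Finset.mem_filter] at this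
            exact this.2 hcPb⟩
          obtain ⟨k₁, hk₁⟩ := Int.eq_ofNat_of_zero_le hA₁.nonneg
          obtain ⟨h, h1, h2, h3⟩ := step_matching (subset_refl _) hcrit
            (Finset.filter_subset _ _) hA₁
          obtain ⟨lab, M, α, hC⟩ := ih (i + 1) (by omega) A₁ k₁ (by rw [hex]; exact hA₁.crit)
            (by rw [hex]; exact hk₁) (Win_mono m _ hA₁.1 (hwin b))
          rw [hex] at hC
          refine ⟨A₁, k₁, lab, M, α, h, hA₁A, ?_, hC, h1, h2, h3⟩
          have := hcrit A₁ hss
          rw [hdf, hk₁] at this
          have : (k₁ : ℤ) < k := this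
          exact_mod_cast this
        choose A₁ k₁ lab M α h hA₁A hk hC hinj hmem hcov using hbr
        obtain ⟨k', rfl⟩ : ∃ k', k = k' + 1 := ⟨k - 1, by have := hk true; omega⟩
        have hC' : ∀ b : Bool, Cert q F (A₁ b) (vr F (exFrom q i) (A₁ b)) k' _ _ _ :=
          fun b => (hC b).pad (by have := hk b; omega)
        set V := vr F (exFrom q i) A with hV
        let V₁ : Bool → Finset ℕ := fun b => vr F (exFrom q i) (A₁ b)
        have hV₁V : ∀ b, V₁ b ⊆ V := fun b => vr_mono (hA₁A b)
        refine ⟨fun s => match s with
            | [] => i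
            | b :: s => if s.length < k₁ b then lab b s else q.length,
          fun w x => match w with
            | [] => 0
            | b :: w => if x ∈ V₁ b then M b (w.take (k₁ b)) x else h b x,
          fun w x => match w with
            | [] => false
            | b :: w => if x ∈ V₁ b then α b (w.take (k₁ b)) x
                else decide ((x, true) ∈ F (h b x)), ?_, ?_, ?_, ?_, ?_⟩
        · intro s hs
          cases s with
          | nil => exact hq'
          | cons b s => exact (hC' b).lab_ok s hs
        · intro w hw
          cases w with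
          | nil => simp at hw
          | cons b w =>
            have hw' : w.length = k' := by simpa using hw
            intro x hx y hy hxy
            simp only at hxy
            by_cases h1 : x ∈ V₁ b <;> by_cases h2 : y ∈ V₁ b
            · rw [if_pos h1, if_pos h2] at hxy
              exact (hC' b).inj w hw' h1 h2 hxy
            · rw [if_pos h1, if_neg h2] at hxy
              have h3 := (Finset.mem_sdiff.1 (hmem b y (Finset.mem_sdiff.2 ⟨hy, h2⟩)).1).2
              exact absurd ((hC' b).mem w hw' x h1).1 (by rw [hxy]; exact h3)
            · rw [if_neg h1, if_pos h2] at hxy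
              have h3 := (Finset.mem_sdiff.1 (hmem b x (Finset.mem_sdiff.2 ⟨hx, h1⟩)).1).2
              exact absurd ((hC' b).mem w hw' y h2).1 (by rw [← hxy]; exact h3)
            · rw [if_neg h1, if_neg h2] at hxy
              exact hinj b (Finset.mem_coe.2 (Finset.mem_sdiff.2 ⟨hx, h1⟩))
                (Finset.mem_coe.2 (Finset.mem_sdiff.2 ⟨hy, h2⟩)) hxy
        · intro w hw
          cases w with
          | nil => simp at hw
          | cons b w =>
            have hw' : w.length = k' := by simpa using hw
            intro x hx
            by_cases h1 : x ∈ V₁ b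
            · simp only [if_pos h1]
              exact ⟨hA₁A b ((hC' b).mem w hw' x h1).1, ((hC' b).mem w hw' x h1).2⟩
            · simp only [if_neg h1]
              have h2 := hmem b x (Finset.mem_sdiff.2 ⟨hx, h1⟩)
              exact ⟨(Finset.mem_sdiff.1 h2.1).1, sign_spec h2.2⟩
        · intro w hw
          cases w with
          | nil => simp at hw
          | cons b w =>
            have hw' : w.length = k' := by simpa using hw
            intro c hc
            by_cases hcA₁ : c ∈ A₁ b
            · rcases (hC' b).exc w hw' c hcA₁ with ⟨x, hx, hxc⟩ | ⟨j, hj, hjc⟩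
              · refine Or.inl ⟨x, hV₁V b hx, ?_⟩
                have hx' : x ∈ V₁ b := hx
                simp only [if_pos hx']
                exact hxc
              · exact Or.inr ⟨j + 1, by omega, by simpa using hjc⟩
            · by_cases hch : ∃ x ∈ V \ V₁ b, h b x = c
              · obtain ⟨x, hx, rfl⟩ := hch
                have hx' := Finset.mem_sdiff.1 hx
                refine Or.inl ⟨x, hx'.1, ?_⟩
                simp only [if_neg hx'.2]
                exact sign_spec (hmem b x hx).2
              · push Not at hch
                refine Or.inr ⟨0, by omega, ?_⟩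
                have := left_over (hcov b) hc hcA₁ hch
                simpa using this
        · intro w w' hw hw' hne x hx hlt
          cases w with
          | nil => simp at hw
          | cons b w =>
            cases w' with
            | nil => simp at hw'
            | cons b' w' =>
              have hw1 : w.length = k' := by simpa using hw
              have hw2 : w'.length = k' := by simpa using hw'
              by_cases hbb : b = b'
              · subst hbb
                have hne' : w ≠ w' := fun h' => hne (by rw [h'])
                rw [lcp_cons_self] at hlt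
                by_cases h1 : x ∈ V₁ b
                · simp only [if_pos h1]
                  exact (hC' b).agree w w' hw1 hw2 hne' x h1 hlt
                · simp only [if_neg h1]
              · rw [lcp_cons_ne hbb] at hlt
                have h3 := le_of_mem_exFrom ((vr_subset _ _ _) hx)
                exact absurd hlt (by simpa using h3)

end Pool.Agent.MP_925109_lc
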