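import Mathlib
import Pool.Agent.MP_925109_lc.Game
import Pool.Agent.MP_925109_lc.WinTruth

/-!
Satisfiability for bounded maximal deficiency.
-/

set_option autoImplicit false

namespace Pool.Agent.MP_925109_lc

/-- winning a purely existential game from a satisfying assignment -/
theorem win_of_sat {q : List Bool} {F : Fam} (α : ℕ → Bool) :
    ∀ (m i : ℕ) (A : Finset ℕ), (∀ j, i ≤ j → j < i + m → q.getD j false = true) →
      (∀ c ∈ A, ∃ x, i ≤ x ∧ x < i + m ∧ (x, α x) ∈ F c) → Win q F m i A := by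
  intro m
  induction m with
  | zero =>
    intro i A _ h
    show A = ∅
    rw [Finset.eq_empty_iff_forall_notMem]
    intro c hc
    obtain ⟨x, h1, h2, -⟩ := h c hc
    omega
  | succ m ih =>
    intro i A hq h
    have hi : q.getD i false = true := hq i le_rfl (by omega)
    unfold Win
    rw [if_pos hi]
    refine ⟨α i, ih (i + 1) _ (fun j h1 h2 => hq j (by omega) (by omega)) ?_⟩
    intro c hc
    rw [Finset.mem_filter] at hc
    obtain ⟨x, h1, h2, h3⟩ := h c hc.1
    refine ⟨x, ?_, by omega, h3⟩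
    rcases Nat.lt_or_ge i x with h4 | h4
    · exact h4
    · exfalso
      have : x = i := by omega
      subst this
      exact hc.2 h3

/-- A satisfiable family of maximal deficiency at most `k` becomes a matched family after setting at
most `k` literals. -/
theorem xlemma {F : Fam} {V A : Finset ℕ} {k : ℕ} (hν : NuLe F V A k) (hs : SatOn F V A) :
    ∃ a : List Lit, a.length ≤ k ∧ (∀ l ∈ a, l.1 ∈ V) ∧ (∀ l ∈ a, (l.1, !l.2) ∉ a) ∧
      NuLe F (V.filter (fun x => ∀ l ∈ a, l.1 ≠ x)) (A.filter (fun c => ∀ l ∈ a, l ∉ F c)) 0 := by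
  classical
  obtain ⟨α₀, hα₀⟩ := hs
  obtain ⟨C, hC⟩ := exists_core F V A
  -- the restricted family
  set F' : Fam := fun c => (F c).filter (fun l => l.1 ∈ V) with hF'
  set N : ℕ := V.sup id + 1 with hN
  have hVN : ∀ x ∈ V, x < N := fun x hx => Nat.lt_succ_of_le (Finset.le_sup (f := id) hx)
  set q : List Bool := List.replicate N true with hq
  have hql : q.length = N := List.length_replicate
  have hqg : ∀ j, j < N → q.getD j false = true := by
    intro j hj
    rw [hq, List.getD_eq_getElem?_getD, List.getElem?_replicate, if_pos hj]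
    rfl
  have hvr : ∀ B : Finset ℕ, vr F' (exFrom q 0) B = vr F V B := by
    intro B
    ext x
    rw [mem_vr, mem_vr]
    constructor
    · rintro ⟨-, c, hc, e, he⟩
      rw [hF'] at he
      have he' := Finset.mem_filter.1 he
      exact ⟨he'.2, c, hc, e, he'.1⟩
    · rintro ⟨hx, c, hc, e, he⟩
      refine ⟨?_, c, hc, e, ?_⟩
      · unfold exFrom
        rw [Finset.mem_filter, Finset.mem_range, hql]
        exact ⟨hVN x hx, Nat.zero_le _, hqg x (hVN x hx)⟩
      · exact Finset.mem_filter.2 ⟨he, hx⟩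
  have hdf : ∀ B : Finset ℕ, df F' (exFrom q 0) B = df F V B := by
    intro B
    unfold df
    rw [hvr]
  have hnn : 0 ≤ df F V C := hC.nonneg
  obtain ⟨j, hj⟩ := Int.eq_ofNat_of_zero_le hnn
  have hjk : j ≤ k := by
    have := hν C hC.1
    omega
  have hcrit : Crit F' (exFrom q 0) C := by
    intro B hB
    rw [hdf, hdf]
    exact hC.crit B hB
  have hwin : Win q F' N 0 C := by
    refine win_of_sat α₀ N 0 C (fun j _ hj => hqg j (by omega)) ?_
    intro c hc
    obtain ⟨x, hx, hxc⟩ := hα₀ c (hC.1 hc)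
    refine ⟨x, Nat.zero_le _, ?_, ?_⟩
    · have := hVN x hx
      omega
    · exact Finset.mem_filter.2 ⟨hxc, hx⟩
  obtain ⟨lab, M, α, hcert⟩ := cert_complete q F' N 0 (by rw [hql, Nat.zero_add]) C j hcrit
    (by rw [hdf]; exact hj) hwin
  rw [hvr] at hcert
  set b : List Bool := List.replicate j false with hb
  have hbl : b.length = j := List.length_replicate
  have hinj := hcert.inj b hbl
  have hmem := hcert.mem b hbl
  have hexc : ∀ c ∈ C, ∃ x ∈ vr F V C, (x, α b x) ∈ F c := by
    intro c hc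
    rcases hcert.exc b hbl c hc with ⟨x, hx, hxc⟩ | ⟨j', -, hl⟩
    · exact ⟨x, hx, (Finset.mem_filter.1 hxc).1⟩
    · exfalso
      have h1 : lab (b.take j') ∈ V := (Finset.mem_filter.1 hl).2
      have h2 := hVN _ h1
      have h3 := hcert.lab_ok (b.take j') (by rw [hql]; exact h2)
      rw [hqg _ h2] at h3
      exact absurd h3 (by decide)
  set β : ℕ → Bool := α b with hβ
  set VC : Finset ℕ := vr F V C with hVC
  set R : Finset ℕ := C \ VC.image (M b) with hR
  have hMsub : VC.image (M b) ⊆ C := by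
    intro c hc
    obtain ⟨x, hx, rfl⟩ := Finset.mem_image.1 hc
    exact (hmem x hx).1
  have hRcard : R.card = j := by
    rw [hR, Finset.card_sdiff_of_subset hMsub, Finset.card_image_of_injOn hinj]
    have : df F V C = (C.card : ℤ) - (VC.card : ℤ) := rfl
    rw [this] at hj
    have hle : VC.card ≤ C.card := by
      have := Finset.card_le_card hMsub
      rwa [Finset.card_image_of_injOn hinj] at this
    omega
  choose! X hX using hexc
  set a : List Lit := R.toList.map (fun c => (X c, β (X c))) with ha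
  have hamem : ∀ l, l ∈ a ↔ ∃ c ∈ R, (X c, β (X c)) = l := by
    intro l
    rw [ha, List.mem_map]
    constructor
    · rintro ⟨c, hc, h⟩
      exact ⟨c, Finset.mem_toList.1 hc, h⟩
    · rintro ⟨c, hc, h⟩
      exact ⟨c, Finset.mem_toList.2 hc, h⟩
  have haβ : ∀ l ∈ a, l.2 = β l.1 := by
    intro l hl
    obtain ⟨c, -, rfl⟩ := (hamem l).1 hl
    rfl
  have haVC : ∀ l ∈ a, l.1 ∈ VC := by
    intro l hl
    obtain ⟨c, hc, rfl⟩ := (hamem l).1 hl
    exact (hX c (Finset.sdiff_subset hc)).1
  refine ⟨a, ?_, ?_, ?_, ?_⟩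
  · rw [ha, List.length_map, Finset.length_toList, hRcard]
    exact hjk
  · intro l hl
    exact vr_subset _ _ _ (haVC l hl)
  · intro l hl hl'
    have h1 := haβ l hl
    have h2 := haβ _ hl'
    simp only at h2
    rw [← h1] at h2
    cases hl2 : l.2 <;> rw [hl2] at h2 <;> exact absurd h2 (by decide)
  · obtain ⟨g₂, hg₂i, hg₂⟩ := hall_clauses hC.rest
    -- inverse of `M b` on the clauses of the core outside of `R`
    have hinv : ∀ c ∈ C, c ∉ R → ∃ x ∈ VC, M b x = c := by
      intro c hc hcR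
      by_contra hne
      apply hcR
      rw [hR, Finset.mem_sdiff]
      refine ⟨hc, fun h => hne ?_⟩
      obtain ⟨x, hx, hxc⟩ := Finset.mem_image.1 h
      exact ⟨x, hx, hxc⟩
    choose! g₁ hg₁ using hinv
    have hA' : ∀ c ∈ A.filter (fun c => ∀ l ∈ a, l ∉ F c), c ∈ C → c ∉ R := by
      intro c hc hcC hcR
      rw [Finset.mem_filter] at hc
      exact hc.2 (X c, β (X c)) ((hamem _).2 ⟨c, hcR, rfl⟩) (hX c hcC).2
    refine nuLe_zero_of_matching (fun c => if c ∈ C then g₁ c else g₂ c) ?_ ?_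
    · intro c hc d hd hcd
      have hc' : c ∈ A.filter (fun c => ∀ l ∈ a, l ∉ F c) := hc
      have hd' : d ∈ A.filter (fun c => ∀ l ∈ a, l ∉ F c) := hd
      have hcA : c ∈ A := (Finset.mem_filter.1 hc').1
      have hdA : d ∈ A := (Finset.mem_filter.1 hd').1
      simp only at hcd
      by_cases hcC : c ∈ C
      · have hc1 := hg₁ c hcC (hA' c hc' hcC)
        by_cases hdC : d ∈ C
        · have hd1 := hg₁ d hdC (hA' d hd' hdC)
          rw [if_pos hcC, if_pos hdC] at hcd
          rw [← hc1.2, ← hd1.2, hcd]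
        · exfalso
          have hd1 := hg₂ d (Finset.mem_sdiff.2 ⟨hdA, hdC⟩)
          rw [if_pos hcC, if_neg hdC] at hcd
          exact (Finset.mem_sdiff.1 hd1.1).2 (hcd ▸ hc1.1)
      · have hc1 := hg₂ c (Finset.mem_sdiff.2 ⟨hcA, hcC⟩)
        by_cases hdC : d ∈ C
        · exfalso
          have hd1 := hg₁ d hdC (hA' d hd' hdC)
          rw [if_neg hcC, if_pos hdC] at hcd
          exact (Finset.mem_sdiff.1 hc1.1).2 (hcd ▸ hd1.1)
        · rw [if_neg hcC, if_neg hdC] at hcd
          exact hg₂i (Finset.mem_coe.2 (Finset.mem_sdiff.2 ⟨hcA, hcC⟩))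
            (Finset.mem_coe.2 (Finset.mem_sdiff.2 ⟨hdA, hdC⟩)) hcd
    · intro c hc
      have hcA : c ∈ A := (Finset.mem_filter.1 hc).1
      by_cases hcC : c ∈ C
      · rw [if_pos hcC]
        have hc1 := hg₁ c hcC (hA' c hc hcC)
        have hc2 := hmem _ hc1.1
        have hlit : (g₁ c, β (g₁ c)) ∈ F c := by
          have := (Finset.mem_filter.1 hc2.2).1
          rwa [hc1.2] at this
        refine ⟨?_, β (g₁ c), hlit⟩
        rw [Finset.mem_filter]
        refine ⟨vr_subset _ _ _ hc1.1, ?_⟩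
        intro l hl hlx
        apply (Finset.mem_filter.1 hc).2 l hl
        have : l = (g₁ c, β (g₁ c)) := by
          rw [← hlx]
          exact Prod.ext rfl (haβ l hl)
        rw [this]
        exact hlit
      · rw [if_neg hcC]
        have hc1 := hg₂ c (Finset.mem_sdiff.2 ⟨hcA, hcC⟩)
        refine ⟨?_, hc1.2⟩
        rw [Finset.mem_filter]
        refine ⟨(Finset.mem_sdiff.1 hc1.1).1, ?_⟩
        intro l hl hlx
        exact (Finset.mem_sdiff.1 hc1.1).2 (hlx ▸ haVC l hl)

theorem xlemma_conv {F : Fam} {V A : Finset ℕ} (a : List Lit) (hV : ∀ l ∈ a, l.1 ∈ V)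
    (hcons : ∀ l ∈ a, (l.1, !l.2) ∉ a)
    (h : NuLe F (V.filter (fun x => ∀ l ∈ a, l.1 ≠ x)) (A.filter (fun c => ∀ l ∈ a, l ∉ F c)) 0) :
    SatOn F V A := by
  classical
  obtain ⟨α₀, hα₀⟩ := satOn_of_nuLe_zero h
  refine ⟨fun x => if (x, true) ∈ a then true else if (x, false) ∈ a then false else α₀ x, ?_⟩
  intro c hc
  by_cases hca : ∀ l ∈ a, l ∉ F c
  · obtain ⟨x, hx, hxc⟩ := hα₀ c (Finset.mem_filter.2 ⟨hc, hca⟩)
    rw [Finset.mem_filter] at hx
    refine ⟨x, hx.1, ?_⟩
    have h1 : (x, true) ∉ a := fun h => hx.2 _ h rfl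
    have h2 : (x, false) ∉ a := fun h => hx.2 _ h rfl
    simp only
    rw [if_neg h1, if_neg h2]
    exact hxc
  · push Not at hca
    obtain ⟨⟨x, e⟩, hl, hlc⟩ := hca
    refine ⟨x, hV _ hl, ?_⟩
    simp only
    cases e with
    | true =>
      rw [if_pos hl]
      exact hlc
    | false =>
      have h1 : (x, true) ∉ a := by
        have := hcons _ hl
        simpa using this
      rw [if_neg h1, if_pos hl]
      exact hlc

end Pool.Agent.MP_925109_lc
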