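import Mathlib
import Pool.Agent.MP_925109_lc.CoreSpec
import Pool.Agent.MP_925109_lc.ListLib
import Pool.Agent.MP_925109_lc.XLemma
import Pool.Agent.MP_925109_lc.Kernel

/-!
Correctness of the satisfiability test and of the computation of the lean kernel.
-/

set_option autoImplicit false

namespace Pool.Agent.MP_925109_lc

private lemma sat_filtE (φ : List (List Lit)) (E : List ℕ) (a : List Lit) :
    (E.filter (fun c => a.all (fun l => decide (l ∉ φ.getD c [])))).toFinset =
      E.toFinset.filter (fun c => ∀ l ∈ a, l ∉ fam φ c) := by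
  ext c
  rw [List.mem_toFinset, List.mem_filter, Finset.mem_filter, List.mem_toFinset,
    List.all_eq_true]
  refine and_congr_right fun _ => forall₂_congr fun l _ => ?_
  rw [decide_eq_true_eq]
  unfold fam
  rw [List.mem_toFinset]

private lemma sat_filtV (V : List ℕ) (a : List Lit) :
    (V.filter (fun x => a.all (fun l => decide (l.1 ≠ x)))).toFinset =
      V.toFinset.filter (fun x => ∀ l ∈ a, l.1 ≠ x) := by
  ext x
  simp [List.all_eq_true]

private lemma sat_consL (a : List Lit) : consL a = true ↔ ∀ l ∈ a, (l.1, !l.2) ∉ a := by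
  simp only [consL, List.all_eq_true, decide_eq_true_eq]

theorem satL_sound (k : ℕ) (φ : List (List Lit)) (E V : List ℕ) (hE : E.Nodup) (hV : V.Nodup)
    (h : satL k φ E V = true) : SatOn (fam φ) V.toFinset E.toFinset := by
  unfold satL at h
  rw [List.any_eq_true] at h
  obtain ⟨a, ha, hc⟩ := h
  rw [Bool.and_eq_true, decide_eq_true_eq] at hc
  obtain ⟨h1, h2⟩ := hc
  rw [mem_tup] at ha
  have h3 := (nuL_le_iff φ _ _ (hE.filter (fun c => a.all (fun l => decide (l ∉ φ.getD c []))))
    (hV.filter (fun x => a.all (fun l => decide (l.1 ≠ x)))) 0).1 h2.le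
  rw [sat_filtE, sat_filtV] at h3
  refine xlemma_conv a ?_ ((sat_consL a).1 h1) h3
  intro l hl
  rw [List.mem_toFinset]
  exact (mem_litsL V l).1 (ha.2 l hl)

theorem satL_complete (k : ℕ) (φ : List (List Lit)) (E V : List ℕ) (hE : E.Nodup) (hV : V.Nodup)
    (hν : NuLe (fam φ) V.toFinset E.toFinset k) (h : SatOn (fam φ) V.toFinset E.toFinset) :
    satL k φ E V = true := by
  obtain ⟨a, h1, h2, h3, h4⟩ := xlemma hν h
  unfold satL
  rw [List.any_eq_true]
  refine ⟨a, (mem_tup k _ a).2 ⟨h1, fun l hl => ?_⟩, ?_⟩
  · rw [mem_litsL]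
    exact List.mem_toFinset.1 (h2 l hl)
  · rw [Bool.and_eq_true, decide_eq_true_eq]
    refine ⟨(sat_consL a).2 h3, ?_⟩
    have h5 := (nuL_le_iff φ _ _ (hE.filter (fun c => a.all (fun l => decide (l ∉ φ.getD c []))))
      (hV.filter (fun x => a.all (fun l => decide (l.1 ≠ x)))) 0).2 (by
        rw [sat_filtE, sat_filtV]; exact h4)
    exact Nat.le_zero.1 h5

private lemma sat_foldl {β : Type} (L : List (List β)) (a : List β) :
    ((L.foldl (fun a G => if G.length < a.length then G else a) a) = a ∨
      (L.foldl (fun a G => if G.length < a.length then G else a) a) ∈ L) ∧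
    (L.foldl (fun a G => if G.length < a.length then G else a) a).length ≤ a.length ∧
    ∀ G ∈ L, (L.foldl (fun a G => if G.length < a.length then G else a) a).length ≤ G.length := by
  induction L generalizing a with
  | nil => simp
  | cons H L ih =>
    rw [List.foldl_cons]
    by_cases hlt : H.length < a.length
    · rw [if_pos hlt]
      obtain ⟨h1, h2, h3⟩ := ih H
      refine ⟨Or.inr ?_, h2.trans hlt.le, ?_⟩
      · rcases h1 with h1 | h1
        · rw [h1]; exact List.mem_cons_self
        · exact List.mem_cons_of_mem _ h1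
      · intro G hG
        rcases List.mem_cons.1 hG with rfl | hG
        · exact h2
        · exact h3 G hG
    · rw [if_neg hlt]
      obtain ⟨h1, h2, h3⟩ := ih a
      refine ⟨?_, h2, ?_⟩
      · rcases h1 with h1 | h1
        · exact Or.inl h1
        · exact Or.inr (List.mem_cons_of_mem _ h1)
      · intro G hG
        rcases List.mem_cons.1 hG with rfl | hG
        · exact h2.trans (not_lt.1 hlt)
        · exact h3 G hG

theorem leanL_sublist (k : ℕ) (φ : List (List Lit)) (E V : List ℕ) : (leanL k φ E V).Sublist E := by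
  unfold leanL
  rcases (sat_foldl (((tup k E).map (fun R => coreL φ (minusL E R) V)).filter
    (fun G => validL k φ E V G)) E).1 with h | h
  · rw [h]
  · rw [List.mem_filter, List.mem_map] at h
    obtain ⟨⟨R, -, hR⟩, -⟩ := h
    rw [← hR]
    exact (coreL_sublist _ _ _).trans (minusL_sublist _ _)

theorem leanL_spec (k : ℕ) (φ : List (List Lit)) (E V : List ℕ) (hE : E.Nodup) (hV : V.Nodup)
    (hν : NuLe (fam φ) V.toFinset E.toFinset k) :
    IsKernel (fam φ) V.toFinset E.toFinset (leanL k φ E V).toFinset := by
  classical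
  obtain ⟨K, hK⟩ := exists_kernel (fam φ) V.toFinset E.toFinset
  obtain ⟨R, hRE, hRk, hcore⟩ := kernel_eq_core hK hν
  have hsub := leanL_sublist k φ E V
  have hGn : (leanL k φ E V).Nodup := hE.sublist hsub
  have hGE : (leanL k φ E V).toFinset ⊆ E.toFinset := fun x hx =>
    List.mem_toFinset.2 (hsub.subset (List.mem_toFinset.1 hx))
  -- validity of the chosen set
  have hval : SatOn (fam φ) (V.toFinset \ vr (fam φ) V.toFinset (leanL k φ E V).toFinset)
      (E.toFinset \ (leanL k φ E V).toFinset) := by
    have hdef : leanL k φ E V = (((tup k E).map (fun R => coreL φ (minusL E R) V)).filter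
      (fun G => validL k φ E V G)).foldl (fun a G => if G.length < a.length then G else a) E := rfl
    rcases (sat_foldl (((tup k E).map (fun R => coreL φ (minusL E R) V)).filter
      (fun G => validL k φ E V G)) E).1 with h | h
    · rw [← hdef] at h
      rw [h, Finset.sdiff_self]
      exact ⟨fun _ => true, fun c hc => absurd hc (Finset.notMem_empty c)⟩
    · rw [← hdef, List.mem_filter] at h
      have h1 := h.2
      unfold validL at h1
      have h2 := satL_sound k φ _ _ (hE.sublist (minusL_sublist _ _))
        (hV.sublist (minusL_sublist _ _)) h1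
      rw [minusL_toFinset, minusL_toFinset, vsL_toFinset] at h2
      exact h2
  -- the kernel is among the candidates
  set R' := R.toList with hR'
  have hR'fin : R'.toFinset = R := Finset.toList_toFinset R
  have hminus : (minusL E R').toFinset = E.toFinset \ R := by rw [minusL_toFinset, hR'fin]
  set G' := coreL φ (minusL E R') V with hG'
  have hG'sub : G'.Sublist E := (coreL_sublist _ _ _).trans (minusL_sublist _ _)
  have hG'n : G'.Nodup := hE.sublist hG'sub
  have hG'K : G'.toFinset = K := by
    have h1 := coreL_spec φ (minusL E R') V (hE.sublist (minusL_sublist _ _)) hV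
    rw [hminus] at h1
    exact h1.unique hcore
  have hG'mem : G' ∈ ((tup k E).map (fun R => coreL φ (minusL E R) V)).filter
      (fun G => validL k φ E V G) := by
    rw [List.mem_filter, List.mem_map]
    refine ⟨⟨R', ?_, rfl⟩, ?_⟩
    · rw [mem_tup]
      refine ⟨by rw [hR', Finset.length_toList]; exact hRk, fun x hx => ?_⟩
      exact List.mem_toFinset.1 (hRE (Finset.mem_toList.1 hx))
    · unfold validL
      apply satL_complete k φ _ _ (hE.sublist (minusL_sublist _ _))
        (hV.sublist (minusL_sublist _ _))
      · rw [minusL_toFinset, minusL_toFinset, vsL_toFinset, hG'K]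
        exact kernel_nuLe_rest hK hν
      · rw [minusL_toFinset, minusL_toFinset, vsL_toFinset, hG'K]
        exact hK.2.1
  have hlen : (leanL k φ E V).length ≤ G'.length :=
    (sat_foldl (((tup k E).map (fun R => coreL φ (minusL E R) V)).filter
      (fun G => validL k φ E V G)) E).2.2 G' hG'mem
  have hKG : K ⊆ (leanL k φ E V).toFinset := kernel_le hK hGE hval
  have hcard : (leanL k φ E V).toFinset.card ≤ K.card := by
    rw [List.toFinset_card_of_nodup hGn, ← hG'K, List.toFinset_card_of_nodup hG'n]
    exact hlen
  rw [← Finset.eq_of_subset_of_card_le hKG hcard]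
  exact hK

end Pool.Agent.MP_925109_lc
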