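import Mathlib
import Pool.Agent.MP_925109_lc.SatSpec
import Pool.Agent.MP_925109_lc.OneOne
import Pool.Agent.MP_925109_lc.S1

/-!
Correctness of the decomposition step.
-/

set_option autoImplicit false

namespace Pool.Agent.MP_925109_lc

/-! ### components -/

private def cStep (φ : List (List Lit)) (E V : List ℕ) (Z : List ℕ) : List ℕ :=
  E.filter (fun c => decide (c ∈ Z) ||
    Z.any (fun d => V.any (fun x => occL φ c x && occL φ d x)))

private lemma comp_eq (φ : List (List Lit)) (E V : List ℕ) :
    comp φ E V = (cStep φ E V)^[E.length] (E.take 1) := rfl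

private lemma mem_cStep (φ : List (List Lit)) (E V Z : List ℕ) (c : ℕ) :
    c ∈ cStep φ E V Z ↔
      c ∈ E ∧ (c ∈ Z ∨ ∃ d ∈ Z, ∃ x ∈ V, occ (fam φ) c x ∧ occ (fam φ) d x) := by
  unfold cStep
  rw [List.mem_filter, Bool.or_eq_true, decide_eq_true_iff, List.any_eq_true]
  simp only [List.any_eq_true, Bool.and_eq_true, occL_iff]

private lemma stab {T : Finset ℕ} {S : ℕ → Finset ℕ} (h1 : ∀ n, S n ⊆ S (n + 1))
    (h2 : ∀ n, S n ⊆ T) (h3 : ∀ n, S n = S (n + 1) → S (n + 1) = S (n + 2)) (m : ℕ)
    (hm : T.card ≤ m) : S m = S (m + 1) := by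
  by_contra h
  have hne : ∀ j ≤ m, S j ≠ S (j + 1) := by
    intro j hj he
    apply h
    induction m, hj using Nat.le_induction with
    | base => exact he
    | succ n hn ih =>
      by_cases hS : S n = S (n + 1)
      · exact h3 n hS
      · have : ∀ i, j ≤ i → S i = S (i + 1) := by
          intro i hi
          induction i, hi using Nat.le_induction with
          | base => exact he
          | succ i _ ih => exact h3 i ih
        exact this (n + 1) (by omega)
  have hcard : ∀ j ≤ m + 1, j ≤ (S j).card := by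
    intro j
    induction j with
    | zero => intro _; exact Nat.zero_le _
    | succ j ih =>
      intro hj
      have := ih (by omega)
      have hss : S j ⊂ S (j + 1) :=
        (Finset.ssubset_iff_subset_ne).2 ⟨h1 j, hne j (by omega)⟩
      have := Finset.card_lt_card hss
      omega
  have := hcard (m + 1) le_rfl
  have := Finset.card_le_card (h2 (m + 1))
  omega

/-- the component of the first clause -/
theorem comp_spec (φ : List (List Lit)) (E V : List ℕ) (hE : E ≠ []) :
    (comp φ E V).Sublist E ∧ comp φ E V ≠ [] ∧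
      (∀ c ∈ comp φ E V, ∀ d ∈ E, ∀ x ∈ V, occ (fam φ) c x → occ (fam φ) d x →
        d ∈ comp φ E V) ∧
      ∀ X : Finset ℕ, E.headD 0 ∈ X →
        (∀ c ∈ X, c ∈ E → ∀ d ∈ E, ∀ x ∈ V, occ (fam φ) c x → occ (fam φ) d x → d ∈ X) →
        ∀ c ∈ comp φ E V, c ∈ X := by
  rw [comp_eq]
  obtain ⟨e, E', rfl⟩ := List.exists_cons_of_ne_nil hE
  set E := e :: E' with hEdef
  have htake : E.take 1 = [e] := by simp [hEdef]
  have hhead : E.headD 0 = e := by simp [hEdef]
  have heE : e ∈ E := by simp [hEdef]
  have hsub : ∀ n, ∀ c ∈ (cStep φ E V)^[n] (E.take 1), c ∈ E := by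
    intro n
    induction n with
    | zero =>
      intro c hc
      exact List.mem_of_mem_take hc
    | succ n _ =>
      intro c hc
      rw [Function.iterate_succ_apply', mem_cStep] at hc
      exact hc.1
  have he : ∀ n, e ∈ (cStep φ E V)^[n] (E.take 1) := by
    intro n
    induction n with
    | zero => rw [htake]; simp
    | succ n ih =>
      rw [Function.iterate_succ_apply', mem_cStep]
      exact ⟨heE, Or.inl ih⟩
  have hlen : E.length = E'.length + 1 := by simp [hEdef]
  refine ⟨?_, ?_, ?_, ?_⟩
  · rw [hlen, Function.iterate_succ_apply']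
    exact List.filter_sublist
  · intro h
    have := he E.length
    rw [h] at this
    simp at this
  · have hst := stab (T := E.toFinset)
      (S := fun n => ((cStep φ E V)^[n] (E.take 1)).toFinset)
      (fun n c hc => by
        rw [List.mem_toFinset] at hc ⊢
        rw [Function.iterate_succ_apply', mem_cStep]
        exact ⟨hsub n c hc, Or.inl hc⟩)
      (fun n c hc => by
        rw [List.mem_toFinset] at hc ⊢
        exact hsub n c hc)
      (fun n hn => by
        ext c
        have hmem : ∀ d, d ∈ (cStep φ E V)^[n] (E.take 1) ↔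
            d ∈ (cStep φ E V)^[n + 1] (E.take 1) := by
          intro d
          have := Finset.ext_iff.1 hn d
          rwa [List.mem_toFinset, List.mem_toFinset] at this
        rw [Function.iterate_succ_apply' (cStep φ E V) n] at hmem
        rw [List.mem_toFinset, List.mem_toFinset,
          Function.iterate_succ_apply' (cStep φ E V) (n + 1),
          Function.iterate_succ_apply' (cStep φ E V) n]
        refine (mem_cStep φ E V _ c).trans (Iff.trans ?_ (mem_cStep φ E V _ c).symm)
        constructor
        · rintro ⟨h1, h2⟩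
          refine ⟨h1, ?_⟩
          rcases h2 with h2 | ⟨d, hd, h2⟩
          · exact Or.inl ((hmem c).1 h2)
          · exact Or.inr ⟨d, (hmem d).1 hd, h2⟩
        · rintro ⟨h1, h2⟩
          refine ⟨h1, ?_⟩
          rcases h2 with h2 | ⟨d, hd, h2⟩
          · exact Or.inl ((hmem c).2 h2)
          · exact Or.inr ⟨d, (hmem d).2 hd, h2⟩)
      E.length (List.toFinset_card_le E)
    intro c hc d hd x hx hcx hdx
    have hd' : d ∈ (cStep φ E V)^[E.length + 1] (E.take 1) := by
      rw [Function.iterate_succ_apply', mem_cStep]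
      exact ⟨hd, Or.inr ⟨c, hc, x, hx, hdx, hcx⟩⟩
    have := Finset.ext_iff.1 hst d
    simp only [List.mem_toFinset] at this
    exact this.2 hd'
  · intro X hX hcl
    rw [hhead] at hX
    have key : ∀ n, ∀ c ∈ (cStep φ E V)^[n] (E.take 1), c ∈ X := by
      intro n
      induction n with
      | zero =>
        intro c hc
        rw [Function.iterate_zero, id, htake, List.mem_singleton] at hc
        rw [hc]; exact hX
      | succ n ih =>
        intro c hc
        rw [Function.iterate_succ_apply', mem_cStep] at hc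
        rcases hc with ⟨hcE, hc | ⟨d, hd, x, hx, hcx, hdx⟩⟩
        · exact ih c hc
        · exact hcl d (ih d hd) (hsub n d hd) c hcE x hx hdx hcx
    exact key _

/-- good nodes: lean families without repetitions -/
structure GoodNd (φ : List (List Lit)) (k : ℕ) (t : Nd) : Prop where
  nodup1 : t.1.Nodup
  nodup2 : t.2.Nodup
  ne : t.1 ≠ []
  lean : IsLean (fam φ) t.2.toFinset t.1.toFinset
  le : t.1.length ≤ t.2.length + k

/-- properties of a splitting `W, t1, t2` of the node `t` -/
structure GoodSplit (φ : List (List Lit)) (t : Nd) (W : List ℕ) (t1 t2 : Nd) : Prop where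
  lenW : W.length ≤ 1
  subW : ∀ w ∈ W, w ∈ t.2
  ne1 : t1.1 ≠ []
  ne2 : t2.1 ≠ []
  lean1 : IsLean (fam φ) t1.2.toFinset t1.1.toFinset
  lean2 : IsLean (fam φ) t2.2.toFinset t2.1.toFinset
  private2 : ∀ c ∈ t1.1, ∀ x ∈ t2.2, ¬ occ (fam φ) c x
  closed1 : ∀ c ∈ t1.1, ∀ x ∈ t.2, occ (fam φ) c x → x ∈ t1.2 ∨ x ∈ W
  type1 : (∀ c ∈ t2.1, ∀ x ∈ t1.2, ¬ occ (fam φ) c x) ∨
    t1.1.length + t.2.length + 1 ≤ t.1.length + t1.2.length

private lemma mem_vsL (φ : List (List Lit)) (V X : List ℕ) (x : ℕ) :
    x ∈ vsL φ V X ↔ x ∈ V ∧ ∃ c ∈ X, occ (fam φ) c x := by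
  rw [← List.mem_toFinset, vsL_toFinset, mem_vr]
  simp only [List.mem_toFinset]

private lemma mem_ch1_1 (t : Nd) (W Z Y : List ℕ) (c : ℕ) :
    c ∈ (ch1 t (W, Z, Y)).1 ↔ c ∈ t.1 ∧ c ∈ Z := by
  simp [ch1]

private lemma mem_ch2_1 (t : Nd) (W Z Y : List ℕ) (c : ℕ) :
    c ∈ (ch2 t (W, Z, Y)).1 ↔ c ∈ t.1 ∧ c ∉ Z := by
  simp [ch2]

private lemma mem_ch1_2 (t : Nd) (W Z Y : List ℕ) (c : ℕ) :
    c ∈ (ch1 t (W, Z, Y)).2 ↔ (c ∈ t.2 ∧ c ∉ W) ∧ c ∈ Y := by
  simp [ch1, mem_minusL]

private lemma mem_ch2_2 (t : Nd) (W Z Y : List ℕ) (c : ℕ) :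
    c ∈ (ch2 t (W, Z, Y)).2 ↔ (c ∈ t.2 ∧ c ∉ W) ∧ c ∉ Y := by
  simp [ch2, mem_minusL]

/-- the common part of all cases -/
private lemma good_split_aux (φ : List (List Lit)) (k : ℕ) (t : Nd) (ht : GoodNd φ k t)
    (W Z : List ℕ) (hW1 : W.length ≤ 1) (hW2 : ∀ w ∈ W, w ∈ t.2)
    (hZ : ∀ c ∈ Z, c ∈ t.1) (hZne : Z ≠ []) (hne2 : ∃ c ∈ t.1, c ∉ Z)
    (hlean : (∀ c ∈ Z, ∀ d ∈ t.1, ∀ x ∈ minusL t.2 W, occ (fam φ) c x → occ (fam φ) d x → d ∈ Z) ∨
      (IsLean (fam φ) (vsL φ (minusL t.2 W) Z).toFinset Z.toFinset ∧
        (ch1 t (W, Z, vsL φ (minusL t.2 W) Z)).1.length + t.2.length + 1 ≤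
          t.1.length + (ch1 t (W, Z, vsL φ (minusL t.2 W) Z)).2.length)) :
    GoodSplit φ t W (ch1 t (W, Z, vsL φ (minusL t.2 W) Z))
      (ch2 t (W, Z, vsL φ (minusL t.2 W) Z)) := by
  have h11 : (ch1 t (W, Z, vsL φ (minusL t.2 W) Z)).1.toFinset = Z.toFinset := by
    ext c
    rw [List.mem_toFinset, List.mem_toFinset, mem_ch1_1]
    exact ⟨fun h => h.2, fun h => ⟨hZ c h, h⟩⟩
  have h12 : (ch1 t (W, Z, vsL φ (minusL t.2 W) Z)).2.toFinset =
      (vsL φ (minusL t.2 W) Z).toFinset := by
    ext c
    rw [List.mem_toFinset, List.mem_toFinset, mem_ch1_2, mem_vsL, mem_minusL]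
    tauto
  have hpriv : ∀ c ∈ Z, ∀ x ∈ (ch2 t (W, Z, vsL φ (minusL t.2 W) Z)).2,
      ¬ occ (fam φ) c x := by
    intro c hc x hx hocc
    rw [mem_ch2_2, mem_vsL, mem_minusL] at hx
    exact hx.2 ⟨hx.1, c, hc, hocc⟩
  refine ⟨hW1, hW2, ?_, ?_, ?_, ?_, ?_, ?_, ?_⟩
  · intro h
    obtain ⟨c, hc⟩ := List.exists_mem_of_ne_nil _ hZne
    have : c ∈ (ch1 t (W, Z, vsL φ (minusL t.2 W) Z)).1 := (mem_ch1_1 _ _ _ _ _).2 ⟨hZ c hc, hc⟩
    rw [h] at this
    simp at this
  · intro h
    obtain ⟨c, hc, hc'⟩ := hne2
    have : c ∈ (ch2 t (W, Z, vsL φ (minusL t.2 W) Z)).1 := (mem_ch2_1 _ _ _ _ _).2 ⟨hc, hc'⟩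
    rw [h] at this
    simp at this
  · rw [h11, h12]
    rcases hlean with hl | hl
    · refine ht.lean.private ?_ ?_ ?_
      · intro c hc
        rw [List.mem_toFinset] at hc ⊢
        exact hZ c hc
      · intro x hx
        rw [List.mem_toFinset, mem_vsL, mem_minusL] at hx
        rw [List.mem_toFinset]
        exact hx.1.1
      · intro c hc hcZ x hx hocc
        rw [List.mem_toFinset, mem_vsL] at hx
        rw [List.mem_toFinset] at hc hcZ
        obtain ⟨hx1, d, hd, hdx⟩ := hx
        exact hcZ (hl d hd c hc x hx1 hdx hocc)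
    · exact hl.1
  · refine ht.lean.private ?_ ?_ ?_
    · intro c hc
      rw [List.mem_toFinset, mem_ch2_1] at hc
      rw [List.mem_toFinset]
      exact hc.1
    · intro x hx
      rw [List.mem_toFinset, mem_ch2_2] at hx
      rw [List.mem_toFinset]
      exact hx.1.1
    · intro c hc hcE x hx
      rw [List.mem_toFinset] at hc hcE hx
      rw [mem_ch2_1] at hcE
      refine hpriv c ?_ x hx
      by_contra hn
      exact hcE ⟨hc, hn⟩
  · intro c hc x hx
    rw [mem_ch1_1] at hc
    exact hpriv c hc.2 x hx
  · intro c hc x hx hocc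
    rw [mem_ch1_1] at hc
    by_cases hxW : x ∈ W
    · exact Or.inr hxW
    · left
      rw [mem_ch1_2, mem_vsL, mem_minusL]
      exact ⟨⟨hx, hxW⟩, ⟨hx, hxW⟩, c, hc.2, hocc⟩
  · rcases hlean with hl | hl
    · left
      intro c hc x hx hocc
      rw [mem_ch2_1] at hc
      rw [mem_ch1_2, mem_vsL] at hx
      obtain ⟨_, hx1, d, hd, hdx⟩ := hx
      exact hc.2 (hl d hd c hc.1 x hx1 hdx hocc)
    · exact Or.inr hl.2

private lemma exists_notMem_of_length_lt {E Z : List ℕ} (hE : E.Nodup) (h : Z.length < E.length) :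
    ∃ c ∈ E, c ∉ Z := by
  by_contra hn
  push Not at hn
  have h1 : E.toFinset ⊆ Z.toFinset := by
    intro c hc
    rw [List.mem_toFinset] at hc ⊢
    exact hn c hc
  have h2 := Finset.card_le_card h1
  rw [List.toFinset_card_of_nodup hE] at h2
  have h3 := List.toFinset_card_le Z
  omega

private lemma comp_lt {φ : List (List Lit)} {E V : List ℕ} (hE : E ≠ []) (hnd : E.Nodup)
    (E' : Finset ℕ) (hsub : E' ⊆ E.toFinset) (hne : E'.Nonempty) (hne' : E' ≠ E.toFinset)
    (hcl : ∀ x ∈ V, (∃ c ∈ E', occ (fam φ) c x) → ∀ c ∈ E.toFinset, c ∉ E' →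
      ¬ occ (fam φ) c x) : (comp φ E V).length < E.length := by
  classical
  obtain ⟨hs, -, -, hmin⟩ := comp_spec φ E V hE
  have hfin : ∀ X : Finset ℕ, E.headD 0 ∈ X →
      (∀ c ∈ X, c ∈ E → ∀ d ∈ E, ∀ x ∈ V, occ (fam φ) c x → occ (fam φ) d x → d ∈ X) →
      (∃ c ∈ E, c ∉ X) → (comp φ E V).length < E.length := by
    intro X h1 h2 h3
    have h4 := hmin X h1 h2
    obtain ⟨c, hc, hcX⟩ := h3
    rcases lt_or_ge (comp φ E V).length E.length with h | h
    · exact h
    · have := hs.eq_of_length_le h
      exact absurd (h4 c (by rw [this]; exact hc)) hcX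
  by_cases hh : E.headD 0 ∈ E'
  · refine hfin E' hh ?_ ?_
    · intro c hc _ d hd x hx hcx hdx
      by_contra hn
      exact hcl x hx ⟨c, hc, hcx⟩ d (List.mem_toFinset.2 hd) hn hdx
    · by_contra hn
      push Not at hn
      apply hne'
      refine Finset.Subset.antisymm hsub ?_
      intro c hc
      exact hn c (List.mem_toFinset.1 hc)
  · have hhE : E.headD 0 ∈ E := by
      obtain ⟨e, E', rfl⟩ := List.exists_cons_of_ne_nil hE
      simp
    refine hfin (E.toFinset \ E') ?_ ?_ ?_
    · rw [Finset.mem_sdiff, List.mem_toFinset]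
      exact ⟨hhE, hh⟩
    · intro c hc _ d hd x hx hcx hdx
      rw [Finset.mem_sdiff] at hc ⊢
      refine ⟨List.mem_toFinset.2 hd, fun hn => ?_⟩
      exact hcl x hx ⟨d, hn, hdx⟩ c hc.1 hc.2 hcx
    · obtain ⟨c, hc⟩ := hne
      refine ⟨c, List.mem_toFinset.1 (hsub hc), ?_⟩
      rw [Finset.mem_sdiff]
      exact fun h => h.2 hc

private lemma minusL_one_toFinset (V : List ℕ) (w : ℕ) :
    (minusL V [w]).toFinset = V.toFinset.erase w := by
  rw [minusL_toFinset]
  ext x
  simp [and_comm]

private lemma filter_lit_toFinset (φ : List (List Lit)) (E : List ℕ) (l : Lit) :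
    (E.filter (fun c => decide (l ∉ φ.getD c []))).toFinset =
      E.toFinset.filter (fun c => (l.1, l.2) ∉ fam φ c) := by
  ext c
  simp [fam]

theorem split_spec (φ : List (List Lit)) (k : ℕ) (t : Nd) (ht : GoodNd φ k t)
    (hl : isLeaf t = false) :
    GoodSplit φ t (split k φ t).1 (ch1 t (split k φ t)) (ch2 t (split k φ t)) := by
  classical
  have hlen2 : 2 ≤ t.1.length + t.2.length := by
    unfold isLeaf at hl
    rw [decide_eq_false_iff_not] at hl
    omega
  have hlt : t.2.length < t.1.length := by
    have := ht.lean.card_lt (by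
      obtain ⟨c, hc⟩ := List.exists_mem_of_ne_nil _ ht.ne
      exact ⟨c, List.mem_toFinset.2 hc⟩)
    rwa [List.toFinset_card_of_nodup ht.nodup1, List.toFinset_card_of_nodup ht.nodup2] at this
  unfold split
  split_ifs with hc
  · -- several components
    obtain ⟨hs, hne, hcl, -⟩ := comp_spec φ t.1 t.2 ht.ne
    have h0 : minusL t.2 [] = t.2 := by simp [minusL]
    have := good_split_aux φ k t ht [] (comp φ t.1 t.2) (by simp) (by simp)
      (fun c hc => hs.subset hc) hne (exists_notMem_of_length_lt ht.nodup1 hc)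
      (Or.inl (by rw [h0]; exact hcl))
    rw [h0] at this
    exact this
  · split
    · -- a separating variable
      rename_i v vs hv
      have hv' : v ∈ t.2.filter (fun v => decide ((comp φ t.1 (minusL t.2 [v])).length <
          t.1.length)) := by rw [hv]; simp
      rw [List.mem_filter, decide_eq_true_iff] at hv'
      obtain ⟨hs, hne, hcl, -⟩ := comp_spec φ t.1 (minusL t.2 [v]) ht.ne
      exact good_split_aux φ k t ht [v] (comp φ t.1 (minusL t.2 [v])) (by simp)
        (by simpa using hv'.1)
        (fun c hc => hs.subset hc) hne (exists_notMem_of_length_lt ht.nodup1 hv'.2)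
        (Or.inl hcl)
    · rename_i hv
      have hv' : ∀ v ∈ t.2, ¬ (comp φ t.1 (minusL t.2 [v])).length < t.1.length := by
        intro v hvm hlt
        have : v ∈ t.2.filter (fun v => decide ((comp φ t.1 (minusL t.2 [v])).length <
          t.1.length)) := by
          rw [List.mem_filter, decide_eq_true_iff]
          exact ⟨hvm, hlt⟩
        rw [hv] at this
        simp at this
      split
      · -- a good literal
        rename_i l ls hls
        have hl' : l ∈ (litsL t.2).filter (fun l => decide (nuL φ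
          (t.1.filter (fun c => decide (l ∉ φ.getD c []))) (minusL t.2 [l.1]) + 1 ≤
            t.1.length - t.2.length)) := by rw [hls]; simp
        rw [List.mem_filter, decide_eq_true_iff, mem_litsL] at hl'
        obtain ⟨hl1, hl2⟩ := hl'
        have hnd1 : (t.1.filter (fun c => decide (l ∉ φ.getD c []))).Nodup := ht.nodup1.filter _
        have hnd2 : (minusL t.2 [l.1]).Nodup := ht.nodup2.sublist (minusL_sublist _ _)
        have hk := ht.le
        have hker := leanL_spec k φ _ _ hnd1 hnd2
          ((nuL_le_iff φ _ _ hnd1 hnd2 k).1 (by omega))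
        set X := leanL k φ (t.1.filter (fun c => decide (l ∉ φ.getD c []))) (minusL t.2 [l.1])
          with hX
        obtain ⟨hk1, hk2, hk3⟩ := hker
        have hXsub : ∀ c ∈ X, c ∈ t.1 := by
          intro c hc
          have := (leanL_sublist k φ _ _).subset hc
          exact (List.mem_filter.1 this).1
        refine good_split_aux φ k t ht [l.1] X (by simp) (by simpa using hl1) hXsub ?_ ?_
          (Or.inr ⟨?_, ?_⟩)
        · intro hXe
          rw [hXe] at hk2
          rw [List.toFinset_nil, vr_empty, Finset.sdiff_empty, Finset.sdiff_empty,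
            minusL_one_toFinset, filter_lit_toFinset] at hk2
          exact ht.lean.not_satOn_lit (List.mem_toFinset.2 hl1) l.2 hk2
        · obtain ⟨c, hc, hcl⟩ := ht.lean.both_signs (List.mem_toFinset.2 hl1) l.2
          refine ⟨c, List.mem_toFinset.1 hc, fun hcX => ?_⟩
          have := (leanL_sublist k φ _ _).subset hcX
          have h2 := (List.mem_filter.1 this).2
          rw [decide_eq_true_iff] at h2
          apply h2
          have : (l.1, l.2) ∈ (φ.getD c []).toFinset := hcl
          exact List.mem_toFinset.1 this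
        · rw [vsL_toFinset]
          exact hk3
        · have hnu := (nuL_spec φ _ _ hnd1 hnd2).1 X.toFinset (by
            intro c hc
            rw [List.mem_toFinset] at hc ⊢
            exact (leanL_sublist k φ _ _).subset hc)
          unfold df at hnu
          have hc1 : (ch1 t ([l.1], X, vsL φ (minusL t.2 [l.1]) X)).1.length =
              X.toFinset.card := by
            rw [← List.toFinset_card_of_nodup]
            · congr 1
              ext c
              rw [List.mem_toFinset, List.mem_toFinset, mem_ch1_1]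
              exact ⟨fun h => h.2, fun h => ⟨hXsub c h, h⟩⟩
            · exact ht.nodup1.filter _
          have hc2 : (ch1 t ([l.1], X, vsL φ (minusL t.2 [l.1]) X)).2.length =
              (vr (fam φ) (minusL t.2 [l.1]).toFinset X.toFinset).card := by
            rw [← vsL_toFinset, ← List.toFinset_card_of_nodup]
            · congr 1
              ext c
              rw [List.mem_toFinset, List.mem_toFinset, mem_ch1_2, mem_vsL, mem_minusL]
              tauto
            · exact (ht.nodup2.sublist (minusL_sublist _ _)).filter _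
          rw [hc1, hc2]
          omega
      · -- impossible
        exfalso
        rename_i hls
        have hls' : ∀ l ∈ litsL t.2, ¬ (nuL φ
          (t.1.filter (fun c => decide (l ∉ φ.getD c []))) (minusL t.2 [l.1]) + 1 ≤
            t.1.length - t.2.length) := by
          intro l hlm hlt
          have : l ∈ (litsL t.2).filter (fun l => decide (nuL φ
            (t.1.filter (fun c => decide (l ∉ φ.getD c []))) (minusL t.2 [l.1]) + 1 ≤
              t.1.length - t.2.length)) := by
            rw [List.mem_filter, decide_eq_true_iff]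
            exact ⟨hlm, hlt⟩
          rw [hls] at this
          simp at this
        have hcE := List.toFinset_card_of_nodup ht.nodup1
        have hcV := List.toFinset_card_of_nodup ht.nodup2
        obtain ⟨d, hd⟩ : ∃ d, t.1.length = t.2.length + d := ⟨t.1.length - t.2.length, by omega⟩
        rcases Nat.lt_or_ge d 2 with hd2 | hd2
        · have hd1 : d = 1 := by omega
          subst hd1
          have hVne : t.2.toFinset.Nonempty := by
            rw [← Finset.card_pos, hcV]
            omega
          obtain ⟨v, hv1, E', hE', hne, hne', hsep⟩ := mu1_split t.2.toFinset.card rfl ht.lean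
            (by rw [hcE, hcV]; exact hd) hVne
          refine hv' v (List.mem_toFinset.1 hv1) (comp_lt ht.ne ht.nodup1 E' hE' hne hne' ?_)
          intro x hx hex c hcm hcn
          rw [mem_minusL, List.mem_singleton] at hx
          exact hsep x (List.mem_toFinset.2 hx.1) hx.2 hex c hcm hcn
        · have hconn : ∀ E ⊆ t.1.toFinset, E.Nonempty → E ≠ t.1.toFinset →
              ∃ x ∈ t.2.toFinset, (∃ c ∈ E, occ (fam φ) c x) ∧
                ∃ c ∈ t.1.toFinset, c ∉ E ∧ occ (fam φ) c x := by
            intro E hE hne hne'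
            by_contra hn
            push Not at hn
            refine hc (comp_lt ht.ne ht.nodup1 E hE hne hne' ?_)
            intro x hx hex c hcm hcn
            exact hn x (List.mem_toFinset.2 hx) hex c hcm hcn
          obtain ⟨w, hw, e, hnu⟩ := exists_good_literal ht.lean (by rw [hcE, hcV]; exact hd) hd2
            hconn
          have hnd1 : (t.1.filter (fun c => decide ((w, e) ∉ φ.getD c []))).Nodup :=
            ht.nodup1.filter _
          have hnd2 : (minusL t.2 [w]).Nodup := ht.nodup2.sublist (minusL_sublist _ _)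
          apply hls' (w, e) ((mem_litsL _ _).2 (List.mem_toFinset.1 hw))
          have := (nuL_le_iff φ (t.1.filter (fun c => decide ((w, e) ∉ φ.getD c [])))
            (minusL t.2 [w]) hnd1 hnd2 (d - 1)).2 (by
              rw [minusL_one_toFinset, filter_lit_toFinset]
              have hcast : ((d - 1 : ℕ) : ℤ) = (d : ℤ) - 1 := by omega
              rw [hcast]
              exact hnu)
          change nuL φ (t.1.filter (fun c => decide ((w, e) ∉ φ.getD c [])))
            (minusL t.2 [w]) + 1 ≤ t.1.length - t.2.length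
          omega

private lemma length_filter_mem_add (l Z : List ℕ) :
    (l.filter (fun c => decide (c ∈ Z))).length + (l.filter (fun c => decide (c ∉ Z))).length =
      l.length := by
  induction l with
  | nil => rfl
  | cons a l ih =>
    by_cases h : a ∈ Z
    · simp [h] at ih ⊢
      omega
    · simp [h] at ih ⊢
      omega

/-- deficiencies of the parts -/
theorem split_card (φ : List (List Lit)) (k : ℕ) (t : Nd) (ht : GoodNd φ k t)
    (hl : isLeaf t = false) :
    GoodNd φ k (ch1 t (split k φ t)) ∧ GoodNd φ k (ch2 t (split k φ t)) ∧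
      (ch1 t (split k φ t)).1.length + t.2.length ≤ t.1.length + (ch1 t (split k φ t)).2.length ∧
      (ch2 t (split k φ t)).1.length + t.2.length ≤ t.1.length + (ch2 t (split k φ t)).2.length ∧
      (ch1 t (split k φ t)).1.length + (ch2 t (split k φ t)).1.length = t.1.length ∧
      (ch1 t (split k φ t)).2.length + (ch2 t (split k φ t)).2.length ≤ t.2.length := by
  classical
  have hs := split_spec φ k t ht hl
  have hk := ht.le
  set sp := split k φ t with hsp
  have hn11 : (ch1 t sp).1.Nodup := ht.nodup1.filter _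
  have hn21 : (ch2 t sp).1.Nodup := ht.nodup1.filter _
  have hn12 : (ch1 t sp).2.Nodup := (ht.nodup2.sublist (minusL_sublist _ _)).filter _
  have hn22 : (ch2 t sp).2.Nodup := (ht.nodup2.sublist (minusL_sublist _ _)).filter _
  have hsum1 : (ch1 t sp).1.length + (ch2 t sp).1.length = t.1.length :=
    length_filter_mem_add t.1 sp.2.1
  have hsum2 : (ch1 t sp).2.length + (ch2 t sp).2.length = (minusL t.2 sp.1).length :=
    length_filter_mem_add (minusL t.2 sp.1) sp.2.2
  have hmin1 : (minusL t.2 sp.1).length ≤ t.2.length := (minusL_sublist _ _).length_le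
  have hmin2 : t.2.length ≤ (minusL t.2 sp.1).length + 1 := by
    have h1 : (minusL t.2 sp.1).toFinset.card = (minusL t.2 sp.1).length :=
      List.toFinset_card_of_nodup (ht.nodup2.sublist (minusL_sublist _ _))
    have h2 : t.2.toFinset.card = t.2.length := List.toFinset_card_of_nodup ht.nodup2
    rw [minusL_toFinset] at h1
    have h3 := Finset.le_card_sdiff sp.1.toFinset t.2.toFinset
    have h4 := List.toFinset_card_le sp.1
    have h5 := hs.lenW
    omega
  have hlt1 : (ch1 t sp).2.length < (ch1 t sp).1.length := by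
    have := hs.lean1.card_lt (by
      obtain ⟨c, hc⟩ := List.exists_mem_of_ne_nil _ hs.ne1
      exact ⟨c, List.mem_toFinset.2 hc⟩)
    rwa [List.toFinset_card_of_nodup hn11, List.toFinset_card_of_nodup hn12] at this
  have hlt2 : (ch2 t sp).2.length < (ch2 t sp).1.length := by
    have := hs.lean2.card_lt (by
      obtain ⟨c, hc⟩ := List.exists_mem_of_ne_nil _ hs.ne2
      exact ⟨c, List.mem_toFinset.2 hc⟩)
    rwa [List.toFinset_card_of_nodup hn21, List.toFinset_card_of_nodup hn22] at this
  refine ⟨⟨hn11, hn12, hs.ne1, hs.lean1, ?_⟩, ⟨hn21, hn22, hs.ne2, hs.lean2, ?_⟩, ?_, ?_, hsum1, ?_⟩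
  all_goals omega

end Pool.Agent.MP_925109_lc
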