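import Mathlib
import Pool.Agent.MP_925109_lc.PatsSpec
import Pool.Agent.MP_925109_lc.SplitSpec
import Pool.Agent.MP_925109_lc.Cross
import Pool.Agent.MP_925109_lc.Reduce
import Pool.Agent.MP_925109_lc.Sound

/-!
Correctness of the truth test for bounded maximal deficiency, and of the recognition of minimal
false formulas.
-/

set_option autoImplicit false

namespace Pool.Agent.MP_925109_lc

lemma fam_closed {q : List Bool} {φ : List (List Lit)} (hcl : ∀ c ∈ φ, ∀ l ∈ c, l.1 < q.length)
    (c : ℕ) (l : Lit) (hl : l ∈ fam φ c) : l.1 < q.length := by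
  simp only [fam, List.mem_toFinset] at hl
  by_cases hc : c < φ.length
  · rw [List.getD_eq_getElem _ _ hc] at hl
    exact hcl _ (List.getElem_mem hc) l hl
  · rw [List.getD_eq_default _ _ (by omega)] at hl
    simp at hl

lemma labSatL_iff (n k : ℕ) (φ : List (List Lit)) (L : List (List Bool × ℕ)) (b : List Bool)
    (c : ℕ) : labSatL n k φ L b c = true ↔ LabSat (fam φ) k (look n L) b c := by
  simp [labSatL, LabSat, fam]

lemma exFrom_zero (q : List Bool) : exFrom q 0 = exAll q := by
  ext x
  simp [exFrom, exAll]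

lemma vr_vr {F : Fam} {V G B : Finset ℕ} (h : B ⊆ G) : vr F (vr F V G) B = vr F V B := by
  ext x
  simp only [mem_vr]
  constructor
  · rintro ⟨⟨h1, _⟩, h2⟩
    exact ⟨h1, h2⟩
  · rintro ⟨h1, c, hc, h2⟩
    exact ⟨⟨h1, c, h hc, h2⟩, c, hc, h2⟩

lemma crit_of_lean {F : Fam} {V G : Finset ℕ} (h : IsLean F (vr F V G) G) : Crit F V G := by
  intro B hB
  have h1 := h.crit B hB
  unfold df at h1 ⊢
  rw [vr_vr hB.1, vr_vr subset_rfl] at h1
  exact h1

/-- soundness of the truth test -/
theorem truthL_sound {k : ℕ} {q : List Bool} {φ : List (List Lit)} {E : List ℕ}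
    (hcl : ∀ c ∈ φ, ∀ l ∈ c, l.1 < q.length) (h : truthL k q φ E = true) :
    TruthF q (fam φ) (leanL k φ E (exL q)).toFinset := by
  unfold truthL at h
  rw [List.any_eq_true] at h
  obtain ⟨L, hL, hp⟩ := h
  rw [decide_eq_true_eq] at hp
  obtain ⟨α, S, hR⟩ := pats_sound q.length k φ L (tris k φ (rootL k q φ E))
    (fun z hz => ((mem_tris _ _ _ _).1 hz).1) _ (fun p hp => patU_subset _ _ p hp) _ _ _ hp
  refine sol_sound q (fam φ) _ (vsL φ (exL q) (leanL k φ E (exL q))).toFinset k
    (look q.length L) α (fun c _ l hl => fam_closed hcl c l hl) ?_ ?_ hR.agree ?_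
  · rw [vsL_toFinset, exL_toFinset]
    exact vr_subset _ _ _
  · intro s hs
    rcases look_mem q.length (prefs k) (q.length :: univL q) L hL s with h1 | h1
    · omega
    · rcases List.mem_cons.1 h1 with h2 | h2
      · omega
      · exact ((mem_univL q _).1 h2).2
  · intro b hb c hc
    rcases hR.cover b hb c (List.mem_toFinset.1 hc) with h1 | ⟨z, hz, rfl, rfl⟩
    · exact Or.inr ((labSatL_iff _ _ _ _ _ _).1 h1)
    · obtain ⟨_, _, h3, h4⟩ := (mem_tris _ _ _ _).1 (hR.sub z hz)
      refine Or.inl ⟨z.2.2.1, List.mem_toFinset.2 h4, ?_⟩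
      rw [hR.tru z hz h4]
      simpa [fam] using h3

section complete

variable {k : ℕ} {q : List Bool} {φ : List (List Lit)}

/-- the reason for the satisfaction of a clause that is not matched -/
noncomputable def reason (F : Fam) (V : Finset ℕ) (α : ℕ → Bool) (c : ℕ) : Lit :=
  open Classical in
  if h : ∃ x ∈ V, (x, α x) ∈ F c then (h.choose, α h.choose) else (0, false)

lemma reason_spec {F : Fam} {V : Finset ℕ} {α : ℕ → Bool} {c : ℕ}
    (h : ∃ x ∈ V, (x, α x) ∈ F c) :
    (reason F V α c).1 ∈ V ∧ reason F V α c ∈ F c ∧ α (reason F V α c).1 = (reason F V α c).2 := by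
  unfold reason
  rw [dif_pos h]
  exact ⟨h.choose_spec.1, h.choose_spec.2, rfl⟩

/-- triples of one world -/
noncomputable def solW (F : Fam) (G V : Finset ℕ) (M : ℕ → ℕ) (α : ℕ → Bool) (b : List Bool) :
    Finset Tri :=
  open Classical in
  V.image (fun x => (b, M x, (x, α x))) ∪
    ((G \ V.image M).filter (fun c => ∃ x ∈ V, (x, α x) ∈ F c)).image
      (fun c => (b, c, reason F V α c))

lemma solW_cross (F : Fam) (G V : Finset ℕ) (M : ℕ → ℕ) (α : ℕ → Bool) (b : List Bool)
    (hM : Set.InjOn M V) (hG : ∀ x ∈ V, M x ∈ G) (t : Nd) :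
    ((solW F G V M α b).filter (fun z => cross t z = true)).card ≤
      inN M t.1.toFinset t.2.toFinset + outN M V t.1.toFinset t.2.toFinset + (G.card - V.card) := by
  classical
  have h1 : (solW F G V M α b).filter (fun z => cross t z = true) ⊆
      ((t.2.toFinset.filter (fun x => M x ∉ t.1.toFinset)) ∪
        ((V \ t.2.toFinset).filter (fun x => M x ∈ t.1.toFinset))).image
          (fun x => (b, M x, (x, α x))) ∪
      (G \ V.image M).image (fun c => (b, c, reason F V α c)) := by
    intro z hz
    rw [Finset.mem_filter] at hz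
    obtain ⟨hz, hcr⟩ := hz
    unfold solW at hz
    rw [Finset.mem_union] at hz ⊢
    rcases hz with hz | hz
    · left
      rw [Finset.mem_image] at hz ⊢
      obtain ⟨x, hx, rfl⟩ := hz
      refine ⟨x, ?_, rfl⟩
      simp only [cross] at hcr
      simp only [Finset.mem_union, Finset.mem_filter, Finset.mem_sdiff, List.mem_toFinset]
      by_cases h2 : x ∈ t.2 <;> by_cases h3 : M x ∈ t.1 <;> simp_all
    · right
      rw [Finset.mem_image] at hz ⊢
      obtain ⟨c, hc, rfl⟩ := hz
      exact ⟨c, (Finset.mem_filter.1 hc).1, rfl⟩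
  refine (Finset.card_le_card h1).trans ((Finset.card_union_le _ _).trans ?_)
  refine add_le_add ?_ ?_
  · refine Finset.card_image_le.trans ((Finset.card_union_le _ _).trans ?_)
    unfold inN outN
    exact le_refl _
  · refine Finset.card_image_le.trans ?_
    rw [Finset.card_sdiff_of_subset (fun c hc => by
      obtain ⟨x, hx, rfl⟩ := Finset.mem_image.1 hc
      exact hG x hx), Finset.card_image_of_injOn hM]

/-- completeness of the truth test -/
theorem truthL_complete {E : List ℕ} (hcl : ∀ c ∈ φ, ∀ l ∈ c, l.1 < q.length)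
    (hGn : (leanL k φ E (exL q)).Nodup)
    (hν : NuLe (fam φ) (exAll q) (leanL k φ E (exL q)).toFinset k)
    (hlean : IsLean (fam φ) (vr (fam φ) (exAll q) (leanL k φ E (exL q)).toFinset)
      (leanL k φ E (exL q)).toFinset)
    (h : TruthF q (fam φ) (leanL k φ E (exL q)).toFinset) :
    truthL k q φ E = true := by
  classical
  unfold truthL
  rw [List.any_eq_true]
  have hroot : rootL k q φ E = (leanL k φ E (exL q), vsL φ (exL q) (leanL k φ E (exL q))) := rfl
  rw [hroot]
  generalize hG : leanL k φ E (exL q) = G at *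
  by_cases hGe : G = []
  · subst hGe
    refine ⟨_, map_mem_maps (prefs k) (q.length :: univL q) (fun _ => q.length)
      (fun _ _ => List.mem_cons_self), ?_⟩
    rw [decide_eq_true_eq]
    have e : vsL φ (exL q) [] = [] := by simp [vsL]
    rw [e]
    have h1 : ([] : Pat) ∈ patU (pbound k) (tris k φ (([], []) : Nd)) := by
      have := filter_mem_patU (pbound k) (tris k φ (([], []) : Nd)) (fun _ => false) (by simp)
      simpa using this
    simp only [pats, trec, isLeaf, List.length_nil, zero_add]
    simp only [Nat.zero_le, decide_true, cond_true, List.mem_filter]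
    exact ⟨h1, by simp [leafOK]⟩
  -- the nonempty case
  set F := fam φ with hF
  set n := q.length with hn
  have hGf : G.toFinset.Nonempty := by
    obtain ⟨a, ha⟩ := List.exists_mem_of_ne_nil G hGe
    exact ⟨a, by simpa using ha⟩
  set V := vr F (exAll q) G.toFinset with hV
  have hVl : (vsL φ (exL q) G).toFinset = V := by
    rw [vsL_toFinset, exL_toFinset]
  have hVn : (vsL φ (exL q) G).Nodup := (exL_nodup q).filter _
  have hVx : ∀ x, x ∈ vsL φ (exL q) G ↔ x ∈ V := by
    intro x
    rw [← hVl, List.mem_toFinset]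
  have hGlen : G.toFinset.card = G.length := List.toFinset_card_of_nodup hGn
  have hVlen : V.card = (vsL φ (exL q) G).length := by
    rw [← hVl, List.toFinset_card_of_nodup hVn]
  have hlt : V.card < G.toFinset.card := hlean.card_lt hGf
  obtain ⟨j, hj⟩ : ∃ j, G.toFinset.card = V.card + j := ⟨G.toFinset.card - V.card, by omega⟩
  have hj1 : 1 ≤ j := by omega
  have hdf : df F (exAll q) G.toFinset = j := by
    unfold df
    rw [← hV]
    push_cast [hj]
    ring
  have hjk : j ≤ k := by
    have := hν G.toFinset subset_rfl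
    rw [hdf] at this
    exact_mod_cast this
  -- the certificate
  have hwin := (truthF_iff_win q F G.toFinset (fun c _ l hl => fam_closed hcl c l hl)).1 h
  obtain ⟨lab₀, M₀, α₀, hC₀⟩ := cert_complete q F n 0 (by simp [hn]) G.toFinset j
    (by rw [exFrom_zero]; exact crit_of_lean hlean) (by rw [exFrom_zero]; exact hdf) hwin
  rw [exFrom_zero, ← hV] at hC₀
  have hC := hC₀.pad hjk
  generalize hlab : (fun s : List Bool => if s.length < j then lab₀ s else q.length) = lab at hC
  generalize hM : (fun b : List Bool => M₀ (b.take j)) = M at hC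
  generalize hα : (fun b : List Bool => α₀ (b.take j)) = α at hC
  clear hlab hM hα hC₀
  -- labels
  let g : List Bool → ℕ := fun s => if lab s < n then lab s else n
  refine ⟨(prefs k).map (fun s => (s, g s)), map_mem_maps _ _ g ?_, ?_⟩
  · intro s _
    simp only [g]
    split_ifs with h1
    · exact List.mem_cons_of_mem _ ((mem_univL q _).2 ⟨h1, hC.lab_ok s h1⟩)
    · exact List.mem_cons_self
  rw [decide_eq_true_eq]
  set L := (prefs k).map (fun s => (s, g s)) with hL
  have hlook : ∀ s : List Bool, s.length < k → look n L s = g s := by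
    intro s hs
    rw [hL, look_map, if_pos ((mem_prefs k s).2 hs)]
  set t₀ : Nd := (G, vsL φ (exL q) G) with ht₀
  set T := tris k φ t₀ with hT
  -- agreement
  have hag : Agree V k (look n L) α := by
    intro b b' hb hb' hne x hx hlt'
    have hl := (lcp_spec b b' (by rw [hb, hb']) hne).1
    rw [hlook _ (by omega)] at hlt'
    refine hC.agree b b' hb hb' hne x hx ?_
    simp only [g] at hlt'
    split_ifs at hlt' with h1
    · exact hlt'
    · omega
  -- the solution
  let S : Finset Tri := (worlds k).toFinset.biUnion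
    (fun b => solW F G.toFinset V (M b) (α b) b)
  have hSmem : ∀ z, z ∈ S ↔ z.1.length = k ∧ z ∈ solW F G.toFinset V (M z.1) (α z.1) z.1 := by
    intro z
    simp only [S, Finset.mem_biUnion, List.mem_toFinset, mem_worlds]
    constructor
    · rintro ⟨b, hb, hz⟩
      have hzb : z.1 = b := by
        unfold solW at hz
        rw [Finset.mem_union, Finset.mem_image, Finset.mem_image] at hz
        rcases hz with ⟨x, _, rfl⟩ | ⟨c, _, rfl⟩ <;> rfl
      rw [hzb]
      exact ⟨hb, hz⟩
    · rintro ⟨h1, h2⟩
      exact ⟨z.1, h1, h2⟩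
  have hScase : ∀ z ∈ S, z.1.length = k ∧ z.2.1 ∈ G ∧ z.2.2 ∈ F z.2.1 ∧ z.2.2.1 ∈ V ∧
      α z.1 z.2.2.1 = z.2.2.2 := by
    intro z hz
    obtain ⟨hb, hz⟩ := (hSmem z).1 hz
    refine ⟨hb, ?_⟩
    unfold solW at hz
    rw [Finset.mem_union, Finset.mem_image, Finset.mem_image] at hz
    rcases hz with ⟨x, hx, he⟩ | ⟨c, hc, he⟩
    · have h1 := hC.mem z.1 hb x hx
      have e1 : z.2.1 = M z.1 x := (congrArg (fun y : Tri => y.2.1) he).symm
      have e2 : z.2.2 = (x, α z.1 x) := (congrArg (fun y : Tri => y.2.2) he).symm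
      rw [e1, e2]
      exact ⟨by simpa using h1.1, h1.2, hx, rfl⟩
    · rw [Finset.mem_filter, Finset.mem_sdiff] at hc
      have h1 := reason_spec hc.2
      have e1 : z.2.1 = c := (congrArg (fun y : Tri => y.2.1) he).symm
      have e2 : z.2.2 = reason F V (α z.1) c := (congrArg (fun y : Tri => y.2.2) he).symm
      rw [e1, e2]
      exact ⟨by simpa using hc.1.1, h1.2.1, h1.1, h1.2.2⟩
  have hST : ∀ z ∈ S, z ∈ T := by
    intro z hz
    obtain ⟨h1, h2, h3, h4, _⟩ := hScase z hz
    rw [hT, mem_tris]
    exact ⟨h1, h2, by simpa [hF, fam] using h3, (hVx _).2 h4⟩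
  have hcover : ∀ b : List Bool, b.length = k → ∀ c ∈ G,
      labSatL n k φ L b c = true ∨ ∃ z ∈ S, z.1 = b ∧ z.2.1 = c := by
    intro b hb c hc
    by_cases hcM : ∃ x ∈ V, M b x = c
    · obtain ⟨x, hx, rfl⟩ := hcM
      refine Or.inr ⟨(b, M b x, (x, α b x)), (hSmem _).2 ⟨hb, ?_⟩, rfl, rfl⟩
      unfold solW
      exact Finset.mem_union_left _ (Finset.mem_image.2 ⟨x, hx, rfl⟩)
    · rcases hC.exc b hb c (by simpa using hc) with h1 | h1
      · refine Or.inr ⟨(b, c, reason F V (α b) c), (hSmem _).2 ⟨hb, ?_⟩, rfl, rfl⟩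
        unfold solW
        refine Finset.mem_union_right _ (Finset.mem_image.2 ⟨c, ?_, rfl⟩)
        rw [Finset.mem_filter, Finset.mem_sdiff]
        refine ⟨⟨by simpa using hc, ?_⟩, h1⟩
        intro h2
        obtain ⟨x, hx, he⟩ := Finset.mem_image.1 h2
        exact hcM ⟨x, hx, he⟩
      · left
        rw [labSatL_iff]
        obtain ⟨i, hi, h2⟩ := h1
        refine ⟨i, hi, ?_⟩
        have h3 : lab (b.take i) < n := fam_closed hcl c _ h2
        rw [hlook _ (by rw [List.length_take]; omega)]
        simp only [g, if_pos h3]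
        exact h2
  -- the invariant
  let Inv : Nd → Prop := fun t => GoodNd φ k t ∧ (∀ c ∈ t.1, c ∈ G) ∧ (∀ x ∈ t.2, x ∈ V) ∧
    ∀ b : List Bool, b.length = k →
      inN (M b) t.1.toFinset t.2.toFinset + 2 * j * t.1.length ≤ 2 * j * (j + t.2.length) ∧
      outN (M b) V t.1.toFinset t.2.toFinset + 2 * j * t.1.length ≤ 2 * j * (j + t.2.length) + j
  have hocc : ∀ b : List Bool, b.length = k → ∀ x ∈ V, occ F (M b x) x :=
    fun b hb x hx => ⟨_, (hC.mem b hb x hx).2⟩
  have hroot' : Inv t₀ := by
    refine ⟨⟨hGn, hVn, hGe, ?_, ?_⟩, fun c hc => hc, fun x hx => (hVx x).1 hx, ?_⟩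
    · rw [ht₀]
      simp only
      rw [hVl]
      exact hlean
    · simp only [ht₀]
      rw [← hGlen, ← hVlen]
      omega
    · intro b hb
      have h1 : inN (M b) t₀.1.toFinset t₀.2.toFinset = 0 := by
        simp only [ht₀, inN, Finset.card_eq_zero, Finset.filter_eq_empty_iff, not_not]
        intro x hx
        exact (hC.mem b hb x (by rw [← hVl]; exact hx)).1
      have h2 : outN (M b) V t₀.1.toFinset t₀.2.toFinset = 0 := by
        simp only [ht₀, outN, hVl, Finset.sdiff_self, Finset.filter_empty, Finset.card_empty]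
      rw [h1, h2]
      have h3 : t₀.1.length = j + t₀.2.length := by
        simp only [ht₀]
        rw [← hGlen, ← hVlen]
        omega
      rw [h3]
      constructor <;> omega
  have hsmall : ∀ t, Inv t → (S.filter (fun z => cross t z = true)).card ≤ pbound k := by
    intro t ht
    obtain ⟨hgood, htG, htV, hcount⟩ := ht
    have h1 : S.filter (fun z => cross t z = true) ⊆ (worlds k).toFinset.biUnion
        (fun b => (solW F G.toFinset V (M b) (α b) b).filter (fun z => cross t z = true)) := by
      intro z hz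
      rw [Finset.mem_filter] at hz
      obtain ⟨h2, h3⟩ := (hSmem z).1 hz.1
      rw [Finset.mem_biUnion]
      exact ⟨z.1, by simpa [mem_worlds] using h2, Finset.mem_filter.2 ⟨h3, hz.2⟩⟩
    have hlt' : t.2.toFinset.card < t.1.toFinset.card := hgood.lean.card_lt (by
      obtain ⟨a, ha⟩ := List.exists_mem_of_ne_nil _ hgood.ne
      exact ⟨a, by simpa using ha⟩)
    rw [List.toFinset_card_of_nodup hgood.nodup1, List.toFinset_card_of_nodup hgood.nodup2] at hlt'
    refine (Finset.card_le_card h1).trans ((Finset.card_biUnion_le_card_mul _ _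
      (4 * k * k + 2 * k + 1) ?_).trans ?_)
    · intro b hb
      have hb' : b.length = k := by simpa [mem_worlds] using hb
      refine (solW_cross F G.toFinset V (M b) (α b) b (hC.inj b hb') (fun x hx =>
        (hC.mem b hb' x hx).1) t).trans ?_
      obtain ⟨h2, h3⟩ := hcount b hb'
      have h4 : 2 * j * (t.2.length + 1) ≤ 2 * j * t.1.length := Nat.mul_le_mul_left _ hlt'
      have h5 : j * j ≤ k * k := Nat.mul_le_mul hjk hjk
      have h6 : G.toFinset.card - V.card = j := by omega
      rw [h6]
      have h7 : 2 * j * (j + t.2.length) = 2 * (j * j) + 2 * j * t.2.length := by ring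
      have h8 : 2 * j * (t.2.length + 1) = 2 * j * t.2.length + 2 * j := by ring
      have h9 : 4 * k * k = 4 * (k * k) := by ring
      rw [h7] at h2 h3
      rw [h8] at h4
      rw [h9]
      omega
    · rw [worlds_card]
      exact le_refl _
  have hsplit : ∀ t, Inv t → isLeaf t = false →
      Inv (ch1 t (split k φ t)) ∧ Inv (ch2 t (split k φ t)) ∧ ∀ w ∈ (split k φ t).1, w ∈ t.2 := by
    intro t ht hleaf
    obtain ⟨hgood, htG, htV, hcount⟩ := ht
    have hs := split_spec φ k t hgood hleaf
    obtain ⟨hg1, hg2, hd1, hd2, _, _⟩ := split_card φ k t hgood hleaf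
    generalize hsp : split k φ t = sp at *
    have hsub1 : ∀ c ∈ (ch1 t sp).1, c ∈ t.1 := fun c hc => (List.mem_filter.1 hc).1
    have hsub1' : ∀ x ∈ (ch1 t sp).2, x ∈ t.2 := fun c hc =>
      ((mem_minusL _ _ _).1 (List.mem_filter.1 hc).1).1
    have hsub2 : ∀ c ∈ (ch2 t sp).1, c ∈ t.1 := fun c hc => (List.mem_filter.1 hc).1
    have hsub2' : ∀ x ∈ (ch2 t sp).2, x ∈ t.2 := fun c hc =>
      ((mem_minusL _ _ _).1 (List.mem_filter.1 hc).1).1
    have hcompl : ∀ c ∈ t.1, c ∉ (ch1 t sp).1 → c ∈ (ch2 t sp).1 := by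
      intro c hc h1
      simp only [ch1, ch2, List.mem_filter, decide_eq_true_eq] at h1 ⊢
      exact ⟨hc, fun h2 => h1 ⟨hc, h2⟩⟩
    have hcompl' : ∀ c ∈ t.1, c ∉ (ch2 t sp).1 → c ∈ (ch1 t sp).1 := by
      intro c hc h1
      simp only [ch1, ch2, List.mem_filter, decide_eq_true_eq] at h1 ⊢
      refine ⟨hc, ?_⟩
      by_contra h2
      exact h1 ⟨hc, h2⟩
    have hMG : ∀ b : List Bool, b.length = k → ∀ x ∈ V, M b x ∈ G.toFinset :=
      fun b hb x hx => (hC.mem b hb x hx).1
    -- a part whose variables are private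
    have hpriv : ∀ (t' : Nd), GoodNd φ k t' → (∀ c ∈ t'.1, c ∈ t.1) → (∀ x ∈ t'.2, x ∈ t.2) →
        t'.1.length + t.2.length ≤ t.1.length + t'.2.length →
        (∀ c ∈ t.1, c ∉ t'.1 → ∀ x ∈ t'.2, ¬ occ F c x) → Inv t' := by
      intro t' hg' hs1 hs2 hd' hp'
      refine ⟨hg', fun c hc => htG c (hs1 c hc), fun x hx => htV x (hs2 x hx), ?_⟩
      intro b hb
      obtain ⟨h2, h3⟩ := hcount b hb
      have h4 : inN (M b) t'.1.toFinset t'.2.toFinset ≤ inN (M b) t.1.toFinset t.2.toFinset := by
        refine inN_private (F := F) (VG := V) (hocc b hb) ?_ ?_ ?_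
        · intro x hx
          exact htV x (by simpa using hx)
        · intro x hx
          simpa using hs2 x (by simpa using hx)
        · intro c hc hc' x hx
          exact hp' c (by simpa using hc) (by simpa using hc') x (by simpa using hx)
      have h5 := outN_add_le (E := t'.1.toFinset) (hC.inj b hb) (V := t'.2.toFinset)
        (fun x hx => htV x (hs2 x (by simpa using hx)))
      rw [List.toFinset_card_of_nodup hg'.nodup1, List.toFinset_card_of_nodup hg'.nodup2] at h5
      have h6 : 2 * j * (t'.1.length + t.2.length) ≤ 2 * j * (t.1.length + t'.2.length) :=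
        Nat.mul_le_mul_left _ hd'
      simp only [Nat.mul_add] at h2 h3 h6 ⊢
      have h7 : inN (M b) t'.1.toFinset t'.2.toFinset + 2 * j * t'.1.length ≤
          2 * j * j + 2 * j * t'.2.length := by omega
      refine ⟨h7, ?_⟩
      have h8 : t'.1.length ≤ j + t'.2.length := by
        by_contra hcon
        push Not at hcon
        have h9 : 2 * j * (j + t'.2.length + 1) ≤ 2 * j * t'.1.length :=
          Nat.mul_le_mul_left _ hcon
        simp only [Nat.mul_add] at h9
        omega
      omega
    refine ⟨?_, ?_, hs.subW⟩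
    · rcases hs.type1 with h1 | h1
      · exact hpriv _ hg1 hsub1 hsub1' hd1 (fun c hc hc' x hx => h1 c (hcompl c hc hc') x hx)
      · refine ⟨hg1, fun c hc => htG c (hsub1 c hc), fun x hx => htV x (hsub1' x hx), ?_⟩
        intro b hb
        obtain ⟨h2, h3⟩ := hcount b hb
        obtain ⟨w, hw⟩ : ∃ w, ∀ y ∈ sp.1, y = w := by
          have := hs.lenW
          rcases hsp1 : sp.1 with _ | ⟨a, l⟩
          · exact ⟨0, by simp⟩
          · rw [hsp1] at this
            have hl : l = [] := by
              rw [← List.length_eq_zero_iff]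
              simp only [List.length_cons] at this
              omega
            exact ⟨a, by simp [hl]⟩
        have h4 : outN (M b) V (ch1 t sp).1.toFinset (ch1 t sp).2.toFinset ≤
            outN (M b) V t.1.toFinset t.2.toFinset + 1 := by
          refine outN_closed (F := F) w (hocc b hb) ?_ ?_
          · intro c hc
            simpa using hsub1 c (by simpa using hc)
          · intro c hc x hx hcx
            rcases hs.closed1 c (by simpa using hc) x (by simpa using hx) hcx with h5 | h5
            · exact Or.inl (by simpa using h5)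
            · exact Or.inr (hw x h5)
        have h5 := inN_add_le (E := (ch1 t sp).1.toFinset) (hC.inj b hb) (hMG b hb)
          (V := (ch1 t sp).2.toFinset) (fun c hc => by
            simpa using htG c (hsub1 c (by simpa using hc)))
          (fun x hx => htV x (hsub1' x (by simpa using hx)))
        have hlt' : (ch1 t sp).2.toFinset.card < (ch1 t sp).1.toFinset.card :=
          hg1.lean.card_lt (by
            obtain ⟨a, ha⟩ := List.exists_mem_of_ne_nil _ hg1.ne
            exact ⟨a, by simpa using ha⟩)
        rw [List.toFinset_card_of_nodup hg1.nodup1, List.toFinset_card_of_nodup hg1.nodup2] at h5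
        rw [List.toFinset_card_of_nodup hg1.nodup1, List.toFinset_card_of_nodup hg1.nodup2] at hlt'
        have h6 : 2 * j * ((ch1 t sp).1.length + t.2.length + 1) ≤
            2 * j * (t.1.length + (ch1 t sp).2.length) := Nat.mul_le_mul_left _ h1
        simp only [Nat.mul_add, Nat.mul_one] at h2 h3 h6 ⊢
        constructor
        · omega
        · omega
    · exact hpriv _ hg2 hsub2 hsub2' hd2 (fun c hc hc' x hx =>
        hs.private2 c (hcompl' c hc hc') x hx)
  -- conclusion
  have hfin := pats_complete n k φ L T (fun z hz => ((mem_tris _ _ _ _).1 hz).1) (pbound k) V α S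
    hag hST (fun z hz => (hScase z hz).2.2.2.2) Inv
    (fun t ht b hb c hc => hcover b hb c (ht.2.1 c hc)) (fun t ht => ht.2.2.1)
    (fun t ht => ht.1.ne) hsmall hsplit (t₀.1.length + t₀.2.length + 1) t₀ hroot' (by omega)
  have hnil : T.filter (fun z => decide (z ∈ S) && cross t₀ z) = [] := by
    rw [List.filter_eq_nil_iff]
    intro z hz
    obtain ⟨_, h2, _, h4⟩ := (mem_tris _ _ _ _).1 hz
    simp [cross, h2, h4]
  rw [hnil] at hfin
  exact hfin

end complete

theorem truthL_spec (k : ℕ) (q : List Bool) (φ : List (List Lit)) (E : List ℕ) (hE : E.Nodup)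
    (hcl : ∀ c ∈ φ, ∀ l ∈ c, l.1 < q.length)
    (hν : NuLe (fam φ) (exAll q) E.toFinset k) :
    truthL k q φ E = true ↔ TruthF q (fam φ) E.toFinset := by
  have hK := leanL_spec k φ E (exL q) hE (exL_nodup q) (by rw [exL_toFinset]; exact hν)
  rw [exL_toFinset] at hK
  rw [truthF_reduce hK.1 hK.2.1]
  constructor
  · exact truthL_sound hcl
  · exact truthL_complete hcl (hE.sublist (leanL_sublist k φ E (exL q))) (hν.mono hK.1) hK.2.2

/-- recognition of minimal false families of deficiency `k` -/
theorem mfL_spec (k : ℕ) (q : List Bool) (φ : List (List Lit))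
    (hcl : ∀ c ∈ φ, ∀ l ∈ c, l.1 < q.length) :
    mfL k q φ = true ↔ ¬ TruthF q (fam φ) (Finset.range φ.length) ∧
      (∀ c ∈ Finset.range φ.length, TruthF q (fam φ) ((Finset.range φ.length).erase c)) ∧
      df (fam φ) (exAll q) (Finset.range φ.length) = k := by
  have hE : (List.range φ.length).Nodup := List.nodup_range
  have hR : (List.range φ.length).toFinset = Finset.range φ.length := by
    ext x; simp
  have hν := nuL_le_iff φ (List.range φ.length) (exL q) hE (exL_nodup q) k
  rw [exL_toFinset, hR] at hν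
  have hvs : (vsL φ (exL q) (List.range φ.length)).length =
      (vr (fam φ) (exAll q) (Finset.range φ.length)).card := by
    have hnd : (vsL φ (exL q) (List.range φ.length)).Nodup := (exL_nodup q).filter _
    rw [← List.toFinset_card_of_nodup hnd, ← hR, ← exL_toFinset]
    congr 1
    exact vsL_toFinset φ (exL q) (List.range φ.length)
  have hdf : φ.length = (vsL φ (exL q) (List.range φ.length)).length + k ↔
      df (fam φ) (exAll q) (Finset.range φ.length) = k := by
    rw [hvs]
    unfold df
    rw [Finset.card_range]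
    omega
  have herase : ∀ c, (minusL (List.range φ.length) [c]).toFinset =
      (Finset.range φ.length).erase c := by
    intro c
    rw [minusL_toFinset, hR]
    ext x
    simp [and_comm]
  have hminus : ∀ c, (minusL (List.range φ.length) [c]).Nodup := fun c => hE.filter _
  unfold mfL
  simp only [Bool.and_eq_true, decide_eq_true_eq, Bool.not_eq_true', List.all_eq_true,
    List.mem_range, hν, hdf]
  constructor
  · rintro ⟨⟨⟨h1, h2⟩, h3⟩, h4⟩
    refine ⟨?_, ?_, h2⟩
    · intro h5
      have := (truthL_spec k q φ _ hE hcl (by rw [hR]; exact h1)).2 (by rw [hR]; exact h5)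
      rw [h3] at this
      cases this
    · intro c hc
      have h5 := h4 c (by simpa using hc)
      have h6 := (truthL_spec k q φ _ (hminus c) hcl (by
        rw [herase]
        exact h1.mono (Finset.erase_subset _ _))).1 h5
      rwa [herase] at h6
  · rintro ⟨h1, h2, h3⟩
    have hcrit := mf_crit h1 h2
    have hnu : NuLe (fam φ) (exAll q) (Finset.range φ.length) k := by
      have := hcrit.nuLe
      rwa [h3] at this
    refine ⟨⟨⟨hnu, h3⟩, ?_⟩, ?_⟩
    · rw [Bool.eq_false_iff]
      intro h5
      have := (truthL_spec k q φ _ hE hcl (by rw [hR]; exact hnu)).1 h5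
      rw [hR] at this
      exact h1 this
    · intro c hc
      refine (truthL_spec k q φ _ (hminus c) hcl (by
        rw [herase]
        exact hnu.mono (Finset.erase_subset _ _))).2 ?_
      rw [herase]
      exact h2 c (by simpa using hc)

end Pool.Agent.MP_925109_lc
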