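import Mathlib
import Pool.Agent.MP_925109_lc.TruthSpec

/-!
From lists of clauses to formulas.
-/

set_option autoImplicit false

namespace Pool.Agent.MP_925109_lc

/-- no two entries of the list have the same set of literals -/
def Distinct (φ : List (List Lit)) : Prop := (φ.map List.toFinset).Nodup

lemma sameL_iff (c d : List Lit) : sameL c d = true ↔ c.toFinset = d.toFinset := by
  unfold sameL
  rw [Bool.and_eq_true, List.all_eq_true, List.all_eq_true]
  constructor
  · rintro ⟨h1, h2⟩
    ext l
    rw [List.mem_toFinset, List.mem_toFinset]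
    exact ⟨fun h => of_decide_eq_true (h1 l h), fun h => of_decide_eq_true (h2 l h)⟩
  · intro h
    constructor
    · intro l hl
      apply decide_eq_true
      rw [← List.mem_toFinset, ← h, List.mem_toFinset]
      exact hl
    · intro l hl
      apply decide_eq_true
      rw [← List.mem_toFinset, h, List.mem_toFinset]
      exact hl

lemma any_sameL_iff (acc : List (List Lit)) (c : List Lit) :
    acc.any (fun d => sameL c d) = true ↔ c.toFinset ∈ acc.map List.toFinset := by
  rw [List.any_eq_true, List.mem_map]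
  constructor
  · rintro ⟨d, hd, h⟩
    exact ⟨d, hd, ((sameL_iff c d).1 h).symm⟩
  · rintro ⟨d, hd, h⟩
    exact ⟨d, hd, (sameL_iff c d).2 h.symm⟩

lemma dedup_aux (φ : List (List Lit)) : ∀ acc : List (List Lit), Distinct acc →
    Distinct (φ.foldl (fun acc c => bif acc.any (fun d => sameL c d) then acc else c :: acc) acc) ∧
    (∀ C, C ∈ (φ.foldl (fun acc c => bif acc.any (fun d => sameL c d) then acc else c :: acc)
        acc).map List.toFinset ↔ C ∈ acc.map List.toFinset ∨ C ∈ φ.map List.toFinset) ∧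
    (∀ c ∈ φ.foldl (fun acc c => bif acc.any (fun d => sameL c d) then acc else c :: acc) acc,
        c ∈ acc ∨ c ∈ φ) := by
  induction φ with
  | nil =>
    intro acc h
    refine ⟨h, fun C => ?_, fun c hc => Or.inl hc⟩
    simp
  | cons a φ ih =>
    intro acc h
    rw [List.foldl_cons]
    by_cases ha : acc.any (fun d => sameL a d) = true
    · rw [ha, cond_true]
      obtain ⟨h1, h2, h3⟩ := ih acc h
      refine ⟨h1, fun C => ?_, fun c hc => ?_⟩
      · rw [h2, List.map_cons, List.mem_cons]
        constructor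
        · rintro (h4 | h4)
          · exact Or.inl h4
          · exact Or.inr (Or.inr h4)
        · rintro (h4 | h4 | h4)
          · exact Or.inl h4
          · rw [h4]
            exact Or.inl ((any_sameL_iff acc a).1 ha)
          · exact Or.inr h4
      · rcases h3 c hc with h4 | h4
        · exact Or.inl h4
        · exact Or.inr (List.mem_cons_of_mem _ h4)
    · have ha' : acc.any (fun d => sameL a d) = false := by simpa using ha
      rw [ha', cond_false]
      have hd : Distinct (a :: acc) := by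
        unfold Distinct
        rw [List.map_cons, List.nodup_cons]
        exact ⟨fun h4 => ha ((any_sameL_iff acc a).2 h4), h⟩
      obtain ⟨h1, h2, h3⟩ := ih (a :: acc) hd
      refine ⟨h1, fun C => ?_, fun c hc => ?_⟩
      · rw [h2, List.map_cons, List.map_cons, List.mem_cons, List.mem_cons]
        tauto
      · rcases h3 c hc with h4 | h4
        · rw [List.mem_cons] at h4
          rcases h4 with h4 | h4
          · rw [h4]
            exact Or.inr List.mem_cons_self
          · exact Or.inl h4
        · exact Or.inr (List.mem_cons_of_mem _ h4)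

lemma dedupS_distinct (φ : List (List Lit)) : Distinct (dedupS φ) := by
  unfold dedupS
  exact (dedup_aux φ [] (by unfold Distinct; simp)).1

lemma dedupS_toFinset (φ : List (List Lit)) :
    ((dedupS φ).map List.toFinset).toFinset = (φ.map List.toFinset).toFinset := by
  unfold dedupS
  ext C
  rw [List.mem_toFinset, List.mem_toFinset,
    (dedup_aux φ [] (by unfold Distinct; simp)).2.1 C]
  simp

lemma dedupS_subset (φ : List (List Lit)) : ∀ c ∈ dedupS φ, c ∈ φ := by
  unfold dedupS
  intro c hc
  rcases (dedup_aux φ [] (by unfold Distinct; simp)).2.2 c hc with h | h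
  · exact absurd h (List.not_mem_nil)
  · exact h

/-- the formula given by the prefix `q` and the list `φ` of clauses -/
def toQ (q : List Bool) (φ : List (List Lit)) (h : ∀ c ∈ φ, ∀ l ∈ c, l.1 < q.length) : QCNF where
  pre := q
  mat := (φ.map List.toFinset).toFinset
  closed := by
    intro C hC l hl
    simp only [List.mem_toFinset, List.mem_map] at hC
    obtain ⟨c, hc, rfl⟩ := hC
    exact h c hc l (by simpa using hl)

lemma toQ_mem_mat {q : List Bool} {φ : List (List Lit)} (h : ∀ c ∈ φ, ∀ l ∈ c, l.1 < q.length)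
    {C : Finset Lit} : C ∈ (toQ q φ h).mat ↔ ∃ c < φ.length, fam φ c = C := by
  unfold toQ fam
  simp only [List.mem_toFinset, List.mem_map]
  constructor
  · rintro ⟨a, ha, rfl⟩
    obtain ⟨n, hn, rfl⟩ := List.mem_iff_getElem.1 ha
    exact ⟨n, hn, by rw [List.getD_eq_getElem _ _ hn]⟩
  · rintro ⟨n, hn, rfl⟩
    exact ⟨φ[n], List.getElem_mem hn, by rw [List.getD_eq_getElem _ _ hn]⟩

lemma fam_injOn {φ : List (List Lit)} (hd : Distinct φ) :
    Set.InjOn (fam φ) (Finset.range φ.length : Finset ℕ) := by
  intro c hc c' hc' hcc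
  have h1 : c < φ.length := Finset.mem_range.1 hc
  have h2 : c' < φ.length := Finset.mem_range.1 hc'
  unfold fam at hcc
  rw [List.getD_eq_getElem _ _ h1, List.getD_eq_getElem _ _ h2] at hcc
  have h3 : (φ.map List.toFinset)[c]'(by rw [List.length_map]; exact h1) =
      (φ.map List.toFinset)[c']'(by rw [List.length_map]; exact h2) := by
    rw [List.getElem_map, List.getElem_map]
    exact hcc
  exact (List.Nodup.getElem_inj_iff hd).1 h3

lemma toQ_mat_eq (q : List Bool) (φ : List (List Lit)) (h : ∀ c ∈ φ, ∀ l ∈ c, l.1 < q.length) :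
    (toQ q φ h).mat = (Finset.range φ.length).image (fam φ) := by
  ext C
  rw [toQ_mem_mat, Finset.mem_image]
  simp only [Finset.mem_range]

theorem toQ_true (q : List Bool) (φ : List (List Lit)) (h : ∀ c ∈ φ, ∀ l ∈ c, l.1 < q.length) :
    (toQ q φ h).IsTrue ↔ TruthF q (fam φ) (Finset.range φ.length) := by
  unfold QCNF.IsTrue TruthF
  rw [toQ_mat_eq]
  have h1 : (fun v : List Bool => ∀ C ∈ (Finset.range φ.length).image (fam φ),
      ∃ l ∈ C, v.getD l.1 false = l.2) =
      (fun v : List Bool => ∀ c ∈ Finset.range φ.length, ∃ l ∈ fam φ c, v.getD l.1 false = l.2) := by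
    funext v
    apply propext
    constructor
    · intro h2 c hc
      exact h2 _ (Finset.mem_image_of_mem _ hc)
    · intro h2 C hC
      obtain ⟨c, hc, rfl⟩ := Finset.mem_image.1 hC
      exact h2 c hc
  rw [h1]
  rfl

lemma toQ_erase (q : List Bool) (φ : List (List Lit)) (h : ∀ c ∈ φ, ∀ l ∈ c, l.1 < q.length)
    (hd : Distinct φ) {c : ℕ} (hc : c < φ.length) :
    ((toQ q φ h).erase (fam φ c)).IsTrue ↔ TruthF q (fam φ) ((Finset.range φ.length).erase c) := by
  unfold QCNF.IsTrue TruthF QCNF.erase
  have h1 : (fun v : List Bool => ∀ C ∈ (toQ q φ h).mat.erase (fam φ c),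
      ∃ l ∈ C, v.getD l.1 false = l.2) =
      (fun v : List Bool => ∀ c' ∈ (Finset.range φ.length).erase c,
        ∃ l ∈ fam φ c', v.getD l.1 false = l.2) := by
    funext v
    apply propext
    rw [toQ_mat_eq]
    constructor
    · intro h2 c' hc'
      rw [Finset.mem_erase] at hc'
      refine h2 _ (Finset.mem_erase.2 ⟨fun h3 => hc'.1 ?_, Finset.mem_image_of_mem _ hc'.2⟩)
      exact fam_injOn hd hc'.2 (Finset.mem_range.2 hc) h3
    · intro h2 C hC
      rw [Finset.mem_erase] at hC
      obtain ⟨c', hc', rfl⟩ := Finset.mem_image.1 hC.2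
      exact h2 c' (Finset.mem_erase.2 ⟨fun h3 => hC.1 (by rw [h3]), hc'⟩)
  show qtrue q _ ↔ _
  rw [← h1]

theorem toQ_mf (q : List Bool) (φ : List (List Lit)) (h : ∀ c ∈ φ, ∀ l ∈ c, l.1 < q.length)
    (hd : Distinct φ) :
    (toQ q φ h).MinimalFalse ↔ ¬ TruthF q (fam φ) (Finset.range φ.length) ∧
      (∀ c ∈ Finset.range φ.length, TruthF q (fam φ) ((Finset.range φ.length).erase c)) := by
  unfold QCNF.MinimalFalse
  rw [toQ_true]
  refine and_congr Iff.rfl ?_
  constructor
  · intro h1 c hc
    have h2 := Finset.mem_range.1 hc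
    exact (toQ_erase q φ h hd h2).1 (h1 _ ((toQ_mem_mat h).2 ⟨c, h2, rfl⟩))
  · intro h1 C hC
    obtain ⟨c, hc, rfl⟩ := (toQ_mem_mat h).1 hC
    exact (toQ_erase q φ h hd hc).2 (h1 c (Finset.mem_range.2 hc))

lemma toQ_defOf (q : List Bool) (φ : List (List Lit)) (h : ∀ c ∈ φ, ∀ l ∈ c, l.1 < q.length)
    (hd : Distinct φ) {B : Finset ℕ} (hB : B ⊆ Finset.range φ.length) :
    (toQ q φ h).defOf (B.image (fam φ)) = df (fam φ) (exAll q) B := by
  unfold QCNF.defOf df
  rw [Finset.card_image_of_injOn ((fam_injOn hd).mono (Finset.coe_subset.2 hB))]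
  have h1 : (toQ q φ h).exVars (B.image (fam φ)) = vr (fam φ) (exAll q) B := by
    unfold QCNF.exVars
    ext x
    rw [mem_vr]
    unfold exAll occ
    simp only [Finset.mem_filter, Finset.mem_image, exists_exists_and_eq_and]
    exact ⟨fun h => ⟨⟨h.1, h.2.1⟩, h.2.2⟩, fun h => ⟨h.1.1, h.1.2, h.2⟩⟩
  rw [h1]

theorem toQ_def (q : List Bool) (φ : List (List Lit)) (h : ∀ c ∈ φ, ∀ l ∈ c, l.1 < q.length)
    (hd : Distinct φ) :
    (toQ q φ h).deficiency = df (fam φ) (exAll q) (Finset.range φ.length) := by
  unfold QCNF.deficiency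
  rw [toQ_mat_eq, toQ_defOf q φ h hd subset_rfl]

/-- maximal deficiency of the formula and of the family -/
theorem toQ_nu (q : List Bool) (φ : List (List Lit)) (h : ∀ c ∈ φ, ∀ l ∈ c, l.1 < q.length)
    (hd : Distinct φ) (k : ℕ) :
    (∀ S ⊆ (toQ q φ h).mat, (toQ q φ h).defOf S ≤ k) ↔
      NuLe (fam φ) (exAll q) (Finset.range φ.length) k := by
  constructor
  · intro h1 B hB
    rw [← toQ_defOf q φ h hd hB]
    apply h1
    rw [toQ_mat_eq]
    exact Finset.image_subset_image hB
  · intro h1 S hS
    have h2 : ((Finset.range φ.length).filter (fun c => fam φ c ∈ S)).image (fam φ) = S := by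
      ext C
      rw [Finset.mem_image]
      constructor
      · rintro ⟨c, hc, rfl⟩
        exact (Finset.mem_filter.1 hc).2
      · intro hC
        obtain ⟨c, hc, rfl⟩ := (toQ_mem_mat h).1 (hS hC)
        exact ⟨c, Finset.mem_filter.2 ⟨Finset.mem_range.2 hc, hC⟩, rfl⟩
    rw [← h2, toQ_defOf q φ h hd (Finset.filter_subset _ _)]
    exact h1 _ (Finset.filter_subset _ _)

theorem toQ_allOccur (q : List Bool) (φ : List (List Lit)) (h : ∀ c ∈ φ, ∀ l ∈ c, l.1 < q.length) :
    (toQ q φ h).AllOccur ↔ ∀ x < q.length, ∃ c < φ.length, occ (fam φ) c x := by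
  unfold QCNF.AllOccur occ
  constructor
  · intro h1 x hx
    obtain ⟨C, hC, e, he⟩ := h1 x hx
    obtain ⟨c, hc, rfl⟩ := (toQ_mem_mat h).1 hC
    exact ⟨c, hc, e, he⟩
  · intro h1 x hx
    obtain ⟨c, hc, e, he⟩ := h1 x hx
    exact ⟨fam φ c, (toQ_mem_mat h).2 ⟨c, hc, rfl⟩, e, he⟩

lemma card_ex_eq_count (q : List Bool) :
    ((Finset.range q.length).filter (fun i => q.getD i false = true)).card = q.count true := by
  rw [Finset.card_filter]
  induction q with
  | nil => simp
  | cons a q ih =>
    rw [List.length_cons, Finset.sum_range_succ']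
    simp only [List.getD_cons_succ, List.getD_cons_zero]
    rw [ih, List.count_cons]
    congr 1
    cases a <;> simp

theorem allOccur_prefixDeficiency (Φ : QCNF) (h : Φ.AllOccur) : Φ.prefixDeficiency = Φ.deficiency := by
  unfold QCNF.prefixDeficiency QCNF.deficiency QCNF.defOf
  have h1 : Φ.exVars Φ.mat =
      (Finset.range Φ.pre.length).filter (fun i => Φ.pre.getD i false = true) := by
    unfold QCNF.exVars
    apply Finset.filter_congr
    intro i hi
    exact ⟨fun h2 => h2.1, fun h2 => ⟨h2, h i (Finset.mem_range.1 hi)⟩⟩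
  rw [h1, card_ex_eq_count]

end Pool.Agent.MP_925109_lc
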