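import Mathlib
import Pool.Agent.MP_925109_lc.PTBase
import Pool.Agent.MP_925109_lc.Alg

/-!
The matching algorithm, the satisfiability test and the lean kernel are computable in polynomial
time.
-/

set_option autoImplicit false

namespace Pool.Agent.MP_925109_lc

open Pool.Agent.Lib.helper60 Function

variable {ι : Type} [DEnc ι]

/-- folding with a step that returns either the state or the new element -/
theorem PT_pick {σ : Type} [DEnc σ] {l : ι → List σ} {init : ι → σ} {c : ι × σ × σ → Bool}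
    (hl : PT l) (hi : PT init) (hc : PT c) :
    PT (fun x => (l x).foldl (fun a e => bif c (x, a, e) then e else a) (init x)) := by
  refine PT.foldl (g := fun y : ι × σ × σ => bif c y then y.2.2 else y.2.1) hl hi
    (PT.cond hc (PT.p2 PT.snd) (PT.p1 PT.snd))
    ⟨fun x => tsize (init x) + tsize (l x), hi.size.add hl.size, ?_⟩
  intro x l₁ l₂ h
  have key : ∀ (u : List σ) (s : σ), u.foldl (fun a e => bif c (x, a, e) then e else a) s = s ∨
      u.foldl (fun a e => bif c (x, a, e) then e else a) s ∈ u := by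
    intro u
    induction u with
    | nil => intro s; exact Or.inl rfl
    | cons b u ih =>
      intro s
      rw [List.foldl_cons]
      rcases ih (bif c (x, s, b) then b else s) with h1 | h1
      · cases h2 : c (x, s, b) with
        | false =>
          rw [h2] at h1
          simp only [cond_false] at h1 ⊢
          exact Or.inl h1
        | true =>
          rw [h2] at h1
          simp only [cond_true] at h1 ⊢
          rw [h1]
          exact Or.inr List.mem_cons_self
      · exact Or.inr (List.mem_cons_of_mem _ h1)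
  rcases key l₁ (init x) with h1 | h1
  · exact le_trans (le_of_eq (congrArg tsize h1)) (by beta_reduce; omega)
  · have h2 := tsize_mem_lt (l := l x) (x := l₁.foldl (fun a e => bif c (x, a, e) then e else a)
      (init x)) (by rw [← h]; exact List.mem_append_left _ h1)
    exact le_trans (le_of_lt h2) (by beta_reduce; omega)

theorem PT_occL {φ : ι → List (List Lit)} {c x : ι → ℕ} (hφ : PT φ) (hc : PT c) (hx : PT x) :
    PT (fun i => occL (φ i) (c i) (x i)) :=
  PT.any (PT.getD hφ hc (PT.const [])) (p := fun y : ι × Lit => decide (y.2.1 = x y.1))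
    (PT.neq (PT.p1 PT.snd) (hx.comp PT.fst))

theorem PT_vsL {φ : ι → List (List Lit)} {V X : ι → List ℕ} (hφ : PT φ) (hV : PT V) (hX : PT X) :
    PT (fun i => vsL (φ i) (V i) (X i)) :=
  PT.filter hV (p := fun y : ι × ℕ => (X y.1).any (fun c => occL (φ y.1) c y.2))
    (PT.any (hX.comp PT.fst) (p := fun z : (ι × ℕ) × ℕ => occL (φ z.1.1) z.2 z.1.2)
      (PT_occL (hφ.comp (PT.p1 PT.fst)) PT.snd (PT.p2 PT.fst)))

theorem PT_minusL {X R : ι → List ℕ} (hX : PT X) (hR : PT R) :
    PT (fun i => minusL (X i) (R i)) :=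
  PT.filter hX (p := fun y : ι × ℕ => decide (y.2 ∉ R y.1)) (PT_notMem PT.snd (hR.comp PT.fst))

theorem PT_best {φ : ι → List (List Lit)} {N : ι → ℕ} {s : ι → List Ent} {c : ι → ℕ} (hφ : PT φ)
    (hN : PT N) (hs : PT s) (hc : PT c) : PT (fun i => best (φ i) (N i) (s i) (c i)) := by
  have h1 : PT (fun i => (s i).filter (fun e => occL (φ i) (c i) e.1)) :=
    PT.filter hs (p := fun y : ι × Ent => occL (φ y.1) (c y.1) y.2.1)
      (PT_occL (hφ.comp PT.fst) (hc.comp PT.fst) (PT.p1 PT.snd))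
  refine (PT_pick (c := fun y : ι × Ent × Ent => decide (y.2.2.2.1 < y.2.1.2.1)) h1
    (init := fun i => (0, N i, 0)) (PT.pair (PT.const 0) (PT.pair hN (PT.const 0)))
    (PT.nlt (PT.p1 (PT.p2 (PT.p2 PT.snd))) (PT.p1 (PT.p2 (PT.p1 PT.snd))))).congr fun i => ?_
  unfold best
  congr 1
  funext a e
  by_cases h : e.2.1 < a.2.1 <;> simp [h]

theorem PT_unowned {s : ι → List Ent} {c : ι → ℕ} (hs : PT s) (hc : PT c) :
    PT (fun i => unowned (s i) (c i)) :=
  PT.all hs (p := fun y : ι × Ent => decide (y.2.2.2 ≠ c y.1 + 1))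
    (PT.dnot (PT.neq (PT.p2 (PT.p2 PT.snd)) (PT.nsucc (hc.comp PT.fst))))

theorem PT_bidders {φ : ι → List (List Lit)} {N : ι → ℕ} {E : ι → List ℕ} {s : ι → List Ent}
    (hφ : PT φ) (hN : PT N) (hE : PT E) (hs : PT s) :
    PT (fun i => bidders (φ i) (N i) (E i) (s i)) :=
  PT.filter hE (p := fun y : ι × ℕ => unowned (s y.1) y.2 &&
      decide ((best (φ y.1) (N y.1) (s y.1) y.2).2.1 < N y.1))
    (PT.band (PT_unowned (hs.comp PT.fst) PT.snd)
      (PT.nlt (PT.p1 (PT.p2 (PT_best (hφ.comp PT.fst) (hN.comp PT.fst) (hs.comp PT.fst) PT.snd)))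
        (hN.comp PT.fst)))

theorem PT_aucStep {φ : ι → List (List Lit)} {N : ι → ℕ} {E : ι → List ℕ} {s : ι → List Ent}
    (hφ : PT φ) (hN : PT N) (hE : PT E) (hs : PT s) :
    PT (fun i => aucStep (φ i) (N i) (E i) (s i)) := by
  refine (PT.listCases (l := fun i => bidders (φ i) (N i) (E i) (s i)) (f := s)
    (g := fun y : ι × ℕ × List ℕ => (s y.1).map (fun e =>
      if e.1 = (best (φ y.1) (N y.1) (s y.1) y.2.1).1 then (e.1, e.2.1 + 1, y.2.1 + 1) else e))
    (PT_bidders hφ hN hE hs) hs ?_).congr fun i => ?_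
  · refine PT.map (hs.comp PT.fst) (g := fun z : (ι × ℕ × List ℕ) × Ent =>
      if z.2.1 = (best (φ z.1.1) (N z.1.1) (s z.1.1) z.1.2.1).1 then
        (z.2.1, z.2.2.1 + 1, z.1.2.1 + 1) else z.2) ?_
    have hb : PT (fun z : (ι × ℕ × List ℕ) × Ent =>
        (best (φ z.1.1) (N z.1.1) (s z.1.1) z.1.2.1).1) :=
      PT.p1 (PT_best (hφ.comp (PT.p1 PT.fst)) (hN.comp (PT.p1 PT.fst)) (hs.comp (PT.p1 PT.fst))
        (PT.p1 (PT.p2 PT.fst)))
    exact PT.ite (PT.neq (PT.p1 PT.snd) hb)
      (PT.pair (PT.p1 PT.snd) (PT.pair (PT.nsucc (PT.p1 (PT.p2 PT.snd)))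
        (PT.nsucc (PT.p1 (PT.p2 PT.fst))))) PT.snd
  · unfold aucStep
    cases bidders (φ i) (N i) (E i) (s i) <;> rfl

/-- the entries after `i` steps of the auction -/
lemma aucStep_inv (φ : List (List Lit)) (N : ℕ) (E V : List ℕ) (i : ℕ) :
    ((aucStep φ N E)^[i] (V.map (fun x => (x, 0, 0)))).length = V.length ∧
    ∀ e ∈ (aucStep φ N E)^[i] (V.map (fun x => (x, 0, 0))),
      e.1 ∈ V ∧ e.2.1 ≤ i ∧ (e.2.2 = 0 ∨ ∃ c ∈ E, e.2.2 = c + 1) := by
  induction i with
  | zero =>
    refine ⟨by simp, ?_⟩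
    intro e he
    rw [iterate_zero_apply, List.mem_map] at he
    obtain ⟨x, hx, rfl⟩ := he
    exact ⟨hx, le_rfl, Or.inl rfl⟩
  | succ i ih =>
    rw [iterate_succ_apply']
    obtain ⟨h1, h2⟩ := ih
    generalize (aucStep φ N E)^[i] (V.map (fun x => (x, 0, 0))) = s at h1 h2
    unfold aucStep
    cases hb : bidders φ N E s with
    | nil => exact ⟨h1, fun e he => ⟨(h2 e he).1, (h2 e he).2.1.trans (Nat.le_succ i), (h2 e he).2.2⟩⟩
    | cons c l =>
      refine ⟨by simpa using h1, ?_⟩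
      intro e he
      obtain ⟨e', he', rfl⟩ := List.mem_map.1 he
      obtain ⟨h3, h4, h5⟩ := h2 e' he'
      have hc : c ∈ E := by
        have : c ∈ bidders φ N E s := by rw [hb]; exact List.mem_cons_self
        exact List.mem_of_mem_filter this
      split_ifs with h6
      · exact ⟨h3, Nat.succ_le_succ h4, Or.inr ⟨c, hc, rfl⟩⟩
      · exact ⟨h3, h4.trans (Nat.le_succ i), h5⟩

theorem PT_auc {φ : ι → List (List Lit)} {E V : ι → List ℕ} (hφ : PT φ) (hE : PT E) (hV : PT V) :
    PT (fun i => auc (φ i) (E i) (V i)) := by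
  have hcount : PT (fun i => (V i).length * ((V i).length + 1) + 1) :=
    PT.nsucc (PT.nmul (PT.length hV) (PT.nsucc (PT.length hV)))
  have hinit : PT (fun i => (V i).map (fun x => ((x, 0, 0) : Ent))) :=
    PT.map hV (g := fun y : ι × ℕ => ((y.2, 0, 0) : Ent))
      (PT.pair PT.snd (PT.const ((0, 0) : ℕ × ℕ)))
  refine PT_iter (count := fun i => (V i).length * ((V i).length + 1) + 1)
    (g := fun y : ι × List Ent => aucStep (φ y.1) ((V y.1).length + 1) (E y.1) y.2)
    hcount hinit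
    (PT_aucStep (hφ.comp PT.fst) (PT.nsucc (PT.length (hV.comp PT.fst))) (hE.comp PT.fst) PT.snd)
    ⟨fun x => tsize (V x) * ((tsize (V x) +
      (tsize ((V x).length * ((V x).length + 1) + 1) + (tsize (E x) + 2) + 1) + 1) + 1) + 1,
      (hV.size.mul (((hV.size.add ((hcount.size.add (hE.size.add (PB.const 2))).add
        (PB.const 1))).add (PB.const 1)).add (PB.const 1))).add (PB.const 1), ?_⟩
  intro x i hi
  obtain ⟨h1, h2⟩ := aucStep_inv (φ x) ((V x).length + 1) (E x) (V x) i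
  have h3 : ∀ e ∈ (aucStep (φ x) ((V x).length + 1) (E x))^[i] ((V x).map (fun x => (x, 0, 0))),
      tsize e ≤ tsize (V x) +
      (tsize ((V x).length * ((V x).length + 1) + 1) + (tsize (E x) + 2) + 1) + 1 := by
    intro e he
    obtain ⟨h3, h4, h5⟩ := h2 e he
    obtain ⟨a, b, c⟩ := e
    simp only at h3 h4 h5
    have h6 := tsize_mem_lt h3
    have h7 : tsize c ≤ tsize (E x) + 2 := by
      rcases h5 with h5 | ⟨d, hd, h5⟩
      · subst h5
        simp
      · subst h5
        have h8 := tsize_mem_lt hd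
        simp only [tsize_nat] at h8 ⊢
        omega
    simp only [tsize_pair]
    have h9 : tsize b ≤ tsize ((V x).length * ((V x).length + 1) + 1) := by
      simp only [tsize_nat]
      have : i ≤ (V x).length * ((V x).length + 1) + 1 := hi
      omega
    omega
  have h4 := tsize_le_of_forall h3
  rw [h1] at h4
  have h5 : (V x).length ≤ tsize (V x) := (length_lt_tsize (V x)).le
  refine h4.trans ?_
  exact Nat.succ_le_succ (Nat.mul_le_mul_right _ h5)

theorem PT_unm {φ : ι → List (List Lit)} {E V : ι → List ℕ} (hφ : PT φ) (hE : PT E) (hV : PT V) :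
    PT (fun i => unm (φ i) (E i) (V i)) :=
  PT.filter hE (p := fun y : ι × ℕ => unowned (auc (φ y.1) (E y.1) (V y.1)) y.2)
    (PT_unowned ((PT_auc hφ hE hV).comp PT.fst) PT.snd)

theorem PT_nuL {φ : ι → List (List Lit)} {E V : ι → List ℕ} (hφ : PT φ) (hE : PT E) (hV : PT V) :
    PT (fun i => nuL (φ i) (E i) (V i)) :=
  PT.length (PT_unm hφ hE hV)

theorem PT_cloStep {φ : ι → List (List Lit)} {E Z : ι → List ℕ} {s : ι → List Ent}
    (hφ : PT φ) (hE : PT E) (hs : PT s) (hZ : PT Z) :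
    PT (fun i => cloStep (φ i) (E i) (s i) (Z i)) := by
  refine PT.filter hE (p := fun y : ι × ℕ => decide (y.2 ∈ Z y.1) ||
    (s y.1).any (fun e => decide (e.2.2 = y.2 + 1) && (Z y.1).any (fun d => occL (φ y.1) d e.1)))
    (PT.bor (PT_mem PT.snd (hZ.comp PT.fst)) ?_)
  refine PT.any (hs.comp PT.fst) (p := fun z : (ι × ℕ) × Ent => decide (z.2.2.2 = z.1.2 + 1) &&
    (Z z.1.1).any (fun d => occL (φ z.1.1) d z.2.1))
    (PT.band (PT.neq (PT.p2 (PT.p2 PT.snd)) (PT.nsucc (PT.p2 PT.fst))) ?_)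
  exact PT.any (hZ.comp (PT.p1 PT.fst))
    (p := fun w : ((ι × ℕ) × Ent) × ℕ => occL (φ w.1.1.1) w.2 w.1.2.1)
    (PT_occL (hφ.comp (PT.p1 (PT.p1 PT.fst))) PT.snd (PT.p1 (PT.p2 PT.fst)))

theorem PT_coreL {φ : ι → List (List Lit)} {E V : ι → List ℕ} (hφ : PT φ) (hE : PT E) (hV : PT V) :
    PT (fun i => coreL (φ i) (E i) (V i)) :=
  PT_iter_sub (count := fun i => (E i).length) (bd := E)
    (g := fun y : ι × List ℕ => cloStep (φ y.1) (E y.1) (auc (φ y.1) (E y.1) (V y.1)) y.2)
    (PT.length hE) (PT_unm hφ hE hV) hE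
    (PT_cloStep (hφ.comp PT.fst) (hE.comp PT.fst) ((PT_auc hφ hE hV).comp PT.fst) PT.snd)
    (fun _ => List.filter_sublist) (fun _ _ _ => List.filter_sublist)

theorem PT_tup {β : Type} [DEnc β] (k : ℕ) {l : ι → List β} (hl : PT l) :
    PT (fun i => tup k (l i)) := by
  induction k with
  | zero => exact PT.const [[]]
  | succ k ih =>
    refine PT.cons (PT.const []) (PT.flatMap hl (g := fun y : ι × β =>
      (tup k (l y.1)).map (fun t => y.2 :: t)) ?_)
    exact PT.map (ih.comp PT.fst) (g := fun z : (ι × β) × List β => z.1.2 :: z.2)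
      (PT.cons (PT.p2 PT.fst) PT.snd)

theorem PT_litsL {V : ι → List ℕ} (hV : PT V) : PT (fun i => litsL (V i)) :=
  PT.flatMap hV (g := fun y : ι × ℕ => [(y.2, true), (y.2, false)])
    (PT.cons (PT.pair PT.snd (PT.const true)) (PT.cons (PT.pair PT.snd (PT.const false))
      (PT.const [])))

theorem PT_litNotMem {f : ι → Lit} {l : ι → List Lit} (hf : PT f) (hl : PT l) :
    PT (fun x => decide (f x ∉ l x)) := by
  refine (PT_notMem (α := ℕ × Bool) (f := f) (l := l) hf hl).congr fun x => ?_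
  by_cases h : f x ∈ l x <;> simp [h]

theorem PT_consL {a : ι → List Lit} (ha : PT a) : PT (fun i => consL (a i)) := by
  have h1 : PT (fun y : ι × Lit => ((y.2.1, !y.2.2) : Lit)) :=
    PT.pair (PT.p1 PT.snd) (PT.bnot (PT.p2 PT.snd))
  have h2 : PT (fun y : ι × Lit => a y.1) := ha.comp PT.fst
  exact PT.all ha (p := fun y : ι × Lit => decide ((y.2.1, !y.2.2) ∉ a y.1))
    (PT_litNotMem h1 h2)

theorem PT_satL (k : ℕ) {φ : ι → List (List Lit)} {E V : ι → List ℕ} (hφ : PT φ) (hE : PT E)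
    (hV : PT V) : PT (fun i => satL k (φ i) (E i) (V i)) := by
  refine PT.any (PT_tup k (PT_litsL hV)) (p := fun y : ι × List Lit => consL y.2 &&
    decide (nuL (φ y.1) ((E y.1).filter (fun c => y.2.all (fun l => decide (l ∉ (φ y.1).getD c []))))
      ((V y.1).filter (fun x => y.2.all (fun l => decide (l.1 ≠ x)))) = 0))
    (PT.band (PT_consL PT.snd) (PT.isZero (PT_nuL (hφ.comp PT.fst) ?_ ?_)))
  · refine PT.filter (hE.comp PT.fst) (p := fun z : (ι × List Lit) × ℕ =>
      z.1.2.all (fun l => decide (l ∉ (φ z.1.1).getD z.2 []))) ?_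
    have h3 : PT (fun w : ((ι × List Lit) × ℕ) × Lit => (φ w.1.1.1).getD w.1.2 []) :=
      PT.getD (hφ.comp (PT.p1 (PT.p1 PT.fst))) (PT.p2 PT.fst) (PT.const [])
    exact PT.all (PT.p2 PT.fst) (p := fun w : ((ι × List Lit) × ℕ) × Lit =>
      decide (w.2 ∉ (φ w.1.1.1).getD w.1.2 [])) (PT_litNotMem PT.snd h3)
  · refine PT.filter (hV.comp PT.fst) (p := fun z : (ι × List Lit) × ℕ =>
      z.1.2.all (fun l => decide (l.1 ≠ z.2))) ?_
    exact PT.all (PT.p2 PT.fst) (p := fun w : ((ι × List Lit) × ℕ) × Lit =>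
      decide (w.2.1 ≠ w.1.2)) (PT.dnot (PT.neq (PT.p1 PT.snd) (PT.p2 PT.fst)))

theorem PT_validL (k : ℕ) {φ : ι → List (List Lit)} {E V G : ι → List ℕ} (hφ : PT φ) (hE : PT E)
    (hV : PT V) (hG : PT G) : PT (fun i => validL k (φ i) (E i) (V i) (G i)) :=
  PT_satL k hφ (PT_minusL hE hG) (PT_minusL hV (PT_vsL hφ hV hG))

theorem PT_leanL (k : ℕ) {φ : ι → List (List Lit)} {E V : ι → List ℕ} (hφ : PT φ) (hE : PT E)
    (hV : PT V) : PT (fun i => leanL k (φ i) (E i) (V i)) := by
  have h1 : PT (fun i => (tup k (E i)).map (fun R => coreL (φ i) (minusL (E i) R) (V i))) :=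
    PT.map (PT_tup k hE) (g := fun y : ι × List ℕ => coreL (φ y.1) (minusL (E y.1) y.2) (V y.1))
      (PT_coreL (hφ.comp PT.fst) (PT_minusL (hE.comp PT.fst) PT.snd) (hV.comp PT.fst))
  have h2 : PT (fun i => ((tup k (E i)).map (fun R => coreL (φ i) (minusL (E i) R) (V i))).filter
      (fun G => validL k (φ i) (E i) (V i) G)) :=
    PT.filter h1 (p := fun y : ι × List ℕ => validL k (φ y.1) (E y.1) (V y.1) y.2)
      (PT_validL k (hφ.comp PT.fst) (hE.comp PT.fst) (hV.comp PT.fst) PT.snd)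
  refine (PT_pick (c := fun y : ι × List ℕ × List ℕ => decide (y.2.2.length < y.2.1.length)) h2
    (init := E) hE (PT.nlt (PT.length (PT.p2 PT.snd)) (PT.length (PT.p1 PT.snd)))).congr
    fun i => ?_
  unfold leanL
  congr 1
  funext a e
  by_cases h : e.length < a.length <;> simp [h]

end Pool.Agent.MP_925109_lc
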