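import Mathlib
import Pool.Agent.MP_925109_lc.PTAlg

/-!
The decomposition step is computable in polynomial time.
-/

set_option autoImplicit false

namespace Pool.Agent.MP_925109_lc

open Pool.Agent.Lib.helper60 Function

variable {ι : Type} [DEnc ι]

theorem PT_comp {φ : ι → List (List Lit)} {E V : ι → List ℕ} (hφ : PT φ) (hE : PT E) (hV : PT V) :
    PT (fun i => comp (φ i) (E i) (V i)) := by
  have hg : PT (fun y : ι × List ℕ => (E y.1).filter (fun c => decide (c ∈ y.2) ||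
      y.2.any (fun d => (V y.1).any (fun x => occL (φ y.1) c x && occL (φ y.1) d x)))) := by
    refine PT.filter (p := fun z : (ι × List ℕ) × ℕ => decide (z.2 ∈ z.1.2) ||
      z.1.2.any (fun d => (V z.1.1).any
        (fun x => occL (φ z.1.1) z.2 x && occL (φ z.1.1) d x))) (hE.comp PT.fst) ?_
    refine PT.bor (PT_mem PT.snd (PT.snd.comp PT.fst)) ?_
    refine PT.any (p := fun z : ((ι × List ℕ) × ℕ) × ℕ => (V z.1.1.1).any
      (fun x => occL (φ z.1.1.1) z.1.2 x && occL (φ z.1.1.1) z.2 x)) (PT.snd.comp PT.fst) ?_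
    refine PT.any (p := fun z : (((ι × List ℕ) × ℕ) × ℕ) × ℕ =>
      occL (φ z.1.1.1.1) z.1.1.2 z.2 && occL (φ z.1.1.1.1) z.1.2 z.2)
      (hV.comp ((PT.fst.comp PT.fst).comp PT.fst)) ?_
    have h1 : PT (fun z : (((ι × List ℕ) × ℕ) × ℕ) × ℕ => φ z.1.1.1.1) :=
      hφ.comp (((PT.fst.comp PT.fst).comp PT.fst).comp PT.fst)
    exact PT.band (PT_occL h1 ((PT.snd.comp PT.fst).comp PT.fst) PT.snd)
      (PT_occL h1 (PT.snd.comp PT.fst) PT.snd)
  exact PT_iter_sub (count := fun i => (E i).length) (init := fun i => (E i).take 1) (bd := E)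
    (PT.length hE) (PT_take (PT.const 1) hE) hE hg (fun x => List.take_sublist _ _)
    (fun x s _ => List.filter_sublist)

/-- clauses without the literal `l` -/
def spF (φ : List (List Lit)) (t : Nd) (l : Lit) : List ℕ :=
  t.1.filter (fun c => decide (l ∉ φ.getD c []))

/-- component after removing the variable `v` -/
def spC (φ : List (List Lit)) (t : Nd) (v : ℕ) : List ℕ := comp φ t.1 (minusL t.2 [v])

/-- kernel after setting the literal `l` false -/
def spK (k : ℕ) (φ : List (List Lit)) (t : Nd) (l : Lit) : List ℕ :=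
  leanL k φ (spF φ t l) (minusL t.2 [l.1])

/-- splitting variables -/
def spV (φ : List (List Lit)) (t : Nd) : List ℕ :=
  t.2.filter (fun v => decide ((spC φ t v).length < t.1.length))

/-- splitting literals -/
def spL (φ : List (List Lit)) (t : Nd) : List Lit :=
  (litsL t.2).filter (fun l => decide (nuL φ (spF φ t l) (minusL t.2 [l.1]) + 1 ≤
    t.1.length - t.2.length))

/-- result for a splitting variable -/
def spV' (φ : List (List Lit)) (t : Nd) (v : ℕ) : List ℕ × List ℕ × List ℕ :=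
  ([v], spC φ t v, vsL φ (minusL t.2 [v]) (spC φ t v))

/-- result for a splitting literal -/
def spL' (k : ℕ) (φ : List (List Lit)) (t : Nd) (l : Lit) : List ℕ × List ℕ × List ℕ :=
  ([l.1], spK k φ t l, vsL φ (minusL t.2 [l.1]) (spK k φ t l))

/-- last case -/
def spEnd (k : ℕ) (φ : List (List Lit)) (t : Nd) : List ℕ × List ℕ × List ℕ :=
  match spL φ t with
  | [] => ([], t.1, t.2)
  | l :: _ => spL' k φ t l

/-- second case -/
def spMid (k : ℕ) (φ : List (List Lit)) (t : Nd) : List ℕ × List ℕ × List ℕ :=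
  match spV φ t with
  | [] => spEnd k φ t
  | v :: _ => spV' φ t v

theorem split_eq (k : ℕ) (φ : List (List Lit)) (t : Nd) : split k φ t =
    if (comp φ t.1 t.2).length < t.1.length then
      ([], comp φ t.1 t.2, vsL φ t.2 (comp φ t.1 t.2)) else spMid k φ t := by
  unfold split
  split_ifs with h
  · rfl
  · unfold spMid spV spC spV' spEnd spL spL' spK spF spC
    rcases t.2.filter (fun v => decide ((comp φ t.1 (minusL t.2 [v])).length < t.1.length)) with
      _ | ⟨v, l⟩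
    · rcases (litsL t.2).filter (fun l => decide (nuL φ
        (t.1.filter (fun c => decide (l ∉ φ.getD c []))) (minusL t.2 [l.1]) + 1 ≤
          t.1.length - t.2.length)) with _ | ⟨l, u⟩
      · rfl
      · rfl
    · rfl

section

variable {φ : ι → List (List Lit)} {t : ι → Nd}

theorem PT_spF {l : ι → Lit} (hφ : PT φ) (ht : PT t) (hl : PT l) :
    PT (fun i => spF (φ i) (t i) (l i)) :=
  PT.filter (p := fun z : ι × ℕ => decide (l z.1 ∉ (φ z.1).getD z.2 []))
    (PT.p1 ht) ((PT_notMem (hl.comp PT.fst)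
      (PT.getD (hφ.comp PT.fst) PT.snd (PT.const []))).congr fun _ => decide_eq_decide.2 Iff.rfl)

theorem PT_spC {v : ι → ℕ} (hφ : PT φ) (ht : PT t) (hv : PT v) :
    PT (fun i => spC (φ i) (t i) (v i)) :=
  PT_comp hφ (PT.p1 ht) (PT_minusL (PT.p2 ht) (PT.cons hv (PT.const [])))

theorem PT_spK (k : ℕ) {l : ι → Lit} (hφ : PT φ) (ht : PT t) (hl : PT l) :
    PT (fun i => spK k (φ i) (t i) (l i)) :=
  PT_leanL k hφ (PT_spF hφ ht hl) (PT_minusL (PT.p2 ht) (PT.cons (PT.p1 hl) (PT.const [])))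

theorem PT_spV (hφ : PT φ) (ht : PT t) : PT (fun i => spV (φ i) (t i)) :=
  PT.filter (p := fun y : ι × ℕ => decide ((spC (φ y.1) (t y.1) y.2).length < (t y.1).1.length))
    (PT.p2 ht) (PT.nlt (PT.length (PT_spC (hφ.comp PT.fst) (ht.comp PT.fst) PT.snd))
      (PT.length (PT.p1 (ht.comp PT.fst))))

theorem PT_spL (hφ : PT φ) (ht : PT t) : PT (fun i => spL (φ i) (t i)) :=
  PT.filter (p := fun y : ι × Lit => decide (nuL (φ y.1) (spF (φ y.1) (t y.1) y.2)
      (minusL (t y.1).2 [y.2.1]) + 1 ≤ (t y.1).1.length - (t y.1).2.length))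
    (PT_litsL (PT.p2 ht))
    (PT.nle (PT.nsucc (PT_nuL (hφ.comp PT.fst) (PT_spF (hφ.comp PT.fst) (ht.comp PT.fst) PT.snd)
        (PT_minusL (PT.p2 (ht.comp PT.fst)) (PT.cons (PT.p1 PT.snd) (PT.const [])))))
      (PT.nsub (PT.length (PT.p1 (ht.comp PT.fst))) (PT.length (PT.p2 (ht.comp PT.fst)))))

theorem PT_spV' {v : ι → ℕ} (hφ : PT φ) (ht : PT t) (hv : PT v) :
    PT (fun i => spV' (φ i) (t i) (v i)) :=
  PT.pair (PT.cons hv (PT.const [])) (PT.pair (PT_spC hφ ht hv)
    (PT_vsL hφ (PT_minusL (PT.p2 ht) (PT.cons hv (PT.const []))) (PT_spC hφ ht hv)))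

theorem PT_spL' (k : ℕ) {l : ι → Lit} (hφ : PT φ) (ht : PT t) (hl : PT l) :
    PT (fun i => spL' k (φ i) (t i) (l i)) :=
  PT.pair (PT.cons (PT.p1 hl) (PT.const [])) (PT.pair (PT_spK k hφ ht hl)
    (PT_vsL hφ (PT_minusL (PT.p2 ht) (PT.cons (PT.p1 hl) (PT.const []))) (PT_spK k hφ ht hl)))

theorem PT_spEnd (k : ℕ) (hφ : PT φ) (ht : PT t) : PT (fun i => spEnd k (φ i) (t i)) := by
  refine (PT.listCases (f := fun i => (([], (t i).1, (t i).2) : List ℕ × List ℕ × List ℕ))
    (g := fun z : ι × Lit × List Lit => spL' k (φ z.1) (t z.1) z.2.1) (PT_spL hφ ht)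
    (PT.pair (PT.const []) (PT.pair (PT.p1 ht) (PT.p2 ht)))
    (PT_spL' k (hφ.comp PT.fst) (ht.comp PT.fst) (PT.p1 PT.snd))).congr fun i => ?_
  unfold spEnd
  cases spL (φ i) (t i) <;> rfl

theorem PT_spMid (k : ℕ) (hφ : PT φ) (ht : PT t) : PT (fun i => spMid k (φ i) (t i)) := by
  refine (PT.listCases (f := fun i => spEnd k (φ i) (t i))
    (g := fun z : ι × ℕ × List ℕ => spV' (φ z.1) (t z.1) z.2.1) (PT_spV hφ ht)
    (PT_spEnd k hφ ht)
    (PT_spV' (hφ.comp PT.fst) (ht.comp PT.fst) (PT.p1 PT.snd))).congr fun i => ?_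
  unfold spMid
  cases spV (φ i) (t i) <;> rfl

end

theorem PT_split (k : ℕ) {φ : ι → List (List Lit)} {t : ι → Nd} (hφ : PT φ) (ht : PT t) :
    PT (fun i => split k (φ i) (t i)) := by
  have h1 : PT (fun i => (t i).1) := PT.p1 ht
  have h2 : PT (fun i => (t i).2) := PT.p2 ht
  have hc0 := PT_comp hφ h1 h2
  have hall := PT.ite (c := fun i => (comp (φ i) (t i).1 (t i).2).length < (t i).1.length)
    (PT.nlt (PT.length hc0) (PT.length h1))
    (PT.pair (PT.const ([] : List ℕ)) (PT.pair hc0 (PT_vsL hφ h2 hc0))) (PT_spMid k hφ ht)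
  refine hall.congr fun i => ?_
  rw [split_eq]

theorem PT_ch1 {t : ι → Nd} {sp : ι → List ℕ × List ℕ × List ℕ} (ht : PT t) (hsp : PT sp) :
    PT (fun i => ch1 (t i) (sp i)) := by
  have h1 : PT (fun i => (t i).1) := PT.p1 ht
  have h2 : PT (fun i => (t i).2) := PT.p2 ht
  have h3 : PT (fun i => (sp i).1) := PT.p1 hsp
  have h4 : PT (fun i => (sp i).2.1) := PT.p1 (PT.p2 hsp)
  have h5 : PT (fun i => (sp i).2.2) := PT.p2 (PT.p2 hsp)
  exact PT.pair
    (PT.filter (p := fun y : ι × ℕ => decide (y.2 ∈ (sp y.1).2.1)) h1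
      (PT_mem PT.snd (h4.comp PT.fst)))
    (PT.filter (p := fun y : ι × ℕ => decide (y.2 ∈ (sp y.1).2.2)) (PT_minusL h2 h3)
      (PT_mem PT.snd (h5.comp PT.fst)))

theorem PT_ch2 {t : ι → Nd} {sp : ι → List ℕ × List ℕ × List ℕ} (ht : PT t) (hsp : PT sp) :
    PT (fun i => ch2 (t i) (sp i)) := by
  have h1 : PT (fun i => (t i).1) := PT.p1 ht
  have h2 : PT (fun i => (t i).2) := PT.p2 ht
  have h3 : PT (fun i => (sp i).1) := PT.p1 hsp
  have h4 : PT (fun i => (sp i).2.1) := PT.p1 (PT.p2 hsp)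
  have h5 : PT (fun i => (sp i).2.2) := PT.p2 (PT.p2 hsp)
  exact PT.pair
    (PT.filter (p := fun y : ι × ℕ => decide (y.2 ∉ (sp y.1).2.1)) h1
      (PT_notMem PT.snd (h4.comp PT.fst)))
    (PT.filter (p := fun y : ι × ℕ => decide (y.2 ∉ (sp y.1).2.2)) (PT_minusL h2 h3)
      (PT_notMem PT.snd (h5.comp PT.fst)))

end Pool.Agent.MP_925109_lc
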