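import Mathlib
import Pool.Agent.MP_925109_lc.PTBase
import Pool.Agent.MP_925109_lc.Alg

/-!
Recursion over a binary tree of nodes in polynomial time.
-/

set_option autoImplicit false

namespace Pool.Agent.MP_925109_lc

open Pool.Agent.Lib.helper60 Function

section stackmachine

variable {ι σ τ : Type}

/-- one step of the stack machine evaluating the recursion: a task `(true, f, s)` asks for the value
of the node `s` with fuel `f`, a task `(false, 0, s)` combines the two topmost values -/
def tst (leaf : ι × σ → Bool) (ch : ι × σ → σ × σ) (base : ι × σ → τ) (comb : ι × σ × τ × τ → τ)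
    (z : ι → τ) (y : ι × List (Bool × ℕ × σ) × List τ) : List (Bool × ℕ × σ) × List τ :=
  match y.2.1 with
  | [] => y.2
  | t :: ts =>
    bif t.1 then
      (bif decide (t.2.1 = 0) then (ts, z y.1 :: y.2.2)
      else bif leaf (y.1, t.2.2) then (ts, base (y.1, t.2.2) :: y.2.2)
      else ((true, t.2.1 - 1, (ch (y.1, t.2.2)).1) :: (true, t.2.1 - 1, (ch (y.1, t.2.2)).2) ::
        (false, 0, t.2.2) :: ts, y.2.2))
    else (ts, comb (y.1, t.2.2, y.2.2.tail.headD (z y.1), y.2.2.headD (z y.1)) :: y.2.2.tail.tail)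

variable {leaf : ι × σ → Bool} {ch : ι × σ → σ × σ} {base : ι × σ → τ}
  {comb : ι × σ × τ × τ → τ} {z : ι → τ}

lemma tst_run (μ : σ → ℕ) (x : ι)
    (hμ : ∀ s, leaf (x, s) = false → 1 ≤ μ s ∧ μ (ch (x, s)).1 + μ (ch (x, s)).2 ≤ μ s) (f : ℕ) :
    ∀ s : σ, ∃ k, k ≤ 3 * (f * μ s) + 1 ∧ ∀ (ts : List (Bool × ℕ × σ)) (vs : List τ),
      (fun u => tst leaf ch base comb z (x, u))^[k] ((true, f, s) :: ts, vs) =
        (ts, trec (fun s => leaf (x, s)) (fun s => ch (x, s)) (fun s => base (x, s))
          (fun s a b => comb (x, s, a, b)) (z x) f s :: vs) := by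
  induction f with
  | zero => intro s; exact ⟨1, by omega, fun ts vs => rfl⟩
  | succ f ih =>
    intro s
    cases hl : leaf (x, s) with
    | true =>
      refine ⟨1, by omega, fun ts vs => ?_⟩
      simp [tst, trec, hl]
    | false =>
      obtain ⟨h1, h2⟩ := hμ s hl
      obtain ⟨k1, hk1, e1⟩ := ih (ch (x, s)).1
      obtain ⟨k2, hk2, e2⟩ := ih (ch (x, s)).2
      refine ⟨1 + k2 + k1 + 1, ?_, fun ts vs => ?_⟩
      · have h3 : f * μ (ch (x, s)).1 + f * μ (ch (x, s)).2 ≤ f * μ s := by
          rw [← Nat.mul_add]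
          exact Nat.mul_le_mul_left _ h2
        have h4 : (f + 1) * μ s = f * μ s + μ s := by ring
        omega
      · have e3 : tst leaf ch base comb z (x, (true, f + 1, s) :: ts, vs) =
            ((true, f, (ch (x, s)).1) :: (true, f, (ch (x, s)).2) :: (false, 0, s) :: ts, vs) := by
          simp [tst, hl]
        rw [iterate_succ_apply, e3, iterate_add_apply, e1, iterate_add_apply, e2, iterate_one]
        simp [tst, trec, hl]

lemma tst_idle (x : ι) (vs : List τ) (k : ℕ) :
    (fun u => tst leaf ch base comb z (x, u))^[k] (([] : List (Bool × ℕ × σ)), vs) = ([], vs) := by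
  induction k with
  | zero => rfl
  | succ k ih => rw [iterate_succ_apply]; exact ih

end stackmachine

variable {ι σ τ : Type} [DEnc ι] [DEnc σ] [DEnc τ]

lemma PT_tst {leaf : ι × σ → Bool} {ch : ι × σ → σ × σ} {base : ι × σ → τ}
    {comb : ι × σ × τ × τ → τ} {z : ι → τ}
    (hleaf : PT leaf) (hch : PT ch) (hbase : PT base) (hcomb : PT comb) (hz : PT z) :
    PT (tst leaf ch base comb z) := by
  let Y := ι × List (Bool × ℕ × σ) × List τ
  let Z := Y × (Bool × ℕ × σ) × List (Bool × ℕ × σ)
  have hx : PT (fun w : Z => w.1.1) := PT.p1 PT.fst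
  have hvs : PT (fun w : Z => w.1.2.2) := PT.p2 (PT.p2 PT.fst)
  have ht : PT (fun w : Z => w.2.1) := PT.p1 PT.snd
  have hts : PT (fun w : Z => w.2.2) := PT.p2 PT.snd
  have hzx : PT (fun w : Z => z w.1.1) := hz.comp hx
  have hf : PT (fun w : Z => w.2.1.2.1) := PT.p1 (PT.p2 ht)
  have hs : PT (fun w : Z => w.2.1.2.2) := PT.p2 (PT.p2 ht)
  have hxs : PT (fun w : Z => (w.1.1, w.2.1.2.2)) := PT.pair hx hs
  have hc : PT (fun w : Z => ch (w.1.1, w.2.1.2.2)) := hch.comp hxs
  have h1 : PT (fun w : Z => (w.2.2, z w.1.1 :: w.1.2.2)) := PT.pair hts (PT.cons hzx hvs)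
  have h2 : PT (fun w : Z => (w.2.2, base (w.1.1, w.2.1.2.2) :: w.1.2.2)) :=
    PT.pair hts (PT.cons (hbase.comp hxs) hvs)
  have h3 : PT (fun w : Z => ((true, w.2.1.2.1 - 1, (ch (w.1.1, w.2.1.2.2)).1) ::
      (true, w.2.1.2.1 - 1, (ch (w.1.1, w.2.1.2.2)).2) :: (false, 0, w.2.1.2.2) :: w.2.2,
      w.1.2.2)) :=
    PT.pair (PT.cons (PT.pair (PT.const true) (PT.pair (PT.npred hf) (PT.p1 hc)))
      (PT.cons (PT.pair (PT.const true) (PT.pair (PT.npred hf) (PT.p2 hc)))
        (PT.cons (PT.pair (PT.const false) (PT.pair (PT.const 0) hs)) hts))) hvs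
  have h4 : PT (fun w : Z => (w.2.2, comb (w.1.1, w.2.1.2.2, w.1.2.2.tail.headD (z w.1.1),
      w.1.2.2.headD (z w.1.1)) :: w.1.2.2.tail.tail)) :=
    PT.pair hts (PT.cons (hcomb.comp (PT.pair hx (PT.pair hs
      (PT.pair (PT.headD (PT.tail hvs) hzx) (PT.headD hvs hzx))))) (PT.tail (PT.tail hvs)))
  have h5 := PT.cond (PT.p1 ht) (PT.cond (PT.isZero hf) h1 (PT.cond (hleaf.comp hxs) h2 h3)) h4
  refine (PT.listCases (l := fun y : Y => y.2.1) (f := fun y : Y => y.2)
    (PT.p1 PT.snd) PT.snd h5).congr fun y => ?_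
  obtain ⟨x, l, vs⟩ := y
  cases l <;> rfl

/-- **Recursion over a binary tree.** `μ` is a weight of nodes such that the weights of the two
children of an inner node add up to at most the weight of the node. -/
theorem PT_trec {leaf : ι × σ → Bool} {ch : ι × σ → σ × σ} {base : ι × σ → τ}
    {comb : ι × σ × τ × τ → τ} {z : ι → τ} {f : ι → ℕ} {s0 : ι → σ} (μ : σ → ℕ)
    (hleaf : PT leaf) (hch : PT ch) (hbase : PT base) (hcomb : PT comb) (hz : PT z) (hf : PT f)
    (hs : PT s0)
    (hμ : ∀ x s, leaf (x, s) = false → 1 ≤ μ s ∧ μ (ch (x, s)).1 + μ (ch (x, s)).2 ≤ μ s)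
    (hμs : PB (fun x => μ (s0 x)))
    (hsz : ∀ x s, tsize (ch (x, s)).1 ≤ tsize s ∧ tsize (ch (x, s)).2 ≤ tsize s)
    (B : ι → ℕ) (hB : PB B) (hBz : ∀ x, tsize (z x) ≤ B x)
    (hBb : ∀ x s, tsize (base (x, s)) ≤ B x) (hBc : ∀ x s a b, tsize (comb (x, s, a, b)) ≤ B x) :
    PT (fun x => trec (fun s => leaf (x, s)) (fun s => ch (x, s)) (fun s => base (x, s))
      (fun s a b => comb (x, s, a, b)) (z x) (f x) (s0 x)) := by
  obtain ⟨c, hc, hcm⟩ := PB.exists_PT hμs
  have hcount : PT (fun x => 3 * (f x * c x) + 1) :=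
    PT.nsucc (PT.nmul (PT.const 3) (PT.nmul hf hc))
  have hinit : PT (fun x => ([(true, f x, s0 x)], ([] : List τ))) :=
    PT.pair (PT.cons (PT.pair (PT.const true) (PT.pair hf hs)) (PT.const [])) (PT.const [])
  -- the invariant
  have hinv : ∀ (x : ι) (i : ℕ),
      (∀ t ∈ ((fun u => tst leaf ch base comb z (x, u))^[i] ([(true, f x, s0 x)], [])).1,
        t.2.1 ≤ f x ∧ tsize t.2.2 ≤ tsize (s0 x)) ∧
      ((fun u => tst leaf ch base comb z (x, u))^[i] ([(true, f x, s0 x)], [])).1.length ≤
        1 + 2 * i ∧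
      (∀ v ∈ ((fun u => tst leaf ch base comb z (x, u))^[i] ([(true, f x, s0 x)], [])).2,
        tsize v ≤ B x) ∧
      ((fun u => tst leaf ch base comb z (x, u))^[i] ([(true, f x, s0 x)], [])).2.length ≤ i := by
    intro x i
    induction i with
    | zero => simp
    | succ i ih =>
      rw [iterate_succ_apply']
      rcases hS : (fun u => tst leaf ch base comb z (x, u))^[i] ([(true, f x, s0 x)], []) with
        ⟨l, vs⟩
      rw [hS] at ih
      obtain ⟨k1, k2, k3, k4⟩ := ih
      simp only at k1 k2 k3 k4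
      cases l with
      | nil =>
        refine ⟨by simp [tst], ?_, k3, ?_⟩
        · simp [tst]
        · show vs.length ≤ _
          omega
      | cons t ts =>
        obtain ⟨b, n, s⟩ := t
        have k0 := k1 _ List.mem_cons_self
        have kt : ∀ t ∈ ts, t.2.1 ≤ f x ∧ tsize t.2.2 ≤ tsize (s0 x) := fun t ht =>
          k1 t (List.mem_cons_of_mem _ ht)
        simp only at k0
        rw [List.length_cons] at k2
        have kcons : ∀ w : τ, tsize w ≤ B x → ∀ v ∈ w :: vs, tsize v ≤ B x := by
          intro w hw v hv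
          rcases List.mem_cons.1 hv with rfl | hv
          · exact hw
          · exact k3 v hv
        cases b with
        | false =>
          have e : tst leaf ch base comb z (x, (false, n, s) :: ts, vs) =
            (ts, comb (x, s, vs.tail.headD (z x), vs.headD (z x)) :: vs.tail.tail) := rfl
          simp only [e]
          refine ⟨kt, by omega, ?_, ?_⟩
          · intro v hv
            rcases List.mem_cons.1 hv with rfl | hv
            · exact hBc _ _ _ _
            · exact k3 v (List.mem_of_mem_tail (List.mem_of_mem_tail hv))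
          · rw [List.length_cons, List.length_tail, List.length_tail]
            omega
        | true =>
          by_cases hn : n = 0
          · subst hn
            have e : tst leaf ch base comb z (x, (true, 0, s) :: ts, vs) =
              (ts, z x :: vs) := rfl
            simp only [e]
            exact ⟨kt, by omega, kcons _ (hBz x), by rw [List.length_cons]; omega⟩
          · cases hl : leaf (x, s) with
            | true =>
              have e : tst leaf ch base comb z (x, (true, n, s) :: ts, vs) =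
                (ts, base (x, s) :: vs) := by simp [tst, hn, hl]
              simp only [e]
              exact ⟨kt, by omega, kcons _ (hBb x s), by rw [List.length_cons]; omega⟩
            | false =>
              have e : tst leaf ch base comb z (x, (true, n, s) :: ts, vs) =
                ((true, n - 1, (ch (x, s)).1) :: (true, n - 1, (ch (x, s)).2) ::
                  (false, 0, s) :: ts, vs) := by simp [tst, hn, hl]
              simp only [e]
              refine ⟨?_, ?_, k3, by omega⟩
              · intro t ht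
                simp only [List.mem_cons] at ht
                have h1 := hsz x s
                rcases ht with rfl | rfl | rfl | ht
                · exact ⟨by show n - 1 ≤ _; omega, h1.1.trans k0.2⟩
                · exact ⟨by show n - 1 ≤ _; omega, h1.2.trans k0.2⟩
                · exact ⟨Nat.zero_le _, k0.2⟩
                · exact kt t ht
              · simp only [List.length_cons]
                omega
  have h := PT_iter (count := fun x => 3 * (f x * c x) + 1)
    (init := fun x => ([(true, f x, s0 x)], ([] : List τ)))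
    (g := tst leaf ch base comb z) hcount hinit (PT_tst hleaf hch hbase hcomb hz)
    ⟨fun x => ((1 + 2 * (3 * (f x * c x) + 1)) * ((3 + (tsize (f x) + tsize (s0 x) + 1) + 1) + 1)
        + 1) + ((3 * (f x * c x) + 1) * (B x + 1) + 1) + 1, ?_, ?_⟩
  · refine (PT.headD (PT.p2 h) hz).congr fun x => ?_
    obtain ⟨k, hk, he⟩ := tst_run (leaf := leaf) (ch := ch) (base := base) (comb := comb) (z := z)
      μ x (hμ x) (f x) (s0 x)
    have hle : k ≤ 3 * (f x * c x) + 1 := by
      have := Nat.mul_le_mul_left (f x) (hcm x)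
      omega
    obtain ⟨m, hm⟩ := Nat.exists_eq_add_of_le hle
    have e : 3 * (f x * c x) + 1 = m + k := by omega
    rw [e, iterate_add_apply, he, tst_idle]
    rfl
  · have hF : PB (fun x => f x) := (hf.size).of_le fun x => by simp only [tsize_nat]; omega
    have hC : PB (fun x => c x) := (hc.size).of_le fun x => by simp only [tsize_nat]; omega
    have hN : PB (fun x => 3 * (f x * c x) + 1) :=
      ((PB.const 3).mul (hF.mul hC)).add (PB.const 1)
    exact (((((PB.const 1).add ((PB.const 2).mul hN)).mul (((((PB.const 3).add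
      ((hf.size.add hs.size).add (PB.const 1))).add (PB.const 1)).add (PB.const 1)))).add
      (PB.const 1)).add ((hN.mul (hB.add (PB.const 1))).add (PB.const 1))).add (PB.const 1)
  · intro x i hi
    obtain ⟨k1, k2, k3, k4⟩ := hinv x i
    beta_reduce
    rcases hS : (fun u => tst leaf ch base comb z (x, u))^[i] ([(true, f x, s0 x)], []) with
      ⟨l, vs⟩
    rw [hS] at k1 k2 k3 k4
    simp only at k1 k2 k3 k4
    have h1 : ∀ t ∈ l, tsize t ≤ 3 + (tsize (f x) + tsize (s0 x) + 1) + 1 := by
      intro t ht
      obtain ⟨b, n, s⟩ := t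
      have h2 := k1 _ ht
      simp only at h2
      have h3 := tsize_bool_le b
      simp only [tsize_pair, tsize_nat] at h2 ⊢
      omega
    have h2 := tsize_le_of_forall h1
    have h3 := tsize_le_of_forall k3
    have h4 : l.length * ((3 + (tsize (f x) + tsize (s0 x) + 1) + 1) + 1) ≤
        (1 + 2 * (3 * (f x * c x) + 1)) * ((3 + (tsize (f x) + tsize (s0 x) + 1) + 1) + 1) :=
      Nat.mul_le_mul_right _ (by omega)
    have h5 : vs.length * (B x + 1) ≤ (3 * (f x * c x) + 1) * (B x + 1) :=
      Nat.mul_le_mul_right _ (by omega)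
    rw [tsize_pair]
    omega

end Pool.Agent.MP_925109_lc
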