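import Mathlib
import Pool.Agent.MP_925109_lc.PTSplit
import Pool.Agent.MP_925109_lc.PTTree

/-!
Patterns are computable in polynomial time.
-/

set_option autoImplicit false

namespace Pool.Agent.MP_925109_lc

open Pool.Agent.Lib.helper60 Function

variable {ι : Type} [DEnc ι]

theorem PT_maps {α β : Type} [DEnc α] [DEnc β] (as : List α) {U : ι → List β} (hU : PT U) :
    PT (fun i => maps as (U i)) := by
  induction as with
  | nil => exact PT.const _
  | cons a as ih =>
    exact PT.flatMap hU (g := fun y : ι × β => (maps as (U y.1)).map (fun L => (a, y.2) :: L))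
      (PT.map (ih.comp PT.fst) (g := fun w : (ι × β) × List (α × β) => (a, w.1.2) :: w.2)
        (PT.cons (PT.pair (PT.const a) (PT.p2 PT.fst)) PT.snd))

theorem PT_look {β : Type} [DEnc β] {d : ι → β} {L : ι → List (List Bool × β)} {s : ι → List Bool}
    (hd : PT d) (hL : PT L) (hs : PT s) : PT (fun i => look (d i) (L i) (s i)) := by
  have h1 : PT (fun i => (L i).filter (fun p => decide (p.1 = s i))) :=
    PT.filter hL (p := fun y : ι × List Bool × β => decide (y.2.1 = s y.1))
      (PT_deq (PT.p1 PT.snd) (hs.comp PT.fst))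
  exact PT.headD (PT.map h1 (g := fun y : ι × List Bool × β => y.2.2) (PT.p2 PT.snd)) hd

theorem PT_cross {t : ι → Nd} {z : ι → Tri} (ht : PT t) (hz : PT z) :
    PT (fun i => cross (t i) (z i)) := by
  have h1 : PT (fun i => decide ((z i).2.1 ∈ (t i).1)) := PT_memI (PT.p1 (PT.p2 hz)) (PT.p1 ht)
  have h2 : PT (fun i => decide ((z i).2.2.1 ∈ (t i).2)) :=
    PT_memI (PT.p1 (PT.p2 (PT.p2 hz))) (PT.p2 ht)
  refine (PT.cond h1 (PT.bnot h2) h2).congr fun i => ?_
  unfold cross
  cases decide ((z i).2.1 ∈ (t i).1) <;> simp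

/-- computing the longest common beginning -/
def lcpStep (s : Bool × List Bool × List Bool) (x : Bool) : Bool × List Bool × List Bool :=
  bif s.1 && (!s.2.2.isEmpty && decide (x = s.2.2.headD false)) then
    (true, x :: s.2.1, s.2.2.tail) else (false, s.2)

lemma lcp_false (a : List Bool) : ∀ s, a.foldl lcpStep (false, s) = (false, s) := by
  induction a with
  | nil => intro s; rfl
  | cons x a ih => intro s; simpa [lcpStep] using ih s

lemma lcp_run (a : List Bool) : ∀ acc b, (a.foldl lcpStep (true, acc, b)).2.1 =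
    (lcp a b).reverse ++ acc := by
  induction a with
  | nil => intro acc b; simp [lcp]
  | cons x a ih =>
    intro acc b
    cases b with
    | nil =>
      have h : (x :: a).foldl lcpStep (true, acc, []) = a.foldl lcpStep (false, acc, []) := rfl
      rw [h, lcp_false]
      simp [lcp]
    | cons y b =>
      by_cases hxy : x = y
      · subst hxy
        have h : (x :: a).foldl lcpStep (true, acc, x :: b) =
            a.foldl lcpStep (true, x :: acc, b) := by simp [lcpStep]
        rw [h, ih]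
        simp [lcp]
      · have h : (x :: a).foldl lcpStep (true, acc, y :: b) =
            a.foldl lcpStep (false, acc, y :: b) := by simp [lcpStep, hxy]
        rw [h, lcp_false]
        simp [lcp, hxy]

theorem PT_lcp {a b : ι → List Bool} (ha : PT a) (hb : PT b) : PT (fun i => lcp (a i) (b i)) := by
  have hem : PT (fun v : List Bool => v.isEmpty) :=
    (PT.listCases (l := fun v : List Bool => v) (f := fun _ => true)
      (g := fun _ : List Bool × Bool × List Bool => false) PT.id (PT.const _)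
      (PT.const _)).congr fun v => by cases v <;> rfl
  have hs : PT (fun y : ι × (Bool × List Bool × List Bool) × Bool => y.2.1) := PT.p1 PT.snd
  have hx : PT (fun y : ι × (Bool × List Bool × List Bool) × Bool => y.2.2) := PT.p2 PT.snd
  have hg : PT (fun y : ι × (Bool × List Bool × List Bool) × Bool => lcpStep y.2.1 y.2.2) :=
    PT.cond (PT.band (PT.p1 hs) (PT.band (PT.bnot (hem.comp (PT.p2 (PT.p2 hs))))
        (PT.beq hx (PT.headD (PT.p2 (PT.p2 hs)) (PT.const false)))))
      (PT.pair (PT.const true) (PT.pair (PT.cons hx (PT.p1 (PT.p2 hs))) (PT.tail (PT.p2 (PT.p2 hs)))))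
      (PT.pair (PT.const false) (PT.p2 hs))
  have h := PT.foldl_lin (l := a) (init := fun i => (true, ([] : List Bool), b i))
    (g := fun y : ι × (Bool × List Bool × List Bool) × Bool => lcpStep y.2.1 y.2.2) ha
    (PT.pair (PT.const true) (PT.pair (PT.const []) hb)) hg 10 (by
      intro i s x
      obtain ⟨o, acc, l⟩ := s
      have h1 := tsize_bool_le x
      have h2 := tsize_drop_le l 1
      rw [List.drop_one] at h2
      have h3 : tsize true = 3 := rfl
      have h4 : tsize false = 1 := rfl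
      have h5 := tsize_pos o
      unfold lcpStep
      cases (o && (!l.isEmpty && decide (x = l.headD false)))
      · simp only [cond_false, tsize_pair]
        omega
      · simp only [cond_true, tsize_pair, tsize_cons]
        omega)
  refine (PT.reverse (PT.p1 (PT.p2 h))).congr fun i => ?_
  rw [lcp_run]
  simp

theorem PT_labSatL (k : ℕ) {n : ι → ℕ} {φ : ι → List (List Lit)} {L : ι → List (List Bool × ℕ)}
    {b : ι → List Bool} {c : ι → ℕ} (hn : PT n) (hφ : PT φ) (hL : PT L) (hb : PT b) (hc : PT c) :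
    PT (fun i => labSatL (n i) k (φ i) (L i) (b i) (c i)) := by
  refine PT.any (l := fun _ : ι => List.range k) (PT.const _)
    (p := fun y : ι × ℕ => decide ((look (n y.1) (L y.1) ((b y.1).take y.2),
      (b y.1).getD y.2 false) ∈ (φ y.1).getD (c y.1) [])) ?_
  exact PT_memI (PT.pair (PT_look (hn.comp PT.fst) (hL.comp PT.fst)
      (PT_take PT.snd (hb.comp PT.fst))) (PT.getD (hb.comp PT.fst) PT.snd (PT.const false)))
    (PT.getD (hφ.comp PT.fst) (hc.comp PT.fst) (PT.const []))

theorem PT_agreeL (k : ℕ) {n : ι → ℕ} {L : ι → List (List Bool × ℕ)} {x : ι → ℕ}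
    {e : ι → List (List Bool × Bool)} (hn : PT n) (hL : PT L) (hx : PT x) (he : PT e) :
    PT (fun i => agreeL (n i) k (L i) (x i) (e i)) := by
  refine PT.all (l := fun _ : ι => worlds k) (PT.const _)
    (p := fun y : ι × List Bool => (worlds k).all (fun b' => decide (y.2 = b') ||
      !(decide (x y.1 < look (n y.1) (L y.1) (lcp y.2 b'))) ||
      decide (look true (e y.1) y.2 = look true (e y.1) b'))) ?_
  refine PT.all (l := fun _ : ι × List Bool => worlds k) (PT.const _)
    (p := fun w : (ι × List Bool) × List Bool => decide (w.1.2 = w.2) ||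
      !(decide (x w.1.1 < look (n w.1.1) (L w.1.1) (lcp w.1.2 w.2))) ||
      decide (look true (e w.1.1) w.1.2 = look true (e w.1.1) w.2)) ?_
  have hi : PT (fun w : (ι × List Bool) × List Bool => w.1.1) := PT.p1 PT.fst
  have h1 : PT (fun w : (ι × List Bool) × List Bool => w.1.2) := PT.p2 PT.fst
  have h2 : PT (fun w : (ι × List Bool) × List Bool => w.2) := PT.snd
  exact PT.bor (PT.bor (PT_deq h1 h2) (PT.bnot (PT.nlt (hx.comp hi)
    (PT_look (hn.comp hi) (hL.comp hi) (PT_lcp h1 h2)))))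
    (PT.beq (PT_look (PT.const true) (he.comp hi) h1) (PT_look (PT.const true) (he.comp hi) h2))

theorem PT_varOK (k : ℕ) {n : ι → ℕ} {L : ι → List (List Bool × ℕ)} {x : ι → ℕ} {p : ι → Pat}
    (hn : PT n) (hL : PT L) (hx : PT x) (hp : PT p) :
    PT (fun i => varOK (n i) k (L i) (x i) (p i)) := by
  refine PT.any (l := fun _ : ι => maps (worlds k) [true, false]) (PT.const _)
    (p := fun y : ι × List (List Bool × Bool) => agreeL (n y.1) k (L y.1) (x y.1) y.2 &&
      (p y.1).all (fun z => decide (z.2.2.2 = look true y.2 z.1))) ?_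
  refine PT.band (PT_agreeL k (hn.comp PT.fst) (hL.comp PT.fst) (hx.comp PT.fst) PT.snd) ?_
  exact PT.all (hp.comp PT.fst)
    (p := fun w : (ι × List (List Bool × Bool)) × Tri => decide (w.2.2.2.2 =
      look true w.1.2 w.2.1))
    (PT.beq (PT.p2 (PT.p2 (PT.p2 PT.snd))) (PT_look (PT.const true) (PT.p2 PT.fst) (PT.p1 PT.snd)))

theorem PT_leafOK (k : ℕ) {n : ι → ℕ} {φ : ι → List (List Lit)} {L : ι → List (List Bool × ℕ)}
    {t : ι → Nd} {p : ι → Pat} (hn : PT n) (hφ : PT φ) (hL : PT L) (ht : PT t) (hp : PT p) :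
    PT (fun i => leafOK (n i) k (φ i) (L i) (t i) (p i)) := by
  have hi : PT (fun y : ι × ℕ × List ℕ => y.1) := PT.fst
  have hc : PT (fun y : ι × ℕ × List ℕ => y.2.1) := PT.p1 PT.snd
  have h1 : PT (fun y : ι × ℕ × List ℕ => (p y.1).all (fun z => decide (z.2.1 = y.2.1))) :=
    PT.all (hp.comp hi) (p := fun w : (ι × ℕ × List ℕ) × Tri => decide (w.2.2.1 = w.1.2.1))
      (PT.neq (PT.p1 (PT.p2 PT.snd)) (PT.p1 (PT.p2 PT.fst)))
  have h2 : PT (fun y : ι × ℕ × List ℕ => (worlds k).all (fun b =>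
      labSatL (n y.1) k (φ y.1) (L y.1) b y.2.1 || (p y.1).any (fun z => decide (z.1 = b)))) := by
    refine PT.all (l := fun _ : ι × ℕ × List ℕ => worlds k) (PT.const _)
      (p := fun w : (ι × ℕ × List ℕ) × List Bool =>
        labSatL (n w.1.1) k (φ w.1.1) (L w.1.1) w.2 w.1.2.1 ||
          (p w.1.1).any (fun z => decide (z.1 = w.2))) ?_
    have hi' : PT (fun w : (ι × ℕ × List ℕ) × List Bool => w.1.1) := PT.p1 PT.fst
    refine PT.bor (PT_labSatL k (hn.comp hi') (hφ.comp hi') (hL.comp hi') PT.snd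
      (PT.p1 (PT.p2 PT.fst))) ?_
    exact PT.any (hp.comp hi')
      (p := fun v : ((ι × ℕ × List ℕ) × List Bool) × Tri => decide (v.2.1 = v.1.2))
      (PT_deq (PT.p1 PT.snd) (PT.p2 PT.fst))
  have h0 : PT (fun i : ι => decide (p i = [])) := PT_deq hp (PT.const [])
  refine (PT.listCases (l := fun i => (t i).1) (f := fun i => decide (p i = []))
    (g := fun y : ι × ℕ × List ℕ => (p y.1).all (fun z => decide (z.2.1 = y.2.1)) &&
      (worlds k).all (fun b =>
      labSatL (n y.1) k (φ y.1) (L y.1) b y.2.1 || (p y.1).any (fun z => decide (z.1 = b))))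
    (PT.p1 ht) h0 (PT.band h1 h2)).congr fun i => ?_
  unfold leafOK
  cases (t i).1 <;> rfl

theorem PT_joinOK (k : ℕ) {n : ι → ℕ} {L : ι → List (List Bool × ℕ)} {t t1 t2 : ι → Nd}
    {W : ι → List ℕ} {p p1 p2 : ι → Pat} (hn : PT n) (hL : PT L) (ht : PT t) (hW : PT W)
    (ht1 : PT t1) (ht2 : PT t2) (hp : PT p) (hp1 : PT p1) (hp2 : PT p2) :
    PT (fun i => joinOK (n i) k (L i) (t i) (W i) (t1 i) (t2 i) (p i) (p1 i) (p2 i)) := by
  have hall : PT (fun i => p i ++ p1 i ++ p2 i) := PT.append (PT.append hp hp1) hp2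
  have hz : PT (fun y : ι × Tri => y.2) := PT.snd
  have h1 : PT (fun i => (p i ++ p1 i ++ p2 i).all (fun z =>
      iffB (decide (z ∈ p i)) (cross (t i) z) &&
      iffB (decide (z ∈ p1 i)) (cross (t1 i) z) && iffB (decide (z ∈ p2 i)) (cross (t2 i) z))) :=
    PT.all hall (p := fun y : ι × Tri => iffB (decide (y.2 ∈ p y.1)) (cross (t y.1) y.2) &&
      iffB (decide (y.2 ∈ p1 y.1)) (cross (t1 y.1) y.2) &&
      iffB (decide (y.2 ∈ p2 y.1)) (cross (t2 y.1) y.2))
      (PT.band (PT.band
        (PT.beq (PT_memI hz (hp.comp PT.fst)) (PT_cross (ht.comp PT.fst) hz))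
        (PT.beq (PT_memI hz (hp1.comp PT.fst)) (PT_cross (ht1.comp PT.fst) hz)))
        (PT.beq (PT_memI hz (hp2.comp PT.fst)) (PT_cross (ht2.comp PT.fst) hz)))
  have h2 : PT (fun i => (W i).all (fun w => varOK (n i) k (L i) w
      ((p i ++ p1 i ++ p2 i).filter (fun z => decide (z.2.2.1 = w))))) :=
    PT.all hW (p := fun y : ι × ℕ => varOK (n y.1) k (L y.1) y.2
      ((p y.1 ++ p1 y.1 ++ p2 y.1).filter (fun z => decide (z.2.2.1 = y.2))))
      (PT_varOK k (hn.comp PT.fst) (hL.comp PT.fst) PT.snd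
        (PT.filter (hall.comp PT.fst) (p := fun w : (ι × ℕ) × Tri => decide (w.2.2.2.1 = w.1.2))
          (PT.neq (PT.p1 (PT.p2 (PT.p2 PT.snd))) (PT.p2 PT.fst))))
  exact PT.band h1 h2

lemma sub_ch1 (t : Nd) (sp : List ℕ × List ℕ × List ℕ) :
    (ch1 t sp).1.Sublist t.1 ∧ (ch1 t sp).2.Sublist t.2 :=
  ⟨List.filter_sublist, List.filter_sublist.trans List.filter_sublist⟩

lemma sub_ch2 (t : Nd) (sp : List ℕ × List ℕ × List ℕ) :
    (ch2 t sp).1.Sublist t.1 ∧ (ch2 t sp).2.Sublist t.2 :=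
  ⟨List.filter_sublist, List.filter_sublist.trans List.filter_sublist⟩

lemma tsize_nd_le {s t : Nd} (h : s.1.Sublist t.1 ∧ s.2.Sublist t.2) : tsize s ≤ tsize t := by
  have h1 := tsize_sublist h.1
  have h2 := tsize_sublist h.2
  rw [← Prod.mk.eta (p := s), ← Prod.mk.eta (p := t), tsize_pair, tsize_pair]
  omega

lemma filter_split_length (l : List ℕ) (p : ℕ → Prop) [DecidablePred p] :
    (l.filter (fun c => decide (p c))).length + (l.filter (fun c => decide (¬ p c))).length =
      l.length := by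
  induction l with
  | nil => rfl
  | cons a l ih =>
    by_cases h : p a
    · simp only [List.filter_cons, h, decide_true, if_true, not_true_eq_false, decide_false,
        Bool.false_eq_true, if_false, List.length_cons]
      omega
    · simp only [List.filter_cons, h, decide_false, Bool.false_eq_true, if_false,
        not_false_eq_true, decide_true, if_true, List.length_cons]
      omega

lemma ch_length (t : Nd) (sp : List ℕ × List ℕ × List ℕ) :
    (ch1 t sp).1.length + (ch1 t sp).2.length + ((ch2 t sp).1.length + (ch2 t sp).2.length) ≤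
      t.1.length + t.2.length := by
  have h1 := filter_split_length t.1 (fun c => c ∈ sp.2.1)
  have h2 := filter_split_length (minusL t.2 sp.1) (fun c => c ∈ sp.2.2)
  have h3 : (minusL t.2 sp.1).length ≤ t.2.length := List.filter_sublist.length_le
  unfold ch1 ch2
  simp only
  omega

theorem PT_pats (k : ℕ) {n : ι → ℕ} {φ : ι → List (List Lit)} {L : ι → List (List Bool × ℕ)}
    {U : ι → List Pat} {f : ι → ℕ} {t : ι → Nd} (hn : PT n) (hφ : PT φ) (hL : PT L) (hU : PT U)
    (hf : PT f) (ht : PT t) : PT (fun i => pats (n i) k (φ i) (L i) (U i) (f i) (t i)) := by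
  have hi : PT (fun y : ι × Nd => y.1) := PT.fst
  have hs : PT (fun y : ι × Nd => y.2) := PT.snd
  have hsp : PT (fun y : ι × Nd => split k (φ y.1) y.2) := PT_split k (hφ.comp hi) hs
  have hleaf : PT (fun y : ι × Nd => isLeaf y.2) :=
    PT.nle (PT.nadd (PT.length (PT.p1 hs)) (PT.length (PT.p2 hs))) (PT.const 1)
  have hch : PT (fun y : ι × Nd => (ch1 y.2 (split k (φ y.1) y.2), ch2 y.2 (split k (φ y.1) y.2))) :=
    PT.pair (PT_ch1 hs hsp) (PT_ch2 hs hsp)
  have hbase : PT (fun y : ι × Nd => (U y.1).filter (fun p => leafOK (n y.1) k (φ y.1) (L y.1) y.2 p)) :=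
    PT.filter (hU.comp hi)
      (p := fun w : (ι × Nd) × Pat => leafOK (n w.1.1) k (φ w.1.1) (L w.1.1) w.1.2 w.2)
      (PT_leafOK k (hn.comp (hi.comp PT.fst)) (hφ.comp (hi.comp PT.fst)) (hL.comp (hi.comp PT.fst))
        (hs.comp PT.fst) PT.snd)
  have hcomb : PT (fun y : ι × Nd × List Pat × List Pat => (U y.1).filter (fun p =>
      y.2.2.1.any (fun p1 => y.2.2.2.any (fun p2 =>
      joinOK (n y.1) k (L y.1) y.2.1 (split k (φ y.1) y.2.1).1
        (ch1 y.2.1 (split k (φ y.1) y.2.1)) (ch2 y.2.1 (split k (φ y.1) y.2.1)) p p1 p2)))) := by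
    let Y := ι × Nd × List Pat × List Pat
    refine PT.filter (hU.comp PT.fst) (p := fun w : Y × Pat =>
      w.1.2.2.1.any (fun p1 => w.1.2.2.2.any (fun p2 =>
      joinOK (n w.1.1) k (L w.1.1) w.1.2.1 (split k (φ w.1.1) w.1.2.1).1
        (ch1 w.1.2.1 (split k (φ w.1.1) w.1.2.1)) (ch2 w.1.2.1 (split k (φ w.1.1) w.1.2.1))
        w.2 p1 p2))) ?_
    refine PT.any (PT.p1 (PT.p2 (PT.p2 PT.fst))) (p := fun v : (Y × Pat) × Pat =>
      v.1.1.2.2.2.any (fun p2 =>
      joinOK (n v.1.1.1) k (L v.1.1.1) v.1.1.2.1 (split k (φ v.1.1.1) v.1.1.2.1).1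
        (ch1 v.1.1.2.1 (split k (φ v.1.1.1) v.1.1.2.1))
        (ch2 v.1.1.2.1 (split k (φ v.1.1.1) v.1.1.2.1))
        v.1.2 v.2 p2)) ?_
    refine PT.any (PT.p2 (PT.p2 (PT.p2 (PT.p1 PT.fst)))) (p := fun u : ((Y × Pat) × Pat) × Pat =>
      joinOK (n u.1.1.1.1) k (L u.1.1.1.1) u.1.1.1.2.1 (split k (φ u.1.1.1.1) u.1.1.1.2.1).1
        (ch1 u.1.1.1.2.1 (split k (φ u.1.1.1.1) u.1.1.1.2.1))
        (ch2 u.1.1.1.2.1 (split k (φ u.1.1.1.1) u.1.1.1.2.1))
        u.1.1.2 u.1.2 u.2) ?_
    have gi : PT (fun u : ((Y × Pat) × Pat) × Pat => u.1.1.1.1) := PT.p1 (PT.p1 (PT.p1 PT.fst))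
    have gt : PT (fun u : ((Y × Pat) × Pat) × Pat => u.1.1.1.2.1) :=
      PT.p1 (PT.p2 (PT.p1 (PT.p1 PT.fst)))
    have gsp : PT (fun u : ((Y × Pat) × Pat) × Pat => split k (φ u.1.1.1.1) u.1.1.1.2.1) :=
      PT_split k (hφ.comp gi) gt
    exact PT_joinOK k (hn.comp gi) (hL.comp gi) gt (PT.p1 gsp) (PT_ch1 gt gsp) (PT_ch2 gt gsp)
      (PT.p2 (PT.p1 PT.fst)) (PT.p2 PT.fst) PT.snd
  have hsub : ∀ (x : ι) (q : Pat → Bool), tsize ((U x).filter q) ≤ tsize (U x) := fun x q =>
    tsize_sublist List.filter_sublist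
  exact PT_trec (leaf := fun y : ι × Nd => isLeaf y.2)
    (ch := fun y : ι × Nd => (ch1 y.2 (split k (φ y.1) y.2), ch2 y.2 (split k (φ y.1) y.2)))
    (base := fun y : ι × Nd => (U y.1).filter (fun p => leafOK (n y.1) k (φ y.1) (L y.1) y.2 p))
    (comb := fun y : ι × Nd × List Pat × List Pat => (U y.1).filter (fun p =>
      y.2.2.1.any (fun p1 => y.2.2.2.any (fun p2 =>
      joinOK (n y.1) k (L y.1) y.2.1 (split k (φ y.1) y.2.1).1
        (ch1 y.2.1 (split k (φ y.1) y.2.1)) (ch2 y.2.1 (split k (φ y.1) y.2.1)) p p1 p2))))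
    (z := fun _ => []) (f := f) (s0 := t) (fun t => t.1.length + t.2.length - 1)
    hleaf hch hbase hcomb (PT.const []) hf ht
    (by
      intro x s h
      have h1 : ¬ (s.1.length + s.2.length ≤ 1) := by simpa [isLeaf] using h
      have h2 := ch_length s (split k (φ x) s)
      simp only
      omega)
    (ht.size.of_le fun x => by
      have h1 := length_lt_tsize (t x).1
      have h2 := length_lt_tsize (t x).2
      have h3 : tsize (t x) = tsize (t x).1 + tsize (t x).2 + 1 := by
        rw [← tsize_pair]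
      omega)
    (fun x s => ⟨tsize_nd_le (sub_ch1 _ _), tsize_nd_le (sub_ch2 _ _)⟩)
    (fun x => tsize (U x)) hU.size (fun x => tsize_pos _)
    (fun x s => hsub x _) (fun x s a b => hsub x _)

theorem PT_tris (k : ℕ) {φ : ι → List (List Lit)} {t : ι → Nd} (hφ : PT φ) (ht : PT t) :
    PT (fun i => tris k (φ i) (t i)) := by
  refine PT.flatMap (l := fun _ : ι => worlds k) (PT.const _)
    (g := fun y : ι × List Bool => (t y.1).1.flatMap (fun c =>
      (((φ y.1).getD c []).filter (fun l => decide (l.1 ∈ (t y.1).2))).map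
        (fun l => (y.2, c, l)))) ?_
  refine PT.flatMap (PT.p1 (ht.comp PT.fst)) (g := fun w : (ι × List Bool) × ℕ =>
      (((φ w.1.1).getD w.2 []).filter (fun l => decide (l.1 ∈ (t w.1.1).2))).map
        (fun l => (w.1.2, w.2, l))) ?_
  have hi : PT (fun w : (ι × List Bool) × ℕ => w.1.1) := PT.p1 PT.fst
  refine PT.map (g := fun v : ((ι × List Bool) × ℕ) × Lit => (v.1.1.2, v.1.2, v.2))
    (PT.filter (PT.getD (hφ.comp hi) PT.snd (PT.const []))
      (p := fun v : ((ι × List Bool) × ℕ) × Lit => decide (v.2.1 ∈ (t v.1.1.1).2)) ?_) ?_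
  · exact PT_memI (PT.p1 PT.snd) (PT.p2 (ht.comp (hi.comp PT.fst)))
  · exact PT.pair (PT.p2 (PT.p1 PT.fst)) (PT.pair (PT.p2 PT.fst) PT.snd)

theorem PT_patU (m : ℕ) {T : ι → List Tri} (hT : PT T) : PT (fun i => patU m (T i)) := by
  refine PT.map (PT_tup m hT) (g := fun y : ι × List Tri =>
    (T y.1).filter (fun z => decide (z ∈ y.2))) ?_
  exact PT.filter (hT.comp PT.fst) (p := fun w : (ι × List Tri) × Tri => decide (w.2 ∈ w.1.2))
    (PT_memI PT.snd (PT.p2 PT.fst))

end Pool.Agent.MP_925109_lc
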