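import Mathlib
import Pool.Agent.MP_925109_lc.PTPats
import Pool.Agent.MP_925109_lc.MFSpec
import Pool.Agent.MP_925109_lc.Bin

/-!
The decision procedures are computable in polynomial time.
-/

set_option autoImplicit false

namespace Pool.Agent.MP_925109_lc

open Pool.Agent.Lib.helper60 Function

/-- membership, for an arbitrary decision procedure -/
theorem PT_mem_inst {ι α : Type} [DEnc ι] [DEnc α] [DInj α] [DecidableEq α] {f : ι → α}
    {l : ι → List α} [inst : ∀ x, Decidable (f x ∈ l x)] (hf : PT f) (hl : PT l) :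
    PT (fun x => decide (f x ∈ l x)) :=
  (PT_mem hf hl).congr fun x => by simp only [decide_eq_decide]

theorem PT_exL {ι : Type} [DEnc ι] {q : ι → List Bool} (hq : PT q) : PT (fun i => exL (q i)) :=
  PT.filter (l := fun i => List.range (q i).length)
    (p := fun y : ι × ℕ => (q y.1).getD y.2 false) (PT.range (PT.length hq))
    (PT.getD (hq.comp PT.fst) PT.snd (PT.const false))

theorem PT_univL {ι : Type} [DEnc ι] {q : ι → List Bool} (hq : PT q) : PT (fun i => univL (q i)) :=
  PT.filter (l := fun i => List.range (q i).length)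
    (p := fun y : ι × ℕ => !((q y.1).getD y.2 false)) (PT.range (PT.length hq))
    (PT.bnot (PT.getD (hq.comp PT.fst) PT.snd (PT.const false)))

theorem PT_rootL {ι : Type} [DEnc ι] (k : ℕ) {q : ι → List Bool} {φ : ι → List (List Lit)}
    {E : ι → List ℕ} (hq : PT q) (hφ : PT φ) (hE : PT E) :
    PT (fun i => rootL k (q i) (φ i) (E i)) := by
  have h1 := PT_leanL k hφ hE (PT_exL hq)
  exact PT.pair h1 (PT_vsL hφ (PT_exL hq) h1)

theorem PT_truthL {ι : Type} [DEnc ι] (k : ℕ) {q : ι → List Bool} {φ : ι → List (List Lit)}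
    {E : ι → List ℕ} (hq : PT q) (hφ : PT φ) (hE : PT E) :
    PT (fun i => truthL k (q i) (φ i) (E i)) := by
  have hroot := PT_rootL k hq hφ hE
  have hU : PT (fun i => patU (pbound k) (tris k (φ i) (rootL k (q i) (φ i) (E i)))) :=
    PT_patU (pbound k) (PT_tris k hφ hroot)
  have hf : PT (fun i => (rootL k (q i) (φ i) (E i)).1.length +
      (rootL k (q i) (φ i) (E i)).2.length + 1) :=
    PT.nsucc (PT.nadd (PT.length hroot.p1) (PT.length hroot.p2))
  have hL : PT (fun i => maps (prefs k) ((q i).length :: univL (q i))) :=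
    PT_maps (prefs k) (PT.cons (PT.length hq) (PT_univL hq))
  have F : PT (fun y : ι × List (List Bool × ℕ) => y.1) := PT.fst
  have hpats := PT_pats k (n := fun y : ι × List (List Bool × ℕ) => (q y.1).length)
    (φ := fun y => φ y.1) (L := fun y => y.2)
    (U := fun y => patU (pbound k) (tris k (φ y.1) (rootL k (q y.1) (φ y.1) (E y.1))))
    (f := fun y => (rootL k (q y.1) (φ y.1) (E y.1)).1.length +
      (rootL k (q y.1) (φ y.1) (E y.1)).2.length + 1)
    (t := fun y => rootL k (q y.1) (φ y.1) (E y.1))
    (PT.length (hq.comp F)) (hφ.comp F) PT.snd (hU.comp F) (hf.comp F) (hroot.comp F)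
  exact PT.any hL (PT_mem_inst (PT.const ([] : Pat)) hpats)

theorem PT_mfL {ι : Type} [DEnc ι] (k : ℕ) {q : ι → List Bool} {φ : ι → List (List Lit)}
    (hq : PT q) (hφ : PT φ) : PT (fun i => mfL k (q i) (φ i)) := by
  have hR : PT (fun i => List.range (φ i).length) := PT.range (PT.length hφ)
  have h1 : PT (fun i => decide (nuL (φ i) (List.range (φ i).length) (exL (q i)) ≤ k)) :=
    PT.nle (PT_nuL hφ hR (PT_exL hq)) (PT.const k)
  have h2 : PT (fun i => decide ((φ i).length =
      (vsL (φ i) (exL (q i)) (List.range (φ i).length)).length + k)) :=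
    PT.neq (PT.length hφ) (PT.nadd (PT.length (PT_vsL hφ (PT_exL hq) hR)) (PT.const k))
  have h3 : PT (fun i => !(truthL k (q i) (φ i) (List.range (φ i).length))) :=
    PT.bnot (PT_truthL k hq hφ hR)
  have F : PT (fun y : ι × ℕ => y.1) := PT.fst
  have h4 : PT (fun i => (List.range (φ i).length).all (fun c =>
      truthL k (q i) (φ i) (minusL (List.range (φ i).length) [c]))) :=
    PT.all hR (p := fun y : ι × ℕ =>
      truthL k (q y.1) (φ y.1) (minusL (List.range (φ y.1).length) [y.2]))
      (PT_truthL k (hq.comp F) (hφ.comp F) (PT_minusL (hR.comp F) (PT.cons PT.snd (PT.const []))))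
  exact PT.band (PT.band (PT.band h1 h2) h3) h4

theorem PT_sameL {ι : Type} [DEnc ι] {c d : ι → List Lit} (hc : PT c) (hd : PT d) :
    PT (fun i => sameL (c i) (d i)) :=
  PT.band (PT.all hc (p := fun y : ι × Lit => decide (y.2 ∈ d y.1))
      (PT_mem_inst PT.snd (hd.comp PT.fst)))
    (PT.all hd (p := fun y : ι × Lit => decide (y.2 ∈ c y.1))
      (PT_mem_inst PT.snd (hc.comp PT.fst)))

theorem PT_dedupS {ι : Type} [DEnc ι] {φ : ι → List (List Lit)} (hφ : PT φ) :
    PT (fun i => dedupS (φ i)) := by
  have hg : PT (fun y : ι × List (List Lit) × List Lit =>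
      bif y.2.1.any (fun d => sameL y.2.2 d) then y.2.1 else y.2.2 :: y.2.1) := by
    have s : PT (fun y : ι × List (List Lit) × List Lit => y.2.1) := PT.snd.p1
    have b : PT (fun y : ι × List (List Lit) × List Lit => y.2.2) := PT.snd.p2
    exact PT.cond (PT.any s (p := fun z : (ι × List (List Lit) × List Lit) × List Lit =>
      sameL z.1.2.2 z.2) (PT_sameL (b.comp PT.fst) PT.snd)) s (PT.cons b s)
  refine PT.foldl (init := fun _ => ([] : List (List Lit))) hφ (PT.const _) hg
    ⟨fun i => tsize (φ i), hφ.size, ?_⟩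
  intro x l₁ l₂ h
  have key : ∀ (u s : List (List Lit)), tsize (u.foldl (fun s b =>
      bif s.any (fun d => sameL b d) then s else b :: s) s) + 1 ≤ tsize s + tsize u := by
    intro u
    induction u with
    | nil => intro s; simp
    | cons b u ih =>
      intro s
      rw [List.foldl_cons]
      refine (ih _).trans ?_
      cases s.any (fun d => sameL b d)
      · simp only [cond_false, tsize_cons]
        omega
      · simp only [cond_true, tsize_cons]
        omega
  have h1 := key l₁ []
  have h2 := tsize_append l₁ l₂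
  rw [h] at h2
  have h3 := tsize_pos l₂
  simp only [tsize_nil] at h1
  show tsize (l₁.foldl (fun s b => bif s.any (fun d => sameL b d) then s else b :: s) []) ≤
    tsize (φ x)
  omega

theorem PT_wfL {ι : Type} [DEnc ι] {q : ι → List Bool} {φ : ι → List (List Lit)} (hq : PT q)
    (hφ : PT φ) : PT (fun i => wfL (q i) (φ i)) := by
  refine PT.all hφ (p := fun y : ι × List Lit => y.2.all (fun l => decide (l.1 < (q y.1).length))) ?_
  exact PT.all (ι := ι × List Lit) (l := fun y => y.2) PT.snd
    (p := fun z : (ι × List Lit) × Lit => decide (z.2.1 < (q z.1.1).length))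
    (PT.nlt PT.snd.p1 (PT.length (hq.comp (PT.fst.comp PT.fst))))

/-- the list of clauses read from a word -/
def readOf (w : List Bool) : List (List Lit) := parseB (unpair w).1.length (unpair w).2

theorem PT_readOf : PT readOf := PT_parseB (PT.length PT_unpair.p1) PT_unpair.p2

/-- the word is a code -/
def isCode (w : List Bool) : Bool :=
  decide (encPair ((unpair w).1, encB (readOf w)) = w) && wfL (unpair w).1 (readOf w)

theorem PT_encPair {ι : Type} [DEnc ι] {a b : ι → List Bool} (ha : PT a) (hb : PT b) :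
    PT (fun i => encPair (a i, b i)) := by
  have h1 : PT (fun i => (a i).flatMap (fun x => [x, x])) :=
    PT.flatMap ha (g := fun y : ι × Bool => [y.2, y.2])
      (PT.cons PT.snd (PT.cons PT.snd (PT.const [])))
  exact PT.append h1 (PT.append (PT.const [false, true]) hb)

theorem PT_isCode : PT isCode := by
  have h1 : PT (fun w : List Bool => (unpair w).1) := PT_unpair.p1
  exact PT.band (PT_deq (PT_encPair h1 (PT_encB PT_readOf)) PT.id) (PT_wfL h1 PT_readOf)

/-- the formula coded by the word -/
def preOf (w : List Bool) : List Bool := (unpair w).1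

def matOf (w : List Bool) : List (List Lit) := dedupS (readOf w)

theorem PT_preOf : PT preOf := PT_unpair.p1

theorem PT_matOf : PT matOf := PT_dedupS PT_readOf

lemma wfL_iff (q : List Bool) (φ : List (List Lit)) :
    wfL q φ = true ↔ ∀ c ∈ φ, ∀ l ∈ c, l.1 < q.length := by
  simp [wfL]

lemma closed_of_mat {Φ : QCNF} {φ : List (List Lit)} (h : Φ.mat = (φ.map List.toFinset).toFinset) :
    ∀ c ∈ φ, ∀ l ∈ c, l.1 < Φ.pre.length := by
  intro c hc l hl
  refine Φ.closed c.toFinset ?_ l (by simpa using hl)
  rw [h, List.mem_toFinset, List.mem_map]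
  exact ⟨c, hc, rfl⟩

lemma readOf_enc {Φ : QCNF} {φ : List (List Lit)} (h : Φ.mat = (φ.map List.toFinset).toFinset) :
    readOf (encPair (Φ.pre, encB φ)) = φ := by
  unfold readOf
  rw [unpair_enc]
  exact parseB_enc _ φ (fun c hc l hl => (closed_of_mat h c hc l hl).le)

/-- words that are codes -/
theorem isCode_iff (w : List Bool) : isCode w = true ↔ ∃ Φ : QCNF, Codes w Φ := by
  unfold isCode
  rw [Bool.and_eq_true, decide_eq_true_eq, wfL_iff]
  constructor
  · rintro ⟨h1, h2⟩
    exact ⟨toQ (unpair w).1 (readOf w) h2, readOf w, h1.symm, rfl⟩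
  · rintro ⟨Φ, φ, rfl, hφ⟩
    rw [readOf_enc hφ, unpair_enc]
    exact ⟨rfl, closed_of_mat hφ⟩

theorem matOf_closed (w : List Bool) (h : isCode w = true) :
    ∀ c ∈ matOf w, ∀ l ∈ c, l.1 < (preOf w).length := by
  unfold isCode at h
  rw [Bool.and_eq_true, wfL_iff] at h
  intro c hc l hl
  exact h.2 c (dedupS_subset _ c hc) l hl

/-- the formula with a given code -/
theorem codes_iff (w : List Bool) (h : isCode w = true) (Φ : QCNF) :
    Codes w Φ ↔ Φ = toQ (preOf w) (matOf w) (matOf_closed w h) := by
  have hext : ∀ Φ Ψ : QCNF, Φ.pre = Ψ.pre → Φ.mat = Ψ.mat → Φ = Ψ := by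
    rintro ⟨p, m, c⟩ ⟨p', m', c'⟩ h1 h2
    simp only at h1 h2
    subst h1
    subst h2
    rfl
  constructor
  · rintro ⟨φ, rfl, hφ⟩
    have e1 : preOf (encPair (Φ.pre, encB φ)) = Φ.pre := by
      unfold preOf
      rw [unpair_enc]
    have e2 : matOf (encPair (Φ.pre, encB φ)) = dedupS φ := by
      unfold matOf
      rw [readOf_enc hφ]
    apply hext
    · exact e1.symm
    · show Φ.mat = ((matOf (encPair (Φ.pre, encB φ))).map List.toFinset).toFinset
      rw [e2, dedupS_toFinset, hφ]
  · rintro rfl
    have h' := h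
    unfold isCode at h'
    rw [Bool.and_eq_true, decide_eq_true_eq] at h'
    refine ⟨readOf w, h'.1.symm, ?_⟩
    show ((matOf w).map List.toFinset).toFinset = _
    unfold matOf
    rw [dedupS_toFinset]

end Pool.Agent.MP_925109_lc
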