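import Mathlib
import Pool.Agent.MP_925109_lc.PTFinal

/-!
The final theorems.
-/

set_option autoImplicit false

namespace Pool.Agent.MP_925109_lc

open Pool.Agent.Lib.helper60 Function

/-- a property of formulas decided on codes -/
lemma codes_exists_iff (w : List Bool) (P : QCNF → Prop) :
    (∃ Φ, Codes w Φ ∧ P Φ) ↔ ∃ h : isCode w = true,
      P (toQ (preOf w) (matOf w) (matOf_closed w h)) := by
  constructor
  · rintro ⟨Φ, h1, h2⟩
    have h := (isCode_iff w).2 ⟨Φ, h1⟩
    refine ⟨h, ?_⟩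
    rwa [← (codes_iff w h Φ).1 h1]
  · rintro ⟨h, h1⟩
    exact ⟨_, (codes_iff w h _).2 rfl, h1⟩

lemma inP_of_PT {L : Set (List Bool)} {d : List Bool → Bool} (hd : PT d)
    (h : ∀ w, w ∈ L ↔ d w = true) : InP L :=
  ⟨d, PT.decider (F := d) hd (fun _ => rfl), h⟩

lemma matOf_distinct (w : List Bool) : Distinct (matOf w) := dedupS_distinct _

/-- **Recognition of minimal false formulas of fixed deficiency.** -/
theorem mf_inP (k : ℕ) :
    InP {w | ∃ Φ : QCNF, Codes w Φ ∧ Φ.MinimalFalse ∧ Φ.deficiency = k} := by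
  refine inP_of_PT (d := fun w => isCode w && mfL k (preOf w) (matOf w))
    (PT.band PT_isCode (PT_mfL k PT_preOf PT_matOf)) ?_
  intro w
  rw [Set.mem_ofPred_eq, codes_exists_iff w (fun Φ => Φ.MinimalFalse ∧ Φ.deficiency = k),
    Bool.and_eq_true]
  constructor
  · rintro ⟨h, h1, h2⟩
    refine ⟨h, (mfL_spec k _ _ (matOf_closed w h)).2 ?_⟩
    rw [toQ_mf _ _ _ (matOf_distinct w)] at h1
    rw [toQ_def _ _ _ (matOf_distinct w)] at h2
    exact ⟨h1.1, h1.2, h2⟩
  · rintro ⟨h, h1⟩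
    obtain ⟨h2, h3, h4⟩ := (mfL_spec k _ _ (matOf_closed w h)).1 h1
    refine ⟨h, ?_, ?_⟩
    · rw [toQ_mf _ _ _ (matOf_distinct w)]
      exact ⟨h2, h3⟩
    · rw [toQ_def _ _ _ (matOf_distinct w)]
      exact h4

/-- every variable occurs -/
def allOccL (q : List Bool) (φ : List (List Lit)) : Bool :=
  (List.range q.length).all (fun x => (List.range φ.length).any (fun c => occL φ c x))

lemma PT_allOccL {ι : Type} [DEnc ι] {q : ι → List Bool} {φ : ι → List (List Lit)} (hq : PT q)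
    (hφ : PT φ) : PT (fun i => allOccL (q i) (φ i)) := by
  unfold allOccL
  refine PT.all (p := fun y : ι × ℕ => (List.range (φ y.1).length).any
    (fun c => occL (φ y.1) c y.2)) (PT.range (PT.length hq)) ?_
  refine PT.any (p := fun z : (ι × ℕ) × ℕ => occL (φ z.1.1) z.2 z.1.2)
    (PT.range (PT.length (hφ.comp PT.fst))) ?_
  exact PT_occL (hφ.comp (PT.fst.comp PT.fst)) PT.snd (PT.snd.comp PT.fst)

theorem mf_allOccur_inP (k : ℕ) :
    InP {w | ∃ Φ : QCNF, Codes w Φ ∧ Φ.AllOccur ∧ Φ.MinimalFalse ∧ Φ.prefixDeficiency = k} := by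
  refine inP_of_PT (d := fun w => isCode w && (allOccL (preOf w) (matOf w) &&
    mfL k (preOf w) (matOf w)))
    (PT.band PT_isCode (PT.band (PT_allOccL PT_preOf PT_matOf) (PT_mfL k PT_preOf PT_matOf))) ?_
  intro w
  rw [Set.mem_ofPred_eq, codes_exists_iff w
    (fun Φ => Φ.AllOccur ∧ Φ.MinimalFalse ∧ Φ.prefixDeficiency = k), Bool.and_eq_true,
    Bool.and_eq_true]
  have hocc : ∀ h : isCode w = true, (toQ (preOf w) (matOf w) (matOf_closed w h)).AllOccur ↔
      allOccL (preOf w) (matOf w) = true := by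
    intro h
    rw [toQ_allOccur]
    simp only [allOccL, List.all_eq_true, List.mem_range, List.any_eq_true, occL_iff]
  constructor
  · rintro ⟨h, h0, h1, h2⟩
    refine ⟨h, (hocc h).1 h0, (mfL_spec k _ _ (matOf_closed w h)).2 ?_⟩
    rw [allOccur_prefixDeficiency _ h0, toQ_def _ _ _ (matOf_distinct w)] at h2
    rw [toQ_mf _ _ _ (matOf_distinct w)] at h1
    exact ⟨h1.1, h1.2, h2⟩
  · rintro ⟨h, h0, h1⟩
    obtain ⟨h2, h3, h4⟩ := (mfL_spec k _ _ (matOf_closed w h)).1 h1
    refine ⟨h, (hocc h).2 h0, ?_, ?_⟩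
    · rw [toQ_mf _ _ _ (matOf_distinct w)]
      exact ⟨h2, h3⟩
    · rw [allOccur_prefixDeficiency _ ((hocc h).2 h0), toQ_def _ _ _ (matOf_distinct w)]
      exact h4

/-- **Truth of formulas of bounded maximal deficiency.** -/
theorem truth_inP (k : ℕ) :
    InP {w | ∃ Φ : QCNF, Codes w Φ ∧ (∀ S ⊆ Φ.mat, Φ.defOf S ≤ k) ∧ Φ.IsTrue} := by
  refine inP_of_PT (d := fun w => isCode w &&
    (decide (nuL (matOf w) (List.range (matOf w).length) (exL (preOf w)) ≤ k) &&
      truthL k (preOf w) (matOf w) (List.range (matOf w).length)))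
    (PT.band PT_isCode (PT.band (PT.nle (PT_nuL PT_matOf (PT.range (PT.length PT_matOf))
      (PT_exL PT_preOf)) (PT.const k))
      (PT_truthL k PT_preOf PT_matOf (PT.range (PT.length PT_matOf))))) ?_
  intro w
  rw [Set.mem_ofPred_eq, codes_exists_iff w
    (fun Φ => (∀ S ⊆ Φ.mat, Φ.defOf S ≤ k) ∧ Φ.IsTrue), Bool.and_eq_true, Bool.and_eq_true,
    decide_eq_true_eq]
  have hE : (List.range (matOf w).length).Nodup := List.nodup_range
  have hR : (List.range (matOf w).length).toFinset = Finset.range (matOf w).length := by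
    ext x; simp
  have hν := nuL_le_iff (matOf w) (List.range (matOf w).length) (exL (preOf w)) hE
    (exL_nodup _) k
  rw [exL_toFinset, hR] at hν
  constructor
  · rintro ⟨h, h1, h2⟩
    rw [toQ_nu _ _ _ (matOf_distinct w)] at h1
    rw [toQ_true] at h2
    exact ⟨h, hν.2 h1, (truthL_spec k _ _ _ hE (matOf_closed w h) (by rwa [hR])).2 (by rwa [hR])⟩
  · rintro ⟨h, h1, h2⟩
    have h3 := hν.1 h1
    have h4 := (truthL_spec k _ _ _ hE (matOf_closed w h) (by rwa [hR])).1 h2
    rw [hR] at h4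
    refine ⟨h, ?_, ?_⟩
    · rw [toQ_nu _ _ _ (matOf_distinct w)]
      exact h3
    · rw [toQ_true]
      exact h4

end Pool.Agent.MP_925109_lc
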